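import Mathlib

set_option autoImplicit false

open Finset
open scoped Pointwise

namespace Pool.Agent.Helper816.Growth

variable {G : Type*} [AddCommGroup G] [Fintype G] [DecidableEq G]

/-- A set is a fragment candidate for `A` if it is nonempty and its sum with `A` is not everything. -/
def Cand (A X : Finset G) : Prop := X.Nonempty ∧ X + A ≠ univ

omit [Fintype G] in
lemma card_le_sum {A X : Finset G} (h0 : (0 : G) ∈ A) : X.card ≤ (X + A).card := by
  apply Finset.card_le_card
  intro x hx
  exact Finset.mem_add.2 ⟨x, hx, 0, h0, by simp⟩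

lemma cand_dual {A X : Finset G} (h : Cand A X) :
    Cand (-A) (univ \ (X + A)) ∧
      ((univ \ (X + A)) + (-A)).card + X.card ≤ Fintype.card G := by
  obtain ⟨⟨x, hx⟩, hne⟩ := h
  have hsub : (univ \ (X + A)) + (-A) ⊆ univ \ X := by
    intro z hz
    obtain ⟨y, hy, a, ha, rfl⟩ := Finset.mem_add.1 hz
    simp only [Finset.mem_sdiff, Finset.mem_univ, true_and]
    simp only [Finset.mem_sdiff, Finset.mem_univ, true_and] at hy
    intro hyx
    apply hy
    refine Finset.mem_add.2 ⟨y + a, hyx, -a, ?_, by abel⟩
    simpa using ha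
  have hcard : ((univ \ (X + A)) + (-A)).card + X.card ≤ Fintype.card G := by
    have h1 := Finset.card_le_card hsub
    have h2 : (univ \ X).card + X.card = Fintype.card G := by
      rw [Finset.card_sdiff_add_card_eq_card (Finset.subset_univ X), Finset.card_univ]
    omega
  refine ⟨⟨?_, ?_⟩, hcard⟩
  · rw [Finset.nonempty_iff_ne_empty]
    intro hem
    apply hne
    rw [Finset.sdiff_eq_empty_iff_subset] at hem
    exact Finset.univ_subset_iff.1 hem
  · intro heq
    have : X.card = 0 := by
      rw [heq, Finset.card_univ] at hcard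
      omega
    rw [Finset.card_eq_zero] at this
    rw [this] at hx
    exact absurd hx (Finset.notMem_empty x)

/-- Core: an optimal fragment which is smallest (also against the dual side) gives the bound. -/
lemma core {A : Finset G} (h0 : (0 : G) ∈ A)
    (hgen : AddSubgroup.closure (A : Set G) = ⊤) {F : Finset G} (hF : Cand A F) (κ : ℕ)
    (hκ : (F + A).card = F.card + κ)
    (hmin : ∀ X : Finset G, Cand A X → X.card + κ ≤ (X + A).card)
    (hatom : ∀ X : Finset G, Cand A X → (X + A).card = X.card + κ → F.card ≤ X.card)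
    (hdual : F.card ≤ (univ \ (F + A)).card) :
    A.card ≤ 2 * κ := by
  classical
  -- translates are equal or disjoint
  have key : ∀ t : G, (F ∩ (F + {t})).Nonempty → F + {t} = F := by
    intro t ht
    set F' := F + {t} with hF'
    have hF'card : F'.card = F.card := by
      rw [hF', Finset.card_add_singleton]
    have hF'A : (F' + A).card = (F + A).card := by
      have : F' + A = (F + A) + {t} := by
        rw [hF', add_assoc, add_comm {t} A, ← add_assoc]
      rw [this, Finset.card_add_singleton]
    set X := F ∩ F' with hX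
    have hXA : X + A ⊆ (F + A) ∩ (F' + A) := Finset.inter_add_subset
    have hXcand : Cand A X := by
      refine ⟨ht, ?_⟩
      intro h
      apply hF.2
      apply Finset.univ_subset_iff.1
      rw [← h]
      exact hXA.trans Finset.inter_subset_left
    have hU : (F ∪ F') + A = (F + A) ∪ (F' + A) := Finset.union_add
    have hsub : (X + A).card + ((F ∪ F') + A).card ≤ (F + A).card + (F' + A).card := by
      have h1 := Finset.card_le_card hXA
      have h2 := Finset.card_union_add_card_inter (F + A) (F' + A)
      rw [hU]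
      omega
    have hcards : X.card + (F ∪ F').card = F.card + F'.card := by
      have := Finset.card_union_add_card_inter F F'
      rw [hX]
      omega
    have hXlow := hmin X hXcand
    by_cases hun : (F ∪ F') + A = univ
    · exfalso
      rw [hun, Finset.card_univ] at hsub
      have h3 : (univ \ (F + A)).card + (F + A).card = Fintype.card G := by
        rw [Finset.card_sdiff_add_card_eq_card (Finset.subset_univ _), Finset.card_univ]
      have hXpos : 0 < X.card := Finset.card_pos.2 ht
      omega
    · have hUc : Cand A (F ∪ F') := ⟨hF.1.mono Finset.subset_union_left, hun⟩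
      have h4 := hmin _ hUc
      have h5 : (X + A).card = X.card + κ := by omega
      have h6 := hatom X hXcand h5
      have h7 : X = F := Finset.eq_of_subset_of_card_le Finset.inter_subset_left h6
      have h8 : F ⊆ F' := by
        rw [← h7]
        exact Finset.inter_subset_right
      exact (Finset.eq_of_subset_of_card_le h8 (by omega)).symm
  obtain ⟨f0, hf0⟩ := hF.1
  -- the translate containing 0 is closed under subtraction
  have hclosed : ∀ x ∈ F, ∀ y ∈ F, y - x + f0 ∈ F := by
    intro x hx y hy
    have h1 : (F ∩ (F + {f0 - x})).Nonempty := by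
      refine ⟨f0, Finset.mem_inter.2 ⟨hf0, ?_⟩⟩
      rw [Finset.mem_add]
      exact ⟨x, hx, f0 - x, by simp, by abel⟩
    have h2 := key _ h1
    rw [← h2, Finset.mem_add]
    exact ⟨y, hy, f0 - x, by simp, by abel⟩
  let K : AddSubgroup G :=
    { carrier := {x | x + f0 ∈ F}
      zero_mem' := by simpa using hf0
      add_mem' := by
        intro a b ha hb
        simp only [Set.mem_ofPred_eq] at ha hb ⊢
        have h1 := hclosed _ hb _ hf0
        have h2 := hclosed _ h1 _ ha
        have h3 : a + f0 - (f0 - (b + f0) + f0) + f0 = a + b + f0 := by abel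
        rw [h3] at h2
        exact h2
      neg_mem' := by
        intro a ha
        simp only [Set.mem_ofPred_eq] at ha ⊢
        have h1 := hclosed _ ha _ hf0
        have h3 : f0 - (a + f0) + f0 = -a + f0 := by abel
        rw [h3] at h1
        exact h1 }
  have hKmem : ∀ x : G, x ∈ K ↔ x + f0 ∈ F := fun x => Iff.rfl
  have hnot : ¬ (∀ a ∈ A, a ∈ K) := by
    intro hall
    have h1 : AddSubgroup.closure (A : Set G) ≤ K := (AddSubgroup.closure_le K).2 hall
    rw [hgen] at h1
    apply hF.2
    apply Finset.univ_subset_iff.1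
    intro x _
    have h2 : x - f0 ∈ K := h1 (AddSubgroup.mem_top _)
    rw [hKmem] at h2
    have h3 : x ∈ F := by simpa using h2
    exact Finset.mem_add.2 ⟨x, h3, 0, h0, by simp⟩
  push Not at hnot
  obtain ⟨a, haA, haK⟩ := hnot
  have h2F : 2 * F.card ≤ (F + A).card := by
    have h1 : F ∪ (F + {a}) ⊆ F + A := by
      intro x hx
      rcases Finset.mem_union.1 hx with hx | hx
      · exact Finset.mem_add.2 ⟨x, hx, 0, h0, by simp⟩
      · obtain ⟨y, hy, z, hz, rfl⟩ := Finset.mem_add.1 hx
        rw [Finset.mem_singleton] at hz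
        subst hz
        exact Finset.mem_add.2 ⟨y, hy, z, haA, rfl⟩
    have h2 : Disjoint F (F + {a}) := by
      rw [Finset.disjoint_left]
      intro x hx hx'
      obtain ⟨y, hy, z, hz, hyz⟩ := Finset.mem_add.1 hx'
      rw [Finset.mem_singleton] at hz
      subst hz
      apply haK
      rw [hKmem]
      have h3 := hclosed _ hy _ hx
      rw [← hyz] at h3
      have h4 : y + z - y + f0 = z + f0 := by abel
      rw [h4] at h3
      exact h3
    have h3 := Finset.card_le_card h1
    rw [Finset.card_union_of_disjoint h2] at h3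
    have h4 : (F + {a}).card = F.card := Finset.card_add_singleton F a
    omega
  have hA : A.card ≤ (F + A).card := Finset.card_le_card_add_left hF.1
  omega

theorem growth {A : Finset G} (h0 : (0 : G) ∈ A)
    (hgen : AddSubgroup.closure (A : Set G) = ⊤) {X : Finset G} (hX : X.Nonempty)
    (hne : X + A ≠ univ) : 2 * X.card + A.card ≤ 2 * (X + A).card := by
  classical
  -- all candidates for A and -A
  let sgn : Bool → Finset G := fun b => if b then A else -A
  let S : Finset (Bool × Finset G) := univ.filter (fun q => Cand (sgn q.1) q.2)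
  let f : Bool × Finset G → ℕ := fun q =>
    ((q.2 + sgn q.1).card - q.2.card) * (Fintype.card G + 1) + q.2.card
  have hS : S.Nonempty :=
    ⟨(true, X), Finset.mem_filter.2 ⟨Finset.mem_univ _, hX, by simpa [sgn] using hne⟩⟩
  obtain ⟨⟨b, F⟩, hbF, hminf⟩ := Finset.exists_min_image S f hS
  have hcard : ∀ Y : Finset G, Y.card ≤ Fintype.card G := fun Y => Finset.card_le_univ Y
  have hsgn0 : ∀ b : Bool, (0 : G) ∈ sgn b := by
    intro b
    cases b <;> simp [sgn, h0]
  have hsgngen : ∀ b : Bool, AddSubgroup.closure (sgn b : Set G) = ⊤ := by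
    intro b
    cases b
    · simp only [sgn, Bool.false_eq_true, if_false, Finset.coe_neg]
      rw [AddSubgroup.closure_neg]
      exact hgen
    · simpa [sgn] using hgen
  have hsgncard : ∀ b : Bool, (sgn b).card = A.card := by
    intro b
    cases b <;> simp [sgn]
  have hsgnneg : ∀ b : Bool, -(sgn b) = sgn (!b) := by
    intro b
    cases b <;> simp [sgn]
  have hFc : Cand (sgn b) F := (Finset.mem_filter.1 hbF).2
  set κ := (F + sgn b).card - F.card with hκdef
  have hFle : F.card ≤ (F + sgn b).card := card_le_sum (hsgn0 b)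
  have hκ : (F + sgn b).card = F.card + κ := by omega
  have hminall : ∀ (c : Bool) (Y : Finset G), Cand (sgn c) Y →
      κ * (Fintype.card G + 1) + F.card ≤
        ((Y + sgn c).card - Y.card) * (Fintype.card G + 1) + Y.card := by
    intro c Y hY
    exact hminf (c, Y) (Finset.mem_filter.2 ⟨Finset.mem_univ _, hY⟩)
  have hminκ : ∀ (c : Bool) (Y : Finset G), Cand (sgn c) Y → Y.card + κ ≤ (Y + sgn c).card := by
    intro c Y hY
    have h1 := hminall c Y hY
    have h2 : Y.card ≤ (Y + sgn c).card := card_le_sum (hsgn0 c)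
    by_contra hcon
    push Not at hcon
    have h3 : (Y + sgn c).card - Y.card + 1 ≤ κ := by omega
    have h4 : ((Y + sgn c).card - Y.card + 1) * (Fintype.card G + 1) ≤ κ * (Fintype.card G + 1) :=
      Nat.mul_le_mul_right _ h3
    have h5 := hcard Y
    nlinarith
  have hatomall : ∀ (c : Bool) (Y : Finset G), Cand (sgn c) Y →
      (Y + sgn c).card ≤ Y.card + κ → F.card ≤ Y.card := by
    intro c Y hY hle
    have h1 := hminall c Y hY
    have h2 := hminκ c Y hY
    have h3 : (Y + sgn c).card - Y.card = κ := by omega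
    rw [h3] at h1
    omega
  have hres := core (A := sgn b) (hsgn0 b) (hsgngen b) hFc κ hκ (hminκ b)
    (fun Y hY h => hatomall b Y hY (le_of_eq h)) (by
      obtain ⟨hc, hcc⟩ := cand_dual hFc
      rw [hsgnneg] at hc hcc
      apply hatomall (!b) _ hc
      have h3 : (univ \ (F + sgn b)).card + (F + sgn b).card = Fintype.card G := by
        rw [Finset.card_sdiff_add_card_eq_card (Finset.subset_univ _), Finset.card_univ]
      omega)
  rw [hsgncard] at hres
  have hfin := hminκ true X ⟨hX, by simpa [sgn] using hne⟩
  have h9 : sgn true = A := by simp [sgn]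
  rw [h9] at hfin
  omega

/-- Iterated sumsets. -/
def Sj (A : Finset G) : ℕ → Finset G
  | 0 => {0}
  | j + 1 => Sj A j + A

omit [Fintype G] in
lemma Sj_nonempty {A : Finset G} (h0 : (0 : G) ∈ A) (j : ℕ) : (Sj A j).Nonempty := by
  induction j with
  | zero => exact ⟨0, by simp [Sj]⟩
  | succ j ih => exact ih.add ⟨0, h0⟩

omit [Fintype G] in
lemma Sj_mono {A : Finset G} (h0 : (0 : G) ∈ A) {i j : ℕ} (h : i ≤ j) : Sj A i ⊆ Sj A j := by
  induction j, h using Nat.le_induction with
  | base => exact Finset.Subset.refl _
  | succ j _ ih =>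
    refine ih.trans ?_
    intro x hx
    exact Finset.mem_add.2 ⟨x, hx, 0, h0, by simp⟩

omit [Fintype G] in
lemma Sj_one (A : Finset G) : Sj A 1 = A := by
  show ({0} : Finset G) + A = A
  ext x
  simp [Finset.mem_add]

lemma step {A : Finset G} (h0 : (0 : G) ∈ A)
    (hgen : AddSubgroup.closure (A : Set G) = ⊤) (j : ℕ) :
    A.card * (Fintype.card G - (Sj A (j + 1)).card) + (Fintype.card G - (Sj A (j + 1)).card) ^ 2
      ≤ (Fintype.card G - (Sj A j).card) ^ 2 := by
  by_cases h : Sj A j + A = univ
  · have h1 : Fintype.card G - (Sj A (j + 1)).card = 0 := by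
      show Fintype.card G - (Sj A j + A).card = 0
      rw [h, Finset.card_univ, Nat.sub_self]
    rw [h1]
    simp
  · have h1 := growth h0 hgen (Sj_nonempty h0 j) h
    have h2 : (Sj A (j + 1)).card = (Sj A j + A).card := rfl
    have h3 : (Sj A (j + 1)).card ≤ Fintype.card G := Finset.card_le_univ _
    have h4 : (Sj A j).card ≤ Fintype.card G := Finset.card_le_univ _
    obtain ⟨x, hx⟩ : ∃ x, x = Fintype.card G - (Sj A j).card := ⟨_, rfl⟩
    obtain ⟨y, hy⟩ : ∃ y, y = Fintype.card G - (Sj A (j + 1)).card := ⟨_, rfl⟩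
    rw [← hx, ← hy]
    have h5 : 2 * y + A.card ≤ 2 * x := by omega
    nlinarith [Nat.zero_le (A.card)]

lemma sum_step {A : Finset G} (h0 : (0 : G) ∈ A)
    (hgen : AddSubgroup.closure (A : Set G) = ⊤) (J : ℕ) :
    A.card * (∑ j ∈ range J, (Fintype.card G - (Sj A (j + 1)).card))
      + (A.card * (Fintype.card G - (Sj A (J + 1)).card)
        + (Fintype.card G - (Sj A (J + 1)).card) ^ 2)
      ≤ A.card * (Fintype.card G - A.card) + (Fintype.card G - A.card) ^ 2 := by
  induction J with
  | zero => simp [Sj_one]
  | succ J ih =>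
    rw [Finset.sum_range_succ, mul_add]
    have h1 := step h0 hgen (J + 1)
    omega

theorem level_bound {A : Finset G} (h0 : (0 : G) ∈ A)
    (hgen : AddSubgroup.closure (A : Set G) = ⊤) (J : ℕ) :
    A.card * ((∑ j ∈ range J, (Fintype.card G - (Sj A j).card)) + 2)
      ≤ Fintype.card G ^ 2 + A.card := by
  have hA : A.card ≤ Fintype.card G := Finset.card_le_univ _
  have hA1 : 1 ≤ A.card := Finset.card_pos.2 ⟨0, h0⟩
  obtain ⟨δ, hδ⟩ := Nat.exists_eq_add_of_le hA
  cases J with
  | zero =>
    simp only [Finset.range_zero, Finset.sum_empty]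
    nlinarith
  | succ J =>
    rw [Finset.sum_range_succ']
    have h1 := sum_step h0 hgen J
    have h2 : (Sj A 0).card = 1 := by simp [Sj]
    rw [h2]
    have h3 : Fintype.card G - A.card = δ := by omega
    have h4 : Fintype.card G - 1 = A.card - 1 + δ := by omega
    rw [h3] at h1
    rw [h4, hδ]
    obtain ⟨p, hp⟩ : ∃ p, A.card = p + 1 := ⟨A.card - 1, by omega⟩
    rw [hp] at h1 ⊢
    simp only [Nat.add_sub_cancel]
    rw [hδ, hp] at h1
    set T := ∑ j ∈ range J, (p + 1 + δ - (Sj A (j + 1)).card) with hT
    have h5 : (p + 1) * T ≤ (p + 1) * δ + δ ^ 2 := by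
      have := h1
      omega
    nlinarith

theorem exists_univ {A : Finset G} (h0 : (0 : G) ∈ A)
    (hgen : AddSubgroup.closure (A : Set G) = ⊤) : ∃ J, Sj A J = univ := by
  by_contra hcon
  push Not at hcon
  have hpos : ∀ j, 1 ≤ Fintype.card G - (Sj A j).card := by
    intro j
    have h1 : (Sj A j).card < Fintype.card G := by
      rw [← Finset.card_univ]
      exact Finset.card_lt_card ((Finset.ssubset_univ_iff).2 (hcon j))
    omega
  have h1 := level_bound h0 hgen (Fintype.card G ^ 2 + 1)
  have hA1 : 1 ≤ A.card := Finset.card_pos.2 ⟨0, h0⟩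
  have h2 : Fintype.card G ^ 2 + 1 ≤
      ∑ j ∈ range (Fintype.card G ^ 2 + 1), (Fintype.card G - (Sj A j).card) := by
    calc Fintype.card G ^ 2 + 1 = ∑ _j ∈ range (Fintype.card G ^ 2 + 1), 1 := by simp
      _ ≤ _ := Finset.sum_le_sum (fun j _ => hpos j)
  nlinarith

end Pool.Agent.Helper816.Growth
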