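import Mathlib
import Pool.Agent.Helper816.Count

set_option autoImplicit false

open Finset MvPolynomial

namespace Pool.Agent.Helper816.Aring

open Pool.Agent.Helper816.Count

lemma mem_add {e : ℕ} {g : Fin (e + 1) → ℕ} {a b : ℕ} (ha : Mem g a) (hb : Mem g b) :
    Mem g (a + b) := by
  obtain ⟨x, hx⟩ := ha
  obtain ⟨y, hy⟩ := hb
  exact ⟨x + y, by rw [wt_add, hx, hy]⟩

lemma mem_gen {e : ℕ} {g : Fin (e + 1) → ℕ} (i : Fin (e + 1)) : Mem g (g i) :=
  ⟨Pi.single i 1, by rw [wt_single, one_mul]⟩

lemma mem_mul {e : ℕ} {g : Fin (e + 1) → ℕ} {a : ℕ} (ha : Mem g a) (q : ℕ) : Mem g (q * a) := by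
  induction q with
  | zero => rw [zero_mul]; exact mem_zero
  | succ q ih => rw [Nat.succ_mul]; exact mem_add ih ha

variable (k : Type) [Field k] {e : ℕ} (g : Fin (e + 1) → ℕ)

/-- The semigroup ring as a subalgebra of `k[t]`. -/
noncomputable def RR : Subalgebra k (Polynomial k) where
  carrier := {p | ∀ n, p.coeff n ≠ 0 → Mem g n}
  mul_mem' := by
    intro p q hp hq n hn
    rw [Polynomial.coeff_mul] at hn
    obtain ⟨x, hx, hx'⟩ := Finset.exists_ne_zero_of_sum_ne_zero hn
    rw [Finset.HasAntidiagonal.mem_antidiagonal] at hx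
    rw [← hx]
    exact mem_add (hp _ (left_ne_zero_of_mul hx')) (hq _ (right_ne_zero_of_mul hx'))
  add_mem' := by
    intro p q hp hq n hn
    rw [Polynomial.coeff_add] at hn
    by_cases h : p.coeff n = 0
    · exact hq n (fun h2 => hn (by rw [h, h2, add_zero]))
    · exact hp n h
  algebraMap_mem' := by
    intro r n hn
    rw [Polynomial.algebraMap_apply, Polynomial.coeff_C] at hn
    by_cases h : n = 0
    · subst h; exact mem_zero
    · exact absurd (by simp [h]) hn

variable {g}

/-- `t^n`, or `0` if `n` is not in the semigroup. -/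
noncomputable def tt (n : ℕ) (hn : Mem g n) : RR k g :=
  ⟨Polynomial.X ^ n, by
    intro m hm
    rw [Polynomial.coeff_X_pow] at hm
    by_cases h : m = n
    · subst h; exact hn
    · exact absurd (by simp [h]) hm⟩

lemma tt_coe (n : ℕ) (hn : Mem g n) : ((tt k n hn : RR k g) : Polynomial k) = Polynomial.X ^ n := rfl

lemma tt_mul (n m : ℕ) (hn : Mem g n) (hm : Mem g m) :
    tt k n hn * tt k m hm = tt k (n + m) (mem_add hn hm) := by
  apply Subtype.ext
  show (Polynomial.X : Polynomial k) ^ n * Polynomial.X ^ m = Polynomial.X ^ (n + m)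
  rw [pow_add]

lemma tt_pow (n q : ℕ) (hn : Mem g n) :
    (tt k n hn) ^ q = tt k (q * n) (mem_mul hn q) := by
  apply Subtype.ext
  show ((Polynomial.X : Polynomial k) ^ n) ^ q = Polynomial.X ^ (q * n)
  rw [← pow_mul, mul_comm]

variable (g)

/-- The ring `A = k[Γ][Y_1, …, Y_e]`. -/
abbrev AA : Type := MvPolynomial (Fin e) (RR k g)

/-- The regular sequence `Y_j - t^{g_j}`. -/
noncomputable def ff (j : Fin e) : AA k g := X j - C (tt k (g j.succ) (mem_gen _))

/-- The base change `k[x_0..x_e] → A`. -/
noncomputable def th : MvPolynomial (Fin (e + 1)) k →ₐ[k] AA k g :=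
  aeval (Fin.cons (C (tt k (g 0) (mem_gen 0))) (fun j : Fin e => X j) : Fin (e + 1) → AA k g)

variable {g}

lemma th_zero : th k g (X 0) = C (tt k (g 0) (mem_gen 0)) := by
  unfold th; rw [aeval_X]; rfl

lemma th_succ (j : Fin e) : th k g (X j.succ) = X j := by
  unfold th; rw [aeval_X]; rfl

lemma th_C (r : k) : th k g (C r) = C (algebraMap k (RR k g) r) := by
  unfold th; rw [aeval_C]; rfl

lemma th_monomial (c : Fin (e + 1) →₀ ℕ) (r : k) :
    th k g (monomial c r) =
      monomial (Finsupp.tail c) (r • tt k (c 0 * g 0) (mem_mul (mem_gen 0) _)) := by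
  unfold th
  rw [aeval_monomial, Finsupp.prod_fintype _ _ (fun i => pow_zero _), Fin.prod_univ_succ]
  simp only [Fin.cons_zero, Fin.cons_succ]
  have h1 : (∏ i : Fin e, (X i : AA k g) ^ c i.succ) = monomial (Finsupp.tail c) 1 := by
    rw [monomial_eq, C_1, one_mul, Finsupp.prod_fintype _ _ (fun i => pow_zero _)]
    rfl
  have h2 : algebraMap k (AA k g) r = C (algebraMap k (RR k g) r) := rfl
  rw [h1, ← C_pow, tt_pow, h2, ← mul_assoc, ← C_mul, C_mul_monomial, mul_one, Algebra.smul_def]

/-- The coefficient of `Y^b t^n`. -/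
noncomputable def co (p : AA k g) (b : Fin e →₀ ℕ) (n : ℕ) : k :=
  ((coeff b p : RR k g) : Polynomial k).coeff n

lemma co_add (p q : AA k g) (b : Fin e →₀ ℕ) (n : ℕ) :
    co k (p + q) b n = co k p b n + co k q b n := by
  unfold co
  rw [coeff_add]
  simp

lemma co_zero (b : Fin e →₀ ℕ) (n : ℕ) : co k (0 : AA k g) b n = 0 := by
  unfold co
  simp

lemma co_sum {ι : Type} (s : Finset ι) (f : ι → AA k g) (b : Fin e →₀ ℕ) (n : ℕ) :
    co k (∑ i ∈ s, f i) b n = ∑ i ∈ s, co k (f i) b n := by
  classical
  induction s using Finset.induction_on with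
  | empty => simp [co_zero]
  | insert a s ha ih => rw [Finset.sum_insert ha, Finset.sum_insert ha, co_add, ih]

lemma co_ext (p q : AA k g) (h : ∀ b n, co k p b n = co k q b n) : p = q := by
  ext b n
  exact h b n

/-- The basic coefficient formula. -/
lemma co_th (h0 : 0 < g 0) (v : MvPolynomial (Fin (e + 1)) k) (a : ℕ) (ha : Mem g a)
    (b : Fin e →₀ ℕ) (n : ℕ) :
    co k (th k g v * C (tt k a ha)) b n =
      if a ≤ n ∧ g 0 ∣ n - a then coeff (Finsupp.cons ((n - a) / g 0) b) v else 0 := by
  classical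
  induction v using MvPolynomial.induction_on' with
  | monomial c r =>
    rw [th_monomial, mul_comm, C_mul_monomial]
    unfold co
    rw [coeff_monomial, coeff_monomial]
    by_cases hb : Finsupp.tail c = b
    · rw [if_pos hb]
      have h1 : ((tt k a ha * r • tt k (c 0 * g 0) (mem_mul (mem_gen 0) _) : RR k g) :
          Polynomial k) = r • (Polynomial.X ^ (a + c 0 * g 0)) := by
        rw [mul_smul_comm, tt_mul]
        rfl
      rw [h1, Polynomial.coeff_smul, Polynomial.coeff_X_pow]
      by_cases hn : n = a + c 0 * g 0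
      · have h2 : n - a = c 0 * g 0 := by omega
        rw [if_pos hn, if_pos ⟨by omega, by rw [h2]; exact Dvd.intro_left _ rfl⟩, h2,
          Nat.mul_div_cancel _ h0, if_pos (by rw [← hb, Finsupp.cons_tail])]
        simp
      · rw [if_neg hn]
        by_cases h3 : a ≤ n ∧ g 0 ∣ n - a
        · rw [if_pos h3, if_neg]
          · simp
          · intro h4
            apply hn
            have h5 : c 0 = (n - a) / g 0 := by
              rw [h4, Finsupp.cons_zero]
            have h6 := Nat.div_mul_cancel h3.2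
            rw [h5, h6]
            omega
        · rw [if_neg h3]
          simp
    · rw [if_neg hb]
      by_cases h3 : a ≤ n ∧ g 0 ∣ n - a
      · rw [if_pos h3, if_neg]
        · simp
        · intro h4
          apply hb
          rw [h4, Finsupp.tail_cons]
      · rw [if_neg h3]
        simp
  | add p q hp hq =>
    rw [map_add, add_mul, co_add, hp, hq, coeff_add]
    split_ifs
    · rfl
    · simp

end Pool.Agent.Helper816.Aring
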