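import Mathlib
import Pool.Agent.Helper816.Growth
import Pool.Agent.Helper816.Count

set_option autoImplicit false

open Finset

namespace Pool.Agent.Helper816.Count2

open Pool.Agent.Helper816.Count

variable {e : ℕ} {g : Fin (e + 1) → ℕ}

/-- The refined counting theorem. -/
theorem count2 (he : 1 ≤ e) (hpos : ∀ i, 0 < g i) (ν : ℕ) (hν : ν ≤ e - 1)
    (hNν : ∀ b, b ≠ 0 → (∀ j, b ≠ g j) → ∀ s : Finset (Fin (e + 1)),
      (∀ i ∈ s, Adj g (b + g i) i i ∧ ¬ conn g (b + g i) i 0 ∧
        ¬ conn g (b + g i) i (Fin.last e)) → s.card ≤ ν)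
    (V' : Finset ℕ) (hV' : ∀ n ∈ V', g (Fin.last e) ≤ n ∧ Mem g (n - g (Fin.last e)) ∧
      ¬ Adj g (n - g (Fin.last e)) 0 0 ∧ Adj g n 0 0 ∧ conn g n 0 (Fin.last e)) :
    ∃ (B : Finset ℕ) (R : Finset ((Fin (e + 1) → ℕ) × (Fin (e + 1) → ℕ))),
      (∀ n, n ∈ B ↔ Mem g n ∧ ¬ Adj g n 0 0 ∧ ¬ Adj g n (Fin.last e) (Fin.last e)) ∧
      2 * R.card + 2 * V'.card ≤ (ν + 1) * B.card + (e - 1 - ν) * e + e ∧
      ∀ a b : Fin (e + 1) → ℕ,
        (addConGen (fun x y => (x, y) ∈ R)) a b ↔ wt g a = wt g b := by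
  classical
  obtain ⟨Ap, hAp⟩ := exists_apery hpos
  set l : Fin (e + 1) := Fin.last e with hl
  have hl0 : l ≠ 0 := by
    intro h
    have := congrArg Fin.val h
    simp [hl] at this
    omega
  set B : Finset ℕ := Ap.filter (fun n => ¬ Adj g n l l) with hB
  have hBmem : ∀ n, n ∈ B ↔ Mem g n ∧ ¬ Adj g n 0 0 ∧ ¬ Adj g n l l := by
    intro n
    rw [hB, Finset.mem_filter, hAp]
    tauto
  set N : ℕ := Ap.sup id + (∑ i, g i) + 1 with hN
  have hApN : ∀ n ∈ Ap, ∀ i, n + g i < N := by
    intro n hn i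
    have h1 : n ≤ Ap.sup id := Finset.le_sup (f := id) hn
    have h2 : g i ≤ ∑ i, g i := Finset.single_le_sum (fun i _ => Nat.zero_le _) (Finset.mem_univ i)
    omega
  -- purely inner vertices go down to B
  have hdown : ∀ n i, Adj g n i i → ¬ conn g n i 0 → ¬ conn g n i l → n - g i ∈ B := by
    intro n i hv h0 h1
    rw [hBmem]
    obtain ⟨hle, hm⟩ := vx_iff.1 hv
    refine ⟨hm, ?_, ?_⟩
    · intro h2
      have h3 := adj_add (i := i) h2
      rw [Nat.sub_add_cancel hle] at h3
      exact h0 (conn_of_adj h3)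
    · intro h2
      have h3 := adj_add (i := i) h2
      rw [Nat.sub_add_cancel hle] at h3
      exact h1 (conn_of_adj h3)
  -- U elements
  have hUdown : ∀ n, Adj g n 0 0 → Adj g n l l → ¬ conn g n 0 l → n - g l ∈ Ap ∧ n ∉ Ap := by
    intro n h0 h1 h2
    refine ⟨?_, ?_⟩
    · rw [hAp]
      obtain ⟨hle, hm⟩ := vx_iff.1 h1
      refine ⟨hm, ?_⟩
      intro h3
      have h4 := adj_add (i := l) h3
      rw [Nat.sub_add_cancel hle] at h4
      exact h2 (conn_of_adj h4.symm)
    · rw [hAp]
      intro h3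
      exact h3.2 h0
  -- the base
  let base : ℕ → Fin (e + 1) := fun n =>
    if Adj g n 0 0 then 0 else if Adj g n l l then l else
      if h : ∃ i, Adj g n i i then h.choose else 0
  have hbase : ∀ n i, 0 < n → Adj g n i i → Adj g n (base n) (base n) := by
    intro n i _ hi
    simp only [base]
    split_ifs with h1 h2 h3
    · exact h1
    · exact h2
    · exact h3.choose_spec
    · exact absurd ⟨i, hi⟩ h3
  have hbase0 : ∀ n, Adj g n 0 0 → base n = 0 := by
    intro n h
    simp only [base, if_pos h]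
  have hbasel : ∀ n, ¬ Adj g n 0 0 → Adj g n l l → base n = l := by
    intro n h h'
    simp only [base, if_neg h, if_pos h']
  -- chosen factorizations
  let f : ℕ → Fin (e + 1) → (Fin (e + 1) → ℕ) := fun n i =>
    if h : Adj g n i i then h.choose else 0
  have hf : ∀ n i, Adj g n i i → wt g (f n i) = n ∧ 0 < f n i i := by
    intro n i h
    simp only [f, dif_pos h]
    exact ⟨h.choose_spec.1, h.choose_spec.2.1⟩
  -- index sets
  set P : Finset (ℕ × Fin (e + 1)) := (range N ×ˢ univ).filter
    (fun q => 0 < q.1 ∧ Adj g q.1 q.2 q.2 ∧ ¬ conn g q.1 q.2 0 ∧ ¬ conn g q.1 q.2 l) with hP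
  set K : Finset (ℕ × Fin (e + 1)) := P.filter (fun q => rt g q.1 q.2 = q.2) with hK
  set Sg : Finset (ℕ × Fin (e + 1)) := P.filter
    (fun q => ∀ j, conn g q.1 q.2 j → j = q.2) with hSg
  set I : Finset (Fin (e + 1)) := (univ.erase 0).erase l with hI
  have hIcard : I.card + 2 = e + 1 := by
    rw [hI, Finset.card_erase_of_mem (by simp [hl0]), Finset.card_erase_of_mem (by simp),
      Finset.card_univ, Fintype.card_fin]
    omega
  have hPmem : ∀ n i, (n, i) ∈ P ↔
      n < N ∧ 0 < n ∧ Adj g n i i ∧ ¬ conn g n i 0 ∧ ¬ conn g n i l := by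
    intro n i
    rw [hP, Finset.mem_filter, Finset.mem_product, Finset.mem_range]
    simp
  have hPI : ∀ n i, (n, i) ∈ P → i ∈ I := by
    intro n i h
    obtain ⟨_, _, _, h1, h2⟩ := (hPmem n i).1 h
    rw [hI, Finset.mem_erase, Finset.mem_erase]
    refine ⟨?_, ?_, Finset.mem_univ _⟩
    · rintro rfl
      exact h2 ((conn g n).refl _)
    · rintro rfl
      exact h1 ((conn g n).refl _)
  -- (i)
  have hmapB : ∀ q ∈ P, q.1 - g q.2 ∈ B := by
    rintro ⟨n, i⟩ hq
    obtain ⟨_, _, h1, h2, h3⟩ := (hPmem n i).1 hq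
    exact hdown n i h1 h2 h3
  set B1 : Finset ℕ := B.filter (fun b => b = 0 ∨ ∃ j, b = g j) with hB1
  have hB1card : B1.card ≤ I.card + 1 := by
    have hsub : B1 ⊆ insert 0 (I.image g) := by
      intro b hb
      rw [hB1, Finset.mem_filter] at hb
      obtain ⟨hbB, hb2⟩ := hb
      rw [hBmem] at hbB
      rw [Finset.mem_insert]
      rcases hb2 with h | ⟨j, hj⟩
      · exact Or.inl h
      · right
        rw [Finset.mem_image]
        refine ⟨j, ?_, hj.symm⟩
        rw [hI, Finset.mem_erase, Finset.mem_erase]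
        have hadj : Adj g b j j := ⟨Pi.single j 1, by rw [wt_single, one_mul, hj], by simp, by simp⟩
        refine ⟨?_, ?_, Finset.mem_univ _⟩
        · rintro rfl
          exact hbB.2.2 hadj
        · rintro rfl
          exact hbB.2.1 hadj
    have h1 := Finset.card_le_card hsub
    have h2 := Finset.card_insert_le 0 (I.image g)
    have h3 : (I.image g).card ≤ I.card := Finset.card_image_le
    omega
  have hfib1 : ∀ b ∈ B1, (P.filter (fun q => q.1 - g q.2 = b)).card ≤ I.card := by
    intro b _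
    apply Finset.card_le_card_of_injOn (fun q => q.2)
    · rintro ⟨n, i⟩ hq
      exact hPI n i (Finset.mem_filter.1 hq).1
    · rintro ⟨n, i⟩ hq ⟨n', i'⟩ hq' heq
      obtain ⟨hq1, hq2⟩ := Finset.mem_filter.1 hq
      obtain ⟨hq3, hq4⟩ := Finset.mem_filter.1 hq'
      obtain ⟨_, _, h1, _, _⟩ := (hPmem n i).1 hq1
      obtain ⟨_, _, h2, _, _⟩ := (hPmem n' i').1 hq3
      simp only at heq
      subst heq
      simp only at hq2 hq4
      have h3 := (vx_iff.1 h1).1
      have h4 := (vx_iff.1 h2).1
      have : n = n' := by omega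
      rw [this]
  have hfib2 : ∀ b ∈ B \ B1, (P.filter (fun q => q.1 - g q.2 = b)).card ≤ ν := by
    intro b hb
    obtain ⟨hbB, hb2⟩ := Finset.mem_sdiff.1 hb
    have hb3 : b ≠ 0 := fun h => hb2 (Finset.mem_filter.2 ⟨hbB, Or.inl h⟩)
    have hb4 : ∀ j, b ≠ g j := fun j h => hb2 (Finset.mem_filter.2 ⟨hbB, Or.inr ⟨j, h⟩⟩)
    have h5 := hNν b hb3 hb4 ((P.filter (fun q => q.1 - g q.2 = b)).image (fun q => q.2)) (by
      intro i hi
      rw [Finset.mem_image] at hi
      obtain ⟨⟨n, i'⟩, hq, rfl⟩ := hi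
      obtain ⟨hq1, hq2⟩ := Finset.mem_filter.1 hq
      obtain ⟨_, _, h1, h2, h3⟩ := (hPmem n i').1 hq1
      have h4 := (vx_iff.1 h1).1
      simp only at hq2
      have h6 : b + g i' = n := by omega
      simp only
      rw [h6]
      exact ⟨h1, h2, h3⟩)
    rwa [Finset.card_image_of_injOn] at h5
    rintro ⟨n, i⟩ hq ⟨n', i'⟩ hq' heq
    obtain ⟨hq1, hq2⟩ := Finset.mem_filter.1 hq
    obtain ⟨hq3, hq4⟩ := Finset.mem_filter.1 hq'
    obtain ⟨_, _, h1, _, _⟩ := (hPmem n i).1 hq1
    obtain ⟨_, _, h2, _, _⟩ := (hPmem n' i').1 hq3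
    simp only at heq
    subst heq
    simp only at hq2 hq4
    have h3 := (vx_iff.1 h1).1
    have h4 := (vx_iff.1 h2).1
    have : n = n' := by omega
    rw [this]
  have hPcard : P.card ≤ I.card * B1.card + ν * (B \ B1).card := by
    rw [Finset.card_eq_sum_card_fiberwise
      (f := fun q : ℕ × Fin (e + 1) => q.1 - g q.2) (t := B) (fun q hq => hmapB q hq)]
    rw [← Finset.sum_sdiff (Finset.filter_subset _ _ : B1 ⊆ B), add_comm]
    apply add_le_add
    · calc ∑ b ∈ B1, (P.filter (fun q => q.1 - g q.2 = b)).card ≤ ∑ _b ∈ B1, I.card :=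
          Finset.sum_le_sum hfib1
        _ = I.card * B1.card := by rw [Finset.sum_const, smul_eq_mul, mul_comm]
    · calc ∑ b ∈ B \ B1, (P.filter (fun q => q.1 - g q.2 = b)).card ≤ ∑ _b ∈ B \ B1, ν :=
          Finset.sum_le_sum hfib2
        _ = ν * (B \ B1).card := by rw [Finset.sum_const, smul_eq_mul, mul_comm]
  have hB1B : (B \ B1).card + B1.card = B.card :=
    Finset.card_sdiff_add_card_eq_card (Finset.filter_subset _ _)
  -- (ii)
  have hSgK : Sg ⊆ K := by
    rintro ⟨n, i⟩ hq
    rw [hSg, Finset.mem_filter] at hq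
    rw [hK, Finset.mem_filter]
    exact ⟨hq.1, hq.2 _ ((conn g n).symm (conn_rt n i))⟩
  have hKP : K ⊆ P := Finset.filter_subset _ _
  have hKSg : (K \ Sg).card ≤ (P \ K).card := by
    have hex : ∀ q ∈ K \ Sg, ∃ j, conn g q.1 q.2 j ∧ j ≠ q.2 := by
      rintro ⟨n, i⟩ hq
      rw [Finset.mem_sdiff] at hq
      by_contra hcon
      push Not at hcon
      apply hq.2
      rw [hSg, Finset.mem_filter]
      exact ⟨hKP hq.1, hcon⟩
    let ch : ℕ × Fin (e + 1) → Fin (e + 1) := fun q =>
      if h : ∃ j, conn g q.1 q.2 j ∧ j ≠ q.2 then h.choose else q.2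
    have hch : ∀ q ∈ K \ Sg, conn g q.1 q.2 (ch q) ∧ ch q ≠ q.2 := by
      intro q hq
      have h := hex q hq
      simp only [ch, dif_pos h]
      exact h.choose_spec
    apply Finset.card_le_card_of_injOn (fun q => (q.1, ch q))
    · rintro ⟨n, i⟩ hq
      have hq' : (n, i) ∈ K \ Sg := hq
      obtain ⟨h1, h2⟩ := hch _ hq'
      simp only at h1 h2
      rw [Finset.mem_sdiff] at hq'
      have hiK := hq'.1
      rw [hK, Finset.mem_filter] at hiK
      obtain ⟨hiP, hirt⟩ := hiK
      obtain ⟨hn1, hn2, hn3, hn4, hn5⟩ := (hPmem n i).1 hiP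
      show (n, ch (n, i)) ∈ P \ K
      rw [Finset.mem_sdiff]
      constructor
      · rw [hPmem]
        refine ⟨hn1, hn2, vx_of_conn h1 hn3, ?_, ?_⟩
        · intro h3
          exact hn4 ((conn g n).trans h1 h3)
        · intro h3
          exact hn5 ((conn g n).trans h1 h3)
      · intro h3
        rw [hK, Finset.mem_filter] at h3
        have h4 := h3.2
        simp only at h4 hirt
        rw [← rt_eq h1, hirt] at h4
        exact h2 h4.symm
    · rintro ⟨n, i⟩ hq ⟨n', i'⟩ hq' heq
      have hq1 : (n, i) ∈ K \ Sg := hq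
      have hq2 : (n', i') ∈ K \ Sg := hq'
      simp only [Prod.mk.injEq] at heq
      obtain ⟨heq1, heq2⟩ := heq
      subst heq1
      obtain ⟨h1, _⟩ := hch _ hq1
      obtain ⟨h2, _⟩ := hch _ hq2
      simp only at h1 h2
      have h3 := (Finset.mem_sdiff.1 hq1).1
      have h4 := (Finset.mem_sdiff.1 hq2).1
      rw [hK, Finset.mem_filter] at h3 h4
      have h5 := h3.2
      have h6 := h4.2
      simp only at h5 h6
      rw [rt_eq h1] at h5
      rw [rt_eq h2, ← heq2] at h6
      rw [← h5, ← h6]
  have h2K : 2 * K.card ≤ P.card + Sg.card := by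
    have h1 := Finset.card_sdiff_add_card_eq_card hSgK
    have h2 := Finset.card_sdiff_add_card_eq_card hKP
    omega
  -- 0 in B
  have h0B : 0 ∈ B := by
    rw [hBmem]
    exact ⟨mem_zero, not_adj_zero hpos _ _, not_adj_zero hpos _ _⟩
  have hBerase : (B.erase 0).card + 1 = B.card := Finset.card_erase_add_one h0B
  -- (iii)
  have hSgsupp : ∀ n i, (n, i) ∈ Sg → ∀ a : Fin (e + 1) → ℕ, wt g a = n → 0 < a i →
      a = Pi.single i (a i) ∧ n = a i * g i := by
    intro n i hq a ha hai
    rw [hSg, Finset.mem_filter] at hq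
    have h1 : a = Pi.single i (a i) := by
      funext j
      by_cases hj : j = i
      · subst hj; simp
      · rw [Pi.single_eq_of_ne hj]
        by_contra hne
        have h2 : Adj g n i j := ⟨a, ha, hai, Nat.pos_of_ne_zero hne⟩
        exact hj (hq.2 j (conn_of_adj h2))
    refine ⟨h1, ?_⟩
    rw [← ha, h1, wt_single]
    simp
  set Sg1 : Finset (ℕ × Fin (e + 1)) := Sg.filter
    (fun q => ∀ a b : Fin (e + 1) → ℕ, wt g a = q.1 → wt g b = q.1 → a = b) with hSg1
  set Sg2 : Finset (ℕ × Fin (e + 1)) := Sg.filter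
    (fun q => ¬ ∀ a b : Fin (e + 1) → ℕ, wt g a = q.1 → wt g b = q.1 → a = b) with hSg2
  have hSgsplit : Sg1.card + Sg2.card = Sg.card := by
    rw [hSg1, hSg2]
    exact Finset.card_filter_add_card_filter_not _
  have hSg1card : Sg1.card ≤ (B.erase 0).card := by
    apply Finset.card_le_card_of_injOn (fun q => q.1)
    · rintro ⟨n, i⟩ hq
      have hq' : (n, i) ∈ Sg1 := hq
      rw [hSg1, Finset.mem_filter] at hq'
      obtain ⟨hqS, huniq⟩ := hq'
      have hqP : (n, i) ∈ P := (Finset.mem_filter.1 hqS).1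
      obtain ⟨h1, h2, h3, h4, h5⟩ := (hPmem n i).1 hqP
      show n ∈ B.erase 0
      rw [Finset.mem_erase, hBmem]
      obtain ⟨a, ha, hai, _⟩ := h3
      refine ⟨by omega, ⟨a, ha⟩, ?_, ?_⟩
      · rintro ⟨b, hb, hb0, _⟩
        have : a = b := huniq a b ha hb
        subst this
        exact h4 (conn_of_adj ⟨a, ha, hai, hb0⟩)
      · rintro ⟨b, hb, hb0, _⟩
        have : a = b := huniq a b ha hb
        subst this
        exact h5 (conn_of_adj ⟨a, ha, hai, hb0⟩)
    · rintro ⟨n, i⟩ hq ⟨n', i'⟩ hq' heq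
      have hq1 : (n, i) ∈ Sg1 := hq
      have hq2 : (n', i') ∈ Sg1 := hq'
      simp only at heq
      subst heq
      rw [hSg1, Finset.mem_filter] at hq1 hq2
      obtain ⟨hS1, hu1⟩ := hq1
      obtain ⟨hS2, _⟩ := hq2
      have hP1 := (hPmem n i).1 (Finset.mem_filter.1 hS1).1
      have hP2 := (hPmem n i').1 (Finset.mem_filter.1 hS2).1
      obtain ⟨a, ha, hai, _⟩ := hP1.2.2.1
      obtain ⟨b, hb, hbi, _⟩ := hP2.2.2.1
      have hab : a = b := hu1 a b ha hb
      subst hab
      have h3 : conn g n i i' := conn_of_adj ⟨a, ha, hai, hbi⟩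
      have h4 := (Finset.mem_filter.1 hS1).2 i' h3
      simp only at h4
      rw [h4]
  have hSg2card : Sg2.card ≤ I.card := by
    apply Finset.card_le_card_of_injOn (fun q => q.2)
    · rintro ⟨n, i⟩ hq
      have hq' : (n, i) ∈ Sg2 := hq
      rw [hSg2, Finset.mem_filter] at hq'
      exact hPI n i (Finset.mem_filter.1 hq'.1).1
    · have aux : ∀ n n' i, n < n' → (n, i) ∈ Sg2 → (n', i) ∈ Sg2 → False := by
        intro n n' i hlt hq hq'
        rw [hSg2, Finset.mem_filter] at hq hq'
        obtain ⟨hS, hnu⟩ := hq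
        obtain ⟨hS', _⟩ := hq'
        have hP1 := (hPmem n i).1 (Finset.mem_filter.1 hS).1
        have hP2 := (hPmem n' i).1 (Finset.mem_filter.1 hS').1
        obtain ⟨a, ha, hai, _⟩ := hP1.2.2.1
        obtain ⟨a', ha', hai', _⟩ := hP2.2.2.1
        obtain ⟨h1, h2⟩ := hSgsupp n i hS a ha hai
        obtain ⟨h3, h4⟩ := hSgsupp n' i hS' a' ha' hai'
        have hlt' : a i < a' i := by
          by_contra hcon
          push Not at hcon
          have := Nat.mul_le_mul_right (g i) hcon
          omega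
        have hb : ∃ b : Fin (e + 1) → ℕ, wt g b = n ∧ b ≠ a := by
          by_contra hcon
          push Not at hcon
          apply hnu
          intro x y hx hy
          simp only at hx hy
          rw [hcon x hx, hcon y hy]
        obtain ⟨b, hb1, hb2⟩ := hb
        have hc : wt g (b + Pi.single i (a' i - a i)) = n' := by
          rw [wt_add, wt_single, hb1, h2, h4, Nat.sub_mul]
          have := Nat.mul_le_mul_right (g i) hlt'.le
          omega
        have hci : 0 < (b + (Pi.single i (a' i - a i) : Fin (e + 1) → ℕ)) i := by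
          simp; omega
        obtain ⟨h5, _⟩ := hSgsupp n' i hS' _ hc hci
        have hbz : ∀ j, j ≠ i → b j = 0 := by
          intro j hj
          have h6 := congrFun h5 j
          simp [Pi.single_eq_of_ne hj] at h6
          exact h6
        have hbs : b = Pi.single i (b i) := by
          funext j
          by_cases hj : j = i
          · subst hj; simp
          · rw [Pi.single_eq_of_ne hj, hbz j hj]
        have h7 : b i * g i = a i * g i := by
          rw [← h2, ← hb1]
          conv_rhs => rw [hbs]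
          rw [wt_single]
        have h8 : b i = a i := Nat.eq_of_mul_eq_mul_right (hpos i) h7
        apply hb2
        rw [hbs, h8]
        exact h1.symm
      rintro ⟨n, i⟩ hq ⟨n', i'⟩ hq' heq
      have hq1 : (n, i) ∈ Sg2 := hq
      have hq2 : (n', i') ∈ Sg2 := hq'
      simp only at heq
      subst heq
      by_contra hne
      have hne' : n ≠ n' := by
        rintro rfl
        exact hne rfl
      rcases Nat.lt_or_gt_of_ne hne' with h | h
      · exact aux n n' i h hq1 hq2
      · exact aux n' n i h hq2 hq1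
  -- (iv)
  set Uf : Finset ℕ := (range N).filter
    (fun n => Adj g n 0 0 ∧ Adj g n l l ∧ ¬ conn g n 0 l) with hUf
  have hUfcard : Uf.card + V'.card ≤ B.card := by
    set ApM := Ap.image (fun n => n + g l) with hApM
    have hApMcard : ApM.card = Ap.card :=
      Finset.card_image_of_injective _ (add_left_injective (g l))
    have h1 : Uf ⊆ ApM \ Ap := by
      intro n hn
      rw [hUf, Finset.mem_filter] at hn
      obtain ⟨_, h1, h2, h3⟩ := hn
      obtain ⟨h4, h5⟩ := hUdown n h1 h2 h3
      rw [Finset.mem_sdiff]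
      refine ⟨?_, h5⟩
      rw [hApM, Finset.mem_image]
      exact ⟨n - g l, h4, Nat.sub_add_cancel (vx_iff.1 h2).1⟩
    have h2 : Ap \ ApM ⊆ B := by
      intro n hn
      rw [Finset.mem_sdiff] at hn
      rw [hB, Finset.mem_filter]
      refine ⟨hn.1, ?_⟩
      intro h3
      apply hn.2
      rw [hApM, Finset.mem_image]
      obtain ⟨hle, hm⟩ := vx_iff.1 h3
      refine ⟨n - g l, ?_, Nat.sub_add_cancel hle⟩
      rw [hAp]
      refine ⟨hm, ?_⟩
      intro h4
      have h5 := adj_add (i := l) h4
      rw [Nat.sub_add_cancel hle] at h5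
      exact ((hAp n).1 hn.1).2 h5.right
    have h1' : V' ⊆ ApM \ Ap := by
      intro n hn
      obtain ⟨h4, h5, h6, h7, _⟩ := hV' n hn
      rw [Finset.mem_sdiff]
      refine ⟨?_, ?_⟩
      · rw [hApM, Finset.mem_image]
        refine ⟨n - g l, ?_, Nat.sub_add_cancel h4⟩
        rw [hAp]
        exact ⟨h5, h6⟩
      · rw [hAp]
        intro h
        exact h.2 h7
    have hdis : Disjoint Uf V' := by
      rw [Finset.disjoint_left]
      intro n hn hn'
      rw [hUf, Finset.mem_filter] at hn
      exact hn.2.2.2 (hV' n hn').2.2.2.2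
    have h3 := Finset.card_le_card (Finset.union_subset h1 h1')
    rw [Finset.card_union_of_disjoint hdis] at h3
    have h4 := Finset.card_le_card h2
    have h5 : (ApM \ Ap).card = (Ap \ ApM).card := Finset.card_sdiff_comm hApMcard
    omega
  set Rel : Finset (ℕ × Fin (e + 1)) := (range N ×ˢ univ).filter
    (fun q => 0 < q.1 ∧ Adj g q.1 q.2 q.2 ∧ rt g q.1 q.2 = q.2 ∧ ¬ conn g q.1 q.2 (base q.1))
    with hRel
  set BK : Finset (ℕ × Fin (e + 1)) := (B.erase 0).image (fun n => (n, rt g n (base n))) with hBK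
  set UK : Finset (ℕ × Fin (e + 1)) := Uf.image (fun n => (n, rt g n l)) with hUK
  have hBKcard : BK.card = (B.erase 0).card := by
    apply Finset.card_image_of_injective
    intro a b hab
    simp only [Prod.mk.injEq] at hab
    exact hab.1
  have hUKcard : UK.card ≤ Uf.card := Finset.card_image_le
  have hBKK : BK ⊆ K := by
    rintro ⟨n, i⟩ hq
    rw [hBK, Finset.mem_image] at hq
    obtain ⟨n', hn', heq⟩ := hq
    simp only [Prod.mk.injEq] at heq
    obtain ⟨h1, h2⟩ := heq
    subst h1
    rw [Finset.mem_erase, hBmem] at hn'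
    obtain ⟨hne, hm, hv0, hvl⟩ := hn'
    have hnpos : 0 < n' := Nat.pos_of_ne_zero hne
    have hvi : ∃ i, Adj g n' i i := by
      obtain ⟨a, ha⟩ := hm
      by_contra hcon
      push Not at hcon
      apply hne
      rw [← ha]
      unfold wt
      apply Finset.sum_eq_zero
      intro i _
      by_contra hne2
      exact hcon i ⟨a, ha, Nat.pos_of_ne_zero (fun h => hne2 (by rw [h, zero_mul])),
        Nat.pos_of_ne_zero (fun h => hne2 (by rw [h, zero_mul]))⟩
    obtain ⟨i0, hi0⟩ := hvi
    have hvb := hbase n' i0 hnpos hi0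
    have hr := conn_rt (g := g) n' (base n')
    rw [h2] at hr
    have hvr : Adj g n' i i := vx_of_conn ((conn g n').symm hr) hvb
    rw [hK, Finset.mem_filter, hPmem]
    refine ⟨⟨?_, hnpos, hvr, ?_, ?_⟩, ?_⟩
    · have h3 : n' ∈ Ap := by
        rw [hAp]; exact ⟨hm, hv0⟩
      have := hApN n' h3 0
      omega
    · intro h3
      exact hv0 (vx_of_conn h3 hvr)
    · intro h3
      exact hvl (vx_of_conn h3 hvr)
    · show rt g n' i = i
      rw [← h2]
      exact rt_eq (conn_rt n' (base n'))
  have hRelsub : Rel ⊆ (K \ BK) ∪ UK := by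
    rintro ⟨n, i⟩ hq
    rw [hRel, Finset.mem_filter, Finset.mem_product, Finset.mem_range] at hq
    obtain ⟨⟨hnN, _⟩, hnpos, hvi, hrti, hncb⟩ := hq
    simp only at hnN hnpos hvi hrti hncb
    have hni0 : ¬ conn g n i 0 := by
      intro h
      have hv0 : Adj g n 0 0 := vx_of_conn h hvi
      rw [hbase0 n hv0] at hncb
      exact hncb h
    rw [Finset.mem_union]
    by_cases hil : conn g n i l
    · right
      have hvl : Adj g n l l := vx_of_conn hil hvi
      by_cases hv0 : Adj g n 0 0
      · rw [hUK, Finset.mem_image]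
        refine ⟨n, ?_, ?_⟩
        · rw [hUf, Finset.mem_filter, Finset.mem_range]
          refine ⟨hnN, hv0, hvl, ?_⟩
          intro h
          exact hni0 ((conn g n).trans hil ((conn g n).symm h))
        · rw [← rt_eq hil, hrti]
      · exfalso
        rw [hbasel n hv0 hvl] at hncb
        exact hncb hil
    · left
      rw [Finset.mem_sdiff]
      constructor
      · rw [hK, Finset.mem_filter, hPmem]
        exact ⟨⟨hnN, hnpos, hvi, hni0, hil⟩, hrti⟩
      · intro h
        rw [hBK, Finset.mem_image] at h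
        obtain ⟨n', _, heq⟩ := h
        simp only [Prod.mk.injEq] at heq
        obtain ⟨h1, h2⟩ := heq
        subst h1
        apply hncb
        have h3 := conn_rt (g := g) n' (base n')
        rw [h2] at h3
        exact h3
  have hRelcard : Rel.card + V'.card ≤ K.card + 1 := by
    have h1 := Finset.card_le_card hRelsub
    have h2 := Finset.card_union_le (K \ BK) UK
    have h3 := Finset.card_sdiff_add_card_eq_card hBKK
    omega
  -- assembling
  have hfinal : 2 * Rel.card + 2 * V'.card ≤ (ν + 1) * B.card + (e - 1 - ν) * e + e := by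
    have hc : I.card = e - 1 := by omega
    obtain ⟨d, hd⟩ := Nat.exists_eq_add_of_le hν
    have hd' : e - 1 - ν = d := by omega
    rw [hd']
    rw [hc, hd] at hPcard
    have h1 : 2 * Rel.card + 2 * V'.card ≤ P.card + Sg.card + 2 := by omega
    have h2 : Sg.card + 1 ≤ B.card + (ν + d) := by omega
    have h3 : B1.card ≤ ν + d + 1 := by omega
    have he1 : e = ν + d + 1 := by omega
    have h4 : (ν + d) * B1.card + ν * (B \ B1).card ≤ ν * B.card + d * (ν + d + 1) := by
      rw [← hB1B]
      nlinarith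
    have h5 : d * e = d * (ν + d + 1) := by rw [← he1]
    rw [h5]
    have h6 : (ν + 1) * B.card = ν * B.card + B.card := by ring
    rw [h6]
    omega
  refine ⟨B, Rel.image (fun q => (f q.1 q.2, f q.1 (base q.1))), hBmem, ?_, ?_⟩
  · have h1 : (Rel.image (fun q => (f q.1 q.2, f q.1 (base q.1)))).card ≤ Rel.card :=
      Finset.card_image_le
    omega
  · intro a b
    constructor
    · intro h
      let C0 : AddCon (Fin (e + 1) → ℕ) :=
        { r := fun x y => wt g x = wt g y
          iseqv := ⟨fun _ => rfl, fun h => h.symm, fun h1 h2 => h1.trans h2⟩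
          add' := by
            intro w x y z h1 h2
            show wt g (w + y) = wt g (x + z)
            rw [wt_add, wt_add, h1, h2] }
      have hle : addConGen (fun x y => (x, y) ∈
          Rel.image (fun q => (f q.1 q.2, f q.1 (base q.1)))) ≤ C0 := by
        rw [AddCon.addConGen_le]
        intro x y hxy
        rw [Finset.mem_image] at hxy
        obtain ⟨⟨n, i⟩, hq, heq⟩ := hxy
        simp only [Prod.mk.injEq] at heq
        obtain ⟨h1, h2⟩ := heq
        rw [hRel, Finset.mem_filter] at hq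
        obtain ⟨_, hnpos, hvi, _, _⟩ := hq
        show wt g x = wt g y
        rw [← h1, ← h2]
        simp only at hnpos hvi
        rw [(hf n i hvi).1, (hf n (base n) (hbase n i hnpos hvi)).1]
      exact hle h
    · intro hab
      refine gen hpos _ base f hf hbase ?_ (wt g a) a b rfl hab.symm
      intro n i hnpos hvi hrti hncb
      apply AddConGen.Rel.of
      rw [Finset.mem_image]
      refine ⟨(n, i), ?_, rfl⟩
      rw [hRel, Finset.mem_filter, Finset.mem_product, Finset.mem_range]
      refine ⟨⟨?_, Finset.mem_univ _⟩, hnpos, hvi, hrti, hncb⟩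
      show n < N
      have hni0 : ¬ conn g n i 0 := by
        intro h
        have hv0 : Adj g n 0 0 := vx_of_conn h hvi
        rw [hbase0 n hv0] at hncb
        exact hncb h
      by_cases hil : conn g n i l
      · have hvl : Adj g n l l := vx_of_conn hil hvi
        by_cases hv0 : Adj g n 0 0
        · have h1 : ¬ conn g n 0 l := by
            intro h
            exact hni0 ((conn g n).trans hil ((conn g n).symm h))
          have h2 := (hUdown n hv0 hvl h1).1
          have h3 := hApN _ h2 l
          have h4 := (vx_iff.1 hvl).1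
          omega
        · exfalso
          rw [hbasel n hv0 hvl] at hncb
          exact hncb hil
      · have h1 := hdown n i hvi hni0 hil
        have h2 : n - g i ∈ Ap := (Finset.mem_filter.1 h1).1
        have h3 := hApN _ h2 i
        have h4 := (vx_iff.1 hvi).1
        omega

end Pool.Agent.Helper816.Count2
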