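import Mathlib

set_option autoImplicit false

open Finset

/-! Exactness of the Koszul complex of a regular sequence (elementary, explicit signs). -/

namespace Pool.Agent.Helper816.Koszul

variable {A : Type*} [CommRing A]

/-- The sign of inserting `j` into `G`: `(-1)^(number of elements of G smaller than j)`. -/
def ksign (A : Type*) [CommRing A] {e : ℕ} (j : Fin e) (G : Finset (Fin e)) : A :=
  (-1) ^ (G.filter (fun l => l < j)).card

/-- The Koszul differential `K_{i+1} → K_i`, where `K_i` is the set of functions from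
`i`-element subsets of `Fin e` to `A`. -/
def kd {e : ℕ} (f : Fin e → A) (i : ℕ) :
    ({F : Finset (Fin e) // F.card = i + 1} → A) →ₗ[A] ({F : Finset (Fin e) // F.card = i} → A) where
  toFun u G := ∑ j : Fin e, if h : j ∉ G.1 then
    ksign A j G.1 * f j * u ⟨insert j G.1, by rw [Finset.card_insert_of_notMem h, G.2]⟩ else 0
  map_add' u v := by
    funext G
    simp only [Pi.add_apply, ← Finset.sum_add_distrib]
    apply Finset.sum_congr rfl
    intro j _
    split_ifs <;> ring
  map_smul' a u := by
    funext G
    simp only [Pi.smul_apply, smul_eq_mul, RingHom.id_apply, Finset.mul_sum]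
    apply Finset.sum_congr rfl
    intro j _
    split_ifs <;> ring

/-- The total differential on functions on all subsets. -/
def kD {e : ℕ} (f : Fin e → A) (u : Finset (Fin e) → A) (G : Finset (Fin e)) : A :=
  ∑ j : Fin e, if j ∉ G then ksign A j G * f j * u (insert j G) else 0

theorem kD_congr {e : ℕ} (f : Fin e → A) (u v : Finset (Fin e) → A) (G : Finset (Fin e))
    (h : ∀ j, j ∉ G → u (insert j G) = v (insert j G)) : kD f u G = kD f v G := by
  unfold kD
  apply Finset.sum_congr rfl
  intro j _
  by_cases hj : j ∈ G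
  · rw [if_neg (by simpa using hj), if_neg (by simpa using hj)]
  · rw [if_pos hj, if_pos hj, h j hj]

theorem kD_add {e : ℕ} (f : Fin e → A) (u v : Finset (Fin e) → A) (G : Finset (Fin e)) :
    kD f (fun F => u F + v F) G = kD f u G + kD f v G := by
  unfold kD
  rw [← Finset.sum_add_distrib]
  apply Finset.sum_congr rfl
  intro j _
  split_ifs <;> ring

theorem kD_smul {e : ℕ} (f : Fin e → A) (a : A) (u : Finset (Fin e) → A) (G : Finset (Fin e)) :
    kD f (fun F => a * u F) G = a * kD f u G := by
  unfold kD
  rw [Finset.mul_sum]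
  apply Finset.sum_congr rfl
  intro j _
  split_ifs <;> ring

theorem kD_neg {e : ℕ} (f : Fin e → A) (u : Finset (Fin e) → A) (G : Finset (Fin e)) :
    kD f (fun F => - u F) G = - kD f u G := by
  unfold kD
  rw [← Finset.sum_neg_distrib]
  apply Finset.sum_congr rfl
  intro j _
  split_ifs <;> ring

/-- shift of a set -/
def up {e : ℕ} (G : Finset (Fin e)) : Finset (Fin (e + 1)) := G.map (Fin.succEmb e)

/-- down shift of a set -/
def dn {e : ℕ} (H : Finset (Fin (e + 1))) : Finset (Fin e) :=
  Finset.univ.filter (fun j => j.succ ∈ H)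

theorem zero_notMem_up {e : ℕ} (G : Finset (Fin e)) : (0 : Fin (e + 1)) ∉ up G := by
  simp [up]

theorem succ_mem_up {e : ℕ} (G : Finset (Fin e)) (j : Fin e) : j.succ ∈ up G ↔ j ∈ G := by
  simp [up]

theorem card_up {e : ℕ} (G : Finset (Fin e)) : (up G).card = G.card := by
  simp [up]

theorem dn_up {e : ℕ} (G : Finset (Fin e)) : dn (up G) = G := by
  ext j; simp [dn, succ_mem_up]

theorem dn_insert_up {e : ℕ} (G : Finset (Fin e)) : dn (insert 0 (up G)) = G := by
  ext j; simp [dn, succ_mem_up]

theorem up_dn {e : ℕ} (H : Finset (Fin (e + 1))) (h : (0 : Fin (e + 1)) ∉ H) : up (dn H) = H := by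
  ext j
  refine Fin.cases ?_ (fun j => ?_) j
  · exact iff_of_false (zero_notMem_up _) h
  · rw [succ_mem_up]; simp [dn]

theorem insert_up_dn {e : ℕ} (H : Finset (Fin (e + 1))) (h : (0 : Fin (e + 1)) ∈ H) :
    insert 0 (up (dn H)) = H := by
  ext j
  refine Fin.cases ?_ (fun j => ?_) j
  · simp [h]
  · rw [Finset.mem_insert, succ_mem_up]; simp [dn]

theorem up_insert {e : ℕ} (G : Finset (Fin e)) (j : Fin e) :
    insert j.succ (up G) = up (insert j G) := by
  ext k
  refine Fin.cases ?_ (fun k => ?_) k
  · simp [up]
  · rw [Finset.mem_insert, succ_mem_up, succ_mem_up, Finset.mem_insert, Fin.succ_inj]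

theorem ksign_up {e : ℕ} (j : Fin e) (G : Finset (Fin e)) :
    ksign A j.succ (up G) = ksign A j G := by
  unfold ksign
  congr 1
  rw [up, Finset.filter_map, Finset.card_map]
  congr 1
  ext l
  rw [Finset.mem_filter, Finset.mem_filter]
  simp only [Function.comp_apply, Fin.coe_succEmb, Fin.succ_lt_succ_iff]

theorem ksign_insert_up {e : ℕ} (j : Fin e) (G : Finset (Fin e)) :
    ksign A j.succ (insert 0 (up G)) = - ksign A j G := by
  rw [← ksign_up j G]
  unfold ksign
  rw [Finset.filter_insert, if_pos (Fin.succ_pos j), Finset.card_insert_of_notMem]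
  · ring
  · simp [zero_notMem_up]

theorem ksign_zero {e : ℕ} (G : Finset (Fin (e + 1))) : ksign A 0 G = 1 := by
  unfold ksign
  rw [Finset.filter_false_of_mem]
  · simp
  · intro l _; simp

theorem kD_up {e : ℕ} (f : Fin (e + 1) → A) (u : Finset (Fin (e + 1)) → A) (G : Finset (Fin e)) :
    kD f u (up G) = f 0 * u (insert 0 (up G)) +
      kD (fun j => f j.succ) (fun F => u (up F)) G := by
  unfold kD
  rw [Fin.sum_univ_succ]
  congr 1
  · rw [if_pos (zero_notMem_up G), ksign_zero, one_mul]
  · apply Finset.sum_congr rfl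
    intro j _
    rw [ksign_up, up_insert]
    simp only [succ_mem_up]

theorem kD_insert_up {e : ℕ} (f : Fin (e + 1) → A) (u : Finset (Fin (e + 1)) → A)
    (G : Finset (Fin e)) :
    kD f u (insert 0 (up G)) =
      - kD (fun j => f j.succ) (fun F => u (insert 0 (up F))) G := by
  unfold kD
  rw [Fin.sum_univ_succ, if_neg (by simp), zero_add, ← Finset.sum_neg_distrib]
  apply Finset.sum_congr rfl
  intro j _
  rw [ksign_insert_up, Finset.insert_comm, up_insert]
  have : (j.succ ∉ insert 0 (up G)) ↔ j ∉ G := by
    rw [Finset.mem_insert, succ_mem_up]; simp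
  by_cases hj : j ∈ G
  · rw [if_neg (by rw [this]; simpa using hj), if_neg (by simpa using hj), neg_zero]
  · rw [if_pos (by rw [this]; exact hj), if_pos hj]; ring

theorem kD_kD {e : ℕ} (f : Fin e → A) (u : Finset (Fin e) → A) (G : Finset (Fin e)) :
    kD f (kD f u) G = 0 := by
  induction e with
  | zero => unfold kD; simp
  | succ e ih =>
    by_cases h : (0 : Fin (e + 1)) ∈ G
    · rw [← insert_up_dn G h, kD_insert_up]
      have : (fun F => kD f u (insert 0 (up F))) = fun F =>
          - kD (fun j => f j.succ) (fun F => u (insert 0 (up F))) F := by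
        funext F; rw [kD_insert_up]
      rw [this, kD_neg, neg_neg, ih]
    · rw [← up_dn G h, kD_up]
      have : (fun F => kD f u (up F)) = fun F => f 0 * u (insert 0 (up F)) +
          kD (fun j => f j.succ) (fun F => u (up F)) F := by
        funext F; rw [kD_up]
      rw [this, kD_add, kD_smul, kD_insert_up, ih]
      ring

theorem kD_empty_mem {e : ℕ} (f : Fin e → A) (u : Finset (Fin e) → A) :
    kD f u ∅ ∈ Ideal.span (Set.range f) := by
  unfold kD
  apply Ideal.sum_mem
  intro j _
  rw [if_pos (Finset.notMem_empty j)]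
  exact Ideal.mul_mem_right _ _ (Ideal.mul_mem_left _ _ (Ideal.subset_span ⟨j, rfl⟩))

theorem exists_kD_empty {e : ℕ} (f : Fin e → A) (a : A) (ha : a ∈ Ideal.span (Set.range f)) :
    ∃ v : Finset (Fin e) → A, kD f v ∅ = a := by
  rw [Ideal.mem_span_range_iff_exists_fun] at ha
  obtain ⟨c, hc⟩ := ha
  refine ⟨fun F => ∑ j ∈ F, c j, ?_⟩
  unfold kD
  rw [← hc]
  apply Finset.sum_congr rfl
  intro j _
  simp [ksign]
  ring

theorem kD_exact {e : ℕ} (f : Fin e → A)
    (hreg : ∀ (j : Fin e) (a : A), f j * a ∈ Ideal.span (f '' {l | j < l}) →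
      a ∈ Ideal.span (f '' {l | j < l})) (i : ℕ) (u : Finset (Fin e) → A)
    (hu : ∀ G : Finset (Fin e), G.card = i → kD f u G = 0) :
    ∃ v : Finset (Fin e) → A, ∀ G : Finset (Fin e), G.card = i + 1 → kD f v G = u G := by
  induction e generalizing i with
  | zero =>
    refine ⟨0, fun G hG => ?_⟩
    have : G = ∅ := Subsingleton.elim _ _
    rw [this] at hG; simp at hG
  | succ e ih =>
    have himg : ∀ j : Fin e, (fun j : Fin e => f j.succ) '' {l | j < l} = f '' {l | j.succ < l} := by
      intro j
      ext x
      constructor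
      · rintro ⟨l, hl, rfl⟩
        exact ⟨l.succ, by simpa using hl, rfl⟩
      · rintro ⟨l, hl, rfl⟩
        revert hl
        refine Fin.cases ?_ (fun l => ?_) l
        · intro hl; exact absurd hl (by simp)
        · intro hl; exact ⟨l, by simpa using hl, rfl⟩
    have himg0 : Set.range (fun j : Fin e => f j.succ) = f '' {l | 0 < l} := by
      ext x
      constructor
      · rintro ⟨l, rfl⟩
        exact ⟨l.succ, by simp, rfl⟩
      · rintro ⟨l, hl, rfl⟩
        revert hl
        refine Fin.cases ?_ (fun l => ?_) l
        · intro hl; exact absurd hl (by simp)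
        · intro hl; exact ⟨l, rfl⟩
    have IH := fun i u hu => ih (fun j => f j.succ) (by
      intro j a ha
      rw [himg] at ha ⊢
      exact hreg j.succ a ha) i u hu
    -- first step: lift `u1`
    have h1 : ∃ v1 : Finset (Fin e) → A, ∀ G : Finset (Fin e), G.card = i →
        kD (fun j => f j.succ) v1 G = u (insert 0 (up G)) := by
      cases i with
      | zero =>
        have h0 := hu (up ∅) (by rw [card_up]; rfl)
        rw [kD_up] at h0
        have hm : f 0 * u (insert 0 (up ∅)) ∈ Ideal.span (f '' {l | 0 < l}) := by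
          rw [eq_neg_of_add_eq_zero_left h0, ← himg0]
          exact neg_mem (kD_empty_mem _ _)
        have hm2 := hreg 0 _ hm
        rw [← himg0] at hm2
        obtain ⟨v, hv⟩ := exists_kD_empty _ _ hm2
        refine ⟨v, fun G hG => ?_⟩
        rw [Finset.card_eq_zero] at hG
        rw [hG, hv]
      | succ i =>
        apply IH i
        intro G hG
        have := hu (insert 0 (up G)) (by
          rw [Finset.card_insert_of_notMem (zero_notMem_up G), card_up, hG])
        rw [kD_insert_up] at this
        exact neg_eq_zero.1 this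
    obtain ⟨v1, hv1⟩ := h1
    obtain ⟨w0, hw0⟩ := IH i (fun F => u (up F) + f 0 * v1 F) (by
      intro G hG
      rw [kD_add, kD_smul, hv1 G hG]
      have := hu (up G) (by rw [card_up, hG])
      rw [kD_up] at this
      rw [add_comm]; exact this)
    refine ⟨fun H => if 0 ∈ H then - v1 (dn H) else w0 (dn H), ?_⟩
    intro H hH
    by_cases h : (0 : Fin (e + 1)) ∈ H
    · have hc : (dn H).card = i := by
        have := hH
        rw [← insert_up_dn H h, Finset.card_insert_of_notMem (zero_notMem_up _), card_up] at this
        omega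
      rw [← insert_up_dn H h, kD_insert_up]
      have : (fun F => (fun H : Finset (Fin (e+1)) => if 0 ∈ H then - v1 (dn H) else w0 (dn H))
          (insert 0 (up F))) = fun F => - v1 F := by
        funext F
        simp only [Finset.mem_insert_self, if_true, dn_insert_up]
      rw [this, kD_neg, neg_neg, hv1 _ hc]
    · have hc : (dn H).card = i + 1 := by
        have := hH
        rw [← up_dn H h, card_up] at this
        exact this
      rw [← up_dn H h, kD_up]
      have : (fun F => (fun H : Finset (Fin (e+1)) => if 0 ∈ H then - v1 (dn H) else w0 (dn H))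
          (up F)) = fun F => w0 F := by
        funext F
        simp only [zero_notMem_up, if_false, dn_up]
      rw [this, hw0 _ hc]
      simp only [Finset.mem_insert_self, if_true, dn_insert_up]
      ring

/-- extension by zero -/
def ext0 {e : ℕ} (i : ℕ) (u : {F : Finset (Fin e) // F.card = i} → A) (F : Finset (Fin e)) : A :=
  if h : F.card = i then u ⟨F, h⟩ else 0

theorem kd_apply_eq {e : ℕ} (f : Fin e → A) (i : ℕ)
    (u : {F : Finset (Fin e) // F.card = i + 1} → A) (G : {F : Finset (Fin e) // F.card = i}) :
    kd f i u G = kD f (ext0 (i + 1) u) G.1 := by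
  unfold kD
  change (∑ j : Fin e, if h : j ∉ G.1 then
    ksign A j G.1 * f j * u ⟨insert j G.1, by rw [Finset.card_insert_of_notMem h, G.2]⟩ else 0) = _
  apply Finset.sum_congr rfl
  intro j _
  by_cases h : j ∈ G.1
  · rw [dif_neg (by simpa using h), if_neg (by simpa using h)]
  · rw [dif_pos h, if_pos h]
    unfold ext0
    rw [dif_pos (by rw [Finset.card_insert_of_notMem h, G.2])]

theorem kd_restrict {e : ℕ} (f : Fin e → A) (i : ℕ) (v : Finset (Fin e) → A)
    (G : {F : Finset (Fin e) // F.card = i}) :
    kd f i (fun F => v F.1) G = kD f v G.1 := by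
  rw [kd_apply_eq]
  apply kD_congr
  intro j hj
  unfold ext0
  rw [dif_pos (by rw [Finset.card_insert_of_notMem hj, G.2])]

/-- Exactness in positive degrees, for a sequence such that each `f j` is a nonzerodivisor modulo
the ideal generated by the later ones `f l`, `l > j`. (Induction on `e`: split the subsets of
`Fin (e+1)` according to whether they contain `0`; the complex is the mapping cone of
multiplication by `f 0` on the Koszul complex of `f ∘ Fin.succ`. A cycle is a pair `(u0, u1)` with
`u1` a cycle of the smaller complex, hence a boundary when its degree is positive, and in degree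
zero `f 0 * u1 ∈ span (f '' {l | 0 < l})` gives `u1 ∈ span (f '' {l | 0 < l})` by hypothesis.) -/
theorem koszul_exact {e : ℕ} (f : Fin e → A)
    (hreg : ∀ (j : Fin e) (a : A), f j * a ∈ Ideal.span (f '' {l | j < l}) →
      a ∈ Ideal.span (f '' {l | j < l})) (i : ℕ) :
    LinearMap.range (kd f (i + 1)) = LinearMap.ker (kd f i) := by
  apply le_antisymm
  · rintro _ ⟨v, rfl⟩
    rw [LinearMap.mem_ker]
    funext G
    have : kd f (i + 1) v = fun F => kD f (ext0 (i + 1 + 1) v) F.1 := by
      funext F; rw [kd_apply_eq]
    rw [this, kd_restrict, kD_kD]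
    rfl
  · intro u hu
    rw [LinearMap.mem_ker] at hu
    obtain ⟨v, hv⟩ := kD_exact f hreg i (ext0 (i + 1) u) (by
      intro G hG
      have := congrFun hu ⟨G, hG⟩
      rw [kd_apply_eq] at this
      exact this)
    refine ⟨fun F => v F.1, ?_⟩
    funext G
    rw [kd_restrict, hv G.1 G.2]
    unfold ext0
    rw [dif_pos G.2]

/-- The image in degree zero (no regularity needed). -/
theorem koszul_range_zero {e : ℕ} (f : Fin e → A) (u : {F : Finset (Fin e) // F.card = 0} → A) :
    u ∈ LinearMap.range (kd f 0) ↔ u ⟨∅, rfl⟩ ∈ Ideal.span (Set.range f) := by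
  constructor
  · rintro ⟨v, rfl⟩
    rw [kd_apply_eq]
    exact kD_empty_mem _ _
  · intro h
    obtain ⟨v, hv⟩ := exists_kD_empty f _ h
    refine ⟨fun F => v F.1, ?_⟩
    funext G
    obtain ⟨G, hG⟩ := G
    have hG' : G = ∅ := Finset.card_eq_zero.1 hG
    subst hG'
    rw [kd_restrict, hv]

end Pool.Agent.Helper816.Koszul
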