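import Mathlib

set_option autoImplicit false

open Finset MvPolynomial

namespace Pool.Agent.Helper816.Minimalize

variable {k : Type} [Field k] {σ : Type} [Fintype σ] [DecidableEq σ]

/-- The matrix of constant terms of `D`, as a `k`-linear map. -/
noncomputable def cst {X Y : Type} [Fintype X] [DecidableEq X] [Fintype Y]
    (D : (X → MvPolynomial σ k) →ₗ[MvPolynomial σ k] (Y → MvPolynomial σ k)) :
    (X → k) →ₗ[k] (Y → k) :=
  Matrix.mulVecLin (fun y x => constantCoeff (D (Pi.single x 1) y))

/-- The inclusion of the free module on `Fin h` given by basis vectors `x0 j`. -/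
noncomputable def incl {X : Type} [Fintype X] [DecidableEq X] {h : ℕ} (x0 : Fin h → X)
    (v : Fin h → MvPolynomial σ k) : X → MvPolynomial σ k :=
  ∑ j, v j • (Pi.single (x0 j) 1 : X → MvPolynomial σ k)

/-- homogeneity with shifts -/
def HomD (wt : σ → ℕ) (f : MvPolynomial σ k) (m n : ℕ) : Prop :=
  ∀ a, coeff a f ≠ 0 → Finsupp.weight wt a + m = n

omit [Fintype σ] in
lemma HomD.mul {wt : σ → ℕ} {f g : MvPolynomial σ k} {m n m' n' : ℕ}
    (hf : HomD wt f m n) (hg : HomD wt g m' n') : HomD wt (f * g) (m + m') (n + n') := by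
  intro a ha
  rw [coeff_mul] at ha
  obtain ⟨x, hx, hx'⟩ := Finset.exists_ne_zero_of_sum_ne_zero ha
  rw [Finset.HasAntidiagonal.mem_antidiagonal] at hx
  have h1 := hf x.1 (left_ne_zero_of_mul hx')
  have h2 := hg x.2 (right_ne_zero_of_mul hx')
  rw [← hx, map_add]
  omega

omit [Fintype σ] in
lemma HomD.one {wt : σ → ℕ} : HomD wt (1 : MvPolynomial σ k) 0 0 := by
  intro a ha
  rw [← C_1, coeff_C] at ha
  have : a = 0 := by
    by_contra h
    exact ha (by simp [Ne.symm h])
  subst this
  simp

omit [Fintype σ] in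
lemma HomD.prod {wt : σ → ℕ} {ι : Type} (s : Finset ι) (f : ι → MvPolynomial σ k) (m n : ι → ℕ)
    (h : ∀ i ∈ s, HomD wt (f i) (m i) (n i)) :
    HomD wt (∏ i ∈ s, f i) (∑ i ∈ s, m i) (∑ i ∈ s, n i) := by
  classical
  induction s using Finset.induction_on with
  | empty => simpa using HomD.one
  | insert a s ha ih =>
    rw [Finset.prod_insert ha, Finset.sum_insert ha, Finset.sum_insert ha]
    exact (h a (Finset.mem_insert_self _ _)).mul
      (ih fun i hi => h i (Finset.mem_insert_of_mem hi))

omit [Fintype σ] [DecidableEq σ] in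
lemma HomD.sum {wt : σ → ℕ} {ι : Type} (s : Finset ι) (f : ι → MvPolynomial σ k) (m n : ℕ)
    (h : ∀ i ∈ s, HomD wt (f i) m n) : HomD wt (∑ i ∈ s, f i) m n := by
  intro a ha
  rw [coeff_sum] at ha
  obtain ⟨x, hx, hx'⟩ := Finset.exists_ne_zero_of_sum_ne_zero ha
  exact h x hx a hx'

theorem det_unit (wt : σ → ℕ) (hwt : ∀ i, 0 < wt i) {Z : Type} [Fintype Z] [DecidableEq Z]
    (M : Matrix Z Z (MvPolynomial σ k)) (dr dc : Z → ℕ)
    (hM : ∀ i j, HomD wt (M i j) (dr i) (dc j))
    (h0 : constantCoeff M.det ≠ 0) : IsUnit M.det := by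
  have hh : HomD wt M.det (∑ i, dr i) (∑ i, dc i) := by
    rw [Matrix.det_apply]
    apply HomD.sum
    intro τ _
    have h1 : HomD wt (∏ i, M (τ i) i) (∑ i, dr i) (∑ i, dc i) := by
      have := HomD.prod (wt := wt) Finset.univ (fun i => M (τ i) i) (fun i => dr (τ i)) dc
        (fun i _ => hM _ _)
      rwa [Equiv.sum_comp τ dr] at this
    intro a ha
    apply h1 a
    intro h2
    apply ha
    rcases Int.units_eq_one_or (Equiv.Perm.sign τ) with h3 | h3
    · rw [h3]; simpa using h2
    · rw [h3]; simpa using h2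
  have h00 : coeff 0 M.det ≠ 0 := h0
  have hdeg := hh 0 h00
  rw [map_zero, zero_add] at hdeg
  have hC : M.det = C (constantCoeff M.det) := by
    ext a
    rw [coeff_C]
    split_ifs with h
    · rw [← h]; rfl
    · by_contra hne
      have h1 := hh a hne
      have h2 : Finsupp.weight wt a = 0 := by omega
      rw [Finsupp.weight_eq_sum] at h2
      apply h
      ext i
      have h3 := (Finset.sum_eq_zero_iff.1 h2) i (Finset.mem_univ i)
      have h4 := hwt i
      rw [smul_eq_mul] at h3
      rcases Nat.mul_eq_zero.1 h3 with h5 | h5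
      · simp [h5]
      · omega
  rw [hC]
  exact (IsUnit.mk0 _ h0).map C

/-- A square family of homogeneous vectors whose constant parts form a basis is a basis:
here in the form `the matrix is invertible`. -/
theorem isUnit_of_homogeneous (wt : σ → ℕ) (hwt : ∀ i, 0 < wt i) {X Z : Type} [Fintype X]
    [DecidableEq X] [Fintype Z] [DecidableEq Z] (degX : X → ℕ) (degZ : Z → ℕ)
    (u : Z → X → MvPolynomial σ k)
    (hu : ∀ z x a, coeff a (u z x) ≠ 0 → Finsupp.weight wt a + degX x = degZ z)
    (hli : LinearIndependent k (fun z x => constantCoeff (u z x)))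
    (hcard : Fintype.card Z = Fintype.card X) :
    LinearIndependent (MvPolynomial σ k) u ∧
      Submodule.span (MvPolynomial σ k) (Set.range u) = ⊤ := by
  set e : Z ≃ X := Fintype.equivOfCardEq hcard with he
  have hspan : Submodule.span k (Set.range (fun z x => constantCoeff (u z x))) = ⊤ := by
    apply hli.span_eq_top_of_card_eq_finrank'
    rw [hcard]; simp
  set b := (Pi.basisFun (MvPolynomial σ k) X).reindex e.symm with hb
  set b0 := (Pi.basisFun k X).reindex e.symm with hb0
  have h1 : IsUnit (b0.det (fun z x => constantCoeff (u z x))) :=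
    (b0.is_basis_iff_det).1 ⟨hli, hspan⟩
  rw [b.is_basis_iff_det, Module.Basis.det_apply]
  apply det_unit wt hwt (b.toMatrix u) (fun z => degX (e z)) degZ
  · intro i j a ha
    apply hu j (e i) a
    simpa [hb, Module.Basis.toMatrix_apply] using ha
  · have : constantCoeff (b.toMatrix u).det = (b0.toMatrix (fun z x => constantCoeff (u z x))).det := by
      rw [RingHom.map_det]
      congr 1
    rw [this, ← Module.Basis.det_apply]
    exact h1.ne_zero

end Pool.Agent.Helper816.Minimalize

namespace Pool.Agent.Helper816.Minimalize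

variable {k : Type} [Field k] {σ : Type} [Fintype σ] [DecidableEq σ]

/-- Extracting a basis of the span from a finite family. -/
lemma extract {V : Type} [AddCommGroup V] [Module k V] {ι : Type} [Finite ι] (v : ι → V) :
    ∃ (m : ℕ) (a : Fin m → ι), Function.Injective a ∧
      Submodule.span k (Set.range (v ∘ a)) = Submodule.span k (Set.range v) ∧
      LinearIndependent k (v ∘ a) := by
  obtain ⟨κ, a, h1, h2, h3⟩ := exists_linearIndependent' (K := k) v
  have : Finite κ := Finite.of_injective a h1
  obtain ⟨m, ⟨e⟩⟩ := Finite.exists_equiv_fin κ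
  refine ⟨m, a ∘ e.symm, h1.comp e.symm.injective, ?_, ?_⟩
  · rw [← h2, ← Function.comp_assoc, Set.range_comp (v ∘ a), e.symm.surjective.range_eq,
      Set.image_univ]
  · exact h3.comp _ e.symm.injective

/-- The constant part of a vector. -/
noncomputable def cp {X : Type} (v : X → MvPolynomial σ k) : X → k := fun x => constantCoeff (v x)

omit [Fintype σ] [DecidableEq σ] in
lemma cp_single {X : Type} [DecidableEq X] (x : X) :
    cp (Pi.single x 1 : X → MvPolynomial σ k) = Pi.single x 1 := by
  funext y
  unfold cp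
  by_cases h : y = x
  · subst h; simp
  · simp [h]

/-- Splitting off at one level. -/
lemma level (wt : σ → ℕ) (hwt : ∀ i, 0 < wt i) {X : Type} [Fintype X] [DecidableEq X]
    (degX : X → ℕ) {m m' : ℕ} (p : Fin m → X) (g : Fin m' → X → MvPolynomial σ k)
    (degG : Fin m' → ℕ)
    (hg : ∀ z x a, coeff a (g z x) ≠ 0 → Finsupp.weight wt a + degX x = degG z)
    (hli : LinearIndependent k (Sum.elim (fun z => (Pi.single (p z) 1 : X → k))
      (fun z => cp (g z)))) :
    ∃ (n : ℕ) (x0 : Fin n → X)
      (π : (X → MvPolynomial σ k) →ₗ[MvPolynomial σ k] (Fin n → MvPolynomial σ k)),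
      Function.Injective x0 ∧
      (∀ z, π (Pi.single (p z) 1) = 0) ∧ (∀ z, π (g z) = 0) ∧
      (∀ v, π v = 0 → ∃ (c : Fin m → MvPolynomial σ k) (c' : Fin m' → MvPolynomial σ k),
        v = ∑ z, c z • (Pi.single (p z) 1 : X → MvPolynomial σ k) + ∑ z, c' z • g z) ∧
      (∀ j, π (Pi.single (x0 j) 1) = Pi.single j 1) ∧
      (∀ v, cp v ∈ Submodule.span k (Set.range fun z => cp (g z)) →
        ∀ j, constantCoeff (π v j) = 0) ∧
      LinearIndependent (MvPolynomial σ k) g ∧
      n + m + m' = Fintype.card X ∧
      ∀ j, (Pi.single (x0 j) 1 : X → k) ∉ Submodule.span k (Set.range fun z => cp (g z)) := by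
  set f : Fin m ⊕ Fin m' → X → k := Sum.elim (fun z => (Pi.single (p z) 1 : X → k))
      (fun z => cp (g z)) with hf
  set W := Submodule.span k (Set.range f) with hW
  obtain ⟨n, x0, hinj, hsp, hli2⟩ := extract (k := k)
    (fun x : X => W.mkQ (Pi.single x 1 : X → k))
  -- the constant family
  have hfm : ∀ z, f z ∈ W := fun z => Submodule.subset_span ⟨z, rfl⟩
  have hf' : LinearIndependent k (fun z => (⟨f z, hfm z⟩ : W)) := by
    apply LinearIndependent.of_comp W.subtype
    exact hli
  have hU := LinearIndependent.sumElim_of_quotient hf'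
    (fun j => (Pi.single (x0 j) 1 : X → k)) hli2
  set Uk : (Fin m ⊕ Fin m') ⊕ Fin n → X → k :=
    Sum.elim f (fun j => (Pi.single (x0 j) 1 : X → k)) with hUk
  have hUli : LinearIndependent k Uk := hU
  have hUspan : Submodule.span k (Set.range Uk) = ⊤ := by
    rw [hUk, Set.Sum.elim_range, Submodule.span_union, ← hW]
    rw [eq_top_iff]
    rintro v -
    have h1 : W.mkQ v ∈ Submodule.span k (Set.range
        ((fun x : X => W.mkQ (Pi.single x 1 : X → k)) ∘ x0)) := by
      rw [hsp]
      have h2 : v = ∑ x, v x • (Pi.single x 1 : X → k) := by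
        funext y
        simp [Finset.sum_apply, Pi.single_apply]
      rw [h2, map_sum]
      refine Submodule.sum_mem _ fun x _ => ?_
      rw [map_smul]
      exact Submodule.smul_mem _ _ (Submodule.subset_span ⟨x, rfl⟩)
    have h3 : Set.range ((fun x : X => W.mkQ (Pi.single x 1 : X → k)) ∘ x0) =
        W.mkQ '' Set.range (fun j => (Pi.single (x0 j) 1 : X → k)) := by
      rw [← Set.range_comp]; rfl
    rw [h3, ← Submodule.map_span] at h1
    obtain ⟨w, hw, hw'⟩ := h1
    have h4 : v - w ∈ W := by
      have : W.mkQ (v - w) = 0 := by rw [map_sub, hw', sub_self]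
      rwa [Submodule.mkQ_apply, Submodule.Quotient.mk_eq_zero] at this
    have : v = (v - w) + w := by abel
    rw [this]
    exact Submodule.add_mem_sup h4 hw
  set bk := Module.Basis.mk hUli hUspan.ge with hbk
  have hcard : Fintype.card ((Fin m ⊕ Fin m') ⊕ Fin n) = Fintype.card X := by
    have h1 := Module.finrank_eq_card_basis bk
    rw [Module.finrank_fintype_fun_eq_card] at h1
    exact h1.symm
  -- the family over S
  set U : (Fin m ⊕ Fin m') ⊕ Fin n → X → MvPolynomial σ k :=
    Sum.elim (Sum.elim (fun z => Pi.single (p z) 1) g) (fun j => Pi.single (x0 j) 1) with hUdef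
  have hsing : ∀ (x y : X) (a : σ →₀ ℕ),
      coeff a ((Pi.single x 1 : X → MvPolynomial σ k) y) ≠ 0 →
      Finsupp.weight wt a + degX y = degX x := by
    intro x y a ha
    by_cases h : y = x
    · subst h
      rw [Pi.single_eq_same] at ha
      have := HomD.one (k := k) (wt := wt) a ha
      omega
    · rw [Pi.single_eq_of_ne h] at ha
      simp at ha
  have hcpU : (fun z x => constantCoeff (U z x)) = Uk := by
    funext z
    rcases z with (z | z) | z
    · exact cp_single (p z)
    · rfl
    · exact cp_single (x0 z)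
  obtain ⟨hSli, hSspan⟩ := isUnit_of_homogeneous wt hwt degX
    (Sum.elim (Sum.elim (fun z => degX (p z)) degG) (fun j => degX (x0 j))) U
    (by
      intro z x a ha
      rcases z with (z | z) | z
      · exact hsing _ _ _ ha
      · exact hg z x a ha
      · exact hsing _ _ _ ha)
    (by rw [hcpU]; exact hUli) hcard
  set b := Module.Basis.mk hSli hSspan.ge with hb
  have hbU : ∀ i, b i = U i := fun i => by rw [hb, Module.Basis.mk_apply]
  have hbkU : ∀ i, bk i = Uk i := fun i => by rw [hbk, Module.Basis.mk_apply]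
  set π : (X → MvPolynomial σ k) →ₗ[MvPolynomial σ k] (Fin n → MvPolynomial σ k) :=
    LinearMap.pi fun j => b.coord (Sum.inr j) with hπ
  have hπU : ∀ i j, π (U i) j = if i = Sum.inr j then 1 else 0 := by
    intro i j
    rw [← hbU i]
    simp only [hπ, LinearMap.pi_apply, Module.Basis.coord_apply, Module.Basis.repr_self]
    rw [Finsupp.single_apply]
  have hcpv : ∀ v : X → MvPolynomial σ k, ∀ j, bk.coord (Sum.inr j) (cp v) =
      constantCoeff (π v j) := by
    intro v j
    have h1 : v = ∑ i, b.repr v i • U i := by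
      conv_lhs => rw [← b.sum_repr v]
      simp only [hbU]
    have h2 : cp v = ∑ i, constantCoeff (b.repr v i) • bk i := by
      conv_lhs => rw [h1]
      funext x
      unfold cp
      rw [Finset.sum_apply, map_sum, Finset.sum_apply]
      refine Finset.sum_congr rfl fun i _ => ?_
      rw [Pi.smul_apply, Pi.smul_apply, smul_eq_mul, smul_eq_mul, map_mul, hbkU, ← hcpU]
    rw [h2, map_sum, Finset.sum_eq_single (Sum.inr j)]
    · rw [map_smul, Module.Basis.coord_apply, Module.Basis.repr_self, Finsupp.single_eq_same,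
        smul_eq_mul, mul_one]
      rfl
    · intro i _ hi
      rw [map_smul, Module.Basis.coord_apply, Module.Basis.repr_self,
        Finsupp.single_eq_of_ne (Ne.symm hi), smul_zero]
    · intro h; exact absurd (Finset.mem_univ _) h
  have hφ : ∀ j, ∀ w ∈ Submodule.span k (Set.range fun z => cp (g z)),
      bk.coord (Sum.inr j) w = 0 := by
    intro j w hw
    have : Submodule.span k (Set.range fun z => cp (g z)) ≤
        LinearMap.ker (bk.coord (Sum.inr j)) := by
      rw [Submodule.span_le]
      rintro _ ⟨z, rfl⟩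
      rw [SetLike.mem_coe, LinearMap.mem_ker]
      have : cp (g z) = bk (Sum.inl (Sum.inr z)) := by rw [hbkU]; rfl
      simp only [this]
      rw [Module.Basis.coord_apply, Module.Basis.repr_self, Finsupp.single_eq_of_ne (by simp)]
    exact this hw
  refine ⟨n, x0, π, hinj, ?_, ?_, ?_, ?_, ?_, ?_, ?_, ?_⟩
  · intro z
    funext j
    have := hπU (Sum.inl (Sum.inl z)) j
    have e : U (Sum.inl (Sum.inl z)) = Pi.single (p z) 1 := rfl
    rw [e] at this
    simpa using this
  · intro z
    funext j
    have := hπU (Sum.inl (Sum.inr z)) j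
    have e : U (Sum.inl (Sum.inr z)) = g z := rfl
    rw [e] at this
    simpa using this
  · intro v hv
    refine ⟨fun z => b.repr v (Sum.inl (Sum.inl z)), fun z => b.repr v (Sum.inl (Sum.inr z)), ?_⟩
    have h1 : v = ∑ i, b.repr v i • U i := by
      conv_lhs => rw [← b.sum_repr v]
      simp only [hbU]
    have h2 : ∀ j, b.repr v (Sum.inr j) = 0 := fun j => congrFun hv j
    conv_lhs => rw [h1]
    rw [Fintype.sum_sum_type, Fintype.sum_sum_type]
    simp only [h2, zero_smul, Finset.sum_const_zero, add_zero]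
    rfl
  · intro j
    funext j'
    have := hπU (Sum.inr j) j'
    have e : U (Sum.inr j) = Pi.single (x0 j) 1 := rfl
    rw [e] at this
    rw [this, Pi.single_apply]
    by_cases h : j = j'
    · simp [h]
    · have h' : ¬ (j' = j) := fun h2 => h h2.symm
      simp [h, h']
  · intro v hv j
    rw [← hcpv]
    exact hφ j _ hv
  · have := hSli.comp (Sum.inl ∘ Sum.inr : Fin m' → (Fin m ⊕ Fin m') ⊕ Fin n)
      (Sum.inl_injective.comp Sum.inr_injective)
    exact this
  · rw [Fintype.card_sum, Fintype.card_sum, Fintype.card_fin, Fintype.card_fin,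
      Fintype.card_fin] at hcard
    omega
  · intro j hj
    have h1 := hφ j _ hj
    have h2 : (Pi.single (x0 j) 1 : X → k) = bk (Sum.inr j) := by rw [hbkU]; rfl
    rw [h2, Module.Basis.coord_apply, Module.Basis.repr_self, Finsupp.single_eq_same] at h1
    exact one_ne_zero h1

end Pool.Agent.Helper816.Minimalize

namespace Pool.Agent.Helper816.Minimalize

variable {k : Type} [Field k] {σ : Type} [Fintype σ] [DecidableEq σ]

/-- `incl` as a linear map. -/
noncomputable def inclL {X : Type} [Fintype X] [DecidableEq X] {h : ℕ} (x0 : Fin h → X) :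
    (Fin h → MvPolynomial σ k) →ₗ[MvPolynomial σ k] (X → MvPolynomial σ k) :=
  Fintype.linearCombination (MvPolynomial σ k)
    (fun j => (Pi.single (x0 j) 1 : X → MvPolynomial σ k))

omit [Fintype σ] [DecidableEq σ] in
lemma inclL_apply {X : Type} [Fintype X] [DecidableEq X] {h : ℕ} (x0 : Fin h → X)
    (v : Fin h → MvPolynomial σ k) : inclL x0 v = incl x0 v := by
  unfold inclL incl
  rw [Fintype.linearCombination_apply]

omit [Fintype σ] [DecidableEq σ] in
lemma inclL_single {X : Type} [Fintype X] [DecidableEq X] {h : ℕ} (x0 : Fin h → X) (j : Fin h) :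
    inclL x0 (Pi.single j 1 : Fin h → MvPolynomial σ k) = Pi.single (x0 j) 1 := by
  unfold inclL
  rw [Fintype.linearCombination_apply_single, one_smul]

omit [Fintype σ] [DecidableEq σ] in
/-- Constant terms commute with the differential. -/
lemma cp_D {X Y : Type} [Fintype X] [DecidableEq X] [Fintype Y]
    (D : (X → MvPolynomial σ k) →ₗ[MvPolynomial σ k] (Y → MvPolynomial σ k))
    (v : X → MvPolynomial σ k) : cp (D v) = cst D (cp v) := by
  have h1 : v = ∑ x, v x • (Pi.single x 1 : X → MvPolynomial σ k) := by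
    funext y
    simp [Finset.sum_apply, Pi.single_apply]
  funext y
  unfold cst cp
  rw [Matrix.mulVecLin_apply, Matrix.mulVec, dotProduct]
  conv_lhs => rw [h1]
  rw [map_sum, Finset.sum_apply, map_sum]
  refine Finset.sum_congr rfl fun x _ => ?_
  rw [map_smul, Pi.smul_apply, smul_eq_mul, map_mul, mul_comm]

theorem minimalize (wt : σ → ℕ) (hwt : ∀ i, 0 < wt i)
    (X : ℕ → Type) [∀ i, Fintype (X i)] [∀ i, DecidableEq (X i)] (deg : ∀ i, X i → ℕ)
    (D : ∀ i, (X (i + 1) → MvPolynomial σ k) →ₗ[MvPolynomial σ k] (X i → MvPolynomial σ k))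
    (hhom : ∀ i x y a, coeff a (D i (Pi.single x 1) y) ≠ 0 →
      Finsupp.weight wt a + deg i y = deg (i + 1) x)
    (hex : ∀ i, LinearMap.range (D (i + 1)) = LinearMap.ker (D i)) :
    ∃ (h : ℕ → ℕ) (x0 : Fin (h 0) → X 0)
      (D' : ∀ i, (Fin (h (i + 1)) → MvPolynomial σ k) →ₗ[MvPolynomial σ k]
        (Fin (h i) → MvPolynomial σ k)),
      Function.Injective x0 ∧
      -- exactness
      (∀ i, LinearMap.range (D' (i + 1)) = LinearMap.ker (D' i)) ∧
      -- minimality
      (∀ i x y, constantCoeff (D' i (Pi.single x 1) y) = 0) ∧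
      -- the ranks
      (h 0 + Module.finrank k (LinearMap.range (cst (D 0))) = Fintype.card (X 0)) ∧
      (∀ i, h (i + 1) + Module.finrank k (LinearMap.range (cst (D i))) +
        Module.finrank k (LinearMap.range (cst (D (i + 1)))) = Fintype.card (X (i + 1))) ∧
      -- comparison of the cokernels in degree zero
      (∀ v, v ∈ LinearMap.range (D' 0) ↔ incl x0 v ∈ LinearMap.range (D 0)) ∧
      (∀ u, ∃ v, u - incl x0 v ∈ LinearMap.range (D 0)) ∧
      (∀ j, (Pi.single (x0 j) 1 : X 0 → k) ∉ LinearMap.range (cst (D 0))) := by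
  have hDD : ∀ i v, D i (D (i + 1) v) = 0 := by
    intro i v
    have : D (i + 1) v ∈ LinearMap.ker (D i) := by rw [← hex i]; exact ⟨v, rfl⟩
    exact this
  -- choose the pivots
  choose m p hpinj hpspan hpli using fun i =>
    extract (k := k) (fun x : X (i + 1) => cst (D i) (Pi.single x 1))
  have hrange : ∀ i, LinearMap.range (cst (D i)) =
      Submodule.span k (Set.range fun z => cp (D i (Pi.single (p i z) 1))) := by
    intro i
    have h1 : (fun z => cp (D i (Pi.single (p i z) 1))) =
        ((fun x : X (i + 1) => cst (D i) (Pi.single x 1)) ∘ p i) := by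
      funext z
      rw [cp_D, cp_single]; rfl
    rw [h1, hpspan i]
    apply le_antisymm
    · rintro _ ⟨v, rfl⟩
      have h2 : v = ∑ x, v x • (Pi.single x 1 : X (i + 1) → k) := by
        funext y
        simp [Finset.sum_apply, Pi.single_apply]
      rw [h2, map_sum]
      refine Submodule.sum_mem _ fun x _ => ?_
      rw [map_smul]
      exact Submodule.smul_mem _ _ (Submodule.subset_span ⟨x, rfl⟩)
    · rw [Submodule.span_le]
      rintro _ ⟨x, rfl⟩
      exact ⟨_, rfl⟩
  have hcpli : ∀ i, LinearIndependent k (fun z => cp (D i (Pi.single (p i z) 1))) := by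
    intro i
    have h1 : (fun z => cp (D i (Pi.single (p i z) 1))) =
        ((fun x : X (i + 1) => cst (D i) (Pi.single x 1)) ∘ p i) := by
      funext z
      rw [cp_D, cp_single]; rfl
    rw [h1]; exact hpli i
  have hrank : ∀ i, Module.finrank k (LinearMap.range (cst (D i))) = m i := by
    intro i
    rw [hrange i, finrank_span_eq_card (hcpli i), Fintype.card_fin]
  -- the inclusions of the pivots
  let Q : ∀ i, (Fin (m i) → MvPolynomial σ k) →ₗ[MvPolynomial σ k] (X (i + 1) → MvPolynomial σ k) :=
    fun i => inclL (p i)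
  let Em : ∀ i, Submodule (MvPolynomial σ k) (X i → MvPolynomial σ k) := fun i =>
    match i with
    | 0 => ⊥
    | i + 1 => LinearMap.range (Q i)
  let mm : ℕ → ℕ := fun i => match i with
    | 0 => 0
    | i + 1 => m i
  have hsumQ : ∀ i (c : Fin (m i) → MvPolynomial σ k),
      ∑ z, c z • D i (Pi.single (p i z) 1) = D i (Q i c) := by
    intro i c
    simp only [Q]
    rw [inclL_apply, incl, map_sum]
    exact Finset.sum_congr rfl fun z _ => by rw [map_smul]
  have hlev : ∀ i, ∃ (n : ℕ) (x0 : Fin n → X i)
      (π : (X i → MvPolynomial σ k) →ₗ[MvPolynomial σ k] (Fin n → MvPolynomial σ k)),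
      Function.Injective x0 ∧
      (∀ v ∈ Em i, π v = 0) ∧ (∀ q, π (D i (Q i q)) = 0) ∧
      (∀ v, π v = 0 → ∃ w ∈ Em i, ∃ q, v = w + D i (Q i q)) ∧
      (∀ j, π (Pi.single (x0 j) 1) = Pi.single j 1) ∧
      (∀ v, cp v ∈ LinearMap.range (cst (D i)) → ∀ j, constantCoeff (π v j) = 0) ∧
      (∀ q, D i (Q i q) = 0 → q = 0) ∧
      n + mm i + m i = Fintype.card (X i) ∧
      ∀ j, (Pi.single (x0 j) 1 : X i → k) ∉ LinearMap.range (cst (D i)) := by
    intro i
    cases i with
    | zero =>
      obtain ⟨n, x0, π, h1, h2, h3, h4, h5, h6, h7, h8, h9⟩ := level wt hwt (deg 0)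
        (m := 0) (fun z => z.elim0) (fun z => D 0 (Pi.single (p 0 z) 1))
        (fun z => deg 1 (p 0 z)) (fun z x a => hhom 0 (p 0 z) x a) (by
          have := hcpli 0
          rw [linearIndependent_sum]
          refine ⟨?_, ?_, ?_⟩
          · exact linearIndependent_empty_type
          · exact this
          · have : Set.range (Sum.elim (fun z : Fin 0 => (Pi.single (z.elim0 : X 0) 1 : X 0 → k))
              (fun z => cp (D 0 (Pi.single (p 0 z) 1))) ∘ Sum.inl) = ∅ := by
              rw [Set.range_eq_empty_iff]; infer_instance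
            rw [this, Submodule.span_empty]
            exact disjoint_bot_left)
      refine ⟨n, x0, π, h1, ?_, ?_, ?_, h5, ?_, ?_, ?_, ?_⟩
      · intro v hv
        have : v = 0 := hv
        rw [this, map_zero]
      · intro q
        rw [← hsumQ, map_sum]
        exact Finset.sum_eq_zero fun z _ => by rw [map_smul, h3, smul_zero]
      · intro v hv
        obtain ⟨c, c', hc⟩ := h4 v hv
        refine ⟨0, Submodule.zero_mem _, c', ?_⟩
        rw [hc, hsumQ]
        simp
      · intro v hv
        rw [hrange 0] at hv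
        exact h6 v hv
      · intro q hq
        rw [← hsumQ] at hq
        funext z
        exact (Fintype.linearIndependent_iff.1 h7) q hq z
      · exact h8
      · rw [hrange 0]; exact h9
    | succ i =>
      obtain ⟨n, x0, π, h1, h2, h3, h4, h5, h6, h7, h8, h9⟩ := level wt hwt (deg (i + 1))
        (p i) (fun z => D (i + 1) (Pi.single (p (i + 1) z) 1))
        (fun z => deg (i + 1 + 1) (p (i + 1) z))
        (fun z x a => hhom (i + 1) (p (i + 1) z) x a) (by
          rw [Fintype.linearIndependent_iff]
          intro c hc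
          rw [Fintype.sum_sum_type] at hc
          simp only [Sum.elim_inl, Sum.elim_inr] at hc
          have h1 := congrArg (cst (D i)) hc
          rw [map_add, map_sum, map_sum, map_zero] at h1
          have h2 : ∑ z, cst (D i) (c (Sum.inr z) • cp (D (i + 1) (Pi.single (p (i + 1) z) 1))) =
              0 := by
            refine Finset.sum_eq_zero fun z _ => ?_
            rw [map_smul, ← cp_D, hDD]
            have : cp (0 : X i → MvPolynomial σ k) = 0 := by
              funext y; simp [cp]
            rw [this, smul_zero]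
          rw [h2, add_zero] at h1
          have h3 : ∀ z, c (Sum.inl z) = 0 := by
            apply (Fintype.linearIndependent_iff.1 (hcpli i)) (fun z => c (Sum.inl z))
            rw [← h1]
            refine Finset.sum_congr rfl fun z _ => ?_
            rw [map_smul, cp_D, cp_single]
          simp only [h3, zero_smul, Finset.sum_const_zero, zero_add] at hc
          have h4 := (Fintype.linearIndependent_iff.1 (hcpli (i + 1)))
            (fun z => c (Sum.inr z)) hc
          rintro (z | z)
          · exact h3 z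
          · exact h4 z)
      refine ⟨n, x0, π, h1, ?_, ?_, ?_, h5, ?_, ?_, ?_, ?_⟩
      · rintro _ ⟨q, rfl⟩
        simp only [Q]
        rw [inclL_apply, incl, map_sum]
        exact Finset.sum_eq_zero fun z _ => by rw [map_smul, h2, smul_zero]
      · intro q
        rw [← hsumQ, map_sum]
        exact Finset.sum_eq_zero fun z _ => by rw [map_smul, h3, smul_zero]
      · intro v hv
        obtain ⟨c, c', hc⟩ := h4 v hv
        refine ⟨Q i c, ⟨c, rfl⟩, c', ?_⟩
        rw [hc, hsumQ]
        simp only [Q]
        rw [inclL_apply (p i) c, incl]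
      · intro v hv
        rw [hrange (i + 1)] at hv
        exact h6 v hv
      · intro q hq
        rw [← hsumQ] at hq
        funext z
        exact (Fintype.linearIndependent_iff.1 h7) q hq z
      · exact h8
      · rw [hrange (i + 1)]; exact h9
  choose h x0 π hinj hEm hDQ hker hπs hconst hQ hcard hnot using hlev
  have hπι : ∀ i v, π i (inclL (x0 i) v) = v := by
    intro i v
    rw [inclL_apply, incl, map_sum]
    have : v = ∑ j, v j • (Pi.single j 1 : Fin (h i) → MvPolynomial σ k) := by
      funext y
      simp [Finset.sum_apply, Pi.single_apply]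
    conv_rhs => rw [this]
    refine Finset.sum_congr rfl fun j _ => ?_
    rw [map_smul, hπs]
  let D' : ∀ i, (Fin (h (i + 1)) → MvPolynomial σ k) →ₗ[MvPolynomial σ k]
        (Fin (h i) → MvPolynomial σ k) := fun i => (π i).comp ((D i).comp (inclL (x0 (i + 1))))
  have hD' : ∀ i v, D' i v = π i (D i (inclL (x0 (i + 1)) v)) := fun i v => rfl
  have hkey : ∀ i v, π i (D i v) = D' i (π (i + 1) v) := by
    intro i v
    have h1 : π (i + 1) (v - inclL (x0 (i + 1)) (π (i + 1) v)) = 0 := by
      rw [map_sub, hπι, sub_self]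
    obtain ⟨w, ⟨q', hw⟩, q, hq⟩ := hker (i + 1) _ h1
    have h2 : D i (v - inclL (x0 (i + 1)) (π (i + 1) v)) = D i (Q i q') := by
      rw [hq, map_add, hDD, add_zero, ← hw]
    have h3 := congrArg (π i) h2
    rw [hDQ, map_sub, map_sub, sub_eq_zero] at h3
    rw [h3, hD']
  have hker0 : ∀ v, π 0 v = 0 → ∃ q, v = D 0 (Q 0 q) := by
    intro v hv
    obtain ⟨w, hw, q, hq⟩ := hker 0 v hv
    have hw0 : w = 0 := hw
    rw [hw0, zero_add] at hq
    exact ⟨q, hq⟩
  refine ⟨h, x0 0, D', hinj 0, ?_, ?_, ?_, ?_, ?_, ?_, ?_⟩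
  · intro i
    apply le_antisymm
    · rintro _ ⟨v, rfl⟩
      rw [LinearMap.mem_ker]
      have h1 := hkey i (D (i + 1) (inclL (x0 (i + 1 + 1)) v))
      rw [hDD, map_zero, hkey (i + 1), hπι] at h1
      exact h1.symm
    · intro v hv
      rw [LinearMap.mem_ker, hD'] at hv
      obtain ⟨w, hw, q, hq⟩ := hker i _ hv
      have hw0 : w = 0 := by
        cases i with
        | zero => exact hw
        | succ i =>
          obtain ⟨q', rfl⟩ := hw
          have h1 := congrArg (D i) hq
          rw [hDD, map_add, hDD, add_zero] at h1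
          rw [hQ i q' h1.symm, map_zero]
      rw [hw0, zero_add] at hq
      have h2 : inclL (x0 (i + 1)) v - Q i q ∈ LinearMap.ker (D i) := by
        rw [LinearMap.mem_ker, map_sub, hq, sub_self]
      rw [← hex i] at h2
      obtain ⟨z, hz⟩ := h2
      have h3 := congrArg (π (i + 1)) hz
      rw [map_sub, hπι, hEm (i + 1) (Q i q) ⟨q, rfl⟩, sub_zero, hkey] at h3
      exact ⟨_, h3⟩
  · intro i x y
    rw [hD', inclL_single]
    apply hconst i
    rw [cp_D]
    exact ⟨_, rfl⟩
  · have := hcard 0
    rw [hrank]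
    simp only [mm] at this
    omega
  · intro i
    have := hcard (i + 1)
    rw [hrank, hrank]
    simp only [mm] at this
    omega
  · intro v
    constructor
    · rintro ⟨w, rfl⟩
      rw [hD', ← inclL_apply]
      have h1 : π 0 (D 0 (inclL (x0 1) w) - inclL (x0 0) (π 0 (D 0 (inclL (x0 1) w)))) = 0 := by
        rw [map_sub, hπι, sub_self]
      obtain ⟨q, hq⟩ := hker0 _ h1
      have h2 : inclL (x0 0) (π 0 (D 0 (inclL (x0 1) w))) = D 0 (inclL (x0 1) w - Q 0 q) := by
        rw [map_sub, ← hq]
        abel
      exact ⟨_, h2.symm⟩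
    · rintro ⟨z, hz⟩
      rw [← inclL_apply] at hz
      have h3 := congrArg (π 0) hz
      rw [hπι, hkey] at h3
      exact ⟨_, h3⟩
  · intro u
    refine ⟨π 0 u, ?_⟩
    have h1 : π 0 (u - inclL (x0 0) (π 0 u)) = 0 := by
      rw [map_sub, hπι, sub_self]
    obtain ⟨q, hq⟩ := hker0 _ h1
    rw [inclL_apply] at hq
    rw [hq]
    exact ⟨_, rfl⟩
  · exact hnot 0

end Pool.Agent.Helper816.Minimalize
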