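import Mathlib
import Pool.Agent.Helper816.Count
import Pool.Agent.Helper816.Aring
import Pool.Agent.Helper816.Koszul

set_option autoImplicit false

open Finset MvPolynomial

namespace Pool.Agent.Helper816.Phi

open Pool.Agent.Helper816.Count Pool.Agent.Helper816.Aring Pool.Agent.Helper816.Koszul

section apery

variable {e : ℕ} {g : Fin (e + 1) → ℕ} {Ap : Finset ℕ}
  (hAp : ∀ n, n ∈ Ap ↔ Mem g n ∧ ¬ Adj g n 0 0)

include hAp

lemma apery_aux {a a' : ℕ} (ha : a ∈ Ap) (ha' : a' ∈ Ap) (hlt : a < a')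
    (hd : g 0 ∣ a' - a) : False := by
  have h1 := (hAp a).1 ha
  have h2 := (hAp a').1 ha'
  apply h2.2
  obtain ⟨q, hq⟩ := hd
  obtain ⟨x, hx⟩ := h1.1
  have hq0 : q ≠ 0 := by
    rintro rfl
    omega
  refine ⟨x + Pi.single 0 q, ?_, ?_, ?_⟩
  · rw [wt_add, wt_single, hx, mul_comm q]
    omega
  · simp; omega
  · simp; omega

lemma apery_unique {a a' n : ℕ} (ha : a ∈ Ap) (ha' : a' ∈ Ap) (h1 : a ≤ n ∧ g 0 ∣ n - a)
    (h2 : a' ≤ n ∧ g 0 ∣ n - a') : a = a' := by
  by_contra hne
  rcases Nat.lt_or_gt_of_ne hne with h | h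
  · apply apery_aux hAp ha ha' h
    have : a' - a = (n - a) - (n - a') := by omega
    rw [this]
    exact Nat.dvd_sub h1.2 h2.2
  · apply apery_aux hAp ha' ha h
    have : a - a' = (n - a') - (n - a) := by omega
    rw [this]
    exact Nat.dvd_sub h2.2 h1.2

lemma apery_exists (h0 : 0 < g 0) (n : ℕ) (hn : Mem g n) : ∃ a ∈ Ap, a ≤ n ∧ g 0 ∣ n - a := by
  induction n using Nat.strong_induction_on with
  | _ n ih =>
  by_cases h : Adj g n 0 0
  · obtain ⟨h1, h2⟩ := vx_iff.1 h
    obtain ⟨a, ha, ha1, ha2⟩ := ih (n - g 0) (by omega) h2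
    refine ⟨a, ha, by omega, ?_⟩
    have : n - a = (n - g 0 - a) + g 0 := by omega
    rw [this]
    exact Nat.dvd_add ha2 (dvd_refl _)
  · exact ⟨n, (hAp n).2 ⟨hn, h⟩, le_refl _, by simp⟩

end apery

variable (k : Type) [Field k] {e : ℕ} {g : Fin (e + 1) → ℕ} {Ap : Finset ℕ}
  (hAp : ∀ n, n ∈ Ap ↔ Mem g n ∧ ¬ Adj g n 0 0)

/-- The basis element `t^a`. -/
noncomputable def ta (a : Ap) : AA k g := C (tt k a.1 ((hAp a.1).1 a.2).1)

/-- `A` is free over `k[x_0..x_e]` on the `t^a`. -/
noncomputable def phi (v : Ap → MvPolynomial (Fin (e + 1)) k) : AA k g :=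
  ∑ a : Ap, th k g (v a) * ta k hAp a

lemma phi_add (v w : Ap → MvPolynomial (Fin (e + 1)) k) :
    phi k hAp (v + w) = phi k hAp v + phi k hAp w := by
  unfold phi
  rw [← Finset.sum_add_distrib]
  apply Finset.sum_congr rfl
  intro a _
  rw [Pi.add_apply, map_add, add_mul]

lemma phi_smul (r : MvPolynomial (Fin (e + 1)) k) (v : Ap → MvPolynomial (Fin (e + 1)) k) :
    phi k hAp (r • v) = th k g r * phi k hAp v := by
  unfold phi
  rw [Finset.mul_sum]
  apply Finset.sum_congr rfl
  intro a _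
  rw [Pi.smul_apply, smul_eq_mul, map_mul, mul_assoc]

lemma phi_zero : phi k hAp 0 = 0 := by
  unfold phi
  simp

lemma phi_neg (v : Ap → MvPolynomial (Fin (e + 1)) k) :
    phi k hAp (-v) = - phi k hAp v := by
  have h := phi_add k hAp v (-v)
  rw [add_neg_cancel, phi_zero] at h
  exact (neg_eq_of_add_eq_zero_right h.symm).symm

lemma phi_sum {ι : Type} (s : Finset ι) (v : ι → Ap → MvPolynomial (Fin (e + 1)) k) :
    phi k hAp (∑ i ∈ s, v i) = ∑ i ∈ s, phi k hAp (v i) := by
  classical
  induction s using Finset.induction_on with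
  | empty => simp [phi_zero]
  | insert a s ha ih => rw [Finset.sum_insert ha, Finset.sum_insert ha, phi_add, ih]

lemma phi_inj (h0 : 0 < g 0) (v w : Ap → MvPolynomial (Fin (e + 1)) k)
    (h : phi k hAp v = phi k hAp w) : v = w := by
  classical
  have key : ∀ (v : Ap → MvPolynomial (Fin (e + 1)) k) (a : Ap) (c : Fin (e + 1) →₀ ℕ),
      co k (phi k hAp v) (Finsupp.tail c) (a.1 + c 0 * g 0) = coeff c (v a) := by
    intro v a c
    unfold phi ta
    rw [co_sum, Finset.sum_eq_single a]
    · have h2 : a.1 + c 0 * g 0 - a.1 = c 0 * g 0 := by omega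
      rw [co_th k h0, h2, if_pos ⟨by omega, Dvd.intro_left _ rfl⟩, Nat.mul_div_cancel _ h0,
        Finsupp.cons_tail]
    · intro a' _ hne
      rw [co_th k h0, if_neg]
      intro h3
      apply hne
      apply Subtype.ext
      refine apery_unique hAp a'.2 a.2 h3 ⟨by omega, ?_⟩
      have h2 : a.1 + c 0 * g 0 - a.1 = c 0 * g 0 := by omega
      rw [h2]
      exact Dvd.intro_left _ rfl
    · intro h3
      exact absurd (Finset.mem_univ _) h3
  funext a
  ext c
  rw [← key v a c, ← key w a c, h]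

lemma phi_single [DecidableEq Ap] (a : Ap) (r : MvPolynomial (Fin (e + 1)) k) :
    phi k hAp (Pi.single a r) = th k g r * ta k hAp a := by
  unfold phi
  rw [Finset.sum_eq_single a]
  · rw [Pi.single_eq_same]
  · intro b _ hb
    rw [Pi.single_eq_of_ne hb, map_zero, zero_mul]
  · intro h3
    exact absurd (Finset.mem_univ _) h3

lemma tt_congr {n m : ℕ} (h : n = m) (hn : Mem g n) : tt k n hn = tt k m (h ▸ hn) := by
  subst h; rfl

lemma phi_surj (h0 : 0 < g 0) (p : AA k g) :
    ∃ v : Ap → MvPolynomial (Fin (e + 1)) k, phi k hAp v = p := by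
  classical
  induction p using MvPolynomial.induction_on' with
  | monomial b r =>
    have hbasic : ∀ (n : ℕ) (hn : Mem g n) (s : k),
        ∃ v : Ap → MvPolynomial (Fin (e + 1)) k, phi k hAp v = monomial b (s • tt k n hn) := by
      intro n hn s
      obtain ⟨a, ha, ha1, q, hq⟩ := apery_exists hAp h0 n hn
      refine ⟨Pi.single ⟨a, ha⟩ (monomial (Finsupp.cons q b) s), ?_⟩
      rw [phi_single, th_monomial]
      unfold ta
      rw [mul_comm, C_mul_monomial, Finsupp.tail_cons, mul_smul_comm, tt_mul]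
      congr 2
      apply tt_congr
      rw [Finsupp.cons_zero, mul_comm q]
      show a + g 0 * q = n
      omega
    have hr : r = ∑ n ∈ (r : Polynomial k).support.attach,
        ((r : Polynomial k).coeff n.1) • tt k n.1 (r.2 n.1 (Polynomial.mem_support_iff.1 n.2)) := by
      apply Subtype.ext
      rw [AddSubmonoidClass.coe_finsetSum]
      have h1 : ∀ n : {x // x ∈ (r : Polynomial k).support},
          ((((r : Polynomial k).coeff n.1) •
            tt k n.1 (r.2 n.1 (Polynomial.mem_support_iff.1 n.2)) : RR k g) : Polynomial k) =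
          Polynomial.monomial n.1 ((r : Polynomial k).coeff n.1) := by
        intro n
        show ((r : Polynomial k).coeff n.1) • (Polynomial.X ^ n.1) = _
        rw [Polynomial.smul_eq_C_mul, Polynomial.C_mul_X_pow_eq_monomial]
      rw [Finset.sum_congr rfl (fun n _ => h1 n)]
      rw [Finset.sum_attach (r : Polynomial k).support
        (fun n => Polynomial.monomial n ((r : Polynomial k).coeff n))]
      exact (r : Polynomial k).as_sum_support
    choose v hv using fun n : {x // x ∈ (r : Polynomial k).support} =>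
      hbasic n.1 (r.2 n.1 (Polynomial.mem_support_iff.1 n.2)) ((r : Polynomial k).coeff n.1)
    refine ⟨∑ n ∈ (r : Polynomial k).support.attach, v n, ?_⟩
    rw [phi_sum]
    conv_rhs => rw [hr]
    rw [map_sum]
    exact Finset.sum_congr rfl (fun n _ => hv n)
  | add p q hp hq =>
    obtain ⟨v, rfl⟩ := hp
    obtain ⟨w, rfl⟩ := hq
    exact ⟨v + w, phi_add k hAp v w⟩

/-- multiplication by `t^{g_j}` in the basis -/
noncomputable def mulT (Ap : Finset ℕ) (j : Fin e) (v : Ap → MvPolynomial (Fin (e + 1)) k) (b : Ap) :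
    MvPolynomial (Fin (e + 1)) k :=
  ∑ a : Ap, if b.1 ≤ a.1 + g j.succ ∧ g 0 ∣ a.1 + g j.succ - b.1 then
    X 0 ^ ((a.1 + g j.succ - b.1) / g 0) * v a else 0

lemma phi_mulT (h0 : 0 < g 0) (j : Fin e) (v : Ap → MvPolynomial (Fin (e + 1)) k) :
    phi k hAp (mulT k (g := g) Ap j v) = C (tt k (g j.succ) (mem_gen _)) * phi k hAp v := by
  classical
  unfold phi
  rw [Finset.mul_sum]
  have h1 : ∀ b : Ap, th k g (mulT k (g := g) Ap j v b) * ta k hAp b =
      ∑ a : Ap, if b.1 ≤ a.1 + g j.succ ∧ g 0 ∣ a.1 + g j.succ - b.1 then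
        C (tt k (g j.succ) (mem_gen _)) * (th k g (v a) * ta k hAp a) else 0 := by
    intro b
    unfold mulT
    rw [map_sum, Finset.sum_mul]
    apply Finset.sum_congr rfl
    intro a _
    split_ifs with h
    · rw [map_mul, map_pow, th_zero]
      unfold ta
      rw [← C_pow, tt_pow]
      have h2 : (C (tt k ((a.1 + g j.succ - b.1) / g 0 * g 0) (mem_mul (mem_gen 0) _)) : AA k g) *
          C (tt k b.1 ((hAp b.1).1 b.2).1) =
          C (tt k (g j.succ) (mem_gen _)) * C (tt k a.1 ((hAp a.1).1 a.2).1) := by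
        rw [← C_mul, ← C_mul, tt_mul, tt_mul]
        congr 1
        apply tt_congr
        rw [Nat.div_mul_cancel h.2]
        omega
      calc _ = ((C (tt k ((a.1 + g j.succ - b.1) / g 0 * g 0) (mem_mul (mem_gen 0) _)) : AA k g) *
          C (tt k b.1 ((hAp b.1).1 b.2).1)) * th k g (v a) := by ring
        _ = _ := by rw [h2]; ring
    · simp
  rw [Finset.sum_congr rfl (fun b _ => h1 b), Finset.sum_comm]
  apply Finset.sum_congr rfl
  intro a _
  obtain ⟨b, hb, hb1⟩ := apery_exists hAp h0 (a.1 + g j.succ)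
    (mem_add ((hAp a.1).1 a.2).1 (mem_gen _))
  rw [Finset.sum_eq_single (⟨b, hb⟩ : Ap)]
  · rw [if_pos hb1]
  · intro b' _ hne
    rw [if_neg]
    intro h3
    apply hne
    apply Subtype.ext
    exact apery_unique hAp b'.2 hb h3 hb1
  · intro h3
    exact absurd (Finset.mem_univ _) h3

end Pool.Agent.Helper816.Phi
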