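import Mathlib
import Pool.Agent.Helper816.Count
import Pool.Agent.Helper816.Aring
import Pool.Agent.Helper816.Koszul

set_option autoImplicit false

open Finset MvPolynomial

namespace Pool.Agent.Helper816.Reg

open Pool.Agent.Helper816.Count Pool.Agent.Helper816.Aring Pool.Agent.Helper816.Koszul

variable (k : Type) [Field k] {e : ℕ} {g : Fin (e + 1) → ℕ}

/-- Evaluate the variables `Y_l`, `l > j`. -/
noncomputable def psi (j : Fin e) : AA k g →ₐ[RR k g] AA k g :=
  aeval (fun l : Fin e => if j < l then C (tt k (g l.succ) (mem_gen _)) else X l)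

lemma psi_sub (j : Fin e) (a : AA k g) :
    a - psi k j a ∈ Ideal.span ((ff k g) '' {l | j < l}) := by
  induction a using MvPolynomial.induction_on with
  | C r =>
    have : psi k j (C r : AA k g) = C r := by
      unfold psi
      rw [aeval_C]
      rfl
    rw [this, sub_self]
    exact Ideal.zero_mem _
  | add p q hp hq =>
    have : p + q - psi k j (p + q) = (p - psi k j p) + (q - psi k j q) := by
      rw [map_add]; ring
    rw [this]
    exact Ideal.add_mem _ hp hq
  | mul_X p l hp =>
    have : p * X l - psi k j (p * X l) = X l * (p - psi k j p) + psi k j p * (X l - psi k j (X l)) := by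
      rw [map_mul]; ring
    rw [this]
    apply Ideal.add_mem
    · exact Ideal.mul_mem_left _ _ hp
    · apply Ideal.mul_mem_left
      have h1 : psi k j (X l : AA k g) = if j < l then C (tt k (g l.succ) (mem_gen _)) else X l := by
        unfold psi
        rw [aeval_X]
      rw [h1]
      split_ifs with h
      · exact Ideal.subset_span ⟨l, h, rfl⟩
      · rw [sub_self]
        exact Ideal.zero_mem _

lemma psi_ff (j l : Fin e) (h : j < l) : psi k j (ff k g l) = 0 := by
  unfold ff psi
  rw [map_sub, aeval_X, if_pos h, aeval_C]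
  exact sub_self _

lemma psi_ff_self (j : Fin e) : psi k j (ff k g j) = ff k g j := by
  unfold ff psi
  rw [map_sub, aeval_X, if_neg (lt_irrefl _), aeval_C]
  rfl

lemma ff_ne_zero (j : Fin e) : ff k g j ≠ 0 := by
  intro h
  have h1 := congrArg (coeff (Finsupp.single j 1)) h
  unfold ff at h1
  have h3 : ¬ ((0 : Fin e →₀ ℕ) = Finsupp.single j 1) := by
    intro h2
    have := congrFun (congrArg (fun f : Fin e →₀ ℕ => (f : Fin e → ℕ)) h2) j
    simp at this
  have h2 : coeff (Finsupp.single j 1) (X j - C (tt k (g j.succ) (mem_gen _)) : AA k g) = 1 - 0 := by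
    rw [coeff_sub, coeff_X_same, coeff_C, if_neg h3]
  rw [h2, coeff_zero] at h1
  have h4 : (1 : RR k g) - 0 = 1 := sub_zero _
  rw [h4] at h1
  exact one_ne_zero h1

lemma psi_span (j : Fin e) (a : AA k g) (ha : a ∈ Ideal.span ((ff k g) '' {l | j < l})) :
    psi k j a = 0 := by
  have : Ideal.span ((ff k g) '' {l | j < l}) ≤ RingHom.ker (psi k (g := g) j) := by
    rw [Ideal.span_le]
    rintro _ ⟨l, hl, rfl⟩
    exact psi_ff k j l hl
  exact this ha

theorem hreg (j : Fin e) (a : AA k g) (h : ff k g j * a ∈ Ideal.span ((ff k g) '' {l | j < l})) :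
    a ∈ Ideal.span ((ff k g) '' {l | j < l}) := by
  have h1 := psi_span k j _ h
  rw [map_mul, psi_ff_self] at h1
  have h2 : psi k j a = 0 := by
    rcases mul_eq_zero.1 h1 with h3 | h3
    · exact absurd h3 (ff_ne_zero k j)
    · exact h3
  have h3 := psi_sub k j a
  have h4 : a - psi k j a = a := by
    rw [h2]
    exact sub_zero a
  rw [h4] at h3
  exact h3

/-- Evaluate all the variables. -/
noncomputable def ev : AA k g →ₐ[RR k g] RR k g :=
  aeval (fun l : Fin e => tt k (g l.succ) (mem_gen _))

lemma ev_sub (a : AA k g) : a - C (ev k a) ∈ Ideal.span (Set.range (ff k g)) := by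
  induction a using MvPolynomial.induction_on with
  | C r =>
    have : ev k (C r : AA k g) = r := by
      unfold ev
      rw [aeval_C]
      rfl
    rw [this, sub_self]
    exact Ideal.zero_mem _
  | add p q hp hq =>
    have : p + q - C (ev k (p + q)) = (p - C (ev k p)) + (q - C (ev k q)) := by
      rw [map_add, map_add]; ring
    rw [this]
    exact Ideal.add_mem _ hp hq
  | mul_X p l hp =>
    have : p * X l - C (ev k (p * X l)) =
        X l * (p - C (ev k p)) + C (ev k p) * (X l - C (ev k (X l))) := by
      rw [map_mul, map_mul]; ring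
    rw [this]
    apply Ideal.add_mem
    · exact Ideal.mul_mem_left _ _ hp
    · apply Ideal.mul_mem_left
      have h1 : ev k (X l : AA k g) = tt k (g l.succ) (mem_gen _) := by
        unfold ev
        rw [aeval_X]
      rw [h1]
      exact Ideal.subset_span ⟨l, rfl⟩

lemma mem_span_iff (a : AA k g) : a ∈ Ideal.span (Set.range (ff k g)) ↔ ev k a = 0 := by
  constructor
  · intro ha
    have : Ideal.span (Set.range (ff k g)) ≤ RingHom.ker (ev k (g := g)) := by
      rw [Ideal.span_le]
      rintro _ ⟨l, rfl⟩
      show ev k (ff k g l) = 0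
      unfold ff ev
      rw [map_sub, aeval_X, aeval_C]
      exact sub_self _
    exact this ha
  · intro h
    have h1 := ev_sub k a
    have h4 : a - C (ev k a) = a := by
      rw [h, map_zero]
      exact sub_zero a
    rw [h4] at h1
    exact h1

lemma ev_th (v : MvPolynomial (Fin (e + 1)) k) :
    ((ev k (th k g v) : RR k g) : Polynomial k) =
      aeval (R := k) (fun i : Fin (e + 1) => (Polynomial.X : Polynomial k) ^ g i) v := by
  induction v using MvPolynomial.induction_on with
  | C r =>
    rw [th_C]
    unfold ev
    rw [aeval_C, aeval_C]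
    rfl
  | add p q hp hq =>
    rw [map_add, map_add, map_add, ← hp, ← hq]
    rfl
  | mul_X p l hp =>
    rw [map_mul, map_mul, map_mul, ← hp]
    have h1 : ((ev k (th k g (X l)) : RR k g) : Polynomial k) = Polynomial.X ^ g l := by
      refine Fin.cases ?_ (fun j => ?_) l
      · rw [th_zero]
        unfold ev
        rw [aeval_C]
        rfl
      · rw [th_succ]
        unfold ev
        rw [aeval_X]
        rfl
    rw [aeval_X, ← h1]
    rfl

/-- membership of the image in the ideal of the sequence -/
theorem th_mem (v : MvPolynomial (Fin (e + 1)) k) :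
    th k g v ∈ Ideal.span (Set.range (ff k g)) ↔
      aeval (R := k) (fun i : Fin (e + 1) => (Polynomial.X : Polynomial k) ^ g i) v = 0 := by
  rw [mem_span_iff, ← ev_th]
  constructor
  · intro h
    rw [h]
    rfl
  · intro h
    exact Subtype.ext h

end Pool.Agent.Helper816.Reg
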