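import Mathlib
import Pool.Agent.Helper816.Count
import Pool.Agent.Helper816.Aring
import Pool.Agent.Helper816.Koszul
import Pool.Agent.Helper816.Phi
import Pool.Agent.Helper816.Reg
import Pool.Agent.Helper816.Minimalize

set_option autoImplicit false

open Finset MvPolynomial

namespace Pool.Agent.Helper816.Reso

open Pool.Agent.Helper816.Count Pool.Agent.Helper816.Aring Pool.Agent.Helper816.Koszul
  Pool.Agent.Helper816.Phi Pool.Agent.Helper816.Reg Pool.Agent.Helper816.Minimalize

/-- Basis of the `i`-th module. -/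
abbrev XX (e : ℕ) (Ap : Finset ℕ) (i : ℕ) : Type := Ap × {F : Finset (Fin e) // F.card = i}

variable (k : Type) [Field k] {e : ℕ} {g : Fin (e + 1) → ℕ} {Ap : Finset ℕ}

/-- insertion -/
def ins {i : ℕ} (G : {F : Finset (Fin e) // F.card = i}) (j : Fin e) (h : j ∉ G.1) :
    {F : Finset (Fin e) // F.card = i + 1} :=
  ⟨insert j G.1, by rw [Finset.card_insert_of_notMem h, G.2]⟩

lemma mulT_add (j : Fin e) (v w : Ap → MvPolynomial (Fin (e + 1)) k) (b : Ap) :
    mulT k (g := g) Ap j (v + w) b = mulT k (g := g) Ap j v b + mulT k (g := g) Ap j w b := by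
  unfold mulT
  rw [← Finset.sum_add_distrib]
  apply Finset.sum_congr rfl
  intro a _
  split_ifs
  · rw [Pi.add_apply, mul_add]
  · simp

lemma mulT_smul (j : Fin e) (r : MvPolynomial (Fin (e + 1)) k)
    (v : Ap → MvPolynomial (Fin (e + 1)) k) (b : Ap) :
    mulT k (g := g) Ap j (r • v) b = r * mulT k (g := g) Ap j v b := by
  unfold mulT
  rw [Finset.mul_sum]
  apply Finset.sum_congr rfl
  intro a _
  split_ifs
  · rw [Pi.smul_apply, smul_eq_mul]; ring
  · simp

variable (g Ap)

/-- The differential of the (non-minimal) resolution. -/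
noncomputable def DD (i : ℕ) : (XX e Ap (i + 1) → MvPolynomial (Fin (e + 1)) k)
    →ₗ[MvPolynomial (Fin (e + 1)) k] (XX e Ap i → MvPolynomial (Fin (e + 1)) k) where
  toFun u x := ∑ j : Fin e, if h : j ∉ x.2.1 then
    ksign (MvPolynomial (Fin (e + 1)) k) j x.2.1 * (X j.succ * u (x.1, ins x.2 j h) -
      mulT k (g := g) Ap j (fun a => u (a, ins x.2 j h)) x.1) else 0
  map_add' u v := by
    funext x
    simp only [Pi.add_apply, ← Finset.sum_add_distrib]
    apply Finset.sum_congr rfl
    intro j _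
    split_ifs with h
    · simp
    · have := mulT_add k (g := g) j (fun a => u (a, ins x.2 j h)) (fun a => v (a, ins x.2 j h)) x.1
      have h2 : (fun a => u (a, ins x.2 j h) + v (a, ins x.2 j h)) =
        (fun a => u (a, ins x.2 j h)) + (fun a => v (a, ins x.2 j h)) := rfl
      rw [h2, this]
      ring
  map_smul' r u := by
    funext x
    simp only [Pi.smul_apply, smul_eq_mul, RingHom.id_apply, Finset.mul_sum]
    apply Finset.sum_congr rfl
    intro j _
    split_ifs with h
    · simp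
    · have := mulT_smul k (g := g) j r (fun a => u (a, ins x.2 j h)) x.1
      have h2 : (fun a => r * u (a, ins x.2 j h)) = r • (fun a => u (a, ins x.2 j h)) := rfl
      rw [h2, this]
      ring

variable {g Ap}

lemma DD_apply (i : ℕ) (u : XX e Ap (i + 1) → MvPolynomial (Fin (e + 1)) k) (x : XX e Ap i) :
    DD k g Ap i u x = ∑ j : Fin e, if h : j ∉ x.2.1 then
      ksign (MvPolynomial (Fin (e + 1)) k) j x.2.1 * (X j.succ * u (x.1, ins x.2 j h) -
        mulT k (g := g) Ap j (fun a => u (a, ins x.2 j h)) x.1) else 0 := rfl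

lemma kd_apply {A : Type*} [CommRing A] (f : Fin e → A) (i : ℕ)
    (u : {F : Finset (Fin e) // F.card = i + 1} → A) (G : {F : Finset (Fin e) // F.card = i}) :
    kd f i u G = ∑ j : Fin e, if h : j ∉ G.1 then
      ksign A j G.1 * f j * u (ins G j h) else 0 := rfl

variable (hAp : ∀ n, n ∈ Ap ↔ Mem g n ∧ ¬ Adj g n 0 0)

/-- The comparison with the Koszul complex. -/
noncomputable def PH (i : ℕ) (u : XX e Ap i → MvPolynomial (Fin (e + 1)) k)
    (F : {F : Finset (Fin e) // F.card = i}) : AA k g :=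
  phi k hAp (fun a => u (a, F))

lemma PH_inj (h0 : 0 < g 0) (i : ℕ) (u v : XX e Ap i → MvPolynomial (Fin (e + 1)) k)
    (h : PH k hAp i u = PH k hAp i v) : u = v := by
  funext x
  obtain ⟨a, F⟩ := x
  have h1 := congrFun h F
  have h2 := phi_inj k hAp h0 _ _ h1
  exact congrFun h2 a

lemma PH_surj (h0 : 0 < g 0) (i : ℕ) (p : {F : Finset (Fin e) // F.card = i} → AA k g) :
    ∃ u : XX e Ap i → MvPolynomial (Fin (e + 1)) k, PH k hAp i u = p := by
  choose v hv using fun F => phi_surj k hAp h0 (p F)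
  exact ⟨fun x => v x.2 x.1, funext fun F => hv F⟩

lemma th_ksign (j : Fin e) (G : Finset (Fin e)) :
    th k g (ksign (MvPolynomial (Fin (e + 1)) k) j G) = ksign (AA k g) j G := by
  unfold ksign
  rw [map_pow, map_neg, map_one]

lemma PH_comm (h0 : 0 < g 0) (i : ℕ) (u : XX e Ap (i + 1) → MvPolynomial (Fin (e + 1)) k) :
    PH k hAp i (DD k g Ap i u) = kd (ff k g) i (PH k hAp (i + 1) u) := by
  funext G
  rw [kd_apply]
  unfold PH
  have h1 : (fun a => DD k g Ap i u (a, G)) = ∑ j : Fin e, (fun a : Ap => if h : j ∉ G.1 then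
      ksign (MvPolynomial (Fin (e + 1)) k) j G.1 * (X j.succ * u (a, ins G j h) -
        mulT k (g := g) Ap j (fun a => u (a, ins G j h)) a) else 0) := by
    funext a
    rw [DD_apply, Finset.sum_apply]
  rw [h1, phi_sum]
  apply Finset.sum_congr rfl
  intro j _
  by_cases h : j ∈ G.1
  · have h2 : (fun a : Ap => if h : j ∉ G.1 then
      ksign (MvPolynomial (Fin (e + 1)) k) j G.1 * (X j.succ * u (a, ins G j h) -
        mulT k (g := g) Ap j (fun a => u (a, ins G j h)) a) else 0) = 0 := by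
      funext a
      rw [dif_neg (by simpa using h)]
      rfl
    rw [h2, phi_zero, dif_neg (by simpa using h)]
  · have h2 : (fun a : Ap => if h : j ∉ G.1 then
      ksign (MvPolynomial (Fin (e + 1)) k) j G.1 * (X j.succ * u (a, ins G j h) -
        mulT k (g := g) Ap j (fun a => u (a, ins G j h)) a) else 0) =
      ksign (MvPolynomial (Fin (e + 1)) k) j G.1 •
        ((X j.succ : MvPolynomial (Fin (e + 1)) k) • (fun a : Ap => u (a, ins G j h)) +
        -(mulT k (g := g) Ap j (fun a => u (a, ins G j h)))) := by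
      funext a
      rw [dif_pos h]
      simp only [Pi.smul_apply, Pi.add_apply, Pi.neg_apply, smul_eq_mul]
      ring
    rw [h2, phi_smul, phi_add, phi_smul, phi_neg, phi_mulT k hAp h0, dif_pos h, th_ksign, th_succ]
    unfold ff
    ring

include hAp in
theorem DD_exact (h0 : 0 < g 0) (i : ℕ) :
    LinearMap.range (DD k g Ap (i + 1)) = LinearMap.ker (DD k g Ap i) := by
  have hz : ∀ i, PH k hAp i (0 : XX e Ap i → MvPolynomial (Fin (e + 1)) k) = 0 := by
    intro i
    funext F
    exact phi_zero k hAp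
  have hk := koszul_exact (ff k g) (hreg k) i
  apply le_antisymm
  · rintro _ ⟨v, rfl⟩
    rw [LinearMap.mem_ker]
    apply PH_inj k hAp h0
    rw [PH_comm k hAp h0, PH_comm k hAp h0, hz]
    have h1 : kd (ff k g) (i + 1) (PH k hAp (i + 1 + 1) v) ∈ LinearMap.ker (kd (ff k g) i) := by
      rw [← hk]
      exact ⟨_, rfl⟩
    exact h1
  · intro u hu
    rw [LinearMap.mem_ker] at hu
    have h1 : PH k hAp (i + 1) u ∈ LinearMap.ker (kd (ff k g) i) := by
      rw [LinearMap.mem_ker, ← PH_comm k hAp h0, hu, hz]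
    rw [← hk] at h1
    obtain ⟨w, hw⟩ := h1
    obtain ⟨z, rfl⟩ := PH_surj k hAp h0 (i + 1 + 1) w
    refine ⟨z, ?_⟩
    apply PH_inj k hAp h0
    rw [PH_comm k hAp h0, hw]

/-- the image in degree zero -/
theorem DD_zero (h0 : 0 < g 0) (u : XX e Ap 0 → MvPolynomial (Fin (e + 1)) k) :
    u ∈ LinearMap.range (DD k g Ap 0) ↔
      phi k hAp (fun a => u (a, ⟨∅, Finset.card_empty⟩)) ∈ Ideal.span (Set.range (ff k g)) := by
  refine Iff.trans ?_ (koszul_range_zero (ff k g) (PH k hAp 0 u))
  constructor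
  · rintro ⟨v, rfl⟩
    exact ⟨_, (PH_comm k hAp h0 0 v).symm⟩
  · rintro ⟨w, hw⟩
    obtain ⟨z, rfl⟩ := PH_surj k hAp h0 1 w
    refine ⟨z, ?_⟩
    apply PH_inj k hAp h0
    rw [PH_comm k hAp h0]
    exact hw

end Pool.Agent.Helper816.Reso
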