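import Mathlib
import Pool.Agent.Helper816.Count
import Pool.Agent.Helper816.Koszul
import Pool.Agent.Helper816.Phi
import Pool.Agent.Helper816.Reso
import Pool.Agent.Helper816.Minimalize

set_option autoImplicit false

open Finset MvPolynomial

namespace Pool.Agent.Helper816.Cst

open Pool.Agent.Helper816.Count Pool.Agent.Helper816.Koszul
  Pool.Agent.Helper816.Phi Pool.Agent.Helper816.Reso Pool.Agent.Helper816.Minimalize

section hom

variable {k : Type} [Field k] {σ : Type}

lemma HomD_zero (wt : σ → ℕ) (m n : ℕ) : HomD wt (0 : MvPolynomial σ k) m n := by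
  intro a ha
  exact absurd (coeff_zero a) ha

lemma HomD_neg {wt : σ → ℕ} {f : MvPolynomial σ k} {m n : ℕ} (h : HomD wt f m n) :
    HomD wt (-f) m n := by
  intro a ha
  apply h a
  intro h2
  apply ha
  rw [coeff_neg, h2, neg_zero]

lemma HomD_sub {wt : σ → ℕ} {f f' : MvPolynomial σ k} {m n : ℕ} (h : HomD wt f m n)
    (h' : HomD wt f' m n) : HomD wt (f - f') m n := by
  intro a ha
  rw [coeff_sub] at ha
  by_cases h2 : coeff a f = 0
  · apply h' a
    intro h3
    apply ha
    rw [h2, h3, sub_zero]
  · exact h a h2

lemma HomD_pow (wt : σ → ℕ) (i : σ) (q m n : ℕ) (h : q * wt i + m = n) :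
    HomD wt (X i ^ q : MvPolynomial σ k) m n := by
  classical
  intro a ha
  rw [coeff_X_pow] at ha
  by_cases h2 : Finsupp.single i q = a
  · rw [← h2, Finsupp.weight_single, smul_eq_mul]
    exact h
  · exact absurd (if_neg h2) ha

lemma HomD_sign [DecidableEq σ] (wt : σ → ℕ) (q : ℕ) :
    HomD wt ((-1) ^ q : MvPolynomial σ k) 0 0 := by
  induction q with
  | zero => rw [pow_zero]; exact HomD.one
  | succ q ih =>
    rw [pow_succ]
    exact ih.mul (HomD_neg HomD.one)

end hom

variable (k : Type) [Field k] {e : ℕ} {g : Fin (e + 1) → ℕ} {Ap : Finset ℕ}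

/-- degrees of the basis elements -/
def dg (g : Fin (e + 1) → ℕ) (Ap : Finset ℕ) (i : ℕ) (x : XX e Ap i) : ℕ :=
  x.1.1 + ∑ j ∈ x.2.1, g j.succ

theorem homog (i : ℕ) (x : XX e Ap (i + 1)) (y : XX e Ap i) :
    HomD g (DD k g Ap i (Pi.single x 1) y) (dg g Ap i y) (dg g Ap (i + 1) x) := by
  classical
  rw [DD_apply]
  apply HomD.sum
  intro j _
  by_cases h : j ∈ y.2.1
  · rw [dif_neg (by simpa using h)]
    exact HomD_zero _ _ _
  · rw [dif_pos h]
    have hins : ∑ l ∈ (ins y.2 j h).1, g l.succ = g j.succ + ∑ l ∈ y.2.1, g l.succ := by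
      show ∑ l ∈ insert j y.2.1, g l.succ = _
      rw [Finset.sum_insert h]
    have key : HomD g (X j.succ * (Pi.single x 1 : XX e Ap (i + 1) → MvPolynomial (Fin (e + 1)) k)
        (y.1, ins y.2 j h) - mulT k (g := g) Ap j
        (fun a => (Pi.single x 1 : XX e Ap (i + 1) → MvPolynomial (Fin (e + 1)) k)
          (a, ins y.2 j h)) y.1) (dg g Ap i y) (dg g Ap (i + 1) x) := by
      apply HomD_sub
      · by_cases hx : (y.1, ins y.2 j h) = x
        · rw [← hx, Pi.single_eq_same, mul_one, ← pow_one (X j.succ)]
          apply HomD_pow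
          unfold dg
          simp only
          rw [hins]
          ring
        · rw [Pi.single_eq_of_ne hx, mul_zero]
          exact HomD_zero _ _ _
      · unfold mulT
        apply HomD.sum
        intro a _
        split_ifs with hc
        · by_cases hx : (a, ins y.2 j h) = x
          · rw [← hx]
            simp only
            rw [Pi.single_eq_same, mul_one]
            apply HomD_pow
            unfold dg
            simp only
            rw [hins, Nat.div_mul_cancel hc.2]
            omega
          · simp only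
            rw [Pi.single_eq_of_ne hx, mul_zero]
            exact HomD_zero _ _ _
        · exact HomD_zero _ _ _
    have h2 := (HomD_sign (k := k) g (y.2.1.filter (fun l => l < j)).card).mul key
    rw [zero_add, zero_add] at h2
    exact h2

theorem cst_DD (i : ℕ) (v : XX e Ap (i + 1) → k) (y : XX e Ap i) :
    cst (DD k g Ap i) v y = ∑ j : Fin e, if h : j ∉ y.2.1 then
      ksign k j y.2.1 * -(∑ a : Ap, if y.1.1 = a.1 + g j.succ then v (a, ins y.2 j h) else 0)
      else 0 := by
  classical
  have h1 : cp (fun x => C (v x) : XX e Ap (i + 1) → MvPolynomial (Fin (e + 1)) k) = v := by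
    funext x
    unfold cp
    rw [constantCoeff_C]
  have h2 := cp_D (DD k g Ap i) (fun x => C (v x) : XX e Ap (i + 1) → MvPolynomial (Fin (e + 1)) k)
  rw [h1] at h2
  rw [← h2]
  unfold cp
  rw [DD_apply, map_sum]
  apply Finset.sum_congr rfl
  intro j _
  by_cases h : j ∈ y.2.1
  · rw [dif_neg (by simpa using h), dif_neg (by simpa using h), map_zero]
  · rw [dif_pos h, dif_pos h, map_mul, map_sub, map_mul, constantCoeff_X, zero_mul, zero_sub]
    congr 1
    · unfold ksign
      rw [map_pow, map_neg, map_one]
    · congr 1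
      unfold mulT
      rw [map_sum]
      apply Finset.sum_congr rfl
      intro a _
      by_cases hc : y.1.1 = a.1 + g j.succ
      · rw [if_pos ⟨hc.le, by rw [hc]; simp⟩, if_pos hc, map_mul, map_pow, constantCoeff_X, hc,
          Nat.sub_self, Nat.zero_div, pow_zero, one_mul, constantCoeff_C]
      · rw [if_neg hc]
        split_ifs with hd
        · rw [map_mul, map_pow, constantCoeff_X, zero_pow, zero_mul]
          intro h4
          apply hc
          have h5 := Nat.div_mul_cancel hd.2
          rw [h4, zero_mul] at h5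
          omega
        · rw [map_zero]

end Pool.Agent.Helper816.Cst
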