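import Mathlib
import Pool.Agent.Helper816.Count
import Pool.Agent.Helper816.Koszul
import Pool.Agent.Helper816.Phi
import Pool.Agent.Helper816.Reso
import Pool.Agent.Helper816.Minimalize
import Pool.Agent.Helper816.Cst

set_option autoImplicit false

open Finset MvPolynomial

namespace Pool.Agent.Helper816.Rank

open Pool.Agent.Helper816.Count Pool.Agent.Helper816.Koszul
  Pool.Agent.Helper816.Phi Pool.Agent.Helper816.Reso Pool.Agent.Helper816.Minimalize
  Pool.Agent.Helper816.Cst

lemma rank_ge {k : Type} [Field k] {J X Y : Type} [Fintype J] [Fintype X] [Fintype Y]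
    (δ : (X → k) →ₗ[k] (Y → k)) (inc : J → X) (hinj : Function.Injective inc)
    (h : ∀ v : X → k, (∀ x, x ∉ Set.range inc → v x = 0) → δ v = 0 → v = 0) :
    Fintype.card J ≤ Module.finrank k (LinearMap.range δ) := by
  classical
  let ι : (J → k) →ₗ[k] (X → k) := Function.ExtendByZero.linearMap k inc
  have hι : ∀ v, ι v = Function.extend inc v 0 := fun v => rfl
  have h1 : Function.Injective (δ.comp ι) := by
    rw [← LinearMap.ker_eq_bot, LinearMap.ker_eq_bot']
    intro v hv
    have h2 : ι v = 0 := by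
      apply h
      · intro x hx
        rw [hι, Function.extend_apply']
        · rfl
        · intro ⟨j, hj⟩
          exact hx ⟨j, hj⟩
      · exact hv
    funext j
    have h3 := congrFun h2 (inc j)
    rw [hι, hinj.extend_apply] at h3
    exact h3
  have h2 := LinearMap.finrank_range_of_inj h1
  rw [Module.finrank_fintype_fun_eq_card] at h2
  rw [← h2]
  apply Submodule.finrank_mono
  exact LinearMap.range_comp_le_range _ _

section main

variable (k : Type) [Field k] {c : ℕ} {g : Fin (c + 1 + 1) → ℕ} {Ap : Finset ℕ}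
  (hAp : ∀ n, n ∈ Ap ↔ Mem g n ∧ ¬ Adj g n 0 0)
  (hg : StrictMono g) (h0 : 0 < g 0)
  (hmin : ∀ i i' a, Mem g a → a + g i' = g i → i' = i ∧ a = 0)

/-- the support condition -/
def PJ (g : Fin (c + 1 + 1) → ℕ) (Ap : Finset ℕ) {i : ℕ} (x : XX (c + 1) Ap i) : Prop :=
  (Fin.last c ∈ x.2.1 ∧ x.1.1 + g (Fin.last c).succ ∈ Ap) ∨ (Fin.last c ∉ x.2.1 ∧ x.1.1 = 0)

lemma ksign_ne {j : Fin (c + 1)} (G : Finset (Fin (c + 1))) : ksign k j G ≠ 0 := by
  unfold ksign
  exact pow_ne_zero _ (neg_ne_zero.2 one_ne_zero)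

include hAp hg hmin in
theorem kill (i : ℕ) (v : XX (c + 1) Ap (i + 1) → k) (hv : ∀ x, v x ≠ 0 → PJ g Ap x)
    (hδ : cst (DD k g Ap i) v = 0) : v = 0 := by
  classical
  funext x
  by_contra hne
  have hx := hv x hne
  have eq := fun y => congrFun hδ y
  obtain ⟨⟨a0, ha0⟩, F0, hF0⟩ := x
  rcases hx with ⟨h1, h2⟩ | ⟨h1, h2⟩
  · simp only at h1 h2
    have hcard : (F0.erase (Fin.last c)).card = i := by
      rw [Finset.card_erase_of_mem h1, hF0]; rfl
    have h3 := eq (⟨a0 + g (Fin.last c).succ, h2⟩, ⟨F0.erase (Fin.last c), hcard⟩)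
    rw [cst_DD, Finset.sum_eq_single (Fin.last c)] at h3
    · rw [dif_pos (Finset.notMem_erase _ _), Finset.sum_eq_single (⟨a0, ha0⟩ : Ap)] at h3
      · rw [if_pos rfl] at h3
        have h4 : (ins (⟨F0.erase (Fin.last c), hcard⟩ : {F : Finset (Fin (c + 1)) // F.card = i})
            (Fin.last c) (Finset.notMem_erase _ _)) = ⟨F0, hF0⟩ := by
          apply Subtype.ext
          exact Finset.insert_erase h1
        rw [h4] at h3
        rcases mul_eq_zero.1 h3 with h5 | h5
        · exact ksign_ne k _ h5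
        · exact hne (neg_eq_zero.1 h5)
      · intro a _ hane
        rw [if_neg]
        intro h5
        apply hane
        apply Subtype.ext
        simp only at h5 ⊢
        omega
      · intro h5
        exact absurd (Finset.mem_univ _) h5
    · intro j _ hj
      by_cases hjF : j ∈ F0.erase (Fin.last c)
      · rw [dif_neg (by simpa using hjF)]
      · rw [dif_pos hjF, Finset.sum_eq_zero, neg_zero, mul_zero]
        intro a _
        split_ifs with h5
        · by_contra hne2
          rcases hv _ hne2 with ⟨h6, _⟩ | ⟨_, h6⟩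
          · have h7 : Fin.last c ∈ insert j (F0.erase (Fin.last c)) := h6
            rw [Finset.mem_insert] at h7
            rcases h7 with h7 | h7
            · exact hj h7.symm
            · exact Finset.notMem_erase _ _ h7
          · simp only at h5 h6
            have h7 : j < Fin.last c := lt_of_le_of_ne (Fin.le_last j) hj
            have h8 : g j.succ < g (Fin.last c).succ := hg (Fin.succ_lt_succ_iff.2 h7)
            omega
        · rfl
    · intro h5
      exact absurd (Finset.mem_univ _) h5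
  · simp only at h1 h2
    obtain ⟨j0, hj0⟩ : F0.Nonempty := by
      rw [← Finset.card_pos, hF0]
      exact Nat.succ_pos i
    have hcard : (F0.erase j0).card = i := by
      rw [Finset.card_erase_of_mem hj0, hF0]; rfl
    have hgAp : g j0.succ ∈ Ap := by
      rw [hAp]
      refine ⟨Aring.mem_gen _, ?_⟩
      intro h3
      obtain ⟨h4, h5⟩ := vx_iff.1 h3
      have h6 := hmin j0.succ 0 (g j0.succ - g 0) h5 (by omega)
      exact absurd h6.1.symm (Fin.succ_ne_zero j0)
    have h3 := eq (⟨g j0.succ, hgAp⟩, ⟨F0.erase j0, hcard⟩)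
    rw [cst_DD, Finset.sum_eq_single j0] at h3
    · rw [dif_pos (Finset.notMem_erase _ _), Finset.sum_eq_single (⟨a0, ha0⟩ : Ap)] at h3
      · rw [if_pos (by simp only; omega)] at h3
        have h4 : (ins (⟨F0.erase j0, hcard⟩ : {F : Finset (Fin (c + 1)) // F.card = i})
            j0 (Finset.notMem_erase _ _)) = ⟨F0, hF0⟩ := by
          apply Subtype.ext
          exact Finset.insert_erase hj0
        rw [h4] at h3
        rcases mul_eq_zero.1 h3 with h5 | h5
        · exact ksign_ne k _ h5
        · exact hne (neg_eq_zero.1 h5)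
      · intro a _ hane
        rw [if_neg]
        intro h5
        apply hane
        apply Subtype.ext
        simp only at h5 ⊢
        omega
      · intro h5
        exact absurd (Finset.mem_univ _) h5
    · intro j _ hj
      by_cases hjF : j ∈ F0.erase j0
      · rw [dif_neg (by simpa using hjF)]
      · rw [dif_pos hjF, Finset.sum_eq_zero, neg_zero, mul_zero]
        intro a _
        rw [if_neg]
        intro h5
        have h6 := hmin j0.succ j.succ a.1 ((hAp a.1).1 a.2).1 (by simp only at h5; omega)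
        exact hj (Fin.succ_injective _ h6.1)
    · intro h5
      exact absurd (Finset.mem_univ _) h5

lemma last_notMem (F : Finset (Fin c)) : Fin.last c ∉ F.map Fin.castSuccEmb := by
  simp [Fin.castSucc_ne_last]

/-- the index type -/
abbrev JJ (g : Fin (c + 1 + 1) → ℕ) (Ap : Finset ℕ) (i : ℕ) : Type :=
  ({a : Ap // a.1 + g (Fin.last c).succ ∈ Ap} × {F : Finset (Fin c) // F.card = i}) ⊕
    {F : Finset (Fin c) // F.card = i + 1}

/-- the inclusion -/
def inc (h0Ap : 0 ∈ Ap) (i : ℕ) : JJ g Ap i → XX (c + 1) Ap (i + 1)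
  | Sum.inl x => (x.1.1, ⟨insert (Fin.last c) (x.2.1.map Fin.castSuccEmb), by
      rw [Finset.card_insert_of_notMem (last_notMem _), Finset.card_map, x.2.2]⟩)
  | Sum.inr F => (⟨0, h0Ap⟩, ⟨F.1.map Fin.castSuccEmb, by rw [Finset.card_map, F.2]⟩)

lemma inc_inj (h0Ap : 0 ∈ Ap) (i : ℕ) : Function.Injective (inc (g := g) h0Ap i) := by
  rintro (⟨x, F⟩ | F) (⟨x', F'⟩ | F') h
  · unfold inc at h
    simp only [Prod.mk.injEq, Subtype.mk.injEq] at h
    obtain ⟨h1, h2⟩ := h
    have h3 : F.1.map Fin.castSuccEmb = F'.1.map Fin.castSuccEmb := by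
      have h4 := congrArg (fun s => Finset.erase s (Fin.last c)) h2
      rwa [Finset.erase_insert (last_notMem _), Finset.erase_insert (last_notMem _)] at h4
    have h5 := Finset.map_injective _ h3
    have h6 : x = x' := Subtype.ext h1
    rw [h6, Subtype.ext h5]
  · unfold inc at h
    simp only [Prod.mk.injEq, Subtype.mk.injEq] at h
    exfalso
    apply last_notMem F'.1
    rw [← h.2]
    exact Finset.mem_insert_self _ _
  · unfold inc at h
    simp only [Prod.mk.injEq, Subtype.mk.injEq] at h
    exfalso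
    apply last_notMem F.1
    rw [h.2]
    exact Finset.mem_insert_self _ _
  · unfold inc at h
    simp only [Prod.mk.injEq, Subtype.mk.injEq] at h
    rw [Subtype.ext (Finset.map_injective _ h.2)]

lemma inc_PJ (h0Ap : 0 ∈ Ap) (i : ℕ) (x : JJ g Ap i) : PJ g Ap (inc (g := g) h0Ap i x) := by
  rcases x with ⟨x, F⟩ | F
  · left
    exact ⟨Finset.mem_insert_self _ _, x.2⟩
  · right
    exact ⟨last_notMem _, rfl⟩

include hAp hg h0 hmin in
theorem rank_lower (i : ℕ) :
    Fintype.card {a : Ap // a.1 + g (Fin.last c).succ ∈ Ap} * c.choose i + c.choose (i + 1) ≤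
      Module.finrank k (LinearMap.range (cst (DD k g Ap i))) := by
  classical
  have h0Ap : 0 ∈ Ap := by
    rw [hAp]
    refine ⟨mem_zero, not_adj_zero ?_ _ _⟩
    intro i
    exact lt_of_lt_of_le h0 (hg.monotone (Fin.zero_le i))
  have h1 := rank_ge (cst (DD k g Ap i)) (inc (g := g) h0Ap i) (inc_inj h0Ap i) (by
    intro v hv hδ
    apply kill k hAp hg hmin i v _ hδ
    intro x hx
    by_contra hP
    apply hx
    apply hv
    rintro ⟨y, rfl⟩
    exact hP (inc_PJ h0Ap i y))
  refine le_trans (le_of_eq ?_) h1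
  rw [Fintype.card_sum, Fintype.card_prod, Fintype.card_finset_len, Fintype.card_finset_len,
    Fintype.card_fin]

include hAp in
lemma card_up (B : Finset ℕ)
    (hB : ∀ n, n ∈ B ↔ Mem g n ∧ ¬ Adj g n 0 0 ∧ ¬ Adj g n (Fin.last (c + 1)) (Fin.last (c + 1))) :
    Ap.card ≤ Fintype.card {a : Ap // a.1 + g (Fin.last c).succ ∈ Ap} + B.card := by
  classical
  have hsub : B ⊆ Ap := by
    intro n hn
    rw [hB] at hn
    rw [hAp]
    exact ⟨hn.1, hn.2.1⟩
  have h1 : (Ap \ B).card ≤ Fintype.card {a : Ap // a.1 + g (Fin.last c).succ ∈ Ap} := by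
    have hmem : ∀ n ∈ Ap \ B, n - g (Fin.last c).succ ∈ Ap ∧ g (Fin.last c).succ ≤ n := by
      intro n hn
      rw [Finset.mem_sdiff] at hn
      obtain ⟨h2, h3⟩ := hn
      have h4 := (hAp n).1 h2
      have h5 : Adj g n (Fin.last (c + 1)) (Fin.last (c + 1)) := by
        by_contra h6
        exact h3 ((hB n).2 ⟨h4.1, h4.2, h6⟩)
      rw [← Fin.succ_last] at h5
      obtain ⟨h6, h7⟩ := vx_iff.1 h5
      refine ⟨?_, h6⟩
      rw [hAp]
      refine ⟨h7, ?_⟩
      intro h8
      have h9 := adj_add (i := (Fin.last c).succ) h8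
      rw [Nat.sub_add_cancel h6] at h9
      exact h4.2 h9.right
    have h2 : Fintype.card (Ap \ B : Finset ℕ) ≤
        Fintype.card {a : Ap // a.1 + g (Fin.last c).succ ∈ Ap} := by
      apply Fintype.card_le_of_injective (fun n : (Ap \ B : Finset ℕ) =>
        (⟨⟨n.1 - g (Fin.last c).succ, (hmem n.1 n.2).1⟩, by
          show n.1 - g (Fin.last c).succ + g (Fin.last c).succ ∈ Ap
          rw [Nat.sub_add_cancel (hmem n.1 n.2).2]
          exact (Finset.mem_sdiff.1 n.2).1⟩ :
          {a : Ap // a.1 + g (Fin.last c).succ ∈ Ap}))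
      intro n n' h
      simp only [Subtype.mk.injEq] at h
      have h3 := (hmem n.1 n.2).2
      have h4 := (hmem n'.1 n'.2).2
      apply Subtype.ext
      omega
    simpa using h2
  have h2 := Finset.card_sdiff_add_card_eq_card hsub
  omega

end main

end Pool.Agent.Helper816.Rank
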