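import Mathlib
import Pool.Agent.Helper816.Growth
import Pool.Agent.Helper816.Count

set_option autoImplicit false

open Finset
open scoped Pointwise

namespace Pool.Agent.Helper816.Residues

open Pool.Agent.Helper816.Growth Pool.Agent.Helper816.Count

variable {e : ℕ} {g : Fin (e + 1) → ℕ}

/-- The length of a factorization. -/
def len (a : Fin (e + 1) → ℕ) : ℕ := ∑ i, a i

/-- The total excess of a factorization. -/
def exc (g : Fin (e + 1) → ℕ) (a : Fin (e + 1) → ℕ) : ℕ := ∑ i, a i * (g i - g 0)

lemma wt_eq (hg : StrictMono g) (a : Fin (e + 1) → ℕ) :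
    wt g a = len a * g 0 + exc g a := by
  unfold wt len exc
  rw [Finset.sum_mul, ← Finset.sum_add_distrib]
  apply Finset.sum_congr rfl
  intro i _
  have h : g 0 ≤ g i := hg.monotone (Fin.zero_le i)
  rw [← mul_add]
  congr 1
  omega

lemma len_add (a b : Fin (e + 1) → ℕ) : len (a + b) = len a + len b := by
  simp [len, Finset.sum_add_distrib]

lemma len_single (i : Fin (e + 1)) (k : ℕ) : len (Pi.single i k) = k := by
  unfold len
  rw [Finset.sum_eq_single i]
  · simp
  · intro j _ hj
    simp [Pi.single_eq_of_ne hj]
  · simp

lemma exc_add (a b : Fin (e + 1) → ℕ) : exc g (a + b) = exc g a + exc g b := by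
  simp [exc, add_mul, Finset.sum_add_distrib]

lemma exc_single (i : Fin (e + 1)) (k : ℕ) : exc g (Pi.single i k) = k * (g i - g 0) := by
  unfold exc
  rw [Finset.sum_eq_single i]
  · simp
  · intro j _ hj
    simp [Pi.single_eq_of_ne hj]
  · simp

lemma exc_le (hg : StrictMono g) {a : Fin (e + 1) → ℕ} (ha : a (Fin.last e) = 0) :
    exc g a ≤ len a * (g (Fin.last e) - g 0 - 1) := by
  unfold exc len
  rw [Finset.sum_mul]
  apply Finset.sum_le_sum
  intro i _
  by_cases hi : i = Fin.last e
  · rw [hi, ha]; simp
  · apply Nat.mul_le_mul_left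
    have h1 : g i < g (Fin.last e) := hg (lt_of_le_of_ne (Fin.le_last i) hi)
    omega

lemma div_lt (hg : StrictMono g) (hw : 0 < g (Fin.last e) - g 0) {a : Fin (e + 1) → ℕ}
    (ha : a (Fin.last e) = 0) (hlen : 0 < len a) :
    exc g a / (g (Fin.last e) - g 0) < len a := by
  rw [Nat.div_lt_iff_lt_mul hw]
  have h1 := exc_le hg ha
  have h2 : len a * (g (Fin.last e) - g 0 - 1) < len a * (g (Fin.last e) - g 0) :=
    Nat.mul_lt_mul_of_pos_left (by omega) hlen
  omega

lemma div_le (hg : StrictMono g) (hw : 0 < g (Fin.last e) - g 0) {a : Fin (e + 1) → ℕ}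
    (ha : a (Fin.last e) = 0) :
    exc g a / (g (Fin.last e) - g 0) ≤ len a := by
  rcases Nat.eq_zero_or_pos (len a) with h | h
  · have h1 := exc_le hg ha
    rw [h, zero_mul] at h1
    have h2 : exc g a = 0 := by omega
    rw [h2, Nat.zero_div]
    exact Nat.zero_le _
  · exact (div_lt hg hw ha h).le

lemma nat_aux (w x y α : ℕ) (h : y / w = x / w + α) (hm : x % w = y % w) : y = x + w * α := by
  have hx := Nat.div_add_mod x w
  have hy := Nat.div_add_mod y w
  rw [h, ← hm, mul_add] at hy
  linarith

/-- Domination: an element of `B` does not dominate anything but itself. -/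
lemma dominate (hg : StrictMono g) {a u : Fin (e + 1) → ℕ}
    (hB0 : ¬ Adj g (wt g a) 0 0) (hBl : ¬ Adj g (wt g a) (Fin.last e) (Fin.last e))
    (hres : exc g u % (g (Fin.last e) - g 0) = exc g a % (g (Fin.last e) - g 0))
    (hku : exc g u / (g (Fin.last e) - g 0) ≤ len u)
    (h1 : exc g u / (g (Fin.last e) - g 0) ≤ exc g a / (g (Fin.last e) - g 0))
    (h2 : len u - exc g u / (g (Fin.last e) - g 0) ≤ len a - exc g a / (g (Fin.last e) - g 0))
    (hka : exc g a / (g (Fin.last e) - g 0) ≤ len a) :
    wt g a = wt g u ∧ len a = len u ∧ exc g a = exc g u := by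
  obtain ⟨α, hα⟩ := Nat.exists_eq_add_of_le h1
  obtain ⟨β, hβ⟩ := Nat.exists_eq_add_of_le h2
  have hM : g (Fin.last e) = g 0 + (g (Fin.last e) - g 0) := by
    have := hg.monotone (Fin.zero_le (Fin.last e))
    omega
  have hla : len a = len u + α + β := by omega
  have hea : exc g a = exc g u + (g (Fin.last e) - g 0) * α := nat_aux _ _ _ _ hα hres
  have hkey : wt g a = wt g (u + (Pi.single (Fin.last e) α + Pi.single 0 β)) := by
    rw [wt_add, wt_add, wt_single, wt_single, wt_eq hg, wt_eq hg u, hla, hea]
    generalize g (Fin.last e) - g 0 = w at *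
    rw [hM]
    ring
  have hα0 : α = 0 := by
    by_contra hne
    apply hBl
    refine ⟨_, hkey.symm, ?_, ?_⟩ <;>
    · simp only [Pi.add_apply, Pi.single_eq_same]
      omega
  have hβ0 : β = 0 := by
    by_contra hne
    apply hB0
    refine ⟨_, hkey.symm, ?_, ?_⟩ <;>
    · simp only [Pi.add_apply, Pi.single_eq_same]
      omega
  subst hα0 hβ0
  refine ⟨?_, by omega, by simpa using hea⟩
  rw [wt_eq hg, wt_eq hg u, hla, hea]
  simp

/-- The sumset elements are realised by combinations not using the last generator. -/
lemma realise {H : AddSubgroup (ZMod (g (Fin.last e) - g 0))} (δ : Fin e → H)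
    (hδ : ∀ i : Fin e, ((δ i : H) : ZMod (g (Fin.last e) - g 0)) =
      ((g i.castSucc - g 0 : ℕ) : ZMod (g (Fin.last e) - g 0)))
    [DecidableEq H] (j : ℕ) : ∀ r ∈ Sj (univ.image δ) j,
    ∃ u : Fin (e + 1) → ℕ, u (Fin.last e) = 0 ∧ len u = j ∧
      ((exc g u : ℕ) : ZMod (g (Fin.last e) - g 0)) = (r : ZMod (g (Fin.last e) - g 0)) := by
  induction j with
  | zero =>
    intro r hr
    simp only [Sj, Finset.mem_singleton] at hr
    refine ⟨0, rfl, by simp [len], ?_⟩
    rw [hr]
    simp [exc]
  | succ j ih =>
    intro r hr
    have hr' : r ∈ Sj (univ.image δ) j + univ.image δ := hr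
    obtain ⟨x, hx, y, hy, hxy⟩ := Finset.mem_add.1 hr'
    obtain ⟨i, _, hi⟩ := Finset.mem_image.1 hy
    obtain ⟨u, h1, h2, h3⟩ := ih x hx
    refine ⟨u + Pi.single i.castSucc 1, ?_, ?_, ?_⟩
    · have hne : Fin.last e ≠ i.castSucc := by
        intro h
        exact (Fin.castSucc_lt_last i).ne h.symm
      simp [h1]
    · rw [len_add, len_single, h2]
    · rw [exc_add, exc_single, one_mul, Nat.cast_add, h3, ← hδ, hi, ← hxy]
      simp

/-- The bound on the size of `B`. -/
theorem residues (he : 1 ≤ e) (hg : StrictMono g) (B : Finset ℕ)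
    (hB : ∀ n, n ∈ B ↔ Mem g n ∧ ¬ Adj g n 0 0 ∧ ¬ Adj g n (Fin.last e) (Fin.last e)) :
    e * (B.card + 1) ≤ (g (Fin.last e) - g 0) ^ 2 + e ∧ e ≤ g (Fin.last e) - g 0 := by
  classical
  have hl0 : (0 : Fin (e + 1)) < Fin.last e := by
    rw [Fin.lt_def]
    simp
    omega
  have hw : 0 < g (Fin.last e) - g 0 := by
    have := hg hl0
    omega
  have : NeZero (g (Fin.last e) - g 0) := ⟨hw.ne'⟩
  set w := g (Fin.last e) - g 0 with hwdef
  -- the residues
  let D : Fin e → ZMod w := fun i => ((g i.castSucc - g 0 : ℕ) : ZMod w)
  have hDlt : ∀ i : Fin e, g i.castSucc - g 0 < w := by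
    intro i
    have h1 : g i.castSucc < g (Fin.last e) := hg (Fin.castSucc_lt_last i)
    have h2 : g 0 ≤ g i.castSucc := hg.monotone (Fin.zero_le _)
    omega
  have hDinj : Function.Injective D := by
    intro i j hij
    have h1 : (g i.castSucc - g 0) % w = (g j.castSucc - g 0) % w :=
      (ZMod.natCast_eq_natCast_iff' _ _ _).1 hij
    rw [Nat.mod_eq_of_lt (hDlt i), Nat.mod_eq_of_lt (hDlt j)] at h1
    have h2 : g 0 ≤ g i.castSucc := hg.monotone (Fin.zero_le _)
    have h3 : g 0 ≤ g j.castSucc := hg.monotone (Fin.zero_le _)
    have h4 : g i.castSucc = g j.castSucc := by omega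
    exact Fin.castSucc_injective e (hg.injective h4)
  let H : AddSubgroup (ZMod w) := AddSubgroup.closure (Set.range D)
  let δ : Fin e → H := fun i => ⟨D i, AddSubgroup.subset_closure ⟨i, rfl⟩⟩
  have hδinj : Function.Injective δ := by
    intro i j hij
    exact hDinj (congrArg Subtype.val hij)
  set A : Finset H := univ.image δ with hA
  have hAcard : A.card = e := by
    rw [hA, Finset.card_image_of_injective _ hδinj, Finset.card_univ, Fintype.card_fin]
  have hA0 : (0 : H) ∈ A := by
    rw [hA, Finset.mem_image]
    refine ⟨⟨0, by omega⟩, Finset.mem_univ _, ?_⟩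
    apply Subtype.ext
    show D ⟨0, _⟩ = 0
    have : (⟨0, by omega⟩ : Fin e).castSucc = (0 : Fin (e + 1)) := by
      apply Fin.ext; simp
    show ((g (⟨0, by omega⟩ : Fin e).castSucc - g 0 : ℕ) : ZMod w) = 0
    rw [this]
    simp
  have hAgen : AddSubgroup.closure (A : Set H) = ⊤ := by
    have h1 : (A : Set H) = ((↑) : H → ZMod w) ⁻¹' (Set.range D) := by
      ext x
      rw [hA, Finset.coe_image, Finset.coe_univ, Set.image_univ, Set.mem_preimage]
      constructor
      · rintro ⟨i, rfl⟩
        exact ⟨i, rfl⟩
      · rintro ⟨i, hi⟩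
        exact ⟨i, Subtype.ext hi⟩
    rw [h1]
    exact AddSubgroup.closure_closure_coe_preimage
  obtain ⟨J, hJ⟩ := exists_univ hA0 hAgen
  -- a factorization for every element of B
  have hch : ∀ b : ℕ, ∃ a : Fin (e + 1) → ℕ, b ∈ B → wt g a = b := by
    intro b
    by_cases hb : b ∈ B
    · obtain ⟨⟨a, ha⟩, _⟩ := (hB b).1 hb
      exact ⟨a, fun _ => ha⟩
    · exact ⟨0, fun h => absurd h hb⟩
  choose a ha using hch
  have ha0 : ∀ b ∈ B, a b 0 = 0 := by
    intro b hb
    by_contra hne
    exact ((hB b).1 hb).2.1 ⟨a b, ha b hb, by omega, by omega⟩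
  have hal : ∀ b ∈ B, a b (Fin.last e) = 0 := by
    intro b hb
    by_contra hne
    exact ((hB b).1 hb).2.2 ⟨a b, ha b hb, by omega, by omega⟩
  have hmemH : ∀ b ∈ B, ((exc g (a b) : ℕ) : ZMod w) ∈ H := by
    intro b hb
    unfold exc
    rw [Nat.cast_sum]
    apply AddSubgroup.sum_mem
    intro i _
    induction i using Fin.lastCases with
    | last => rw [hal b hb]; simp
    | cast i =>
      rw [Nat.cast_mul, ← nsmul_eq_mul]
      have hDi : ((g i.castSucc - g 0 : ℕ) : ZMod w) ∈ H :=
        AddSubgroup.subset_closure (Set.mem_range_self i)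
      exact AddSubgroup.nsmul_mem _ hDi _
  let ψ : ℕ → H := fun b =>
    if h : ((exc g (a b) : ℕ) : ZMod w) ∈ H then ⟨((exc g (a b) : ℕ) : ZMod w), h⟩ else 0
  have hψ : ∀ b ∈ B, ((ψ b : H) : ZMod w) = ((exc g (a b) : ℕ) : ZMod w) := by
    intro b hb
    simp only [ψ, dif_pos (hmemH b hb)]
  have hlenpos : ∀ b ∈ B, b ≠ 0 → 0 < len (a b) := by
    intro b hb hne
    by_contra h
    apply hne
    have h1 : len (a b) = 0 := by omega
    rw [← ha b hb]
    unfold len at h1
    rw [Finset.sum_eq_zero_iff] at h1
    unfold wt
    apply Finset.sum_eq_zero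
    intro i hi
    rw [h1 i hi, zero_mul]
  -- domination for the chosen factorizations
  have hdom : ∀ b ∈ B, ∀ u : Fin (e + 1) → ℕ, u (Fin.last e) = 0 →
      ((exc g u : ℕ) : ZMod w) = ((exc g (a b) : ℕ) : ZMod w) →
      exc g u / w ≤ exc g (a b) / w →
      len u - exc g u / w ≤ len (a b) - exc g (a b) / w →
      b = wt g u ∧ len (a b) = len u ∧ exc g (a b) = exc g u := by
    intro b hb u hu hres h1 h2
    have h3 := dominate (g := g) (a := a b) (u := u) hg
      (by rw [ha b hb]; exact ((hB b).1 hb).2.1)
      (by rw [ha b hb]; exact ((hB b).1 hb).2.2)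
      ((ZMod.natCast_eq_natCast_iff' _ _ _).1 hres) (div_le hg hw hu) h1 h2
      (div_le hg hw (hal b hb))
    rw [ha b hb] at h3
    exact h3
  have hfibre : ∀ r : H, (B.filter (fun b => ψ b = r)).card ≤
      (if r = 0 then 1 else 0) + ((range J).filter (fun j => r ∉ Sj A j)).card := by
    intro r
    by_cases hr : r = 0
    · rw [if_pos hr]
      have hsub : B.filter (fun b => ψ b = r) ⊆ {0} := by
        intro b hb
        obtain ⟨hbB, hbr⟩ := Finset.mem_filter.1 hb
        rw [Finset.mem_singleton]
        by_contra hne
        have hz : ((exc g (0 : Fin (e + 1) → ℕ) : ℕ) : ZMod w) = ((exc g (a b) : ℕ) : ZMod w) := by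
          rw [← hψ b hbB, hbr, hr]
          simp [exc]
        have h1 := hdom b hbB 0 rfl hz (by simp [exc]) (by simp [exc, len])
        have h2 := hlenpos b hbB hne
        rw [h1.2.1] at h2
        simp [len] at h2
      have h1 := Finset.card_le_card hsub
      rw [Finset.card_singleton] at h1
      omega
    · rw [if_neg hr, zero_add]
      have hex : ∃ j, r ∈ Sj A j := ⟨J, by rw [hJ]; exact Finset.mem_univ _⟩
      obtain ⟨j, hj⟩ : ∃ j, j = Nat.find hex := ⟨_, rfl⟩
      have hjr : r ∈ Sj A j := by rw [hj]; exact Nat.find_spec hex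
      have hjJ : j ≤ J := by
        rw [hj]
        exact Nat.find_min' hex (by rw [hJ]; exact Finset.mem_univ _)
      have hjpos : 0 < j := by
        rcases Nat.eq_zero_or_pos j with h | h
        · exfalso
          rw [h] at hjr
          simp only [Sj, Finset.mem_singleton] at hjr
          exact hr hjr
        · exact h
      have hjle : j ≤ ((range J).filter (fun j => r ∉ Sj A j)).card := by
        have hsub : range j ⊆ (range J).filter (fun j => r ∉ Sj A j) := by
          intro i hi
          rw [Finset.mem_range] at hi
          rw [Finset.mem_filter, Finset.mem_range]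
          refine ⟨by omega, ?_⟩
          rw [hj] at hi
          exact Nat.find_min hex hi
        have := Finset.card_le_card hsub
        rwa [Finset.card_range] at this
      refine le_trans ?_ hjle
      obtain ⟨u, hu1, hu2, hu3⟩ := realise (g := g) δ (fun i => rfl) j r hjr
      set q := exc g u / w with hq
      have hqj : q < j := by
        rw [← hu2]
        exact div_lt hg hw hu1 (by omega)
      let k : ℕ → ℕ := fun b => exc g (a b) / w
      let k' : ℕ → ℕ := fun b => len (a b) - 1 - exc g (a b) / w
      let φ : ℕ → ℕ := fun b => if k b < q then k b else if k' b < j - 1 - q then q + k' b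
        else j - 1
      have hcard : (B.filter (fun b => ψ b = r)).card ≤ (range j).card := by
        apply Finset.card_le_card_of_injOn φ
        · intro b _
          show φ b ∈ (range j : Finset ℕ)
          rw [Finset.mem_range]
          simp only [φ]
          split_ifs <;> omega
        · intro b hb b' hb' heq
          obtain ⟨hbB, hbr⟩ := Finset.mem_filter.1 hb
          obtain ⟨hbB', hbr'⟩ := Finset.mem_filter.1 hb'
          have hb0 : b ≠ 0 := by
            intro h
            apply hr
            rw [← hbr]
            apply Subtype.ext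
            rw [hψ b hbB]
            have h1 : exc g (a b) = 0 := by
              have h2 := ha b hbB
              rw [h, wt_eq hg] at h2
              rw [h]
              omega
            rw [h1]
            simp
          have hb0' : b' ≠ 0 := by
            intro h
            apply hr
            rw [← hbr']
            apply Subtype.ext
            rw [hψ b' hbB']
            have h1 : exc g (a b') = 0 := by
              have h2 := ha b' hbB'
              rw [h, wt_eq hg] at h2
              rw [h]
              omega
            rw [h1]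
            simp
          have hk : exc g (a b) / w < len (a b) := div_lt hg hw (hal b hbB) (hlenpos b hbB hb0)
          have hk' : exc g (a b') / w < len (a b') :=
            div_lt hg hw (hal b' hbB') (hlenpos b' hbB' hb0')
          have hsame : ((exc g (a b) : ℕ) : ZMod w) = ((exc g (a b') : ℕ) : ZMod w) := by
            rw [← hψ b hbB, ← hψ b' hbB', hbr, hbr']
          have hudom : ∀ c ∈ B, ψ c = r → ((exc g u : ℕ) : ZMod w) =
              ((exc g (a c) : ℕ) : ZMod w) := by
            intro c hc hcr
            rw [hu3, ← hψ c hc, hcr]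
          have hcomp : ∀ c ∈ B, ∀ c' ∈ B, ψ c = r → ψ c' = r →
              exc g (a c) / w ≤ exc g (a c') / w →
              len (a c) - exc g (a c) / w ≤ len (a c') - exc g (a c') / w → c = c' := by
            intro c hc c' hc' hcr hcr' h1 h2
            have h3 : ((exc g (a c) : ℕ) : ZMod w) = ((exc g (a c') : ℕ) : ZMod w) := by
              rw [← hψ c hc, ← hψ c' hc', hcr, hcr']
            have h4 := hdom c' hc' (a c) (hal c hc) h3 h1 h2
            rw [h4.1, ha c hc]
          have hfin : ∀ c ∈ B, ψ c = r → q ≤ exc g (a c) / w →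
              j - q ≤ len (a c) - exc g (a c) / w → c = wt g u := by
            intro c hc hcr h1 h2
            exact (hdom c hc u hu1 (hudom c hc hcr) h1 (by rw [hu2]; exact h2)).1
          have heq' : φ b = φ b' := heq
          simp only [φ, k, k'] at heq'
          by_cases h1 : exc g (a b) / w < q
          · rw [if_pos h1] at heq'
            by_cases h2 : exc g (a b') / w < q
            · rw [if_pos h2] at heq'
              rcases le_total (len (a b)) (len (a b')) with h3 | h3
              · exact hcomp b hbB b' hbB' hbr hbr' (by omega) (by omega)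
              · exact (hcomp b' hbB' b hbB hbr' hbr (by omega) (by omega)).symm
            · rw [if_neg h2] at heq'
              exfalso
              split_ifs at heq' <;> omega
          · rw [if_neg h1] at heq'
            by_cases h2 : exc g (a b') / w < q
            · rw [if_pos h2] at heq'
              exfalso
              split_ifs at heq' <;> omega
            · rw [if_neg h2] at heq'
              by_cases h3 : len (a b) - 1 - exc g (a b) / w < j - 1 - q
              · rw [if_pos h3] at heq'
                by_cases h4 : len (a b') - 1 - exc g (a b') / w < j - 1 - q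
                · rw [if_pos h4] at heq'
                  rcases le_total (exc g (a b) / w) (exc g (a b') / w) with h5 | h5
                  · exact hcomp b hbB b' hbB' hbr hbr' h5 (by omega)
                  · exact (hcomp b' hbB' b hbB hbr' hbr h5 (by omega)).symm
                · rw [if_neg h4] at heq'
                  exfalso
                  omega
              · rw [if_neg h3] at heq'
                by_cases h4 : len (a b') - 1 - exc g (a b') / w < j - 1 - q
                · rw [if_pos h4] at heq'
                  exfalso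
                  omega
                · rw [hfin b hbB hbr (by omega) (by omega),
                    hfin b' hbB' hbr' (by omega) (by omega)]
      rwa [Finset.card_range] at hcard
  -- summation
  have hBsum : B.card ≤ 1 + ∑ j ∈ range J, (Fintype.card H - (Sj A j).card) := by
    have h1 : B.card = ∑ r : H, (B.filter (fun b => ψ b = r)).card :=
      Finset.card_eq_sum_card_fiberwise (fun _ _ => Finset.mem_coe.2 (Finset.mem_univ _))
    rw [h1]
    calc ∑ r : H, (B.filter (fun b => ψ b = r)).card
        ≤ ∑ r : H, ((if r = 0 then 1 else 0) +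
          ((range J).filter (fun j => r ∉ Sj A j)).card) :=
          Finset.sum_le_sum (fun r _ => hfibre r)
      _ = 1 + ∑ r : H, ((range J).filter (fun j => r ∉ Sj A j)).card := by
          rw [Finset.sum_add_distrib]
          simp
      _ = 1 + ∑ j ∈ range J, (Fintype.card H - (Sj A j).card) := by
          congr 1
          simp_rw [Finset.card_filter]
          rw [Finset.sum_comm]
          apply Finset.sum_congr rfl
          intro j _
          rw [← Finset.card_filter, ← Finset.card_compl]
          congr 1
          ext x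
          simp
  have hlev := level_bound hA0 hAgen J
  rw [hAcard] at hlev
  have hHw : Fintype.card H ≤ w := by
    have h1 : Fintype.card H ≤ Fintype.card (ZMod w) :=
      Fintype.card_le_of_injective _ Subtype.val_injective
    rwa [ZMod.card] at h1
  constructor
  · calc e * (B.card + 1) ≤ e * ((∑ j ∈ range J, (Fintype.card H - (Sj A j).card)) + 2) := by
          apply Nat.mul_le_mul_left
          omega
      _ ≤ Fintype.card H ^ 2 + e := hlev
      _ ≤ w ^ 2 + e := by
          have := Nat.pow_le_pow_left hHw 2
          omega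
  · rw [← hAcard]
    exact (Finset.card_le_univ _).trans hHw

end Pool.Agent.Helper816.Residues
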