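import Mathlib

set_option autoImplicit false

open Finset MvPolynomial

/-! Number of generators of the toric ideal of a numerical semigroup: upper bound from a
presentation, lower bound from functionals. -/

namespace Pool.Agent.Helper816.Toric

/-- The toric ideal: kernel of `x_i ↦ t^(g i)`. -/
noncomputable def toric (k : Type) [Field k] {σ : Type} (g : σ → ℕ) : Ideal (MvPolynomial σ k) :=
  RingHom.ker (MvPolynomial.aeval (R := k) (fun i : σ => (Polynomial.X : Polynomial k) ^ (g i)))

theorem aeval_mono (k : Type) [Field k] {σ : Type} (g : σ → ℕ) (a : σ →₀ ℕ) (c : k) :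
    MvPolynomial.aeval (R := k) (fun i : σ => (Polynomial.X : Polynomial k) ^ (g i))
      (monomial a c) = Polynomial.monomial (Finsupp.weight g a) c := by
  rw [aeval_monomial, Finsupp.weight_apply]
  have : (a.prod fun i k_1 => ((Polynomial.X : Polynomial k) ^ g i) ^ k_1) =
      Polynomial.X ^ (a.sum fun i c => c • g i) := by
    rw [Finsupp.prod, Finsupp.sum, ← Finset.prod_pow_eq_pow_sum]
    refine Finset.prod_congr rfl (fun i _ => ?_)
    rw [← pow_mul, smul_eq_mul, mul_comm]
  rw [this, Polynomial.algebraMap_eq, Polynomial.C_mul_X_pow_eq_monomial]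

theorem mem_toric (k : Type) [Field k] {σ : Type} (g : σ → ℕ) (f : MvPolynomial σ k) :
    f ∈ toric k g ↔
      MvPolynomial.aeval (R := k) (fun i : σ => (Polynomial.X : Polynomial k) ^ (g i)) f = 0 := by
  unfold toric
  exact RingHom.mem_ker

/-- A linear map that depends only on the weight on monomials kills the toric ideal. -/
theorem lin_zero (k : Type) [Field k] {σ : Type} (g : σ → ℕ) {M : Type} [AddCommGroup M]
    [Module k M] (L : MvPolynomial σ k →ₗ[k] M)
    (hL : ∀ a b : σ →₀ ℕ, Finsupp.weight g a = Finsupp.weight g b →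
      L (monomial a 1) = L (monomial b 1)) (f : MvPolynomial σ k) (hf : f ∈ toric k g) :
    L f = 0 := by
  classical
  let rep : ℕ → (σ →₀ ℕ) := fun n => if h : ∃ a : σ →₀ ℕ, Finsupp.weight g a = n then
    h.choose else 0
  have hrep : ∀ a : σ →₀ ℕ, Finsupp.weight g (rep (Finsupp.weight g a)) = Finsupp.weight g a := by
    intro a
    have h : ∃ b : σ →₀ ℕ, Finsupp.weight g b = Finsupp.weight g a := ⟨a, rfl⟩
    simp only [rep, dif_pos h]
    exact h.choose_spec
  let ψ : Polynomial k →ₗ[k] M :=
    Polynomial.lsum (fun n => LinearMap.toSpanSingleton k M (L (monomial (rep n) 1)))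
  have hcomp : ψ ∘ₗ (MvPolynomial.aeval (R := k)
      (fun i : σ => (Polynomial.X : Polynomial k) ^ (g i))).toLinearMap = L := by
    refine (basisMonomials σ k).ext (fun a => ?_)
    simp only [coe_basisMonomials, LinearMap.coe_comp, AlgHom.coe_toLinearMap, Function.comp_apply]
    rw [aeval_mono]
    simp only [ψ, Polynomial.lsum_apply]
    rw [Polynomial.sum_monomial_index]
    · simp only [LinearMap.toSpanSingleton_apply, one_smul]
      exact hL _ _ (hrep a)
    · simp
  rw [← hcomp]
  simp only [LinearMap.coe_comp, AlgHom.coe_toLinearMap, Function.comp_apply]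
  rw [(mem_toric k g f).1 hf, map_zero]

theorem binom_mem (k : Type) [Field k] {σ : Type} (g : σ → ℕ) (a b : σ →₀ ℕ)
    (h : Finsupp.weight g a = Finsupp.weight g b) :
    (monomial a (1 : k) - monomial b (1 : k) : MvPolynomial σ k) ∈ toric k g := by
  rw [mem_toric, map_sub, aeval_mono, aeval_mono, h, sub_self]

theorem weight_fun {σ : Type} [Fintype σ] (g : σ → ℕ) (a : σ → ℕ) :
    Finsupp.weight g (Finsupp.equivFunOnFinite.symm a) = ∑ i, a i * g i := by
  rw [Finsupp.weight_apply, Finsupp.sum_fintype]
  · simp
  · simp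

/-- The toric ideal is generated by the binomials of a presentation. -/
theorem span_of_presentation (k : Type) [Field k] {σ : Type} [Fintype σ] [DecidableEq σ]
    (g : σ → ℕ) (R : Finset ((σ → ℕ) × (σ → ℕ)))
    (hR : ∀ a b : σ → ℕ, (addConGen (fun x y => (x, y) ∈ R)) a b ↔
      ∑ i, a i * g i = ∑ i, b i * g i) :
    Ideal.span ((fun p : (σ → ℕ) × (σ → ℕ) =>
      (monomial (Finsupp.equivFunOnFinite.symm p.1) (1 : k) -
        monomial (Finsupp.equivFunOnFinite.symm p.2) (1 : k) : MvPolynomial σ k)) '' R)
      = toric k g := by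
  set J := Ideal.span ((fun p : (σ → ℕ) × (σ → ℕ) =>
      (monomial (Finsupp.equivFunOnFinite.symm p.1) (1 : k) -
        monomial (Finsupp.equivFunOnFinite.symm p.2) (1 : k) : MvPolynomial σ k)) '' R) with hJ
  let m : (σ → ℕ) → MvPolynomial σ k := fun a => monomial (Finsupp.equivFunOnFinite.symm a) (1 : k)
  have hmadd : ∀ a b, m (a + b) = m a * m b := by
    intro a b
    have e : (Finsupp.equivFunOnFinite.symm (a + b) : σ →₀ ℕ) =
        Finsupp.equivFunOnFinite.symm a + Finsupp.equivFunOnFinite.symm b := by
      ext i; simp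
    simp only [m, monomial_mul, one_mul, e]
  let c : AddCon (σ → ℕ) :=
    { r := fun a b => m a - m b ∈ J
      iseqv := ⟨fun a => by simp, fun {a b} h => by
          have := J.neg_mem h
          rwa [neg_sub] at this, fun {a b c} h1 h2 => by
          have := J.add_mem h1 h2
          rwa [sub_add_sub_cancel] at this⟩
      add' := by
        intro a b c d h1 h2
        have e : m (a + c) - m (b + d) = m c * (m a - m b) + m b * (m c - m d) := by
          rw [hmadd, hmadd]; ring
        show m (a + c) - m (b + d) ∈ J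
        rw [e]
        exact J.add_mem (J.mul_mem_left _ h1) (J.mul_mem_left _ h2) }
  have hle : addConGen (fun x y => (x, y) ∈ R) ≤ c := by
    rw [AddCon.addConGen_le]
    intro x y hxy
    exact Ideal.subset_span ⟨(x, y), hxy, rfl⟩
  have key : ∀ a b : σ → ℕ, ∑ i, a i * g i = ∑ i, b i * g i → m a - m b ∈ J :=
    fun a b h => hle ((hR a b).2 h)
  apply le_antisymm
  · rw [hJ, Ideal.span_le]
    rintro _ ⟨⟨a, b⟩, hab, rfl⟩
    apply binom_mem
    rw [weight_fun, weight_fun]
    exact (hR a b).1 (AddConGen.Rel.of _ _ hab)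
  · intro f hf
    have h0 := lin_zero k g (M := MvPolynomial σ k ⧸ J)
      ((Ideal.Quotient.mkₐ k J).toLinearMap) ?_ f hf
    · simpa [Ideal.Quotient.eq_zero_iff_mem] using h0
    · intro a b hab
      simp only [AlgHom.toLinearMap_apply, Ideal.Quotient.mkₐ_eq_mk]
      rw [Ideal.Quotient.mk_eq_mk_iff_sub_mem]
      have := key (Finsupp.equivFunOnFinite a) (Finsupp.equivFunOnFinite b) (by
        rw [← weight_fun, ← weight_fun]; simpa using hab)
      simpa [m] using this

/-- Lower bound for the number of generators. -/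
theorem spanRank_ge (k : Type) [Field k] {σ : Type} (g : σ → ℕ) {T : Type} [Fintype T]
    [DecidableEq T] (φ : T → (σ →₀ ℕ) → k)
    (hφ : ∀ (t : T) (i : σ) (a b : σ →₀ ℕ), Finsupp.weight g a = Finsupp.weight g b →
      φ t (a + Finsupp.single i 1) = φ t (b + Finsupp.single i 1))
    (u v : T → σ →₀ ℕ) (huv : ∀ t, Finsupp.weight g (u t) = Finsupp.weight g (v t))
    (hdiag : ∀ s t, φ s (u t) - φ s (v t) = if s = t then 1 else 0) :
    (Fintype.card T : Cardinal) ≤ Submodule.spanRank (toric k g) := by
  classical
  let Φ : MvPolynomial σ k →ₗ[k] (T → k) := (basisMonomials σ k).constr k (fun a t => φ t a)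
  have hΦm : ∀ a : σ →₀ ℕ, Φ (monomial a 1) = fun t => φ t a := by
    intro a
    have := (basisMonomials σ k).constr_basis k (fun a t => φ t a) a
    simpa [Φ] using this
  have hX : ∀ (i : σ) (f : MvPolynomial σ k), f ∈ toric k g → Φ (f * X i) = 0 := by
    intro i f hf
    have := lin_zero k g (Φ ∘ₗ (LinearMap.mulRight k (X i : MvPolynomial σ k))) ?_ f hf
    · simpa using this
    · intro a b hab
      simp only [LinearMap.coe_comp, Function.comp_apply, LinearMap.mulRight_apply]
      have e : ∀ a : σ →₀ ℕ, (monomial a (1 : k)) * X i = monomial (a + Finsupp.single i 1) 1 := by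
        intro a
        rw [X, monomial_mul, one_mul]
      rw [e, e, hΦm, hΦm]
      funext t
      exact hφ t i a b hab
  have hmul : ∀ (p f : MvPolynomial σ k), f ∈ toric k g → Φ (p * f) = constantCoeff p • Φ f := by
    intro p f hf
    induction p using MvPolynomial.induction_on with
    | C a => simp [MvPolynomial.C_mul']
    | add p q hp hq => rw [add_mul, map_add, hp, hq, map_add, add_smul]
    | mul_X p i _ =>
      rw [mul_right_comm, hX i (p * f) ((toric k g).mul_mem_left p hf)]
      simp
  unfold Submodule.spanRank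
  have : Nonempty {s : Set (MvPolynomial σ k) // Submodule.span (MvPolynomial σ k) s = toric k g} :=
    ⟨⟨(toric k g : Set _), Submodule.span_eq _⟩⟩
  refine le_ciInf (fun s => ?_)
  obtain ⟨s, hs⟩ := s
  have hspan : ∀ f ∈ toric k g, Φ f ∈ Submodule.span k (Φ '' s) := by
    intro f hf
    rw [← hs] at hf
    induction hf using Submodule.span_induction with
    | mem x hx => exact Submodule.subset_span ⟨x, hx, rfl⟩
    | zero => simp
    | add x y _ _ hx hy => rw [map_add]; exact Submodule.add_mem _ hx hy
    | smul a x hx hx' =>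
      rw [smul_eq_mul, hmul a x (by rw [← hs]; exact hx)]
      exact Submodule.smul_mem _ _ hx'
  have htop : Submodule.span k (Φ '' s) = ⊤ := by
    rw [eq_top_iff]
    intro x _
    rw [← Finset.univ_sum_single x]
    refine Submodule.sum_mem _ (fun t _ => ?_)
    have h1 := hspan _ (binom_mem k g (u t) (v t) (huv t))
    have h2 : Φ (monomial (u t) (1 : k) - monomial (v t) (1 : k)) = Pi.single t 1 := by
      rw [map_sub, hΦm, hΦm]
      funext s'
      simp only [Pi.sub_apply]
      rw [hdiag s' t, Pi.single_apply]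
    rw [h2] at h1
    have h3 : (Pi.single t (x t) : T → k) = x t • Pi.single t 1 := by
      funext s'
      simp [Pi.single_apply]
    rw [h3]
    exact Submodule.smul_mem _ _ h1
  have h1 : Module.rank k (T → k) = Fintype.card T := rank_fun'
  have h2 : Module.rank k (Submodule.span k (Φ '' s)) ≤ Cardinal.mk (Φ '' s) := rank_span_le _
  rw [htop, rank_top, h1] at h2
  exact h2.trans Cardinal.mk_image_le

end Pool.Agent.Helper816.Toric
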