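import Mathlib
import Pool.Agent.Helper816.Count
import Pool.Agent.Helper816.Residues
import Pool.Agent.Helper816.Koszul
import Pool.Agent.Helper816.Phi
import Pool.Agent.Helper816.Reso
import Pool.Agent.Helper816.Minimalize
import Pool.Agent.Helper816.Cst
import Pool.Agent.Helper816.Rank
import Pool.Agent.Helper816.Toric

set_option autoImplicit false

open Finset MvPolynomial

namespace Pool.Agent.Helper816.Final1987

open Pool.Agent.Helper816.Count Pool.Agent.Helper816.Koszul
  Pool.Agent.Helper816.Phi Pool.Agent.Helper816.Reso Pool.Agent.Helper816.Minimalize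
  Pool.Agent.Helper816.Cst Pool.Agent.Helper816.Rank Pool.Agent.Helper816.Aring

/-! ### Arithmetic -/

lemma choose_aux (e w t : ℕ) (he : 1 ≤ e) (hw : e ≤ w) (ht : 1 ≤ t) :
    (w + 1) * e.choose t ≤ e * (w + 1).choose t := by
  obtain ⟨s, rfl⟩ : ∃ s, t = s + 1 := ⟨t - 1, by omega⟩
  obtain ⟨e', rfl⟩ : ∃ e', e = e' + 1 := ⟨e - 1, by omega⟩
  have h1 := Nat.add_one_mul_choose_eq w s
  have h2 := Nat.add_one_mul_choose_eq e' s
  have h3 : e'.choose s ≤ w.choose s := Nat.choose_le_choose s (by omega)
  have h4 : (s + 1) * ((w + 1) * (e' + 1).choose (s + 1)) ≤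
      (s + 1) * ((e' + 1) * (w + 1).choose (s + 1)) := by
    calc (s + 1) * ((w + 1) * (e' + 1).choose (s + 1))
        = (w + 1) * ((e' + 1).choose (s + 1) * (s + 1)) := by ring
      _ = (w + 1) * ((e' + 1) * e'.choose s) := by rw [h2]
      _ ≤ (w + 1) * ((e' + 1) * w.choose s) :=
          Nat.mul_le_mul_left _ (Nat.mul_le_mul_left _ h3)
      _ = (e' + 1) * ((w + 1) * w.choose s) := by ring
      _ = (e' + 1) * ((w + 1).choose (s + 1) * (s + 1)) := by rw [h1]
      _ = _ := by ring
  exact Nat.le_of_mul_le_mul_left h4 (Nat.succ_pos s)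

lemma choose_main (e w t : ℕ) (he : 1 ≤ e) (hw : e ≤ w) (ht : 2 ≤ t) :
    w ^ 2 * e.choose t ≤ e * (t * (w + 1).choose (t + 1) + e.choose (t + 1)) := by
  induction w, hw using Nat.le_induction with
  | base =>
    rcases Nat.lt_or_ge e t with h | h
    · rw [Nat.choose_eq_zero_of_lt h, mul_zero]
      exact Nat.zero_le _
    · have h1 := Nat.choose_succ_right_eq e t
      have h2 : (e + 1).choose (t + 1) = e.choose t + e.choose (t + 1) := Nat.choose_succ_succ e t
      obtain ⟨d, rfl⟩ : ∃ d, e = t + d := ⟨e - t, by omega⟩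
      rw [Nat.add_sub_cancel_left] at h1
      rw [h2]
      apply le_of_eq
      have h3 : t * ((t + d).choose t + (t + d).choose (t + 1)) + (t + d).choose (t + 1) =
          (t + d) * (t + d).choose t := by
        calc t * ((t + d).choose t + (t + d).choose (t + 1)) + (t + d).choose (t + 1)
            = t * (t + d).choose t + (t + d).choose (t + 1) * (t + 1) := by ring
          _ = t * (t + d).choose t + (t + d).choose t * d := by rw [h1]
          _ = _ := by ring
      rw [h3]
      ring
  | succ w hw ih =>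
    have h1 := choose_aux e w t he hw (by omega)
    have h2 : (w + 1 + 1).choose (t + 1) = (w + 1).choose t + (w + 1).choose (t + 1) :=
      Nat.choose_succ_succ (w + 1) t
    rw [h2]
    have h3 : (2 * w + 1) * e.choose t ≤ t * (e * (w + 1).choose t) := by
      calc (2 * w + 1) * e.choose t ≤ (2 * (w + 1)) * e.choose t :=
            Nat.mul_le_mul_right _ (by omega)
        _ = 2 * ((w + 1) * e.choose t) := by ring
        _ ≤ t * (e * (w + 1).choose t) := Nat.mul_le_mul ht h1
    calc (w + 1) ^ 2 * e.choose t = w ^ 2 * e.choose t + (2 * w + 1) * e.choose t := by ring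
      _ ≤ e * (t * (w + 1).choose (t + 1) + e.choose (t + 1)) + t * (e * (w + 1).choose t) :=
          Nat.add_le_add ih h3
      _ = _ := by ring

lemma arith (e w t β h : ℕ) (he : 1 ≤ e) (hw : e ≤ w) (ht : 2 ≤ t) (hβ : e * β ≤ w ^ 2)
    (hh : h + e.choose (t + 1) ≤ β * e.choose t) : h ≤ t * (w + 1).choose (t + 1) := by
  have h1 := choose_main e w t he hw ht
  have h2 : e * (β * e.choose t) ≤ e * (t * (w + 1).choose (t + 1) + e.choose (t + 1)) := by
    calc e * (β * e.choose t) = (e * β) * e.choose t := by ring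
      _ ≤ w ^ 2 * e.choose t := Nat.mul_le_mul_right _ hβ
      _ ≤ _ := h1
  have h3 := Nat.le_of_mul_le_mul_left h2 he
  omega

lemma rank_arith (c t A B P h r r' : ℕ) (hA : A ≤ P + B)
    (h1 : h + r + r' = A * (c + 1).choose (t + 1))
    (h2 : P * c.choose t + c.choose (t + 1) ≤ r)
    (h3 : P * c.choose (t + 1) + c.choose (t + 2) ≤ r') :
    h + (c + 1).choose (t + 2) ≤ B * (c + 1).choose (t + 1) := by
  have h4 : (c + 1).choose (t + 1) = c.choose t + c.choose (t + 1) := Nat.choose_succ_succ c t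
  have h5 : (c + 1).choose (t + 2) = c.choose (t + 1) + c.choose (t + 2) :=
    Nat.choose_succ_succ c (t + 1)
  have h6 : A * (c + 1).choose (t + 1) ≤ (P + B) * (c + 1).choose (t + 1) :=
    Nat.mul_le_mul_right _ hA
  rw [add_mul] at h6
  have h7 : P * (c + 1).choose (t + 1) = P * c.choose t + P * c.choose (t + 1) := by
    rw [h4, mul_add]
  omega

/-! ### Minimal number of generators -/

lemma gens_ge {k : Type} [Field k] {σ : Type} [Fintype σ] [DecidableEq σ] {h1 h2 : ℕ}
    (d₀ : (Fin h1 → MvPolynomial σ k) →ₗ[MvPolynomial σ k] MvPolynomial σ k)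
    (d1 : (Fin h2 → MvPolynomial σ k) →ₗ[MvPolynomial σ k] (Fin h1 → MvPolynomial σ k))
    (hex : LinearMap.range d1 = LinearMap.ker d₀)
    (hmin : ∀ x y, constantCoeff (d1 (Pi.single x 1) y) = 0)
    (U : Finset (MvPolynomial σ k)) (hU : Ideal.span (U : Set (MvPolynomial σ k)) =
      LinearMap.range d₀) : h1 ≤ U.card := by
  classical
  have hcst : cst d1 = 0 := by
    unfold cst
    have h0 : (fun y x => constantCoeff (d1 (Pi.single x 1) y)) =
        (0 : Matrix (Fin h1) (Fin h2) k) := by
      funext y x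
      exact hmin x y
    rw [h0]
    exact Matrix.mulVecLin_zero
  have hcp : ∀ z, cp (d1 z) = 0 := by
    intro z
    rw [cp_D, hcst]
    rfl
  choose! v hv using fun (u : MvPolynomial σ k) (hu : u ∈ U) =>
    (show u ∈ LinearMap.range d₀ by rw [← hU]; exact Ideal.subset_span hu)
  have htop : Submodule.span k (((U.image (fun u => cp (v u))) : Finset (Fin h1 → k)) :
      Set (Fin h1 → k)) = ⊤ := by
    rw [eq_top_iff]
    intro x _
    rw [← Finset.univ_sum_single x]
    refine Submodule.sum_mem _ (fun j _ => ?_)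
    have h3 : (Pi.single j (x j) : Fin h1 → k) = x j • Pi.single j 1 := by
      funext s'
      simp [Pi.single_apply]
    rw [h3]
    apply Submodule.smul_mem
    have h4 : d₀ (Pi.single j 1) ∈ Ideal.span (U : Set (MvPolynomial σ k)) := by
      rw [hU]
      exact ⟨_, rfl⟩
    rw [Ideal.span, Submodule.mem_span_finset] at h4
    obtain ⟨cf, _, hcf⟩ := h4
    have h5 : (Pi.single j 1 : Fin h1 → MvPolynomial σ k) - ∑ u ∈ U, cf u • v u ∈
        LinearMap.ker d₀ := by
      rw [LinearMap.mem_ker, map_sub, map_sum, ← hcf, sub_eq_zero]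
      apply Finset.sum_congr rfl
      intro u hu
      rw [map_smul, hv u hu]
    rw [← hex] at h5
    obtain ⟨z, hz⟩ := h5
    have h6 := hcp z
    rw [hz] at h6
    have h7 : (Pi.single j 1 : Fin h1 → k) = ∑ u ∈ U, constantCoeff (cf u) • cp (v u) := by
      funext y
      have h8 := congrFun h6 y
      unfold cp at h8
      rw [Pi.sub_apply, Finset.sum_apply, map_sub, map_sum, Pi.zero_apply, sub_eq_zero] at h8
      rw [Finset.sum_apply]
      have h9 : constantCoeff ((Pi.single j 1 : Fin h1 → MvPolynomial σ k) y) =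
          (Pi.single j 1 : Fin h1 → k) y := by
        by_cases hjy : y = j
        · subst hjy
          rw [Pi.single_eq_same, Pi.single_eq_same, map_one]
        · rw [Pi.single_eq_of_ne hjy, Pi.single_eq_of_ne hjy, map_zero]
      rw [← h9, h8]
      apply Finset.sum_congr rfl
      intro u _
      rw [Pi.smul_apply, smul_eq_mul, map_mul, Pi.smul_apply, smul_eq_mul]
      rfl
    rw [h7]
    refine Submodule.sum_mem _ (fun u hu => Submodule.smul_mem _ _ (Submodule.subset_span ?_))
    rw [Finset.coe_image]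
    exact ⟨u, hu, rfl⟩
  have h8 := finrank_span_finset_le_card (R := k) (U.image (fun u => cp (v u)))
  rw [Set.finrank, htop, finrank_top, Module.finrank_fintype_fun_eq_card, Fintype.card_fin] at h8
  exact h8.trans Finset.card_image_le

/-! ### Assembly -/

lemma gen_min {n : ℕ} {g : Fin (n + 1) → ℕ} (hpos : ∀ i, 0 < g i)
    (hmin : ∀ i : Fin (n + 1), g i ∉ AddSubmonoid.closure
        (Set.range (fun j : {j : Fin (n + 1) // j ≠ i} => g j.1)))
    (i i' : Fin (n + 1)) (a : ℕ) (ha : Mem g a) (h : a + g i' = g i) : i' = i ∧ a = 0 := by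
  by_cases hii : i' = i
  · subst hii
    exact ⟨rfl, by omega⟩
  · exfalso
    apply hmin i
    obtain ⟨x, hx⟩ := ha
    have hxi : x i = 0 := by
      by_contra hne
      have h1 : x i * g i ≤ wt g x :=
        Finset.single_le_sum (f := fun i => x i * g i) (fun _ _ => Nat.zero_le _) (Finset.mem_univ i)
      have h2 : 1 * g i ≤ x i * g i := Nat.mul_le_mul_right _ (Nat.pos_of_ne_zero hne)
      have h3 := hpos i'
      omega
    have h1 : a ∈ AddSubmonoid.closure
        (Set.range (fun j : {j : Fin (n + 1) // j ≠ i} => g j.1)) := by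
      rw [← hx]
      unfold wt
      apply AddSubmonoid.sum_mem
      intro j _
      by_cases hj : j = i
      · rw [hj, hxi, zero_mul]
        exact AddSubmonoid.zero_mem _
      · rw [← smul_eq_mul]
        have h2 : g j ∈ AddSubmonoid.closure
            (Set.range (fun j : {j : Fin (n + 1) // j ≠ i} => g j.1)) :=
          AddSubmonoid.subset_closure ⟨⟨j, hj⟩, rfl⟩
        exact AddSubmonoid.nsmul_mem _ h2 _
    have h2 : g i' ∈ AddSubmonoid.closure
        (Set.range (fun j : {j : Fin (n + 1) // j ≠ i} => g j.1)) :=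
      AddSubmonoid.subset_closure ⟨⟨i', hii⟩, rfl⟩
    have h3 := AddSubmonoid.add_mem _ h1 h2
    rwa [h] at h3


lemma single_range (k : Type) [Field k] {n : ℕ} {g : Fin (n + 1) → ℕ} {Ap : Finset ℕ}
    (hAp : ∀ n, n ∈ Ap ↔ Mem g n ∧ ¬ Adj g n 0 0) (x : XX n Ap 0) (hx : x.1.1 ≠ 0) :
    (Pi.single x 1 : XX n Ap 0 → k) ∈ LinearMap.range (cst (DD k g Ap 0)) := by
  classical
  obtain ⟨⟨a, ha⟩, F, hF⟩ := x
  simp only at hx
  have hFe : F = ∅ := Finset.card_eq_zero.1 hF
  subst hFe
  -- write a = a' + g (i.succ)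
  obtain ⟨⟨x, hxa⟩, hna⟩ := (hAp a).1 ha
  obtain ⟨i, hi⟩ : ∃ i, 0 < x i := by
    by_contra hcon
    push Not at hcon
    apply hx
    rw [← hxa]
    unfold wt
    apply Finset.sum_eq_zero
    intro i _
    rw [Nat.le_zero.1 (hcon i), zero_mul]
  have hi0 : i ≠ 0 := by
    rintro rfl
    exact hna ⟨x, hxa, hi, hi⟩
  obtain ⟨i', rfl⟩ := Fin.exists_succ_eq.2 hi0
  have hv : Adj g a i'.succ i'.succ := ⟨x, hxa, hi, hi⟩
  obtain ⟨h1, h2⟩ := vx_iff.1 hv
  have ha' : a - g i'.succ ∈ Ap := by
    rw [hAp]
    refine ⟨h2, ?_⟩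
    intro h3
    have h4 := adj_add (i := i'.succ) h3
    rw [Nat.sub_add_cancel h1] at h4
    exact hna h4.right
  have hins : ∀ j : Fin n, ins (⟨∅, hF⟩ : {F : Finset (Fin n) // F.card = 0}) j
      (Finset.notMem_empty j) = ⟨{j}, Finset.card_singleton j⟩ := by
    intro j
    apply Subtype.ext
    show insert j ∅ = {j}
    rfl
  refine ⟨Pi.single (⟨a - g i'.succ, ha'⟩, ⟨{i'}, Finset.card_singleton _⟩) (-1), ?_⟩
  funext y
  obtain ⟨⟨b, hb⟩, G, hG⟩ := y
  have hGe : G = ∅ := Finset.card_eq_zero.1 hG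
  subst hGe
  rw [cst_DD, Finset.sum_eq_single i']
  · rw [dif_pos (Finset.notMem_empty _), Finset.sum_eq_single (⟨a - g i'.succ, ha'⟩ : Ap)]
    · have hk : ksign k i' (∅ : Finset (Fin n)) = 1 := by
        unfold ksign
        simp
      simp only at hk ⊢
      rw [hk, hins, Pi.single_eq_same, one_mul]
      by_cases hab : b = a
      · subst hab
        rw [if_pos (by omega), neg_neg, Pi.single_eq_same]
      · rw [if_neg (by omega), Pi.single_eq_of_ne, neg_zero]
        intro h5
        simp only [Prod.mk.injEq, Subtype.mk.injEq] at h5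
        exact hab h5.1
    · intro a' _ hne
      simp only
      rw [hins, Pi.single_eq_of_ne, ite_self]
      intro h5
      simp only [Prod.mk.injEq] at h5
      exact hne h5.1
    · intro h5
      exact absurd (Finset.mem_univ _) h5
  · intro j _ hj
    rw [dif_pos (Finset.notMem_empty _), Finset.sum_eq_zero, neg_zero, mul_zero]
    intro a' _
    simp only
    rw [hins, Pi.single_eq_of_ne, ite_self]
    intro h5
    simp only [Prod.mk.injEq, Subtype.mk.injEq, Finset.singleton_inj] at h5
    exact hj h5.2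
  · intro h5
    exact absurd (Finset.mem_univ _) h5

theorem main (k : Type) [Field k] (n : ℕ) (g : Fin (n + 1) → ℕ) (hg : StrictMono g)
    (h0 : 0 < g 0)
    (hmin : ∀ i : Fin (n + 1), g i ∉ AddSubmonoid.closure
        (Set.range (fun j : {j : Fin (n + 1) // j ≠ i} => g j.1))) :
    ∃ (b : ℕ → ℕ)
      (d₀ : (Fin (b 1) → MvPolynomial (Fin (n+1)) k) →ₗ[MvPolynomial (Fin (n+1)) k]
              MvPolynomial (Fin (n+1)) k)
      (d : ∀ t : ℕ, (Fin (b (t+1+1)) → MvPolynomial (Fin (n+1)) k) →ₗ[MvPolynomial (Fin (n+1)) k]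
              (Fin (b (t+1)) → MvPolynomial (Fin (n+1)) k)),
      LinearMap.range d₀ = RingHom.ker
          (MvPolynomial.aeval (fun i : Fin (n+1) => (Polynomial.X : Polynomial k) ^ g i)) ∧
      LinearMap.range (d 0) = LinearMap.ker d₀ ∧
      (∀ t : ℕ, LinearMap.range (d (t+1)) = LinearMap.ker (d t)) ∧
      (∀ t : ℕ, 1 ≤ t → b t ≤ t * Nat.choose (g (Fin.last n) - g 0 + 1) (t+1)) := by
  classical
  have hpos : ∀ i, 0 < g i := fun i => lt_of_lt_of_le h0 (hg.monotone (Fin.zero_le i))
  have hm := gen_min hpos hmin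
  obtain ⟨Ap, hAp⟩ := exists_apery hpos
  have h0Ap : 0 ∈ Ap := by
    rw [hAp]
    exact ⟨mem_zero, not_adj_zero hpos _ _⟩
  obtain ⟨h, x0, D', hinj, hex, hD'min, hr0, hr, hz1, hz2, hz3⟩ :=
    minimalize (k := k) g hpos (XX n Ap) (dg g Ap) (DD k g Ap)
      (fun i x y a ha => homog k i x y a ha) (DD_exact k hAp h0)
  -- the distinguished basis element
  set z : XX n Ap 0 := (⟨0, h0Ap⟩, ⟨∅, Finset.card_empty⟩) with hz
  have hx0 : ∀ j, x0 j = z := by
    intro j
    by_contra hne
    apply hz3 j
    apply single_range k hAp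
    intro h1
    apply hne
    rw [hz]
    apply Prod.ext
    · exact Subtype.ext h1
    · exact Subtype.ext (Finset.card_eq_zero.1 (x0 j).2.2)
  -- membership in the image
  have hmem : ∀ p : MvPolynomial (Fin (n + 1)) k,
      (p • (Pi.single z 1 : XX n Ap 0 → MvPolynomial (Fin (n + 1)) k)) ∈
        LinearMap.range (DD k g Ap 0) ↔
      aeval (R := k) (fun i : Fin (n + 1) => (Polynomial.X : Polynomial k) ^ g i) p = 0 := by
    intro p
    rw [DD_zero k hAp h0, ← Reg.th_mem k (g := g)]
    have h1 : (fun a : Ap => (p • (Pi.single z 1 : XX n Ap 0 → MvPolynomial (Fin (n + 1)) k))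
        (a, ⟨∅, Finset.card_empty⟩)) = Pi.single ⟨0, h0Ap⟩ p := by
      funext a
      by_cases ha : a = ⟨0, h0Ap⟩
      · rw [ha, Pi.single_eq_same, Pi.smul_apply, smul_eq_mul, hz, Pi.single_eq_same, mul_one]
      · rw [Pi.single_eq_of_ne ha, Pi.smul_apply, smul_eq_mul, Pi.single_eq_of_ne, mul_zero]
        rw [hz]
        intro h5
        simp only [Prod.mk.injEq] at h5
        exact ha h5.1
    rw [h1, phi_single]
    have h2 : ta k hAp ⟨0, h0Ap⟩ = 1 := by
      unfold ta
      have h3 : tt k (g := g) 0 ((hAp 0).1 h0Ap).1 = 1 := by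
        apply Subtype.ext
        show (Polynomial.X : Polynomial k) ^ 0 = 1
        rw [pow_zero]
      rw [h3, C_1]
    rw [h2, mul_one]
  -- there is exactly one basis element in degree zero
  have hh0 : ∃ j0 : Fin (h 0), ∀ j, j = j0 := by
    by_contra hcon
    have hemp : IsEmpty (Fin (h 0)) := by
      constructor
      intro j0
      apply hcon
      refine ⟨j0, fun j => hinj ?_⟩
      rw [hx0, hx0]
    obtain ⟨v, hv⟩ := hz2 (Pi.single z 1)
    have h1 : incl x0 v = 0 := by
      unfold incl
      exact Finset.sum_of_isEmpty _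
    rw [h1, sub_zero] at hv
    have h2 := (hmem 1).1 (by rw [one_smul]; exact hv)
    rw [map_one] at h2
    exact one_ne_zero h2
  obtain ⟨j0, hj0⟩ := hh0
  have hincl : ∀ v : Fin (h 0) → MvPolynomial (Fin (n + 1)) k, incl x0 v =
      v j0 • (Pi.single z 1 : XX n Ap 0 → MvPolynomial (Fin (n + 1)) k) := by
    intro v
    unfold incl
    rw [Finset.sum_eq_single j0]
    · rw [hx0]
    · intro j _ hj
      exact absurd (hj0 j) hj
    · intro h5
      exact absurd (Finset.mem_univ _) h5
  set d₀ : (Fin (h 1) → MvPolynomial (Fin (n+1)) k) →ₗ[MvPolynomial (Fin (n+1)) k]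
              MvPolynomial (Fin (n+1)) k := (LinearMap.proj j0).comp (D' 0) with hd₀
  have hrange : LinearMap.range d₀ = RingHom.ker
          (MvPolynomial.aeval (fun i : Fin (n+1) => (Polynomial.X : Polynomial k) ^ g i)) := by
    ext p
    have h1 : p ∈ LinearMap.range d₀ ↔ (fun _ : Fin (h 0) => p) ∈ LinearMap.range (D' 0) := by
      constructor
      · rintro ⟨v, hv⟩
        refine ⟨v, ?_⟩
        funext j
        rw [hj0 j]
        exact hv
      · rintro ⟨v, hv⟩
        exact ⟨v, congrFun hv j0⟩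
    rw [h1, hz1, hincl, hmem, RingHom.mem_ker]
  have hker : LinearMap.range (D' 1) = LinearMap.ker d₀ := by
    rw [hex 0]
    ext v
    rw [LinearMap.mem_ker, LinearMap.mem_ker]
    constructor
    · intro hv
      show (D' 0 v) j0 = 0
      rw [hv]
      rfl
    · intro hv
      funext j
      rw [hj0 j]
      exact hv
  refine ⟨h, d₀, fun t => D' (t + 1), hrange, hker, fun t => hex (t + 1), ?_⟩
  intro t ht
  rcases Nat.eq_zero_or_pos n with hn | hn
  · -- one generator
    subst hn
    obtain ⟨t, rfl⟩ : ∃ t', t = t' + 1 := ⟨t - 1, by omega⟩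
    have h1 := hr t
    have h2 : Fintype.card (XX 0 Ap (t + 1)) = 0 := by
      rw [Fintype.card_prod, Fintype.card_finset_len, Fintype.card_fin, Nat.choose_zero_succ,
        mul_zero]
    omega
  · obtain ⟨c, rfl⟩ : ∃ c, n = c + 1 := ⟨n - 1, by omega⟩
    obtain ⟨B, R, hB, hR, hpres⟩ := count (by omega) hpos
    obtain ⟨hres1, hres2⟩ := Residues.residues (by omega) hg B hB
    obtain ⟨w, hw⟩ : ∃ w, w = g (Fin.last (c + 1)) - g 0 := ⟨_, rfl⟩
    rw [← hw] at hres1 hres2 ⊢
    have hβ : (c + 1) * B.card ≤ w ^ 2 := by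
      rw [mul_add] at hres1
      omega
    rcases Nat.lt_or_ge t 2 with ht2 | ht2
    · have ht1 : t = 1 := by omega
      subst ht1
      have h1 : h 1 ≤ R.card := by
        set U : Finset (MvPolynomial (Fin (c + 1 + 1)) k) := R.image
          (fun p : (Fin (c + 1 + 1) → ℕ) × (Fin (c + 1 + 1) → ℕ) =>
            (monomial (Finsupp.equivFunOnFinite.symm p.1) (1 : k) -
              monomial (Finsupp.equivFunOnFinite.symm p.2) (1 : k))) with hU
        have h2 : Ideal.span (U : Set (MvPolynomial (Fin (c + 1 + 1)) k)) = LinearMap.range d₀ := by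
          rw [hrange, hU, Finset.coe_image]
          exact Toric.span_of_presentation k g R hpres
        exact (gens_ge d₀ (D' 1) hker (hD'min 1) U h2).trans Finset.card_image_le
      have h2 : (w + 1) * w = (w + 1).choose 2 * 2 := by
        have := Nat.add_one_mul_choose_eq w 1
        rw [Nat.choose_one_right] at this
        exact this
      have h3 : (c + 1) * (B.card + 1) ≤ w ^ 2 + w := by
        rw [mul_add]
        omega
      have h4 : (w + 1) * w = w ^ 2 + w := by ring
      rw [one_mul]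
      show h 1 ≤ (w + 1).choose 2
      omega
    · obtain ⟨t, rfl⟩ : ∃ t', t = t' + 1 := ⟨t - 1, by omega⟩
      have h1 := hr t
      rw [Fintype.card_prod, Fintype.card_finset_len, Fintype.card_fin, Fintype.card_coe] at h1
      have h2 := rank_lower k hAp hg h0 hm t
      have h3 := rank_lower k hAp hg h0 hm (t + 1)
      have h4 := card_up hAp B hB
      have h5 := rank_arith c t _ _ _ _ _ _ h4 h1 h2 h3
      exact arith (c + 1) w (t + 1) B.card _ (by omega) hres2 ht2 hβ h5

end Pool.Agent.Helper816.Final1987
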