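import Mathlib
import Pool.Agent.Helper816.Toric

set_option autoImplicit false

open Finset MvPolynomial

/-! The toric ideal of an interval semigroup needs many generators. -/

namespace Pool.Agent.Helper816.Interval

open Pool.Agent.Helper816.Toric (toric spanRank_ge)

theorem spanRank_ge_finset (k : Type) [Field k] {σ : Type} (g : σ → ℕ)
    (C : Finset (σ →₀ ℕ))
    (h1 : ∀ c ∈ C, ∃ v, v ∉ C ∧ Finsupp.weight g c = Finsupp.weight g v)
    (h2 : ∀ c ∈ C, ∀ (i : σ) (a b : σ →₀ ℕ), a + Finsupp.single i 1 = c →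
      Finsupp.weight g b = Finsupp.weight g a → b = a) :
    (C.card : Cardinal) ≤ Submodule.spanRank (toric k g) := by
  classical
  choose! v hv1 hv2 using h1
  have := spanRank_ge k g (T := {x // x ∈ C}) (fun t a => if a = t.1 then 1 else 0)
    (fun t i a b hab => by
      by_cases ha : a + Finsupp.single i 1 = t.1
      · have := h2 t.1 t.2 i a b ha hab.symm
        subst this; rfl
      · by_cases hb : b + Finsupp.single i 1 = t.1
        · have := h2 t.1 t.2 i b a hb hab
          subst this; rfl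
        · simp only [ha, hb])
    (fun t => t.1) (fun t => v t.1) (fun t => hv2 t.1 t.2)
    (fun s t => by
      have h3 : v t.1 ≠ s.1 := fun h => hv1 t.1 t.2 (h ▸ s.2)
      by_cases hst : s = t
      · subst hst; simp [h3]
      · have : (t : σ →₀ ℕ) ≠ s := fun h => hst (Subtype.ext h.symm)
        simp [h3, hst, this])
  simpa using this

/-- abstract interval structure -/
structure Ivl {σ : Type} (g : σ → ℕ) (m w : ℕ) (ge : ℕ → σ) : Prop where
  hge : ∀ j ≤ w, g (ge j) = m + j
  hsurj : ∀ i, ∃ j ≤ w, i = ge j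

namespace Ivl
variable {σ : Type} {g : σ → ℕ} {m w : ℕ} {ge : ℕ → σ}

theorem inj (h : Ivl g m w ge) {i j : ℕ} (hi : i ≤ w) (hj : j ≤ w) (hij : ge i = ge j) : i = j := by
  have h1 := h.hge i hi
  have h2 := h.hge j hj
  rw [hij] at h1
  omega

theorem g_le (h : Ivl g m w ge) (i : σ) : g i ≤ m + w := by
  obtain ⟨j, hj, rfl⟩ := h.hsurj i
  rw [h.hge j hj]; omega

theorem le_g (h : Ivl g m w ge) (i : σ) : m ≤ g i := by
  obtain ⟨j, hj, rfl⟩ := h.hsurj i
  rw [h.hge j hj]; omega

theorem lower (h : Ivl g m w ge) (b : σ →₀ ℕ) : b.degree * m ≤ Finsupp.weight g b := by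
  rw [Finsupp.weight_apply, Finsupp.degree_apply, Finsupp.sum, Finset.sum_mul]
  refine Finset.sum_le_sum fun i _ => ?_
  rw [smul_eq_mul]
  exact Nat.mul_le_mul_left _ (h.le_g i)

theorem upper (h : Ivl g m w ge) (b : σ →₀ ℕ) :
    Finsupp.weight g b + Finsupp.weight (fun i => m + w - g i) b = b.degree * (m + w) := by
  rw [Finsupp.weight_apply, Finsupp.weight_apply, Finsupp.degree_apply, Finsupp.sum, Finsupp.sum,
    Finset.sum_mul, ← Finset.sum_add_distrib]
  refine Finset.sum_congr rfl fun i _ => ?_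
  have := h.g_le i
  rw [smul_eq_mul, smul_eq_mul, ← mul_add]
  congr 1; omega

theorem upper' (h : Ivl g m w ge) (b : σ →₀ ℕ) :
    Finsupp.weight g b ≤ b.degree * (m + w) := by
  have := h.upper b; omega

theorem def_zero (h : Ivl g m w ge) (b : σ →₀ ℕ)
    (hb : Finsupp.weight (fun i => m + w - g i) b = 0) :
    b = Finsupp.single (ge w) b.degree := by
  have key : ∀ i, i ≠ ge w → b i = 0 := by
    intro i hi
    by_contra hbi
    obtain ⟨j, hj, rfl⟩ := h.hsurj i
    have hjw : j ≠ w := fun e => hi (by rw [e])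
    rw [Finsupp.weight_apply, Finsupp.sum, Finset.sum_eq_zero_iff] at hb
    have := hb (ge j) (by simpa using hbi)
    rw [smul_eq_mul, h.hge j hj] at this
    rcases Nat.mul_eq_zero.mp this with h' | h'
    · exact hbi h'
    · omega
  have h2 : b = Finsupp.single (ge w) (b (ge w)) := by
    ext i
    by_cases hi : i = ge w
    · subst hi; simp
    · rw [key i hi, Finsupp.single_eq_of_ne hi]
  have h3 : b.degree = b (ge w) := by
    conv_lhs => rw [h2]
    rw [Finsupp.degree_single]
  rw [h3]; exact h2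

theorem pair_zero {σ : Type} {x y z : σ} {a b : ℕ} (h1 : x ≠ z) (h2 : y ≠ z) :
    (Finsupp.single x a + Finsupp.single y b : σ →₀ ℕ) z = 0 := by
  rw [Finsupp.add_apply, Finsupp.single_eq_of_ne h1.symm, Finsupp.single_eq_of_ne h2.symm,
    add_zero]

theorem exists_peel {σ : Type} (b : σ →₀ ℕ) (i : σ) (hi : b i ≠ 0) :
    ∃ b' : σ →₀ ℕ, b = b' + Finsupp.single i 1 := by
  refine ⟨b - Finsupp.single i 1, ?_⟩
  rw [tsub_add_cancel_of_le]
  rw [Finsupp.single_le_iff]
  omega

theorem weight_one {σ : Type} (f : σ → ℕ) (i : σ) :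
    Finsupp.weight f (Finsupp.single i 1) = f i := by
  rw [Finsupp.weight_apply, Finsupp.sum_single_index (by simp)]; simp

theorem weight_single' {σ : Type} (f : σ → ℕ) (i : σ) (n : ℕ) :
    Finsupp.weight f (Finsupp.single i n) = n * f i := by
  rw [Finsupp.weight_apply, Finsupp.sum_single_index (by simp)]; simp

theorem def_one (h : Ivl g m w ge) (hw : 1 ≤ w) (b : σ →₀ ℕ)
    (hb : Finsupp.weight (fun i => m + w - g i) b = 1) :
    b = Finsupp.single (ge w) (b.degree - 1) + Finsupp.single (ge (w - 1)) 1 := by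
  have h1 : ∃ i, b i ≠ 0 ∧ m + w - g i ≠ 0 := by
    have : Finsupp.weight (fun i => m + w - g i) b ≠ 0 := by omega
    rw [Finsupp.weight_apply, Finsupp.sum] at this
    obtain ⟨i, _, hi⟩ := Finset.exists_ne_zero_of_sum_ne_zero this
    rw [smul_eq_mul] at hi
    exact ⟨i, left_ne_zero_of_mul hi, right_ne_zero_of_mul hi⟩
  obtain ⟨i, hi1, hi2⟩ := h1
  obtain ⟨b', rfl⟩ := exists_peel b i hi1
  rw [map_add, weight_one] at hb
  have h0 : Finsupp.weight (fun i => m + w - g i) b' = 0 := by omega
  have h3 : m + w - g i = 1 := by omega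
  have h4 := h.def_zero b' h0
  obtain ⟨j, hj, rfl⟩ := h.hsurj i
  rw [h.hge j hj] at h3
  have hjw : j = w - 1 := by omega
  subst hjw
  rw [map_add, Finsupp.degree_single, Nat.add_sub_cancel, ← h4]

theorem len_one (h : Ivl g m w ge) (hwm : w < m) (b : σ →₀ ℕ) (i : σ)
    (hb : Finsupp.weight g b = Finsupp.weight g (Finsupp.single i 1)) :
    b = Finsupp.single i 1 := by
  rw [weight_one] at hb
  have h1 := h.g_le i
  have h2 := h.le_g i
  have h3 := h.lower b
  have h4 := h.upper' b
  have h5 : b ≠ 0 := by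
    rintro rfl
    rw [map_zero] at hb; omega
  obtain ⟨l, hl⟩ : ∃ l, b l ≠ 0 := by
    by_contra hcon
    push Not at hcon
    exact h5 (Finsupp.ext fun l => by simpa using hcon l)
  obtain ⟨b', rfl⟩ := exists_peel b l hl
  have h6 : b'.degree = 0 := by
    rw [map_add, Finsupp.degree_single] at h3
    by_contra hne
    have : 2 * m ≤ (b'.degree + 1) * m := Nat.mul_le_mul_right _ (by omega)
    omega
  rw [Finsupp.degree_eq_zero_iff] at h6
  subst h6
  rw [zero_add, weight_one] at hb
  rw [zero_add]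
  obtain ⟨j, hj, rfl⟩ := h.hsurj i
  obtain ⟨j', hj', rfl⟩ := h.hsurj l
  rw [h.hge j hj, h.hge j' hj'] at hb
  have : j' = j := by omega
  rw [this]

/-- the quadric `e_p + e_q` satisfies (h2) -/
theorem quad_h2 (h : Ivl g m w ge) (hwm : w < m) (p q : σ) (i : σ) (a b : σ →₀ ℕ)
    (hab : a + Finsupp.single i 1 = Finsupp.single p 1 + Finsupp.single q 1)
    (hb : Finsupp.weight g b = Finsupp.weight g a) : b = a := by
  classical
  have h1 : (a + Finsupp.single i 1 : σ →₀ ℕ) i =
      (Finsupp.single p 1 + Finsupp.single q 1 : σ →₀ ℕ) i := by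
    rw [hab]
  rw [Finsupp.add_apply, Finsupp.add_apply, Finsupp.single_eq_same, Finsupp.single_apply,
    Finsupp.single_apply] at h1
  by_cases hp : p = i
  · subst hp
    have : a = Finsupp.single q 1 := by
      rw [add_comm (Finsupp.single p 1)] at hab
      exact add_right_cancel hab
    subst this
    exact h.len_one hwm b _ hb
  · by_cases hq : q = i
    · subst hq
      have : a = Finsupp.single p 1 := add_right_cancel hab
      subst this
      exact h.len_one hwm b _ hb
    · simp [hp, hq] at h1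

theorem peel_eq {σ : Type} (a : σ →₀ ℕ) (i : σ) (c : σ →₀ ℕ)
    (hab : a + Finsupp.single i 1 = c) : a i + 1 = c i := by
  rw [← hab, Finsupp.add_apply, Finsupp.single_eq_same]

/-- `K e_w` satisfies (h2) -/
theorem top_h2 (h : Ivl g m w ge) (K : ℕ) (hK : 1 ≤ K) (hKm : (K - 1) * w < m)
    (i : σ) (a b : σ →₀ ℕ)
    (hab : a + Finsupp.single i 1 = Finsupp.single (ge w) K)
    (hb : Finsupp.weight g b = Finsupp.weight g a) : b = a := by
  have h1 := peel_eq a i _ hab
  have hi : ge w = i := by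
    by_contra hne
    rw [Finsupp.single_eq_of_ne (Ne.symm hne)] at h1
    omega
  subst hi
  obtain ⟨K, rfl⟩ : ∃ K', K = K' + 1 := ⟨K - 1, by omega⟩
  rw [Finsupp.single_add] at hab
  have ha : a = Finsupp.single (ge w) K := add_right_cancel hab
  subst ha
  rw [Nat.add_sub_cancel] at hKm
  rw [weight_single', h.hge w le_rfl] at hb
  have h3 := h.lower b
  have h4 := h.upper b
  have h5 : b.degree ≤ K := by
    by_contra hcon
    have : (K + 1) * m ≤ b.degree * m := Nat.mul_le_mul_right _ (by omega)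
    have : K * (m + w) < (K + 1) * m := by
      have : K * (m + w) = K * m + K * w := by ring
      have : (K + 1) * m = K * m + m := by ring
      omega
    omega
  have h6 : K ≤ b.degree := by
    by_contra hcon
    have h7 : b.degree * (m + w) + 1 * (m + w) ≤ K * (m + w) := by
      rw [← add_mul]
      exact Nat.mul_le_mul_right _ (by omega)
    have : 0 < m := by omega
    omega
  have h7 : b.degree = K := le_antisymm h5 h6
  rw [h7, hb] at h4
  have h8 := h.def_zero b (by omega)
  rw [h7] at h8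
  exact h8

/-- `(K-1) e_w + e_{w-1}` satisfies (h2) -/
theorem top1_h2 (h : Ivl g m w ge) (K : ℕ) (hK : 2 ≤ K) (hw : 1 ≤ w) (hwm : w + 2 ≤ m)
    (hKm : (K - 1) * w < m)
    (i : σ) (a b : σ →₀ ℕ)
    (hab : a + Finsupp.single i 1 =
      Finsupp.single (ge w) (K - 1) + Finsupp.single (ge (w - 1)) 1)
    (hb : Finsupp.weight g b = Finsupp.weight g a) : b = a := by
  classical
  have h1 := peel_eq a i _ hab
  rw [Finsupp.add_apply, Finsupp.single_apply, Finsupp.single_apply] at h1
  have hne : ge w ≠ ge (w - 1) := fun e => by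
    have := h.inj le_rfl (by omega) e; omega
  by_cases hi : ge w = i
  · subst hi
    obtain ⟨K, rfl⟩ : ∃ K', K = K' + 2 := ⟨K - 2, by omega⟩
    have hK1 : K + 2 - 1 = K + 1 := by omega
    rw [hK1] at hab hKm
    rw [Finsupp.single_add, add_assoc, add_comm (Finsupp.single (ge w) 1), ← add_assoc] at hab
    have ha : a = Finsupp.single (ge w) K + Finsupp.single (ge (w - 1)) 1 :=
      add_right_cancel hab
    subst ha
    rw [map_add, weight_single', weight_one, h.hge w le_rfl, h.hge (w - 1) (by omega)] at hb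
    have h3 := h.lower b
    have h4 := h.upper b
    have e1 : (K + 1) * (m + w) = K * (m + w) + (m + w) := by ring
    have e2 : (K + 1) * (m + w) = (K + 1) * m + (K + 1) * w := by ring
    have e3 : (K + 2) * m = (K + 1) * m + m := by ring
    have h5 : b.degree ≤ K + 1 := by
      by_contra hcon
      have : (K + 2) * m ≤ b.degree * m := Nat.mul_le_mul_right _ (by omega)
      omega
    have h6 : K + 1 ≤ b.degree := by
      by_contra hcon
      have h7 : b.degree * (m + w) ≤ K * (m + w) := Nat.mul_le_mul_right _ (by omega)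
      omega
    have h7 : b.degree = K + 1 := le_antisymm h5 h6
    rw [h7] at h4
    have h8 := h.def_one hw b (by omega)
    rw [h7, Nat.add_sub_cancel] at h8
    exact h8
  · have hi2 : ge (w - 1) = i := by
      by_contra hne2
      simp [hi, hne2] at h1
    subst hi2
    have ha : a = Finsupp.single (ge w) (K - 1) := add_right_cancel hab
    subst ha
    refine h.top_h2 (K := K) (by omega) hKm (ge w) _ b ?_ hb
    obtain ⟨K, rfl⟩ : ∃ K', K = K' + 1 := ⟨K - 1, by omega⟩
    rw [Nat.add_sub_cancel, Finsupp.single_add]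

theorem quad_inj (h : Ivl g m w ge) {i j i' j' : ℕ} (hj : j ≤ w) (hj' : j' ≤ w)
    (hij : i ≤ j) (hij' : i' ≤ j')
    (he : Finsupp.single (ge i) 1 + Finsupp.single (ge j) 1 =
      (Finsupp.single (ge i') 1 + Finsupp.single (ge j') 1 : σ →₀ ℕ)) : i = i' ∧ j = j' := by
  classical
  have h1 : (Finsupp.single (ge i) 1 + Finsupp.single (ge j) 1 : σ →₀ ℕ) (ge i) =
      (Finsupp.single (ge i') 1 + Finsupp.single (ge j') 1 : σ →₀ ℕ) (ge i) := by rw [he]
  rw [Finsupp.add_apply, Finsupp.add_apply, Finsupp.single_eq_same, Finsupp.single_apply,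
    Finsupp.single_apply, Finsupp.single_apply] at h1
  by_cases h2 : ge i' = ge i
  · have h3 : i' = i := h.inj (by omega) (by omega) h2
    subst h3
    have h4 := add_left_cancel he
    rw [Finsupp.single_left_inj (by norm_num)] at h4
    exact ⟨rfl, h.inj hj hj' h4⟩
  · by_cases h3 : ge j' = ge i
    · have h4 : j' = i := h.inj (by omega) (by omega) h3
      subst h4
      rw [add_comm] at he
      have h5 := add_right_cancel he
      rw [Finsupp.single_left_inj (by norm_num)] at h5
      have h6 : j = i' := h.inj hj (by omega) h5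
      omega
    · simp [h2, h3] at h1

/-- the set of quadrics `e_i + e_j`, `1 ≤ i ≤ j < N` -/
noncomputable def quads {σ : Type} (ge : ℕ → σ) (N : ℕ) : Finset (σ →₀ ℕ) :=
  open Classical in
  ((Finset.range N).sigma (fun j => Finset.Icc 1 j)).image
    (fun p => Finsupp.single (ge p.2) 1 + Finsupp.single (ge p.1) 1)

theorem mem_quads {N : ℕ} {c : σ →₀ ℕ} : c ∈ quads ge N ↔
    ∃ i j, 1 ≤ i ∧ i ≤ j ∧ j < N ∧
      c = Finsupp.single (ge i) 1 + Finsupp.single (ge j) 1 := by
  classical
  unfold quads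
  rw [Finset.mem_image]
  constructor
  · rintro ⟨⟨j, i⟩, hp, rfl⟩
    rw [Finset.mem_sigma, Finset.mem_range, Finset.mem_Icc] at hp
    exact ⟨i, j, hp.2.1, hp.2.2, hp.1, rfl⟩
  · rintro ⟨i, j, h1, h2, h3, rfl⟩
    exact ⟨⟨j, i⟩, by
      rw [Finset.mem_sigma, Finset.mem_range, Finset.mem_Icc]; exact ⟨h3, h1, h2⟩, rfl⟩

theorem card_quads (h : Ivl g m w ge) {N : ℕ} (hN : N ≤ w + 1) :
    (quads ge N).card = N.choose 2 := by
  classical
  unfold quads
  rw [Finset.card_image_of_injOn, Finset.card_sigma]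
  · simp only [Nat.card_Icc, Nat.add_sub_cancel]
    rw [Finset.sum_range_id, Nat.choose_two_right]
  · rintro ⟨j, i⟩ hp ⟨j', i'⟩ hp' he
    rw [Finset.mem_coe, Finset.mem_sigma, Finset.mem_range, Finset.mem_Icc] at hp hp'
    obtain ⟨h1, h2, h3⟩ := hp
    obtain ⟨h1', h2', h3'⟩ := hp'
    dsimp only at h1 h2 h3 h1' h2' h3' he
    obtain ⟨rfl, rfl⟩ := h.quad_inj (by omega) (by omega) h3 h3' he
    rfl

/-- vectors with nonzero `e_0` coordinate are not in `quads` -/
theorem quads_zero (h : Ivl g m w ge) {N : ℕ} (hN : N ≤ w + 1) {c : σ →₀ ℕ}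
    (hc : c ∈ quads ge N) : c (ge 0) = 0 := by
  classical
  obtain ⟨i, j, h1, h2, h3, rfl⟩ := mem_quads.mp hc
  apply pair_zero
  · intro e
    have := h.inj (by omega) (by omega) e; omega
  · intro e
    have := h.inj (by omega) (by omega) e; omega

theorem quads_top (h : Ivl g m w ge) {N : ℕ} (hN : N ≤ w) {c : σ →₀ ℕ}
    (hc : c ∈ quads ge N) : c (ge w) = 0 := by
  classical
  obtain ⟨i, j, h1, h2, h3, rfl⟩ := mem_quads.mp hc
  apply pair_zero
  · intro e
    have := h.inj (by omega) (by omega) e; omega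
  · intro e
    have := h.inj (by omega) (by omega) e; omega

theorem weight_pair (h : Ivl g m w ge) {i j : ℕ} (hi : i ≤ w) (hj : j ≤ w) :
    Finsupp.weight g (Finsupp.single (ge i) 1 + Finsupp.single (ge j) 1) = (m + i) + (m + j) := by
  rw [map_add, weight_one, weight_one, h.hge i hi, h.hge j hj]

theorem exists_K (hw : 1 ≤ w) (hm : w + 2 ≤ m) :
    ∃ K, 2 ≤ K ∧ m ≤ K * w ∧ (K - 1) * w < m := by
  refine ⟨(m - 1) / w + 1, ?_, ?_, ?_⟩
  · have : 1 ≤ (m - 1) / w := (Nat.one_le_div_iff (by omega)).mpr (by omega)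
    omega
  · have := Nat.lt_mul_div_succ (m - 1) (show 0 < w by omega)
    rw [mul_comm]; omega
  · rw [Nat.add_sub_cancel]
    have := Nat.div_mul_le_self (m - 1) w
    omega

/-- the alternative vector of a quadric -/
theorem quads_alt (h : Ivl g m w ge) (hw : 1 ≤ w) {c : σ →₀ ℕ}
    (hc : c ∈ quads ge w) : ∃ v : σ →₀ ℕ, Finsupp.weight g c = Finsupp.weight g v ∧
      (v (ge 0) ≠ 0 ∨ (v (ge w) = 1 ∧ v (ge (w - 1)) = 0)) := by
  classical
  obtain ⟨i, j, h1, h2, h3, rfl⟩ := mem_quads.mp hc
  by_cases hij : i + j ≤ w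
  · refine ⟨Finsupp.single (ge 0) 1 + Finsupp.single (ge (i + j)) 1, ?_, Or.inl ?_⟩
    · rw [h.weight_pair (by omega) (by omega), h.weight_pair (by omega) (by omega)]; omega
    · rw [Finsupp.add_apply, Finsupp.single_eq_same]; omega
  · refine ⟨Finsupp.single (ge (i + j - w)) 1 + Finsupp.single (ge w) 1, ?_, Or.inr ⟨?_, ?_⟩⟩
    · rw [h.weight_pair (by omega) (by omega), h.weight_pair (by omega) (by omega)]; omega
    · rw [Finsupp.add_apply, Finsupp.single_eq_same, Finsupp.single_apply, if_neg]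
      intro e
      have := h.inj (by omega) (by omega) e; omega
    · apply pair_zero
      · intro e
        have := h.inj (by omega) (by omega) e; omega
      · intro e
        have := h.inj (by omega) (by omega) e; omega

theorem top_alt (h : Ivl g m w ge) {K : ℕ} (hK : 2 ≤ K) (hK1 : m ≤ K * w)
    (hK2 : (K - 1) * w < m) : ∃ v : σ →₀ ℕ,
      Finsupp.weight g (Finsupp.single (ge w) K) = Finsupp.weight g v ∧ v (ge 0) ≠ 0 := by
  obtain ⟨K, rfl⟩ : ∃ K', K = K' + 1 := ⟨K - 1, by omega⟩
  rw [Nat.add_sub_cancel] at hK2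
  have e1 : (K + 1) * w = K * w + w := by ring
  refine ⟨Finsupp.single (ge 0) (K + 1) + Finsupp.single (ge ((K + 1) * w - m)) 1, ?_, ?_⟩
  · rw [map_add, weight_single', weight_single', weight_one, h.hge _ le_rfl,
      h.hge 0 (by omega), h.hge _ (by omega)]
    have e2 : (K + 1) * (m + w) = (K + 1) * m + (K + 1) * w := by ring
    rw [e2, add_zero]
    omega
  · rw [Finsupp.add_apply, Finsupp.single_eq_same]; omega

theorem top1_alt (h : Ivl g m w ge) (hw : 1 ≤ w) {K : ℕ} (hK : 2 ≤ K) (hK1 : m < K * w)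
    (hK2 : (K - 1) * w < m) : ∃ v : σ →₀ ℕ,
      Finsupp.weight g (Finsupp.single (ge w) (K - 1) + Finsupp.single (ge (w - 1)) 1) =
        Finsupp.weight g v ∧ v (ge 0) ≠ 0 := by
  obtain ⟨K, rfl⟩ : ∃ K', K = K' + 1 := ⟨K - 1, by omega⟩
  rw [Nat.add_sub_cancel] at hK2
  have e1 : (K + 1) * w = K * w + w := by ring
  refine ⟨Finsupp.single (ge 0) (K + 1) + Finsupp.single (ge ((K + 1) * w - m - 1)) 1, ?_, ?_⟩
  · simp only [map_add, weight_single']
    rw [h.hge _ le_rfl, h.hge 0 (by omega), h.hge (w - 1) (by omega),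
      h.hge ((K + 1) * w - m - 1) (by omega), Nat.add_sub_cancel]
    have e2 : K * (m + w) = K * m + K * w := by ring
    have e3 : (K + 1) * m = K * m + m := by ring
    rw [e2, add_zero, e3]
    omega
  · rw [Finsupp.add_apply, Finsupp.single_eq_same]; omega

theorem ge_one (k : Type) [Field k] (h : Ivl g m w ge) (hw : 1 ≤ w) (hm : w + 2 ≤ m) :
    ((w.choose 2 + 1 : ℕ) : Cardinal) ≤ Submodule.spanRank (toric k g) := by
  classical
  obtain ⟨K, hK, hK1, hK2⟩ := exists_K hw hm
  set C : Finset (σ →₀ ℕ) := insert (Finsupp.single (ge w) K) (quads ge w) with hC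
  have hnew : Finsupp.single (ge w) K ∉ quads ge w := fun hmem => by
    have := h.quads_top le_rfl hmem
    rw [Finsupp.single_eq_same] at this
    omega
  have hcard : C.card = w.choose 2 + 1 := by
    rw [hC, Finset.card_insert_of_notMem hnew, h.card_quads (by omega)]
  have hz : ∀ c ∈ C, c (ge 0) = 0 := by
    intro c hc
    rw [hC, Finset.mem_insert] at hc
    rcases hc with rfl | hc
    · rw [Finsupp.single_eq_of_ne]
      intro e
      have := h.inj (by omega) (by omega) e; omega
    · exact h.quads_zero (by omega) hc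
  have hone : ∀ v : σ →₀ ℕ, v (ge w) = 1 ∧ v (ge (w - 1)) = 0 → v ∉ C := by
    rintro v ⟨hv, -⟩ hvC
    rw [hC, Finset.mem_insert] at hvC
    rcases hvC with rfl | hc
    · rw [Finsupp.single_eq_same] at hv; omega
    · have := h.quads_top le_rfl hc; omega
  have := spanRank_ge_finset k g C ?_ ?_
  · rw [hcard] at this; exact this
  · intro c hc
    rw [hC, Finset.mem_insert] at hc
    rcases hc with rfl | hc
    · obtain ⟨v, hv1, hv2⟩ := h.top_alt hK hK1 hK2
      exact ⟨v, fun hv => hv2 (hz v hv), hv1⟩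
    · obtain ⟨v, hv1, hv2⟩ := h.quads_alt hw hc
      refine ⟨v, ?_, hv1⟩
      rcases hv2 with hv2 | hv2
      · exact fun hv => hv2 (hz v hv)
      · exact hone v hv2
  · intro c hc i a b hab hb
    rw [hC, Finset.mem_insert] at hc
    rcases hc with rfl | hc
    · exact h.top_h2 K (by omega) hK2 i a b hab hb
    · obtain ⟨p, q, _, _, _, rfl⟩ := mem_quads.mp hc
      exact h.quad_h2 (by omega) _ _ i a b hab hb

theorem ge_two (k : Type) [Field k] (h : Ivl g m w ge) (hw : 2 ≤ w) (hm : w + 2 ≤ m)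
    (hdvd : ¬ w ∣ m) :
    ((w.choose 2 + 2 : ℕ) : Cardinal) ≤ Submodule.spanRank (toric k g) := by
  classical
  obtain ⟨K, hK, hK1, hK2⟩ := exists_K (by omega) hm
  have hK3 : m < K * w := by
    refine lt_of_le_of_ne hK1 fun e => hdvd ?_
    rw [e]; exact Dvd.intro_left K rfl
  have hne0 : ge (w - 1) ≠ ge w := fun e => by
    have := h.inj (by omega) (by omega) e; omega
  set c2 : σ →₀ ℕ := Finsupp.single (ge w) (K - 1) + Finsupp.single (ge (w - 1)) 1 with hc2
  have c2w : c2 (ge w) = K - 1 := by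
    rw [hc2, Finsupp.add_apply, Finsupp.single_eq_same, Finsupp.single_apply, if_neg hne0]; rfl
  have c2w1 : c2 (ge (w - 1)) = 1 := by
    rw [hc2, Finsupp.add_apply, Finsupp.single_eq_same, Finsupp.single_apply, if_neg hne0.symm]
  set C : Finset (σ →₀ ℕ) := insert c2 (insert (Finsupp.single (ge w) K) (quads ge w)) with hC
  have hnew : Finsupp.single (ge w) K ∉ quads ge w := fun hmem => by
    have := h.quads_top le_rfl hmem
    rw [Finsupp.single_eq_same] at this
    omega
  have hnew2 : c2 ∉ insert (Finsupp.single (ge w) K) (quads ge w) := fun hmem => by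
    rw [Finset.mem_insert] at hmem
    rcases hmem with hmem | hmem
    · rw [hmem, Finsupp.single_eq_of_ne hne0] at c2w1
      omega
    · have := h.quads_top le_rfl hmem
      omega
  have hcard : C.card = w.choose 2 + 2 := by
    rw [hC, Finset.card_insert_of_notMem hnew2, Finset.card_insert_of_notMem hnew,
      h.card_quads (by omega)]
  have hz : ∀ c ∈ C, c (ge 0) = 0 := by
    intro c hc
    rw [hC, Finset.mem_insert, Finset.mem_insert] at hc
    rcases hc with rfl | rfl | hc
    · rw [hc2]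
      apply pair_zero
      · intro e
        have := h.inj (by omega) (by omega) e; omega
      · intro e
        have := h.inj (by omega) (by omega) e; omega
    · rw [Finsupp.single_eq_of_ne]
      intro e
      have := h.inj (by omega) (by omega) e; omega
    · exact h.quads_zero (by omega) hc
  have hone : ∀ v : σ →₀ ℕ, v (ge w) = 1 ∧ v (ge (w - 1)) = 0 → v ∉ C := by
    rintro v ⟨hv, hv'⟩ hvC
    rw [hC, Finset.mem_insert, Finset.mem_insert] at hvC
    rcases hvC with rfl | rfl | hc
    · omega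
    · rw [Finsupp.single_eq_same] at hv; omega
    · have := h.quads_top le_rfl hc; omega
  have := spanRank_ge_finset k g C ?_ ?_
  · rw [hcard] at this; exact this
  · intro c hc
    rw [hC, Finset.mem_insert, Finset.mem_insert] at hc
    rcases hc with rfl | rfl | hc
    · obtain ⟨v, hv1, hv2⟩ := h.top1_alt (by omega) hK hK3 hK2
      exact ⟨v, fun hv => hv2 (hz v hv), hv1⟩
    · obtain ⟨v, hv1, hv2⟩ := h.top_alt hK hK1 hK2
      exact ⟨v, fun hv => hv2 (hz v hv), hv1⟩
    · obtain ⟨v, hv1, hv2⟩ := h.quads_alt (by omega) hc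
      refine ⟨v, ?_, hv1⟩
      rcases hv2 with hv2 | hv2
      · exact fun hv => hv2 (hz v hv)
      · exact hone v hv2
  · intro c hc i a b hab hb
    rw [hC, Finset.mem_insert, Finset.mem_insert] at hc
    rcases hc with rfl | rfl | hc
    · exact h.top1_h2 K hK (by omega) hm hK2 i a b hab hb
    · exact h.top_h2 K (by omega) hK2 i a b hab hb
    · obtain ⟨p, q, _, _, _, rfl⟩ := mem_quads.mp hc
      exact h.quad_h2 (by omega) _ _ i a b hab hb

/-- the case of a full interval `[m, 2m-1]` -/
theorem ge_big (k : Type) [Field k] (h : Ivl g m w ge) (hm : m = w + 1) :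
    ((m.choose 2 : ℕ) : Cardinal) ≤ Submodule.spanRank (toric k g) := by
  classical
  have := spanRank_ge_finset k g (quads ge (w + 1)) ?_ ?_
  · rw [h.card_quads le_rfl, ← hm] at this; exact this
  · intro c hc
    obtain ⟨i, j, h1, h2, h3, rfl⟩ := mem_quads.mp hc
    by_cases hij : i + j ≤ w
    · refine ⟨Finsupp.single (ge 0) 1 + Finsupp.single (ge (i + j)) 1, fun hv => ?_, ?_⟩
      · have := h.quads_zero le_rfl hv
        rw [Finsupp.add_apply, Finsupp.single_eq_same] at this
        omega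
      · rw [h.weight_pair (by omega) (by omega), h.weight_pair (by omega) (by omega)]; omega
    · refine ⟨Finsupp.single (ge 0) 2 + Finsupp.single (ge (i + j - m)) 1, fun hv => ?_, ?_⟩
      · have := h.quads_zero le_rfl hv
        rw [Finsupp.add_apply, Finsupp.single_eq_same] at this
        omega
      · rw [h.weight_pair (by omega) (by omega), map_add, weight_single', weight_one,
          h.hge 0 (by omega), h.hge _ (by omega)]; omega
  · intro c hc i a b hab hb
    obtain ⟨p, q, _, _, _, rfl⟩ := mem_quads.mp hc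
    exact h.quad_h2 (by omega) _ _ i a b hab hb

end Ivl

/-- The minimal generators of the semigroup generated by the interval `[m, M]`. -/
abbrev MG (m M : ℕ) : Type := {n : ℕ // m ≤ n ∧ n ≤ M ∧
  n ∉ AddSubmonoid.closure (((Finset.Icc m M : Finset ℕ) : Set ℕ) \ ({n} : Set ℕ))}

theorem mem_MG {m M n : ℕ} (hm : 1 ≤ m) (h1 : m ≤ n) (h2 : n ≤ M) (h3 : n < 2 * m) :
    m ≤ n ∧ n ≤ M ∧
      n ∉ AddSubmonoid.closure (((Finset.Icc m M : Finset ℕ) : Set ℕ) \ ({n} : Set ℕ)) := by
  refine ⟨h1, h2, fun hmem => ?_⟩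
  have key : ∀ x ∈ AddSubmonoid.closure (((Finset.Icc m M : Finset ℕ) : Set ℕ) \ ({n} : Set ℕ)),
      x = 0 ∨ (m ≤ x ∧ x ≠ n) ∨ 2 * m ≤ x := by
    intro x hx
    induction hx using AddSubmonoid.closure_induction with
    | mem x hx =>
      rw [Set.mem_sdiff, Finset.mem_coe, Finset.mem_Icc, Set.mem_singleton_iff] at hx
      exact Or.inr (Or.inl ⟨hx.1.1, hx.2⟩)
    | zero => exact Or.inl rfl
    | add x y _ _ hx hy => omega
  have := key n hmem
  omega

theorem ivl_MG {m M w : ℕ} (hm : 1 ≤ m) (hw : w < m) (hwM : m + w ≤ M)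
    (hlast : ∀ n : MG m M, (n : ℕ) ≤ m + w) :
    Ivl (fun i : MG m M => (i : ℕ)) m w
      (fun j => if h : j ≤ w then ⟨m + j, mem_MG hm (by omega) (by omega) (by omega)⟩
        else ⟨m, mem_MG hm (by omega) (by omega) (by omega)⟩) := by
  constructor
  · intro j hj
    simp only [hj, dite_true]
  · intro i
    have h1 := i.2.1
    have h2 := hlast i
    refine ⟨i - m, by omega, ?_⟩
    have h3 : (i : ℕ) - m ≤ w := by omega
    simp only [h3, dite_true]
    apply Subtype.ext
    show (i : ℕ) = m + (i - m)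
    omega

/-- TARGET 1. -/
theorem interval_ge_one (k : Type) [Field k] (m w : ℕ) (hw : 1 ≤ w) (hm : w + 2 ≤ m) :
    ((w.choose 2 + 1 : ℕ) : Cardinal) ≤
      Submodule.spanRank (toric k (fun i : MG m (m + w) => (i : ℕ))) :=
  (ivl_MG (M := m + w) (by omega) (by omega) le_rfl (fun n => n.2.2.1)).ge_one k hw hm

/-- TARGET 2. -/
theorem interval_ge_two (k : Type) [Field k] (m w : ℕ) (hw : 2 ≤ w) (hm : w + 2 ≤ m)
    (hdvd : ¬ w ∣ m) :
    ((w.choose 2 + 2 : ℕ) : Cardinal) ≤
      Submodule.spanRank (toric k (fun i : MG m (m + w) => (i : ℕ))) :=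
  (ivl_MG (M := m + w) (by omega) (by omega) le_rfl (fun n => n.2.2.1)).ge_two k hw hm hdvd

/-- TARGET 3. -/
theorem interval_ge_big (k : Type) [Field k] (m M : ℕ) (hm : 1 ≤ m) (hM : 2 * m - 1 ≤ M) :
    ((m.choose 2 : ℕ) : Cardinal) ≤
      Submodule.spanRank (toric k (fun i : MG m M => (i : ℕ))) := by
  refine (ivl_MG (m := m) (M := M) (w := m - 1) hm (by omega) (by omega) ?_).ge_big k (by omega)
  rintro ⟨n, h1, h2, h3⟩
  show n ≤ m + (m - 1)
  by_contra hcon
  apply h3
  have e : n = m + (n - m) := by omega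
  have hmm : m ∈ AddSubmonoid.closure (((Finset.Icc m M : Finset ℕ) : Set ℕ) \ ({n} : Set ℕ)) := by
    apply AddSubmonoid.subset_closure
    rw [Set.mem_sdiff, Finset.mem_coe, Finset.mem_Icc, Set.mem_singleton_iff]
    omega
  have hnm : n - m ∈
      AddSubmonoid.closure (((Finset.Icc m M : Finset ℕ) : Set ℕ) \ ({n} : Set ℕ)) := by
    apply AddSubmonoid.subset_closure
    rw [Set.mem_sdiff, Finset.mem_coe, Finset.mem_Icc, Set.mem_singleton_iff]
    omega
  have := AddSubmonoid.add_mem _ hmm hnm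
  rwa [← e] at this

end Pool.Agent.Helper816.Interval
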