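import Mathlib
import Pool.Agent.Helper816.Growth

set_option autoImplicit false

open Finset
open scoped Pointwise

namespace Pool.Agent.Helper816.Growth2

open Pool.Agent.Helper816.Growth

variable {G : Type*} [AddCommGroup G] [Fintype G] [DecidableEq G]

/-- The complement sizes. -/
def xj (A : Finset G) (j : ℕ) : ℕ := Fintype.card G - (Sj A j).card

lemma xj_zero (A : Finset G) : xj A 0 = Fintype.card G - 1 := by
  simp [xj, Sj]

lemma xj_one (A : Finset G) : xj A 1 = Fintype.card G - A.card := by
  simp [xj, Sj_one]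

lemma xj_step {A : Finset G} (h0 : (0 : G) ∈ A)
    (hgen : AddSubgroup.closure (A : Set G) = ⊤) (j : ℕ) :
    xj A (j + 1) = 0 ∨ 2 * xj A (j + 1) + A.card ≤ 2 * xj A j := by
  by_cases h : Sj A j + A = univ
  · left
    unfold xj
    show Fintype.card G - (Sj A j + A).card = 0
    rw [h, Finset.card_univ, Nat.sub_self]
  · right
    have h1 := growth h0 hgen (Sj_nonempty h0 j) h
    have h2 : (Sj A (j + 1)).card = (Sj A j + A).card := rfl
    have h3 : (Sj A (j + 1)).card ≤ Fintype.card G := Finset.card_le_univ _
    have h4 : (Sj A j).card ≤ Fintype.card G := Finset.card_le_univ _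
    unfold xj
    omega

/-- The potential. -/
def pot (p x : ℕ) : ℕ := if x = 0 then 0 else (4 * x + p) ^ 2

lemma pot_step (p x y : ℕ) (h : y = 0 ∨ 2 * y + p ≤ 2 * x) :
    16 * p * x + pot p y ≤ (4 * x + p) ^ 2 := by
  unfold pot
  split_ifs with hy
  · zify
    nlinarith [sq_nonneg ((4 : ℤ) * x - p)]
  · have h1 : 2 * y + p ≤ 2 * x := by
      rcases h with h | h
      · exact absurd h hy
      · exact h
    zify at h1 ⊢
    have h2 : (4 * (y : ℤ) + p) ^ 2 ≤ (4 * (x : ℤ) - p) ^ 2 := by
      apply pow_le_pow_left₀ (by positivity)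
      linarith
    nlinarith

theorem potential {A : Finset G} (h0 : (0 : G) ∈ A)
    (hgen : AddSubgroup.closure (A : Set G) = ⊤) (J : ℕ) :
    16 * A.card * (∑ j ∈ range J, xj A (j + 1)) + pot A.card (xj A (J + 1))
      ≤ (4 * (Fintype.card G - A.card) + A.card) ^ 2 := by
  induction J with
  | zero =>
    simp only [Finset.range_zero, Finset.sum_empty, mul_zero, zero_add]
    rw [xj_one]
    unfold pot
    split_ifs
    · exact Nat.zero_le _
    · exact le_refl _
  | succ J ih =>
    rw [Finset.sum_range_succ, mul_add]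
    have h1 := xj_step h0 hgen (J + 1)
    by_cases hx : xj A (J + 1) = 0
    · have h2 : xj A (J + 1 + 1) = 0 := by
        rcases h1 with h | h
        · exact h
        · rw [hx] at h; omega
      have h3 : pot A.card (xj A (J + 1 + 1)) = 0 := by rw [h2]; simp [pot]
      have h4 : pot A.card (xj A (J + 1)) = 0 := by rw [hx]; simp [pot]
      rw [h3, hx]
      rw [h4] at ih
      simpa using ih
    · have h2 := pot_step A.card (xj A (J + 1)) (xj A (J + 1 + 1)) h1
      have h3 : pot A.card (xj A (J + 1)) = (4 * xj A (J + 1) + A.card) ^ 2 := by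
        unfold pot; rw [if_neg hx]
      rw [h3] at ih
      omega

/-- When `A` has more than half of the elements, `A + A` is everything. -/
lemma two_univ {A : Finset G} (h : Fintype.card G < 2 * A.card) : Sj A 2 = univ := by
  show Sj A 1 + A = univ
  rw [Sj_one]
  rw [Finset.eq_univ_iff_forall]
  intro x
  by_contra hx
  have hdis : Disjoint A (A.image (fun a => x - a)) := by
    rw [Finset.disjoint_left]
    intro a ha ha'
    obtain ⟨b, hb, hba⟩ := Finset.mem_image.1 ha'
    apply hx
    rw [Finset.mem_add]
    exact ⟨a, ha, b, hb, by rw [← hba]; abel⟩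
  have h1 := Finset.card_union_of_disjoint hdis
  rw [Finset.card_image_of_injective _ (fun a b hab => by simpa using hab)] at h1
  have h2 : (A ∪ A.image (fun a => x - a)).card ≤ Fintype.card G := Finset.card_le_univ _
  omega

/-- Bound of the total sum in the dense case. -/
lemma dense_sum {A : Finset G} (h0 : (0 : G) ∈ A)
    (h : Fintype.card G < 2 * A.card) (J : ℕ) :
    1 + ∑ j ∈ range J, xj A j ≤ 2 * Fintype.card G - A.card := by
  have hz : ∀ j, 2 ≤ j → xj A j = 0 := by
    intro j hj
    unfold xj
    have h1 : Sj A j = univ := by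
      rw [← Finset.univ_subset_iff, ← two_univ h]
      exact Sj_mono h0 hj
    rw [h1, Finset.card_univ, Nat.sub_self]
  have hA : A.card ≤ Fintype.card G := Finset.card_le_univ _
  have hG : 1 ≤ Fintype.card G := Fintype.card_pos
  have key : ∀ J, ∑ j ∈ range (J + 2), xj A j = xj A 0 + xj A 1 := by
    intro J
    induction J with
    | zero => simp [Finset.sum_range_succ]
    | succ J ih => rw [Finset.sum_range_succ, ih, hz (J + 2) (by omega)]; omega
  have h1 : ∑ j ∈ range J, xj A j ≤ ∑ j ∈ range (J + 2), xj A j :=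
    Finset.sum_le_sum_of_subset (Finset.range_mono (by omega))
  rw [key, xj_zero, xj_one] at h1
  omega

/-- Bound of the total sum in general. -/
lemma general_sum {A : Finset G} (h0 : (0 : G) ∈ A)
    (hgen : AddSubgroup.closure (A : Set G) = ⊤) (J : ℕ) :
    16 * A.card * (1 + ∑ j ∈ range J, xj A j) ≤
      16 * A.card * Fintype.card G + (4 * (Fintype.card G - A.card) + A.card) ^ 2 := by
  have hG : 1 ≤ Fintype.card G := Fintype.card_pos
  have h1 : ∑ j ∈ range J, xj A j ≤ ∑ j ∈ range (J + 1), xj A j :=
    Finset.sum_le_sum_of_subset (Finset.range_mono (by omega))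
  have h2 := potential h0 hgen J
  rw [Finset.sum_range_succ' (fun j => xj A j), xj_zero] at h1
  have h3 : 1 + ∑ j ∈ range J, xj A j ≤ Fintype.card G + ∑ j ∈ range J, xj A (j + 1) := by omega
  calc 16 * A.card * (1 + ∑ j ∈ range J, xj A j)
      ≤ 16 * A.card * (Fintype.card G + ∑ j ∈ range J, xj A (j + 1)) :=
        Nat.mul_le_mul_left _ h3
    _ = 16 * A.card * Fintype.card G + 16 * A.card * ∑ j ∈ range J, xj A (j + 1) := by ring
    _ ≤ _ := by omega

end Pool.Agent.Helper816.Growth2
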