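import Mathlib
import Pool.Agent.Helper816.Growth
import Pool.Agent.Helper816.Growth2
import Pool.Agent.Helper816.Count
import Pool.Agent.Helper816.Count2
import Pool.Agent.Helper816.Residues
import Pool.Agent.Helper816.Residues2

set_option autoImplicit false

open Finset

namespace Pool.Agent.Helper816.Upper

open Pool.Agent.Helper816.Count Pool.Agent.Helper816.Residues

variable {e : ℕ} {g : Fin (e + 1) → ℕ}

lemma wt_three (a : Fin (e + 1) → ℕ) (i j : Fin (e + 1)) :
    wt g (a + Pi.single i 1 + Pi.single j 1) = wt g a + g i + g j := by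
  rw [wt_add, wt_add, wt_single, wt_single]; ring

/-- Above a non-generator element of `B` there are few purely inner vertices. -/
theorem pairs_le (hg : StrictMono g) (b : ℕ) (hb0 : b ≠ 0)
    (hbg : ∀ j, b ≠ g j) (s : Finset (Fin (e + 1)))
    (hs : ∀ i ∈ s, Adj g (b + g i) i i ∧ ¬ conn g (b + g i) i 0 ∧
      ¬ conn g (b + g i) i (Fin.last e)) :
    s.card ≤ g (Fin.last e) - g 0 - e := by
  classical
  rcases s.eq_empty_or_nonempty with rfl | ⟨i0, hi0⟩
  · simp
  obtain ⟨h1, h2, h3⟩ := hs i0 hi0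
  obtain ⟨h4, a, ha⟩ := vx_iff.1 h1
  have ha' : wt g a = b := by omega
  -- decompose
  obtain ⟨j, hj⟩ : ∃ j, 0 < a j := by
    by_contra hcon
    push Not at hcon
    apply hb0
    rw [← ha']
    unfold wt
    apply Finset.sum_eq_zero
    intro i _
    have := hcon i
    have h5 : a i = 0 := by omega
    rw [h5, zero_mul]
  obtain ⟨a', ha2⟩ : ∃ a' : Fin (e + 1) → ℕ, a = a' + Pi.single j 1 := by
    refine ⟨fun l => a l - (Pi.single j 1 : Fin (e + 1) → ℕ) l, ?_⟩
    funext l
    by_cases hl : l = j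
    · subst hl; simp; omega
    · simp [Pi.single_eq_of_ne hl]
  obtain ⟨v, hv⟩ : ∃ v, 0 < a' v := by
    by_contra hcon
    push Not at hcon
    apply hbg j
    rw [← ha', ha2, wt_add, wt_single, one_mul]
    have h5 : wt g a' = 0 := by
      unfold wt
      apply Finset.sum_eq_zero
      intro i _
      have := hcon i
      have h5 : a' i = 0 := by omega
      rw [h5, zero_mul]
    rw [h5, zero_add]
  have hb' : wt g a' + g j = b := by
    rw [← ha', ha2, wt_add, wt_single, one_mul]
  -- connections at b + g i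
  have hconn : ∀ i, Adj g (b + g i) i j ∧ Adj g (b + g i) i v := by
    intro i
    have h5 : wt g (a' + Pi.single j 1 + Pi.single i 1) = b + g i := by
      rw [wt_three]; omega
    refine ⟨⟨_, h5, by simp, by simp⟩, ⟨_, h5, by simp, by simp; omega⟩⟩
  have hi0' : i0 ≠ Fin.last e := by
    rintro rfl
    exact h3 ((conn g _).refl _)
  have hjl : j ≠ Fin.last e := by
    rintro rfl
    exact h3 (conn_of_adj (hconn i0).1)
  have hlast : ∀ i, i ≠ Fin.last e → g i - g 0 < g (Fin.last e) - g 0 := by
    intro i hi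
    have h5 : g i < g (Fin.last e) := hg (lt_of_le_of_ne (Fin.le_last i) hi)
    have h6 : g 0 ≤ g i := hg.monotone (Fin.zero_le i)
    omega
  have hw : 0 < g (Fin.last e) - g 0 := lt_of_le_of_lt (Nat.zero_le _) (hlast i0 hi0')
  have : NeZero (g (Fin.last e) - g 0) := ⟨hw.ne'⟩
  set w := g (Fin.last e) - g 0 with hwdef
  have hle : ∀ i, g 0 ≤ g i := fun i => hg.monotone (Fin.zero_le i)
  let D : Finset (ZMod w) := univ.image (fun l : Fin e => ((g l.castSucc - g 0 : ℕ) : ZMod w))
  have hDcard : D.card = e := by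
    rw [Finset.card_image_of_injective, Finset.card_univ, Fintype.card_fin]
    intro i j hij
    have h1 : (g i.castSucc - g 0) % w = (g j.castSucc - g 0) % w :=
      (ZMod.natCast_eq_natCast_iff' _ _ _).1 hij
    rw [Nat.mod_eq_of_lt (hlast _ (Fin.castSucc_lt_last i).ne),
      Nat.mod_eq_of_lt (hlast _ (Fin.castSucc_lt_last j).ne)] at h1
    have h2 := hle i.castSucc
    have h3 := hle j.castSucc
    have h4 : g i.castSucc = g j.castSucc := by omega
    exact Fin.castSucc_injective e (hg.injective h4)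
  have hnot : ∀ i ∈ s, ((g i - g 0 + (g j - g 0) : ℕ) : ZMod w) ∈ (univ \ D) := by
    intro i hi
    rw [Finset.mem_sdiff]
    refine ⟨Finset.mem_univ _, ?_⟩
    intro hmem
    obtain ⟨l, _, hl⟩ := Finset.mem_image.1 hmem
    obtain ⟨h5, h6, h7⟩ := hs i hi
    have hil : i ≠ Fin.last e := by
      rintro rfl
      exact h7 ((conn g _).refl _)
    have h8 : (g l.castSucc - g 0) % w = (g i - g 0 + (g j - g 0)) % w :=
      (ZMod.natCast_eq_natCast_iff' _ _ _).1 hl
    rw [Nat.mod_eq_of_lt (hlast _ (Fin.castSucc_lt_last l).ne)] at h8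
    have h9 := hlast i hil
    have h10 := hlast j hjl
    have h11 := hlast _ (Fin.castSucc_lt_last l).ne
    have h12 : g i - g 0 + (g j - g 0) = g l.castSucc - g 0 ∨
        g i - g 0 + (g j - g 0) = g l.castSucc - g 0 + w := by
      rcases Nat.lt_or_ge (g i - g 0 + (g j - g 0)) w with h | h
      · left
        rw [Nat.mod_eq_of_lt h] at h8
        exact h8.symm
      · right
        rw [Nat.mod_eq_sub_mod h, Nat.mod_eq_of_lt (by omega)] at h8
        omega
    have h13 := hle i
    have h14 := hle j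
    have h15 := hle l.castSucc
    have h16 := hle (Fin.last e)
    rcases h12 with h | h
    · -- connected to 0
      apply h6
      have h17 : wt g (a' + Pi.single 0 1 + Pi.single l.castSucc 1) = b + g i := by
        rw [wt_three]; omega
      have h18 : Adj g (b + g i) v 0 := ⟨_, h17, by simp; omega, by simp⟩
      exact (conn g _).trans (conn_of_adj (hconn i).2) (conn_of_adj h18)
    · apply h7
      have h17 : wt g (a' + Pi.single (Fin.last e) 1 + Pi.single l.castSucc 1) = b + g i := by
        rw [wt_three]; omega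
      have h18 : Adj g (b + g i) v (Fin.last e) := ⟨_, h17, by simp; omega, by simp⟩
      exact (conn g _).trans (conn_of_adj (hconn i).2) (conn_of_adj h18)
  have hinj : Set.InjOn (fun i => ((g i - g 0 + (g j - g 0) : ℕ) : ZMod w)) (s : Set (Fin (e + 1))) := by
    intro i hi i' hi' heq
    have hil : i ≠ Fin.last e := by
      rintro rfl
      exact (hs _ hi).2.2 ((conn g _).refl _)
    have hil' : i' ≠ Fin.last e := by
      rintro rfl
      exact (hs _ hi').2.2 ((conn g _).refl _)
    have heq' : ((g i - g 0 + (g j - g 0) : ℕ) : ZMod w) = ((g i' - g 0 + (g j - g 0) : ℕ) : ZMod w) :=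
      heq
    rw [Nat.cast_add, Nat.cast_add] at heq'
    have h5 := add_right_cancel heq'
    have h6 : (g i - g 0) % w = (g i' - g 0) % w :=
      (ZMod.natCast_eq_natCast_iff' _ _ _).1 h5
    rw [Nat.mod_eq_of_lt (hlast _ hil), Nat.mod_eq_of_lt (hlast _ hil')] at h6
    have h7 := hle i
    have h8 := hle i'
    exact hg.injective (by omega)
  have hcard := Finset.card_le_card_of_injOn _ hnot hinj
  rw [Finset.card_sdiff_of_subset (Finset.subset_univ _), Finset.card_univ, ZMod.card, hDcard]
    at hcard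
  exact hcard

/-- Savings when the width divides the multiplicity. -/
theorem vsave (hg : StrictMono g) (h0 : 0 < g 0)
    (hdvd : (g (Fin.last e) - g 0) ∣ g 0) :
    ∃ V' : Finset ℕ, V'.card + 2 = e + 1 + (if e = 0 then 1 else 0) ∧ ∀ n ∈ V',
      g (Fin.last e) ≤ n ∧ Mem g (n - g (Fin.last e)) ∧
      ¬ Adj g (n - g (Fin.last e)) 0 0 ∧ Adj g n 0 0 ∧ conn g n 0 (Fin.last e) := by
  classical
  by_cases he : e = 0
  · refine ⟨∅, ?_, by simp⟩
    rw [if_pos he, he]
    rfl
  obtain ⟨k, hk⟩ := hdvd
  have hpos : ∀ i, 0 < g i := fun i => lt_of_lt_of_le h0 (hg.monotone (Fin.zero_le i))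
  have hl0 : (0 : Fin (e + 1)) < Fin.last e := by
    rw [Fin.lt_def]
    simp
    omega
  have hM : g 0 < g (Fin.last e) := hg hl0
  have hk1 : 1 ≤ k := by
    rcases Nat.eq_zero_or_pos k with h | h
    · rw [h, mul_zero] at hk; omega
    · exact h
  refine ⟨((univ.erase 0).erase (Fin.last e)).image (fun i => k * g (Fin.last e) + g i), ?_, ?_⟩
  · rw [if_neg he, Finset.card_image_of_injective _ (fun a b h => hg.injective (by simpa using h)),
      Finset.card_erase_of_mem (by simp [hl0.ne']), Finset.card_erase_of_mem (by simp),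
      Finset.card_univ, Fintype.card_fin]
    omega
  · intro n hn
    obtain ⟨i, hi, rfl⟩ := Finset.mem_image.1 hn
    rw [Finset.mem_erase, Finset.mem_erase] at hi
    obtain ⟨hil, hi0, _⟩ := hi
    have hd1 : g i < g (Fin.last e) := hg (lt_of_le_of_ne (Fin.le_last i) hil)
    have hd0 : g 0 < g i := hg (Fin.pos_of_ne_zero hi0)
    obtain ⟨w, hw⟩ : ∃ w, w = g (Fin.last e) - g 0 := ⟨_, rfl⟩
    rw [← hw] at hk
    have hMw : g (Fin.last e) = g 0 + w := by omega
    obtain ⟨q, rfl⟩ : ∃ q, k = q + 1 := ⟨k - 1, by omega⟩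
    have h1 : (q + 1) * g (Fin.last e) + g i - g (Fin.last e) = q * g (Fin.last e) + g i := by
      rw [add_mul, one_mul]; omega
    have h2 : wt g (Pi.single (Fin.last e) (q + 1) + Pi.single i 1) =
        (q + 1) * g (Fin.last e) + g i := by
      rw [wt_add, wt_single, wt_single, one_mul]
    have h3 : wt g (Pi.single 0 (q + 2) + Pi.single i 1) =
        (q + 1) * g (Fin.last e) + g i := by
      rw [wt_add, wt_single, wt_single, one_mul, hMw, hk]
      ring
    refine ⟨?_, ?_, ?_, ?_, ?_⟩
    · rw [add_mul, one_mul]; omega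
    · rw [h1]
      exact ⟨Pi.single (Fin.last e) q + Pi.single i 1, by rw [wt_add, wt_single, wt_single, one_mul]⟩
    · rw [h1]
      intro hadj
      obtain ⟨h4, b, hb⟩ := vx_iff.1 hadj
      have h5 : wt g b = len b * g 0 + exc g b := wt_eq hg b
      have h6 : exc g b ≤ len b * w := by
        unfold exc len
        rw [Finset.sum_mul]
        apply Finset.sum_le_sum
        intro j _
        apply Nat.mul_le_mul_left
        have := hg.monotone (Fin.le_last j)
        omega
      rcases Nat.lt_or_ge (len b) (q + 1) with h | h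
      · have h7 : len b * g 0 + len b * w ≤ q * g 0 + q * w := by
          have h8 : len b ≤ q := by omega
          exact Nat.add_le_add (Nat.mul_le_mul_right _ h8) (Nat.mul_le_mul_right _ h8)
        have h9 : q * g (Fin.last e) = q * g 0 + q * w := by rw [hMw]; ring
        omega
      · have h7 : (q + 1) * g 0 ≤ len b * g 0 := Nat.mul_le_mul_right _ h
        have h9 : q * g (Fin.last e) = q * g 0 + q * w := by rw [hMw]; ring
        have h10 : (q + 1) * g 0 = q * g 0 + (q * w + w) := by
          conv_lhs => rw [add_mul, one_mul]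
          conv_lhs => rw [show g 0 = w * (q + 1) from hk]
          rw [hk]
          ring
        omega
    · exact ⟨_, h3, by simp, by simp⟩
    · have h4 : Adj g ((q + 1) * g (Fin.last e) + g i) 0 i := ⟨_, h3, by simp, by simp⟩
      have h5 : Adj g ((q + 1) * g (Fin.last e) + g i) i (Fin.last e) :=
        ⟨_, h2, by simp, by simp⟩
      exact (conn g _).trans (conn_of_adj h4) (conn_of_adj h5)

lemma arith_dense (e δ T x : ℕ) (hδ : 1 ≤ δ) (he : δ + 1 ≤ e)
    (hT : T ≤ e + 2 * δ) (hx : x ≤ (δ + 1) * T + (e - 1 - δ) * e + e) :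
    x + (e + δ) ≤ (e + δ) ^ 2 + 4 := by
  obtain ⟨f, rfl⟩ := Nat.exists_eq_add_of_le he
  obtain ⟨d, rfl⟩ := Nat.exists_eq_add_of_le hδ
  have h1 : 1 + d + 1 + f - 1 - (1 + d) = f := by omega
  rw [h1] at hx
  have h2 : (1 + d + 1) * T ≤ (1 + d + 1) * (1 + d + 1 + f + 2 * (1 + d)) :=
    Nat.mul_le_mul_left _ hT
  nlinarith [Nat.zero_le (d * f), Nat.zero_le (d * d), Nat.zero_le d, Nat.zero_le f]

lemma arith_sparse (e δ T x : ℕ) (he : 2 ≤ e) (hδ : e ≤ δ)
    (hT : 16 * e * T ≤ 16 * e * (e + δ) + (4 * δ + e) ^ 2) (hx : 2 * x ≤ e * T + e) :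
    2 * x + (e + δ) ≤ (e + δ) ^ 2 + 4 := by
  obtain ⟨d, rfl⟩ := Nat.exists_eq_add_of_le hδ
  have h1 : 16 * (2 * x) < 16 * ((e + (e + d)) ^ 2 + 6) - 16 * (e + (e + d)) := by
    have h2 : 16 * (2 * x) ≤ 16 * e * (e + (e + d)) + (4 * (e + d) + e) ^ 2 + 16 * e := by
      nlinarith
    have h3 : 16 * e * (e + (e + d)) + (4 * (e + d) + e) ^ 2 + 16 * e + 16 * (e + (e + d)) <
        16 * ((e + (e + d)) ^ 2 + 6) := by
      zify at he ⊢
      nlinarith [sq_nonneg (7 * (e : ℤ) - 24), mul_nonneg (by positivity : (0 : ℤ) ≤ d)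
        (by linarith : (0 : ℤ) ≤ (e : ℤ) - 2)]
    omega
  have h4 : Even ((e + (e + d)) ^ 2 + (e + (e + d))) := by
    have := Nat.even_mul_succ_self (e + (e + d))
    have h5 : (e + (e + d)) * (e + (e + d) + 1) = (e + (e + d)) ^ 2 + (e + (e + d)) := by ring
    rwa [h5] at this
  obtain ⟨y, hy⟩ := h4
  omega

/-- Upper bound for proper subsets of the interval. -/
theorem ub (he : 2 ≤ e) (hg : StrictMono g) (h0 : 0 < g 0)
    (hδ : e + 1 ≤ g (Fin.last e) - g 0) :
    ∃ R : Finset ((Fin (e + 1) → ℕ) × (Fin (e + 1) → ℕ)),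
      2 * R.card + (g (Fin.last e) - g 0) ≤ (g (Fin.last e) - g 0) ^ 2 + 4 ∧
      ((g (Fin.last e) - g 0) ∣ g 0 →
        2 * R.card + (g (Fin.last e) - g 0) ≤ (g (Fin.last e) - g 0) ^ 2 + 2) ∧
      ∀ a b : Fin (e + 1) → ℕ,
        (addConGen (fun x y => (x, y) ∈ R)) a b ↔ wt g a = wt g b := by
  classical
  have hpos : ∀ i, 0 < g i := fun i => lt_of_lt_of_le h0 (hg.monotone (Fin.zero_le i))
  obtain ⟨V', hV1, hV2⟩ : ∃ V' : Finset ℕ,
      ((g (Fin.last e) - g 0) ∣ g 0 → 1 ≤ V'.card) ∧ ∀ n ∈ V',
      g (Fin.last e) ≤ n ∧ Mem g (n - g (Fin.last e)) ∧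
      ¬ Adj g (n - g (Fin.last e)) 0 0 ∧ Adj g n 0 0 ∧ conn g n 0 (Fin.last e) := by
    by_cases hd : (g (Fin.last e) - g 0) ∣ g 0
    · obtain ⟨V', h1, h2⟩ := vsave hg h0 hd
      refine ⟨V', fun _ => ?_, h2⟩
      rw [if_neg (by omega)] at h1
      omega
    · exact ⟨∅, fun h => absurd h hd, by simp⟩
  obtain ⟨δ, hδ'⟩ := Nat.exists_eq_add_of_le (by omega : e ≤ g (Fin.last e) - g 0)
  by_cases hdense : g (Fin.last e) - g 0 < 2 * e
  · obtain ⟨B, R, hB, hR, hgen⟩ := Pool.Agent.Helper816.Count2.count2 (g := g) (by omega) hpos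
      (g (Fin.last e) - g 0 - e) (by omega) (pairs_le hg) V' hV2
    obtain ⟨N, T, h1, h2, h3, _, h5, _⟩ :=
      Pool.Agent.Helper816.Residues2.residues2 (by omega) hg B hB
    have hN : N = g (Fin.last e) - g 0 := by
      rcases h1 with h | h
      · exact h
      · omega
    rw [hN] at h5
    have hT := h5 hdense
    have key : 2 * R.card + 2 * V'.card + (e + δ) ≤ (e + δ) ^ 2 + 4 := by
      apply arith_dense e δ T (2 * R.card + 2 * V'.card) (by omega) (by omega) (by omega)
      have h6 : g (Fin.last e) - g 0 - e = δ := by omega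
      rw [h6] at hR
      calc _ ≤ _ := hR
        _ ≤ _ := by
          have := Nat.mul_le_mul_left (δ + 1) h3
          omega
    refine ⟨R, ?_, ?_, hgen⟩
    · rw [hδ']; omega
    · intro hd
      have := hV1 hd
      rw [hδ']; omega
  · obtain ⟨B, R, hB, hR, hgen⟩ := Pool.Agent.Helper816.Count2.count2 (g := g) (by omega) hpos
      (e - 1) (le_refl _) (by
        intro b hb0 hbg s hs
        have hsub : s ⊆ (univ.erase 0).erase (Fin.last e) := by
          intro i hi
          obtain ⟨_, h2, h3⟩ := hs i hi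
          rw [Finset.mem_erase, Finset.mem_erase]
          refine ⟨?_, ?_, Finset.mem_univ _⟩
          · rintro rfl
            exact h3 ((conn g _).refl _)
          · rintro rfl
            exact h2 ((conn g _).refl _)
        have hl0 : (0 : Fin (e + 1)) < Fin.last e := by
          rw [Fin.lt_def]
          simp
          omega
        have h4 := Finset.card_le_card hsub
        rw [Finset.card_erase_of_mem (by simp [hl0.ne']), Finset.card_erase_of_mem (by simp),
          Finset.card_univ, Fintype.card_fin] at h4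
        omega) V' hV2
    obtain ⟨N, T, h1, h2, h3, h4, _, h6⟩ :=
      Pool.Agent.Helper816.Residues2.residues2 (by omega) hg B hB
    have hR' : 2 * (R.card + V'.card) ≤ e * T + e := by
      have h7 : e - 1 + 1 = e := by omega
      have h8 : e - 1 - (e - 1) = 0 := by omega
      rw [h7, h8, zero_mul, add_zero] at hR
      have := Nat.mul_le_mul_left e h3
      omega
    have key : 2 * (R.card + V'.card) + (e + δ) ≤ (e + δ) ^ 2 + 4 := by
      rcases h1 with h | h
      · rw [h, hδ'] at h6
        have h7 : e + δ - e = δ := by omega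
        rw [h7] at h6
        exact arith_sparse e δ T (R.card + V'.card) he (by omega) h6 hR'
      · have h7 : e * T + e ≤ N ^ 2 + e := by
          have : e * (T + 1) = e * T + e := by ring
          omega
        rw [hδ'] at h
        nlinarith
    refine ⟨R, ?_, ?_, hgen⟩
    · rw [hδ']; omega
    · intro hd
      have := hV1 hd
      rw [hδ']; omega

end Pool.Agent.Helper816.Upper
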