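import Mathlib
import Pool.Agent.Helper816.Toric
import Pool.Agent.Helper816.Interval
import Pool.Agent.Helper816.Count3
import Pool.Agent.Helper816.Upper

set_option autoImplicit false

open Finset MvPolynomial

namespace Pool.Agent.Helper816.Final999

open Pool.Agent.Helper816.Count Pool.Agent.Helper816.Toric

lemma toric_map (k : Type) [Field k] {σ τ : Type} (e : σ ≃ τ) (g : τ → ℕ) :
    (toric k (fun i => g (e i))).map (renameEquiv k e : MvPolynomial σ k ≃ₐ[k] MvPolynomial τ k)
      = toric k g := by
  have h1 : ∀ p : MvPolynomial σ k, MvPolynomial.aeval (R := k)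
      (fun i : τ => (Polynomial.X : Polynomial k) ^ (g i)) (renameEquiv k e p) =
      MvPolynomial.aeval (R := k) (fun i : σ => (Polynomial.X : Polynomial k) ^ (g (e i))) p := by
    intro p
    rw [renameEquiv_apply, aeval_rename]
    rfl
  apply le_antisymm
  · rw [Ideal.map_le_iff_le_comap]
    intro p hp
    rw [Ideal.mem_comap, mem_toric]
    rw [mem_toric] at hp
    rw [← hp]
    exact h1 p
  · intro q hq
    obtain ⟨p, rfl⟩ := (renameEquiv k e).surjective q
    apply Ideal.mem_map_of_mem
    rw [mem_toric] at hq ⊢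
    rw [← h1]
    exact hq

lemma spanRank_equiv (k : Type) [Field k] {σ τ : Type} (e : σ ≃ τ) (g : τ → ℕ) :
    Submodule.spanRank (toric k g) ≤ Submodule.spanRank (toric k (fun i => g (e i))) := by
  conv_rhs => unfold Submodule.spanRank
  have : Nonempty {s : Set (MvPolynomial σ k) // Submodule.span (MvPolynomial σ k) s =
      toric k (fun i => g (e i))} :=
    ⟨⟨(toric k (fun i => g (e i)) : Set _), Submodule.span_eq _⟩⟩
  refine le_ciInf (fun s => ?_)
  obtain ⟨s, hs⟩ := s
  have h1 : toric k g = Ideal.span ((renameEquiv k e) '' s) := by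
    rw [← toric_map k e g, ← hs]
    exact Ideal.map_span _ s
  rw [h1]
  refine (Submodule.spanRank_span_le_card _).trans ?_
  exact Cardinal.mk_image_le

lemma spanRank_le (k : Type) [Field k] {e : ℕ} (g : Fin (e + 1) → ℕ)
    (R : Finset ((Fin (e + 1) → ℕ) × (Fin (e + 1) → ℕ)))
    (hR : ∀ a b : Fin (e + 1) → ℕ,
      (addConGen (fun x y => (x, y) ∈ R)) a b ↔ wt g a = wt g b) :
    Submodule.spanRank (toric k g) ≤ (R.card : Cardinal) := by
  rw [← span_of_presentation k g R hR]
  refine (Submodule.spanRank_span_le_card _).trans ?_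
  refine Cardinal.mk_image_le.trans ?_
  simp

lemma apery_card {e : ℕ} {g : Fin (e + 1) → ℕ} (h0 : 0 < g 0) (Ap : Finset ℕ)
    (hAp : ∀ n, n ∈ Ap ↔ Mem g n ∧ ¬ Adj g n 0 0) : Ap.card ≤ g 0 := by
  have h : Ap.card ≤ (Finset.range (g 0)).card := by
    apply Finset.card_le_card_of_injOn (fun n => n % g 0)
    · intro n _
      simp only [Finset.coe_range, Set.mem_Iio]
      exact Nat.mod_lt _ h0
    · have aux : ∀ n n' : ℕ, n < n' → Mem g n → ¬ Adj g n' 0 0 → n % g 0 ≠ n' % g 0 := by
        intro n n' hlt hn hn' heq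
        apply hn'
        have h1 : g 0 ∣ n' - n := (Nat.modEq_iff_dvd' hlt.le).1 heq
        obtain ⟨q, hq⟩ := h1
        obtain ⟨a, ha⟩ := hn
        have hq0 : q ≠ 0 := by
          rintro rfl
          omega
        refine ⟨a + Pi.single 0 q, ?_, ?_, ?_⟩
        · rw [wt_add, wt_single, ha, mul_comm q]
          omega
        · simp; omega
        · simp; omega
      intro n hn n' hn' heq
      have hn1 := (hAp n).1 hn
      have hn2 := (hAp n').1 hn'
      by_contra hne
      rcases Nat.lt_or_gt_of_ne hne with h | h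
      · exact aux n n' h hn1.1 hn2.2 heq
      · exact aux n' n h hn2.1 hn1.2 heq.symm
  simpa using h

lemma card_le_min (A : Finset ℕ) (hA : A.Nonempty) (h0 : (0 : ℕ) ∉ A)
    (hmin : ∀ a ∈ A, a ∉ AddSubmonoid.closure (((A.erase a : Finset ℕ)) : Set ℕ)) :
    A.card ≤ A.min' hA := by
  have hm := A.min'_mem hA
  have hmpos : 0 < A.min' hA := Nat.pos_of_ne_zero (fun h => h0 (h ▸ hm))
  have h : A.card ≤ (Finset.range (A.min' hA)).card := by
    apply Finset.card_le_card_of_injOn (fun n => n % A.min' hA)
    · intro n _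
      simp only [Finset.coe_range, Set.mem_Iio]
      exact Nat.mod_lt _ hmpos
    · have aux : ∀ a ∈ A, ∀ a' ∈ A, a < a' → a % A.min' hA ≠ a' % A.min' hA := by
        intro a ha a' ha' hlt heq
        apply hmin a' ha'
        have h1 : A.min' hA ∣ a' - a := (Nat.modEq_iff_dvd' hlt.le).1 heq
        obtain ⟨q, hq⟩ := h1
        have h2 : a' = a + q • A.min' hA := by
          rw [smul_eq_mul, mul_comm]; omega
        have h3 : A.min' hA ≤ a := A.min'_le a ha
        have h4 : a ∈ AddSubmonoid.closure (((A.erase a' : Finset ℕ)) : Set ℕ) := by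
          apply AddSubmonoid.subset_closure
          rw [Finset.mem_coe, Finset.mem_erase]
          exact ⟨by omega, ha⟩
        have h5 : A.min' hA ∈ AddSubmonoid.closure (((A.erase a' : Finset ℕ)) : Set ℕ) := by
          apply AddSubmonoid.subset_closure
          rw [Finset.mem_coe, Finset.mem_erase]
          exact ⟨by omega, hm⟩
        have h6 := AddSubmonoid.add_mem _ h4 (AddSubmonoid.nsmul_mem _ h5 q)
        rwa [← h2] at h6
      intro a ha a' ha' heq
      by_contra hne
      rcases Nat.lt_or_gt_of_ne hne with h | h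
      · exact aux a ha a' ha' h heq
      · exact aux a' ha' a ha h heq.symm
  simpa using h

lemma two_choose (w : ℕ) : 2 * w.choose 2 + w = w ^ 2 := by
  have h := Nat.choose_two_right w
  have h2 : 2 ∣ w * (w - 1) := (Nat.even_mul_pred_self w).two_dvd
  rw [h, Nat.mul_div_cancel' h2]
  cases w with
  | zero => simp
  | succ n => simp; ring

/-- For two generators, one relation suffices. -/
lemma e_one {e : ℕ} {g : Fin (e + 1) → ℕ} (he : e = 1) (hpos : ∀ i, 0 < g i) :
    ∃ R : Finset ((Fin (e + 1) → ℕ) × (Fin (e + 1) → ℕ)), R.card ≤ 1 ∧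
      ∀ a b : Fin (e + 1) → ℕ,
        (addConGen (fun x y => (x, y) ∈ R)) a b ↔ wt g a = wt g b := by
  obtain ⟨B, R, hB, hR, hpres⟩ := count (by omega) hpos
  refine ⟨R, ?_, hpres⟩
  have hB1 : B ⊆ {0} := by
    intro n hn
    rw [hB] at hn
    obtain ⟨⟨a, ha⟩, h1, h2⟩ := hn
    rw [Finset.mem_singleton]
    rw [← ha]
    unfold wt
    apply Finset.sum_eq_zero
    intro i _
    by_cases hai : a i = 0
    · rw [hai, zero_mul]
    · exfalso
      have hi : i = 0 ∨ i = Fin.last e := by
        have := i.isLt
        rcases Nat.eq_zero_or_pos i.val with h | h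
        · left; exact Fin.ext h
        · right; apply Fin.ext; simp; omega
      rcases hi with hi | hi
      · subst hi
        exact h1 ⟨a, ha, Nat.pos_of_ne_zero hai, Nat.pos_of_ne_zero hai⟩
      · subst hi
        exact h2 ⟨a, ha, Nat.pos_of_ne_zero hai, Nat.pos_of_ne_zero hai⟩
  have hB2 : B.card ≤ 1 := by
    have := Finset.card_le_card hB1
    simpa using this
  have hR2 : e * (B.card + 1) ≤ 1 * (1 + 1) := Nat.mul_le_mul (by omega) (by omega)
  omega

/-- The main theorem over any field. -/
theorem main (k : Type) [Field k] (A : Finset ℕ) (hA : A.Nonempty) (h0 : (0 : ℕ) ∉ A)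
    (hmin : ∀ a ∈ A, a ∉ AddSubmonoid.closure (((A.erase a : Finset ℕ)) : Set ℕ)) :
    Submodule.spanRank (toric k (fun i : A => (i : ℕ))) ≤
      Submodule.spanRank (toric k (fun i : Interval.MG (A.min' hA) (A.max' hA) => (i : ℕ))) := by
  classical
  obtain ⟨e, he⟩ : ∃ e, A.card = e + 1 := ⟨A.card - 1, by
    have := Finset.card_pos.2 hA; omega⟩
  have hm := A.min'_mem hA
  have hmpos : 0 < A.min' hA := Nat.pos_of_ne_zero (fun h => h0 (h ▸ hm))
  have hcm := card_le_min A hA h0 hmin
  set g : Fin (e + 1) → ℕ := fun i => A.orderEmbOfFin he i with hg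
  have hgmono : StrictMono g := (A.orderEmbOfFin he).strictMono
  have hg0 : g 0 = A.min' hA := A.orderEmbOfFin_zero he (Nat.succ_pos e)
  have hgl : g (Fin.last e) = A.max' hA := A.orderEmbOfFin_last he (Nat.succ_pos e)
  have hpos : ∀ i, 0 < g i := fun i => lt_of_lt_of_le (hg0 ▸ hmpos)
    (hgmono.monotone (Fin.zero_le i))
  have hmM : A.min' hA ≤ A.max' hA := A.min'_le _ (A.max'_mem hA)
  -- transfer to Fin
  have htr : Submodule.spanRank (toric k (fun i : A => (i : ℕ))) ≤
      Submodule.spanRank (toric k g) :=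
    spanRank_equiv k (A.orderIsoOfFin he).toEquiv (fun i : A => (i : ℕ))
  rcases le_or_gt (2 * A.min' hA - 1) (A.max' hA) with hbig | hsmall
  · refine htr.trans (le_trans ?_ (Interval.interval_ge_big k _ _ hmpos hbig))
    obtain ⟨Ap, R, hAp, hR, hpres⟩ := Count3.count3 hpos
    refine (spanRank_le k g R hpres).trans ?_
    have hc := apery_card (by omega) Ap hAp
    have hem : e + 1 ≤ A.min' hA := by omega
    have h2 := two_choose (A.min' hA)
    have h0Ap : 0 ∈ Ap := by
      rw [hAp]
      exact ⟨mem_zero, not_adj_zero hpos _ _⟩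
    have h1Ap : 1 ≤ Ap.card := Finset.card_pos.2 ⟨0, h0Ap⟩
    rw [hg0] at hc
    have hRle : R.card ≤ (A.min' hA).choose 2 := by
      rcases Nat.eq_zero_or_pos e with he0 | he1
      · have h5 : e * Ap.card = 0 := by simp [he0]
        omega
      · obtain ⟨c, rfl⟩ : ∃ c, e = c + 1 := ⟨e - 1, by omega⟩
        obtain ⟨d, hd⟩ : ∃ d, A.min' hA = c + 2 + d := ⟨A.min' hA - (c + 2), by omega⟩
        rw [hd] at hc h2 ⊢
        have h3 : c * Ap.card ≤ c * (c + 2 + d) := Nat.mul_le_mul_left c hc
        have h4 : 2 * R.card ≤ c * (c + 2 + d) + c + 2 := by nlinarith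
        nlinarith
    exact_mod_cast hRle
  · -- narrow case
    obtain ⟨w, hw⟩ : ∃ w, A.max' hA = A.min' hA + w := ⟨A.max' hA - A.min' hA, by omega⟩
    have hwm : w + 2 ≤ A.min' hA + 1 := by omega
    have hsub : A ⊆ Finset.Icc (A.min' hA) (A.max' hA) := by
      intro a ha
      rw [Finset.mem_Icc]
      exact ⟨A.min'_le a ha, A.le_max' a ha⟩
    have hcardIcc : (Finset.Icc (A.min' hA) (A.max' hA)).card = w + 1 := by
      rw [Nat.card_Icc]; omega
    have hle := Finset.card_le_card hsub
    rcases Nat.lt_or_ge e w with hlt | hge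
    · -- proper
      have hwm2 : w + 2 ≤ A.min' hA := by omega
      refine htr.trans ?_
      rcases Nat.lt_or_ge e 2 with he2 | he2
      · have he1 : e = 1 := by
          rcases Nat.eq_zero_or_pos e with he0 | he0
          · exfalso
            have h3 : Fin.last e = 0 := Fin.ext (by simp [he0])
            rw [h3, hg0] at hgl
            omega
          · omega
        obtain ⟨R, hR, hpres⟩ := e_one he1 hpos
        refine (spanRank_le k g R hpres).trans ?_
        rw [hw]
        refine le_trans ?_ (Interval.interval_ge_one k _ w (by omega) hwm2)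
        have : R.card ≤ w.choose 2 + 1 := by omega
        exact_mod_cast this
      · have hδ : e + 1 ≤ g (Fin.last e) - g 0 := by omega
        obtain ⟨R, hR1, hR2, hpres⟩ := Upper.ub he2 hgmono (by omega) hδ
        have hww : g (Fin.last e) - g 0 = w := by omega
        rw [hww, hg0] at hR2
        rw [hww] at hR1
        have h2 := two_choose w
        refine (spanRank_le k g R hpres).trans ?_
        rw [hw]
        by_cases hd : w ∣ A.min' hA
        · refine le_trans ?_ (Interval.interval_ge_one k _ w (by omega) hwm2)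
          have h3 := hR2 hd
          have : R.card ≤ w.choose 2 + 1 := by omega
          exact_mod_cast this
        · refine le_trans ?_ (Interval.interval_ge_two k _ w (by omega) hwm2 hd)
          have : R.card ≤ w.choose 2 + 2 := by omega
          exact_mod_cast this
    · have hAeq : A = Finset.Icc (A.min' hA) (A.max' hA) :=
        Finset.eq_of_subset_of_card_le hsub (by omega)
      have heq : ∀ n : ℕ, (A.min' hA ≤ n ∧ n ≤ A.max' hA ∧
          n ∉ AddSubmonoid.closure
            (((Finset.Icc (A.min' hA) (A.max' hA) : Finset ℕ) : Set ℕ) \ ({n} : Set ℕ))) ↔ n ∈ A := by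
        intro n
        constructor
        · rintro ⟨h1, h2, _⟩
          rw [hAeq, Finset.mem_Icc]
          exact ⟨h1, h2⟩
        · intro hn
          have h1 := A.min'_le n hn
          have h2 := A.le_max' n hn
          exact Interval.mem_MG hmpos h1 h2 (by omega)
      exact spanRank_equiv k (Equiv.subtypeEquivRight heq) (fun i : A => (i : ℕ))

end Pool.Agent.Helper816.Final999
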