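import Mathlib

set_option autoImplicit false

open Finset

namespace Pool.Agent.Helper816.TC

variable {ι A : Type} [Fintype ι] [DecidableEq ι] [AddCommGroup A] (γ : ι → A)

/-- The value of an exponent vector. -/
def val (a : ι → ℕ) : A := ∑ i, a i • γ i

/-- Membership in the monoid generated by `γ`. -/
def Mem (s : A) : Prop := ∃ a : ι → ℕ, val γ a = s

/-- Some factorization of `s` uses both `i` and `j`. -/
def Adj (s : A) (i j : ι) : Prop := ∃ a : ι → ℕ, val γ a = s ∧ 0 < a i ∧ 0 < a j

/-- The classes at `s`. -/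
def conn (s : A) : Setoid ι := Relation.EqvGen.setoid (Adj γ s)

/-- Representative of a class. -/
noncomputable def rt (s : A) (i : ι) : ι := (Quotient.mk (conn γ s) i).out

variable {γ}

lemma val_add (a b : ι → ℕ) : val γ (a + b) = val γ a + val γ b := by
  simp [val, add_smul, Finset.sum_add_distrib]

lemma val_single (i : ι) (k : ℕ) : val γ (Pi.single i k) = k • γ i := by
  unfold val
  rw [Finset.sum_eq_single i]
  · simp
  · intro j _ hj
    simp [Pi.single_eq_of_ne hj]
  · simp

lemma val_zero : val γ (0 : ι → ℕ) = 0 := by simp [val]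

lemma mem_zero : Mem γ 0 := ⟨0, val_zero⟩

lemma peel {a : ι → ℕ} {i : ι} (h : 0 < a i) : ∃ b : ι → ℕ, a = b + Pi.single i 1 := by
  refine ⟨fun j => a j - (Pi.single i 1 : ι → ℕ) j, ?_⟩
  funext j
  by_cases hj : j = i
  · subst hj; simp; omega
  · simp [Pi.single_eq_of_ne hj]

lemma peel2 {a : ι → ℕ} {i : ι} {k : ℕ} (h : k ≤ a i) :
    ∃ b : ι → ℕ, a = b + Pi.single i k := by
  refine ⟨fun j => a j - (Pi.single i k : ι → ℕ) j, ?_⟩
  funext j
  by_cases hj : j = i
  · subst hj; simp; omega
  · simp [Pi.single_eq_of_ne hj]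

lemma Mem.add {s s' : A} (h : Mem γ s) (h' : Mem γ s') : Mem γ (s + s') := by
  obtain ⟨a, ha⟩ := h
  obtain ⟨b, hb⟩ := h'
  exact ⟨a + b, by rw [val_add, ha, hb]⟩

lemma Adj.symm {s : A} {i j : ι} (h : Adj γ s i j) : Adj γ s j i := by
  obtain ⟨a, h1, h2, h3⟩ := h
  exact ⟨a, h1, h3, h2⟩

lemma Adj.left {s : A} {i j : ι} (h : Adj γ s i j) : Adj γ s i i := by
  obtain ⟨a, h1, h2, _⟩ := h
  exact ⟨a, h1, h2, h2⟩

lemma Adj.right {s : A} {i j : ι} (h : Adj γ s i j) : Adj γ s j j := h.symm.left

lemma conn_of_adj {s : A} {i j : ι} (h : Adj γ s i j) : conn γ s i j :=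
  Relation.EqvGen.rel _ _ h

lemma conn_refl (s : A) (i : ι) : conn γ s i i := (conn γ s).refl i
lemma conn_symm {s : A} {i j : ι} (h : conn γ s i j) : conn γ s j i := (conn γ s).symm h
lemma conn_trans {s : A} {i j k : ι} (h : conn γ s i j) (h' : conn γ s j k) : conn γ s i k :=
  (conn γ s).trans h h'

lemma conn_vx {s : A} {i j : ι} (h : conn γ s i j) :
    i = j ∨ (Adj γ s i i ∧ Adj γ s j j) := by
  induction h with
  | rel i j h => exact Or.inr ⟨h.left, h.right⟩
  | refl i => exact Or.inl rfl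
  | symm i j _ ih =>
    rcases ih with h | ⟨h1, h2⟩
    · exact Or.inl h.symm
    · exact Or.inr ⟨h2, h1⟩
  | trans i j k _ _ ih1 ih2 =>
    rcases ih1 with h | ⟨h1, h2⟩
    · subst h; exact ih2
    · rcases ih2 with h | ⟨h3, h4⟩
      · subst h; exact Or.inr ⟨h1, h2⟩
      · exact Or.inr ⟨h1, h4⟩

lemma vx_of_conn {s : A} {i j : ι} (h : conn γ s i j) (hi : Adj γ s i i) :
    Adj γ s j j := by
  rcases conn_vx h with h | h
  · subst h; exact hi
  · exact h.2

lemma conn_rt (s : A) (i : ι) : conn γ s (rt γ s i) i :=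
  Quotient.mk_out (s := conn γ s) i

lemma rt_eq {s : A} {i j : ι} (h : conn γ s i j) : rt γ s i = rt γ s j := by
  unfold rt
  rw [Quotient.sound h]

lemma vx_iff {s : A} {i : ι} : Adj γ s i i ↔ Mem γ (s - γ i) := by
  constructor
  · rintro ⟨a, h1, h2, _⟩
    obtain ⟨b, hb⟩ := peel h2
    rw [hb, val_add, val_single, one_smul] at h1
    exact ⟨b, by rw [← h1]; abel⟩
  · rintro ⟨b, hb⟩
    refine ⟨b + Pi.single i 1, ?_, ?_, ?_⟩
    · rw [val_add, val_single, one_smul, hb]; abel
    · simp
    · simp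

lemma adj_add {s : A} {i j : ι} (h : Adj γ s j j) : Adj γ (s + γ i) i j := by
  obtain ⟨a, h1, h2, _⟩ := h
  refine ⟨a + Pi.single i 1, ?_, by simp, ?_⟩
  · rw [val_add, val_single, one_smul, h1]
  · have : a j ≤ (a + (Pi.single i 1 : ι → ℕ)) j := by simp
    omega

/-- If `j` is a vertex at `s - γ i` then `i` and `j` are adjacent at `s`. -/
lemma adj_of_sub {s : A} {i j : ι} (h : Adj γ (s - γ i) j j) : Adj γ s i j := by
  have := adj_add (i := i) h
  rwa [sub_add_cancel] at this

lemma mem_of_adj {s : A} {i j : ι} (h : Adj γ s i j) : Mem γ s := by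
  obtain ⟨a, h1, _⟩ := h
  exact ⟨a, h1⟩

lemma map_val {φ : A →+ ℤ} (a : ι → ℕ) : φ (val γ a) = ∑ i, (a i : ℤ) * φ (γ i) := by
  unfold val
  rw [map_sum]
  apply Finset.sum_congr rfl
  intro i _
  rw [map_nsmul, nsmul_eq_mul]

lemma phi_nonneg {φ : A →+ ℤ} (hφ : ∀ i, 0 < φ (γ i)) (a : ι → ℕ) : 0 ≤ φ (val γ a) := by
  rw [map_val]
  apply Finset.sum_nonneg
  intro i _
  have := hφ i
  positivity

lemma phi_mem {φ : A →+ ℤ} (hφ : ∀ i, 0 < φ (γ i)) {s : A} (h : Mem γ s) : 0 ≤ φ s := by
  obtain ⟨a, rfl⟩ := h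
  exact phi_nonneg hφ a

lemma phi_vx {φ : A →+ ℤ} (hφ : ∀ i, 0 < φ (γ i)) {s : A} {i j : ι} (h : Adj γ s i j) :
    0 < φ s := by
  have h1 := vx_iff.1 h.left
  have h2 := phi_mem hφ h1
  rw [map_sub] at h2
  have := hφ i
  omega

lemma eq_zero_of_phi {φ : A →+ ℤ} (hφ : ∀ i, 0 < φ (γ i)) {a : ι → ℕ}
    (h : φ (val γ a) = 0) : a = 0 := by
  rw [map_val, Finset.sum_eq_zero_iff_of_nonneg] at h
  · funext i
    have h1 := h i (Finset.mem_univ i)
    have h2 := hφ i
    rcases mul_eq_zero.1 h1 with h3 | h3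
    · simpa using h3
    · omega
  · intro i _
    have := hφ i
    positivity

lemma not_adj_zero {φ : A →+ ℤ} (hφ : ∀ i, 0 < φ (γ i)) (i j : ι) : ¬ Adj γ 0 i j := by
  intro h
  have := phi_vx hφ h
  simp at this

/-- Any congruence containing enough relations contains the whole kernel. -/
theorem gen {φ : A →+ ℤ} (hφ : ∀ i, 0 < φ (γ i)) (C : AddCon (ι → ℕ)) (base : A → ι)
    (f : A → ι → (ι → ℕ))
    (hf : ∀ s i, Adj γ s i i → val γ (f s i) = s ∧ 0 < f s i i)
    (hbase : ∀ s i, Adj γ s i i → Adj γ s (base s) (base s))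
    (hC : ∀ s i, Adj γ s i i → rt γ s i = i → ¬ conn γ s i (base s) →
      C (f s i) (f s (base s))) :
    ∀ a b : ι → ℕ, val γ a = val γ b → C a b := by
  have main : ∀ n : ℕ, ∀ s : A, (φ s).toNat = n → ∀ a b : ι → ℕ, val γ a = s → val γ b = s →
      C a b := by
    intro n
    induction n using Nat.strong_induction_on with
    | _ n ih =>
    intro s hs
    -- sharing an index
    have hshare : ∀ (i : ι) (a b : ι → ℕ), val γ a = s → val γ b = s →
        0 < a i → 0 < b i → C a b := by
      intro i a b ha hb hai hbi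
      obtain ⟨a', ha'⟩ := peel hai
      obtain ⟨b', hb'⟩ := peel hbi
      have hgi := hφ i
      have hpos : 0 < φ s := phi_vx hφ ⟨a, ha, hai, hai⟩
      have hnn : 0 ≤ φ (s - γ i) := phi_mem hφ (vx_iff.1 ⟨a, ha, hai, hai⟩)
      rw [ha', val_add, val_single, one_smul] at ha
      rw [hb', val_add, val_single, one_smul] at hb
      rw [ha', hb']
      have hlt : (φ (s - γ i)).toNat < n := by
        rw [map_sub] at hnn ⊢
        omega
      exact C.add (ih _ hlt (s - γ i) rfl a' b' (by rw [← ha]; abel) (by rw [← hb]; abel))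
        (C.refl _)
    -- connected indices
    have hconn : ∀ i j : ι, conn γ s i j → ∀ a b : ι → ℕ, val γ a = s →
        val γ b = s → 0 < a i → 0 < b j → C a b := by
      intro i j h
      induction h with
      | rel i j h =>
        intro a b ha hb hai hbj
        obtain ⟨c, h1, h2, h3⟩ := h
        exact C.trans (hshare i a c ha h1 hai h2) (hshare j c b h1 hb h3 hbj)
      | refl i => exact hshare i
      | symm i j _ ih2 =>
        intro a b ha hb hai hbj
        exact C.symm (ih2 b a hb ha hbj hai)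
      | trans i j k h1 h2 ih1 ih2 =>
        intro a b ha hb hai hbk
        have hvx : Adj γ s j j := vx_of_conn h1 ⟨a, ha, hai, hai⟩
        obtain ⟨c, hc1, hc2, _⟩ := hvx
        exact C.trans (ih1 a c ha hc1 hai hc2) (ih2 c b hc1 hb hc2 hbk)
    -- everything is related to the base
    by_cases hn : φ s = 0
    · intro a b ha hb
      rw [eq_zero_of_phi hφ (a := a) (by rw [ha, hn]), eq_zero_of_phi hφ (a := b) (by rw [hb, hn])]
      exact C.refl _
    · have hall : ∀ a : ι → ℕ, val γ a = s → C a (f s (base s)) := by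
        intro a ha
        obtain ⟨i, hi⟩ : ∃ i, 0 < a i := by
          by_contra hcon
          push Not at hcon
          apply hn
          have : a = 0 := by
            funext i
            have := hcon i
            simp only [Pi.zero_apply]
            omega
          rw [← ha, this, val_zero, map_zero]
        have hvi : Adj γ s i i := ⟨a, ha, hi, hi⟩
        have hvb := hbase s i hvi
        obtain ⟨hb1, hb2⟩ := hf s (base s) hvb
        by_cases hcb : conn γ s i (base s)
        · exact hconn i (base s) hcb a _ ha hb1 hi hb2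
        · have hr := conn_rt (γ := γ) s i
          have hvr : Adj γ s (rt γ s i) (rt γ s i) := vx_of_conn (conn_symm hr) hvi
          obtain ⟨hr1, hr2⟩ := hf s (rt γ s i) hvr
          have h1 : C a (f s (rt γ s i)) :=
            hconn i (rt γ s i) (conn_symm hr) a _ ha hr1 hi hr2
          have h2 : C (f s (rt γ s i)) (f s (base s)) := by
            apply hC s (rt γ s i) hvr (rt_eq hr)
            intro h3
            exact hcb (conn_trans (conn_symm hr) h3)
          exact C.trans h1 h2
      intro a b ha hb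
      exact C.trans (hall a ha) (C.symm (hall b hb))
  intro a b hab
  exact main _ (val γ a) rfl a b rfl hab.symm

end Pool.Agent.Helper816.TC
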