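import Mathlib
import Pool.Agent.Helper816.TCBase
import Pool.Agent.Helper816.Toric

set_option autoImplicit false
set_option linter.unusedSectionVars false

open Finset MvPolynomial

namespace Pool.Agent.Helper816.TCAlg

open Pool.Agent.Helper816.Toric (toric mem_toric lin_zero binom_mem)

/-- Initial forms of elements of the toric ideal. -/
def star (k : Type) [Field k] {σ : Type} (g : σ → ℕ) : Set (MvPolynomial σ k) :=
  {h | ∃ f ∈ toric k g, ∃ n : ℕ, homogeneousComponent n f = h ∧
    ∀ m < n, homogeneousComponent m f = 0}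

/-- The monomials and homogeneous binomials. -/
def inGen (k : Type) [Field k] {σ : Type} (g : σ → ℕ) : Set (MvPolynomial σ k) :=
  {p | (∃ u v : σ →₀ ℕ, u.degree = v.degree ∧ Finsupp.weight g u = Finsupp.weight g v ∧
      p = monomial u 1 - monomial v 1) ∨
    (∃ u v : σ →₀ ℕ, u.degree < v.degree ∧ Finsupp.weight g u = Finsupp.weight g v ∧
      p = monomial u 1)}

theorem hom_mono (k : Type) [Field k] {σ : Type} (u : σ →₀ ℕ) (n : ℕ) :
    homogeneousComponent n (monomial u (1 : k)) = if u.degree = n then monomial u 1 else 0 := by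
  classical
  ext d
  rw [coeff_homogeneousComponent, coeff_monomial]
  by_cases h : u.degree = n
  · rw [if_pos h, coeff_monomial]
    by_cases h2 : u = d
    · subst h2; rw [if_pos h, if_pos rfl]
    · rw [if_neg h2]; simp
  · rw [if_neg h, coeff_zero]
    by_cases h2 : u = d
    · subst h2; rw [if_neg h]
    · rw [if_neg h2]; simp

theorem inGen_sub_star (k : Type) [Field k] {σ : Type} (g : σ → ℕ) :
    inGen k g ⊆ star k g := by
  rintro p (⟨u, v, h1, h2, rfl⟩ | ⟨u, v, h1, h2, rfl⟩)
  · refine ⟨monomial u 1 - monomial v 1, binom_mem k g u v h2, u.degree, ?_, ?_⟩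
    · rw [map_sub, hom_mono, hom_mono, if_pos rfl, if_pos h1.symm]
    · intro m hm
      rw [map_sub, hom_mono, hom_mono, if_neg (by omega), if_neg (by omega), sub_zero]
  · refine ⟨monomial u 1 - monomial v 1, binom_mem k g u v h2, u.degree, ?_, ?_⟩
    · rw [map_sub, hom_mono, hom_mono, if_pos rfl, if_neg (by omega), sub_zero]
    · intro m hm
      rw [map_sub, hom_mono, hom_mono, if_neg (by omega), if_neg (by omega), sub_zero]

theorem star_sub (k : Type) [Field k] {σ : Type} (g : σ → ℕ) (J : Ideal (MvPolynomial σ k))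
    (hJ : ∀ p ∈ inGen k g, p ∈ J) : star k g ⊆ J := by
  classical
  rintro h ⟨f, hf, n, hn, hlow⟩
  have P1 : ∀ a b : σ →₀ ℕ, a.degree = b.degree → Finsupp.weight g a = Finsupp.weight g b →
      (monomial a (1 : k) - monomial b 1 : MvPolynomial σ k) ∈ J :=
    fun a b h1 h2 => hJ _ (Or.inl ⟨a, b, h1, h2, rfl⟩)
  have P2 : ∀ a b : σ →₀ ℕ, a.degree < b.degree → Finsupp.weight g a = Finsupp.weight g b →
      (monomial a (1 : k) : MvPolynomial σ k) ∈ J :=
    fun a b h1 h2 => hJ _ (Or.inr ⟨a, b, h1, h2, rfl⟩)
  -- good weights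
  let Gd : ℕ → Prop := fun N => (∃ c : σ →₀ ℕ, Finsupp.weight g c = N ∧ c.degree = n) ∧
    ∀ c : σ →₀ ℕ, Finsupp.weight g c = N → c.degree ≤ n
  let val : ℕ → MvPolynomial σ k ⧸ J := fun N =>
    if h : Gd N then Ideal.Quotient.mk J (monomial h.1.choose 1) else 0
  let L : MvPolynomial σ k →ₗ[k] MvPolynomial σ k ⧸ J :=
    (basisMonomials σ k).constr k (fun a => val (Finsupp.weight g a))
  have hL : ∀ a : σ →₀ ℕ, L (monomial a 1) = val (Finsupp.weight g a) := by
    intro a
    have := (basisMonomials σ k).constr_basis k (fun a => val (Finsupp.weight g a)) a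
    simpa [L] using this
  have hL0 : L f = 0 := by
    apply lin_zero k g L ?_ f hf
    intro a b hab
    rw [hL, hL, hab]
  have hval : ∀ a : σ →₀ ℕ, n ≤ a.degree → val (Finsupp.weight g a) =
      if a.degree = n then Ideal.Quotient.mk J (monomial a 1) else 0 := by
    intro a ha
    by_cases hd : a.degree = n
    · rw [if_pos hd]
      by_cases hg : Gd (Finsupp.weight g a)
      · simp only [val, dif_pos hg]
        rw [Ideal.Quotient.mk_eq_mk_iff_sub_mem]
        apply P1
        · rw [hg.1.choose_spec.2, hd]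
        · exact hg.1.choose_spec.1
      · simp only [val, dif_neg hg]
        have h1 : ∃ c : σ →₀ ℕ, Finsupp.weight g c = Finsupp.weight g a ∧ n < c.degree := by
          by_contra hcon
          push Not at hcon
          exact hg ⟨⟨a, rfl, hd⟩, hcon⟩
        obtain ⟨c, hc1, hc2⟩ := h1
        rw [eq_comm, Ideal.Quotient.eq_zero_iff_mem]
        exact P2 a c (by omega) hc1.symm
    · rw [if_neg hd]
      have hg : ¬ Gd (Finsupp.weight g a) := by
        intro hg
        have := hg.2 a rfl
        omega
      simp only [val, dif_neg hg]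
  have hdeg : ∀ a ∈ f.support, n ≤ a.degree := by
    intro a ha
    by_contra hlt
    push Not at hlt
    have h1 := hlow a.degree hlt
    have h2 := congrArg (coeff a) h1
    rw [coeff_homogeneousComponent, if_pos rfl, coeff_zero] at h2
    exact (mem_support_iff.1 ha) h2
  have hmk : Ideal.Quotient.mk J h = L f := by
    rw [← hn, homogeneousComponent_apply]
    conv_rhs => rw [f.as_sum]
    rw [map_sum, map_sum, Finset.sum_filter]
    apply Finset.sum_congr rfl
    intro a ha
    have e1 : (monomial a (coeff a f) : MvPolynomial σ k) = (coeff a f) • monomial a 1 := by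
      rw [smul_monomial, smul_eq_mul, mul_one]
    have e2 : L (monomial a (coeff a f)) = (coeff a f) • L (monomial a 1) := by
      rw [e1, LinearMap.map_smul]
    rw [e2, hL, hval a (hdeg a ha), e1]
    by_cases hd : a.degree = n
    · rw [if_pos hd, if_pos hd]
      rfl
    · rw [if_neg hd, if_neg hd, smul_zero]
  rw [hL0] at hmk
  exact Ideal.Quotient.eq_zero_iff_mem.1 hmk

theorem span_star (k : Type) [Field k] {σ : Type} (g : σ → ℕ) :
    Ideal.span (star k g) = Ideal.span (inGen k g) := by
  apply le_antisymm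
  · rw [Ideal.span_le]
    exact star_sub k g _ (fun p hp => Ideal.subset_span hp)
  · exact Ideal.span_mono (inGen_sub_star k g)

end Pool.Agent.Helper816.TCAlg
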