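import Mathlib
import Pool.Agent.Helper816.TCBase

set_option autoImplicit false

open Finset

namespace Pool.Agent.Helper816.TC

lemma exists_finset {α β : Type} (p : α → Prop) (f : α → β) (t : Finset β)
    (hf : ∀ a, p a → f a ∈ t) (hinj : ∀ a b, p a → p b → f a = f b → a = b) :
    ∃ P : Finset α, (∀ a, a ∈ P ↔ p a) ∧ P.card ≤ t.card := by
  classical
  have hfin : {a | p a}.Finite := by
    apply Set.Finite.of_injOn (f := f) (t := (t : Set β))
    · intro a ha
      exact hf a ha
    · intro a ha b hb hab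
      exact hinj a b ha hb hab
    · exact Finset.finite_toSet _
  refine ⟨hfin.toFinset, ?_, ?_⟩
  · intro a
    simp
  · apply Finset.card_le_card_of_injOn f
    · intro a ha
      apply hf
      simpa using ha
    · intro a ha b hb hab
      apply hinj a b _ _ hab
      · simpa using ha
      · simpa using hb

variable {ι A : Type} [Fintype ι] [DecidableEq ι] [AddCommGroup A]

/-- The standing assumptions. -/
structure Data (γ : ι → A) (φ v : A →+ ℤ) (W : ℤ) (x y t : ι) : Prop where
  hφ : ∀ i, 0 < φ (γ i)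
  hxy : x ≠ y
  hxt : x ≠ t
  hyt : y ≠ t
  hvx : v (γ x) = W
  hvy : v (γ y) = 0
  hvt : v (γ t) < 0
  hvz : ∀ i, i ≠ x → i ≠ y → i ≠ t → 0 < v (γ i) ∧ v (γ i) < W
  hW : 0 < W

/-- Inner pairs counted by the argument. -/
def Inn (γ : ι → A) (v : A →+ ℤ) (W : ℤ) (x y t : ι) (s : A) (i : ι) : Prop :=
  Adj γ s i i ∧ ¬ conn γ s i x ∧ ¬ conn γ s i y ∧
    (¬ conn γ s i t ∨ (conn γ s i t ∧ i ≠ t ∧ W ≤ v s))

variable {γ : ι → A} {φ v : A →+ ℤ} {W : ℤ} {x y t : ι}

namespace Data

lemma v_nonneg (D : Data γ φ v W x y t) {i : ι} (hi : i ≠ t) : 0 ≤ v (γ i) := by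
  by_cases h1 : i = x
  · rw [h1, D.hvx]; exact D.hW.le
  · by_cases h2 : i = y
    · rw [h2, D.hvy]
    · exact (D.hvz i h1 h2 hi).1.le

lemma v_word (D : Data γ φ v W x y t) {a : ι → ℕ} (ha : a t = 0) : 0 ≤ v (val γ a) := by
  rw [map_val]
  apply Finset.sum_nonneg
  intro i _
  by_cases hi : i = t
  · rw [hi, ha]; simp
  · have := D.v_nonneg hi
    positivity

lemma v_word_pos (D : Data γ φ v W x y t) {a : ι → ℕ} (ha : a t = 0) (hy : a y = 0)
    {i : ι} (hi : 0 < a i) : 0 < v (val γ a) := by
  rw [map_val]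
  apply Finset.sum_pos' 
  · intro j _
    by_cases hj : j = t
    · rw [hj, ha]; simp
    · have := D.v_nonneg hj
      positivity
  · refine ⟨i, Finset.mem_univ _, ?_⟩
    have hit : i ≠ t := by rintro rfl; omega
    have hiy : i ≠ y := by rintro rfl; omega
    by_cases hix : i = x
    · rw [hix, D.hvx]
      have := D.hW
      rw [hix] at hi
      positivity
    · have := (D.hvz i hix hiy hit).1
      positivity

/-- if `x` is a vertex in a class without `t` then `v` is at least `W`. -/
lemma v_ge (D : Data γ φ v W x y t) {s : A} (h : Adj γ s x x) (ht : ¬ Adj γ s x t) :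
    W ≤ v s := by
  obtain ⟨a, ha, hax, _⟩ := h
  have hat : a t = 0 := by
    by_contra hne
    exact ht ⟨a, ha, hax, Nat.pos_of_ne_zero hne⟩
  obtain ⟨b, hb⟩ := peel hax
  have hbt : b t = 0 := by
    have := congrFun hb t
    rw [hat] at this
    simp only [Pi.add_apply, Pi.single_eq_of_ne D.hxt.symm] at this
    omega
  have h1 := D.v_word hbt
  rw [← ha, hb, val_add, val_single, one_smul, map_add, D.hvx]
  omega

/-- moving up the `y`-line preserves vertices -/
lemma vx_up {s : A} {k y : ι} (h : Adj γ s k k) (n : ℕ) : Adj γ (s + n • γ y) k k := by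
  obtain ⟨a, h1, h2, _⟩ := h
  have h3 : a k ≤ (a + (Pi.single y n : ι → ℕ)) k := by simp
  refine ⟨a + Pi.single y n, by rw [val_add, val_single, h1], by omega, by omega⟩

lemma vx_up1 {s : A} {k y : ι} (h : Adj γ s k k) : Adj γ (s + γ y) k k := by
  have := vx_up (y := y) h 1
  rwa [one_smul] at this

/-- first points on a line are unique -/
lemma line_unique (Q : A → Prop) (hQ : ∀ s, Q s → Q (s + γ y)) {s s' : A} (i i' : ℕ)
    (h : s + i' • γ y = s' + i • γ y) (h1 : Q s) (h2 : ¬ Q (s - γ y)) (h3 : Q s')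
    (h4 : ¬ Q (s' - γ y)) : s = s' := by
  have hup : ∀ (n : ℕ) (s : A), Q s → Q (s + n • γ y) := by
    intro n
    induction n with
    | zero => intro s hs; simpa using hs
    | succ n ih =>
      intro s hs
      have := hQ _ (ih s hs)
      rwa [add_assoc, ← succ_nsmul] at this
  have key : ∀ (s s' : A) (i i' : ℕ), i < i' → s + i' • γ y = s' + i • γ y → Q s →
      ¬ Q (s' - γ y) → False := by
    intro s s' i i' hlt heq hs hs'
    apply hs'
    have h5 : s' - γ y = s + (i' - i - 1) • γ y := by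
      obtain ⟨d, rfl⟩ := Nat.exists_eq_add_of_lt hlt
      have h6 : i + d + 1 - i - 1 = d := by omega
      rw [h6]
      have h7 : s' = s + (i + d + 1) • γ y - i • γ y := by rw [heq]; abel
      rw [h7, add_smul, add_smul, one_smul]
      abel
    rw [h5]
    exact hup _ _ hs
  rcases Nat.lt_trichotomy i i' with hlt | heq | hgt
  · exact (key s s' i i' hlt h h1 h4).elim
  · subst heq
    exact add_right_cancel h
  · exact (key s' s i' i hgt h.symm h3 h2).elim

/-- going down a line until a predicate implying membership fails -/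
lemma exists_first (hφ : ∀ i, 0 < φ (γ i)) (Q : A → Prop) (hQm : ∀ s, Q s → Mem γ s) :
    ∀ s, Q s → ∃ k : ℕ, Q (s - k • γ y) ∧ ¬ Q (s - k • γ y - γ y) := by
  have main : ∀ n : ℕ, ∀ s : A, (φ s).toNat = n → Q s →
      ∃ k : ℕ, Q (s - k • γ y) ∧ ¬ Q (s - k • γ y - γ y) := by
    intro n
    induction n using Nat.strong_induction_on with
    | _ n ih =>
    intro s hs hq
    by_cases h : Q (s - γ y)
    · have h1 := phi_mem hφ (hQm _ h)
      have h2 : (φ (s - γ y)).toNat < n := by
        rw [map_sub] at h1 ⊢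
        have := hφ y
        omega
      obtain ⟨k, hk1, hk2⟩ := ih _ h2 _ rfl h
      have h3 : s - γ y - k • γ y = s - (k + 1) • γ y := by
        rw [add_smul, one_smul]; abel
      rw [h3] at hk1 hk2
      exact ⟨k + 1, hk1, hk2⟩
    · exact ⟨0, by simpa using hq, by simpa using h⟩
  intro s hs
  exact main _ s rfl hs

end Data

end Pool.Agent.Helper816.TC
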