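import Mathlib
import Pool.Agent.Helper816.TCCount

set_option autoImplicit false
set_option linter.unusedSectionVars false

open Finset

namespace Pool.Agent.Helper816.TC

variable {ι A : Type} [Fintype ι] [DecidableEq ι] [AddCommGroup A]
variable {γ : ι → A} {φ v : A →+ ℤ} {W : ℤ} {x y t : ι}

namespace Data

lemma inn_ne (D : Data γ φ v W x y t) {s : A} {i : ι} (h : Inn γ v W x y t s i) :
    i ≠ x ∧ i ≠ y ∧ i ≠ t := by
  obtain ⟨_, h1, h2, h3⟩ := h
  refine ⟨?_, ?_, ?_⟩
  · rintro rfl; exact h1 (conn_refl _ _)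
  · rintro rfl; exact h2 (conn_refl _ _)
  · rintro rfl
    rcases h3 with h | h
    · exact h (conn_refl _ _)
    · exact h.2.1 rfl

lemma inn_down (D : Data γ φ v W x y t) {s : A} {i : ι} (h : Inn γ v W x y t s i) :
    Mem γ (s - γ i) ∧ ¬ Adj γ (s - γ i) x x ∧ ¬ Adj γ (s - γ i) y y ∧
      (s - γ i = 0 ∨ 0 < v (s - γ i)) := by
  obtain ⟨hx, hy, ht⟩ := D.inn_ne h
  obtain ⟨h0, h1, h2, h3⟩ := h
  refine ⟨vx_iff.1 h0, fun h4 => h1 (conn_of_adj (adj_of_sub h4)),
    fun h4 => h2 (conn_of_adj (adj_of_sub h4)), ?_⟩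
  rcases h3 with h3 | h3
  · obtain ⟨a, ha, hai, _⟩ := h0
    have hat : a t = 0 := by
      by_contra hne
      exact h3 (conn_of_adj ⟨a, ha, hai, Nat.pos_of_ne_zero hne⟩)
    have hay : a y = 0 := by
      by_contra hne
      exact h2 (conn_of_adj ⟨a, ha, hai, Nat.pos_of_ne_zero hne⟩)
    obtain ⟨b, hb⟩ := peel hai
    have hle : ∀ j, b j ≤ a j := by
      intro j
      rw [hb]
      simp
    have hv : s - γ i = val γ b := by
      rw [← ha, hb, val_add, val_single, one_smul]; abel
    by_cases hb0 : b = 0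
    · left
      rw [hv, hb0, val_zero]
    · right
      obtain ⟨j, hj⟩ : ∃ j, 0 < b j := by
        by_contra hcon
        push Not at hcon
        apply hb0
        funext j
        have := hcon j
        simp only [Pi.zero_apply]
        omega
      rw [hv]
      exact D.v_word_pos (by have := hle t; omega) (by have := hle y; omega) hj
  · right
    have h4 := (D.hvz i hx hy ht).2
    rw [map_sub]
    omega

lemma adj_single (i : ι) : Adj γ (γ i) i i :=
  ⟨Pi.single i 1, by rw [val_single, one_smul], by simp, by simp⟩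

/-- The number of inner pairs. -/
theorem pairs (D : Data γ φ v W x y t) (Cp : Finset A)
    (hCp : ∀ s, s ∈ Cp ↔ Mem γ s ∧ ¬ Adj γ s x x ∧ ¬ Adj γ s y y ∧ (s = 0 ∨ 0 < v s))
    (ν c : ℕ) (hc : Fintype.card ι = c + 3) (hν : ν ≤ c)
    (hpairs : ∀ b ∈ Cp, b ≠ 0 → (∀ j, b ≠ γ j) → ∀ s : Finset ι,
      (∀ i ∈ s, Inn γ v W x y t (b + γ i) i) → s.card ≤ ν) :
    ∃ P : Finset (A × ι), (∀ q, q ∈ P ↔ Inn γ v W x y t q.1 q.2) ∧
      P.card ≤ ν * Cp.card + (c - ν) * (c + 1) := by
  classical
  obtain ⟨P, hP, _⟩ := exists_finset (fun q : A × ι => Inn γ v W x y t q.1 q.2)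
    (fun q => (q.1 - γ q.2, q.2)) (Cp ×ˢ (univ : Finset ι))
    (by
      rintro ⟨s, i⟩ h
      rw [Finset.mem_product]
      exact ⟨(hCp _).2 (D.inn_down h), Finset.mem_univ _⟩)
    (by
      rintro ⟨s, i⟩ ⟨s', i'⟩ _ _ heq
      simp only [Prod.mk.injEq] at heq
      obtain ⟨h1, h2⟩ := heq
      subst h2
      rw [sub_left_inj] at h1
      rw [h1])
  refine ⟨P, hP, ?_⟩
  set I : Finset ι := ((univ.erase x).erase y).erase t with hI
  have hIc : I.card = c := by
    rw [hI, Finset.card_erase_of_mem (by simp [D.hxt.symm, D.hyt.symm]),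
      Finset.card_erase_of_mem (by simp [D.hxy.symm]),
      Finset.card_erase_of_mem (by simp), Finset.card_univ, hc]
    omega
  have hmaps : Set.MapsTo (fun q : A × ι => q.1 - γ q.2) (P : Set (A × ι)) (Cp : Set A) := by
    intro q hq
    exact (hCp _).2 (D.inn_down ((hP q).1 hq))
  rw [Finset.card_eq_sum_card_fiberwise hmaps]
  set Sm : Finset A := Cp.filter (fun b => b = 0 ∨ ∃ j, b = γ j) with hSm
  have hSmc : Sm.card ≤ c + 1 := by
    have hsub : Sm ⊆ insert 0 (I.image γ) := by
      intro b hb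
      rw [hSm, Finset.mem_filter] at hb
      obtain ⟨hb1, hb2⟩ := hb
      rcases hb2 with rfl | ⟨j, rfl⟩
      · exact Finset.mem_insert_self _ _
      · rw [Finset.mem_insert]
        right
        apply Finset.mem_image_of_mem
        rw [hCp] at hb1
        obtain ⟨_, h1, h2, h3⟩ := hb1
        rw [hI]
        simp only [Finset.mem_erase, Finset.mem_univ, and_true]
        refine ⟨?_, ?_, ?_⟩
        · rintro rfl
          rcases h3 with h3 | h3
          · have := D.hφ j
            rw [h3, map_zero] at this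
            omega
          · have := D.hvt
            omega
        · rintro rfl
          exact h2 (adj_single _)
        · rintro rfl
          exact h1 (adj_single _)
    refine (Finset.card_le_card hsub).trans ?_
    refine (Finset.card_insert_le _ _).trans ?_
    have := Finset.card_image_le (s := I) (f := γ)
    omega
  have hfib : ∀ b ∈ Cp, (P.filter (fun q => q.1 - γ q.2 = b)).card ≤
      ν + (if (b = 0 ∨ ∃ j, b = γ j) then (c - ν) else 0) := by
    intro b hb
    have hcard : (P.filter (fun q => q.1 - γ q.2 = b)).card =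
        ((P.filter (fun q => q.1 - γ q.2 = b)).image (fun q => q.2)).card := by
      rw [Finset.card_image_of_injOn]
      rintro ⟨s, i⟩ hq ⟨s', i'⟩ hq' heq
      have h1 := (Finset.mem_filter.1 hq).2
      have h2 := (Finset.mem_filter.1 hq').2
      simp only at heq h1 h2
      subst heq
      rw [← h2, sub_left_inj] at h1
      rw [h1]
    have himg : ∀ i ∈ (P.filter (fun q => q.1 - γ q.2 = b)).image (fun q => q.2),
        Inn γ v W x y t (b + γ i) i := by
      intro i hi
      rw [Finset.mem_image] at hi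
      obtain ⟨⟨s, j⟩, hq, rfl⟩ := hi
      obtain ⟨h1, h2⟩ := Finset.mem_filter.1 hq
      simp only at h2 ⊢
      rw [← h2, sub_add_cancel]
      exact (hP _).1 h1
    rw [hcard]
    split_ifs with hs
    · have hsub : (P.filter (fun q => q.1 - γ q.2 = b)).image (fun q => q.2) ⊆ I := by
        intro i hi
        obtain ⟨h1, h2, h3⟩ := D.inn_ne (himg i hi)
        rw [hI]
        simp only [Finset.mem_erase, Finset.mem_univ, and_true]
        exact ⟨h3, h2, h1⟩
      have := Finset.card_le_card hsub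
      omega
    · push Not at hs
      have := hpairs b hb hs.1 hs.2 _ himg
      omega
  calc ∑ b ∈ Cp, (P.filter (fun q => q.1 - γ q.2 = b)).card
      ≤ ∑ b ∈ Cp, (ν + (if (b = 0 ∨ ∃ j, b = γ j) then (c - ν) else 0)) :=
        Finset.sum_le_sum hfib
    _ = ν * Cp.card + (c - ν) * Sm.card := by
        rw [Finset.sum_add_distrib, Finset.sum_const, smul_eq_mul, mul_comm, hSm,
          ← Finset.sum_filter, Finset.sum_const, smul_eq_mul, mul_comm (c - ν)]
    _ ≤ _ := by
        have := Nat.mul_le_mul_left (c - ν) hSmc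
        omega

/-- Inner classes. -/
theorem inner (D : Data γ φ v W x y t)
    (B : Finset A)
    (hB : ∀ s, s ∈ B ↔ Mem γ s ∧ ¬ Adj γ s x x ∧ ¬ Adj γ s y y ∧ ¬ Adj γ s t t)
    (c : ℕ) (hc : Fintype.card ι = c + 3) (P : Finset (A × ι))
    (hP : ∀ q, q ∈ P ↔ (Adj γ q.1 q.2 q.2 ∧ ¬ conn γ q.1 q.2 x ∧ ¬ conn γ q.1 q.2 y ∧
      ¬ conn γ q.1 q.2 t)) :
    ∃ K : Finset (A × ι), (∀ q, q ∈ K ↔ (q ∈ P ∧ rt γ q.1 q.2 = q.2)) ∧
      2 * K.card + 1 ≤ P.card + B.card + c := by
  classical
  set K : Finset (A × ι) := P.filter (fun q => rt γ q.1 q.2 = q.2) with hK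
  set Sg : Finset (A × ι) := P.filter
    (fun q => ∀ j, conn γ q.1 q.2 j → j = q.2) with hSg
  set I : Finset ι := ((univ.erase x).erase y).erase t with hI
  have hIc : I.card = c := by
    rw [hI, Finset.card_erase_of_mem (by simp [D.hxt.symm, D.hyt.symm]),
      Finset.card_erase_of_mem (by simp [D.hxy.symm]),
      Finset.card_erase_of_mem (by simp), Finset.card_univ, hc]
    omega
  have hPI : ∀ n i, (n, i) ∈ P → i ∈ I := by
    intro n i h
    obtain ⟨_, h1, h2, h3⟩ := (hP _).1 h
    rw [hI]
    simp only [Finset.mem_erase, Finset.mem_univ, and_true]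
    refine ⟨?_, ?_, ?_⟩
    · rintro rfl
      exact h3 (conn_refl _ _)
    · rintro rfl
      exact h2 (conn_refl _ _)
    · rintro rfl
      exact h1 (conn_refl _ _)
  refine ⟨K, fun q => by rw [hK, Finset.mem_filter], ?_⟩
  -- (ii)
  have hSgK : Sg ⊆ K := by
    rintro ⟨n, i⟩ hq
    rw [hSg, Finset.mem_filter] at hq
    rw [hK, Finset.mem_filter]
    exact ⟨hq.1, hq.2 _ (conn_symm (conn_rt n i))⟩
  have hKP : K ⊆ P := Finset.filter_subset _ _
  have hKSg : (K \ Sg).card ≤ (P \ K).card := by
    have hex : ∀ q ∈ K \ Sg, ∃ j, conn γ q.1 q.2 j ∧ j ≠ q.2 := by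
      rintro ⟨n, i⟩ hq
      rw [Finset.mem_sdiff] at hq
      by_contra hcon
      push Not at hcon
      apply hq.2
      rw [hSg, Finset.mem_filter]
      exact ⟨hKP hq.1, hcon⟩
    let ch : A × ι → ι := fun q =>
      if h : ∃ j, conn γ q.1 q.2 j ∧ j ≠ q.2 then h.choose else q.2
    have hch : ∀ q ∈ K \ Sg, conn γ q.1 q.2 (ch q) ∧ ch q ≠ q.2 := by
      intro q hq
      have h := hex q hq
      simp only [ch, dif_pos h]
      exact h.choose_spec
    apply Finset.card_le_card_of_injOn (fun q => (q.1, ch q))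
    · rintro ⟨n, i⟩ hq
      have hq' : (n, i) ∈ K \ Sg := hq
      obtain ⟨h1, h2⟩ := hch _ hq'
      simp only at h1 h2
      rw [Finset.mem_sdiff] at hq'
      have hiK := hq'.1
      rw [hK, Finset.mem_filter] at hiK
      obtain ⟨hiP, hirt⟩ := hiK
      obtain ⟨hn3, hn4, hn5, hn6⟩ := (hP _).1 hiP
      show (n, ch (n, i)) ∈ P \ K
      rw [Finset.mem_sdiff]
      constructor
      · rw [hP]
        refine ⟨vx_of_conn h1 hn3, ?_, ?_, ?_⟩
        · intro h3
          exact hn4 (conn_trans h1 h3)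
        · intro h3
          exact hn5 (conn_trans h1 h3)
        · intro h3
          exact hn6 (conn_trans h1 h3)
      · intro h3
        rw [hK, Finset.mem_filter] at h3
        have h4 := h3.2
        simp only at h4 hirt
        rw [← rt_eq h1, hirt] at h4
        exact h2 h4.symm
    · rintro ⟨n, i⟩ hq ⟨n', i'⟩ hq' heq
      have hq1 : (n, i) ∈ K \ Sg := hq
      have hq2 : (n', i') ∈ K \ Sg := hq'
      simp only [Prod.mk.injEq] at heq
      obtain ⟨heq1, heq2⟩ := heq
      subst heq1
      obtain ⟨h1, _⟩ := hch _ hq1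
      obtain ⟨h2, _⟩ := hch _ hq2
      simp only at h1 h2
      have h3 := (Finset.mem_sdiff.1 hq1).1
      have h4 := (Finset.mem_sdiff.1 hq2).1
      rw [hK, Finset.mem_filter] at h3 h4
      have h5 := h3.2
      have h6 := h4.2
      simp only at h5 h6
      rw [rt_eq h1] at h5
      rw [rt_eq h2, ← heq2] at h6
      rw [← h5, ← h6]
  have h2K : 2 * K.card ≤ P.card + Sg.card := by
    have h1 := Finset.card_sdiff_add_card_eq_card hSgK
    have h2 := Finset.card_sdiff_add_card_eq_card hKP
    omega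
  -- 0 in B
  have h0B : (0 : A) ∈ B := by
    rw [hB]
    exact ⟨mem_zero, not_adj_zero D.hφ _ _, not_adj_zero D.hφ _ _, not_adj_zero D.hφ _ _⟩
  have hBerase : (B.erase 0).card + 1 = B.card := Finset.card_erase_add_one h0B
  -- (iii)
  have hSgsupp : ∀ n i, (n, i) ∈ Sg → ∀ a : ι → ℕ, val γ a = n → 0 < a i →
      a = Pi.single i (a i) ∧ n = a i • γ i := by
    intro n i hq a ha hai
    rw [hSg, Finset.mem_filter] at hq
    have h1 : a = Pi.single i (a i) := by
      funext j
      by_cases hj : j = i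
      · subst hj; simp
      · rw [Pi.single_eq_of_ne hj]
        by_contra hne
        have h2 : Adj γ n i j := ⟨a, ha, hai, Nat.pos_of_ne_zero hne⟩
        exact hj (hq.2 j (conn_of_adj h2))
    refine ⟨h1, ?_⟩
    rw [← ha, h1, val_single]
    simp
  set Sg1 : Finset (A × ι) := Sg.filter
    (fun q => ∀ a b : ι → ℕ, val γ a = q.1 → val γ b = q.1 → a = b) with hSg1
  set Sg2 : Finset (A × ι) := Sg.filter
    (fun q => ¬ ∀ a b : ι → ℕ, val γ a = q.1 → val γ b = q.1 → a = b) with hSg2
  have hSgsplit : Sg1.card + Sg2.card = Sg.card := by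
    rw [hSg1, hSg2]
    exact Finset.card_filter_add_card_filter_not _
  have hSg1card : Sg1.card ≤ (B.erase 0).card := by
    apply Finset.card_le_card_of_injOn (fun q => q.1)
    · rintro ⟨n, i⟩ hq
      have hq' : (n, i) ∈ Sg1 := hq
      rw [hSg1, Finset.mem_filter] at hq'
      obtain ⟨hqS, huniq⟩ := hq'
      have hqP : (n, i) ∈ P := (Finset.mem_filter.1 hqS).1
      obtain ⟨h3, h4, h5, h6⟩ := (hP _).1 hqP
      show n ∈ B.erase 0
      rw [Finset.mem_erase, hB]
      have h0 : n ≠ 0 := by
        rintro rfl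
        exact not_adj_zero D.hφ _ _ h3
      obtain ⟨a, ha, hai, _⟩ := h3
      refine ⟨h0, ⟨a, ha⟩, ?_, ?_, ?_⟩
      · rintro ⟨b, hb, hb0, _⟩
        have : a = b := huniq a b ha hb
        subst this
        exact h4 (conn_of_adj ⟨a, ha, hai, hb0⟩)
      · rintro ⟨b, hb, hb0, _⟩
        have : a = b := huniq a b ha hb
        subst this
        exact h5 (conn_of_adj ⟨a, ha, hai, hb0⟩)
      · rintro ⟨b, hb, hb0, _⟩
        have : a = b := huniq a b ha hb
        subst this
        exact h6 (conn_of_adj ⟨a, ha, hai, hb0⟩)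
    · rintro ⟨n, i⟩ hq ⟨n', i'⟩ hq' heq
      have hq1 : (n, i) ∈ Sg1 := hq
      have hq2 : (n', i') ∈ Sg1 := hq'
      simp only at heq
      subst heq
      rw [hSg1, Finset.mem_filter] at hq1 hq2
      obtain ⟨hS1, hu1⟩ := hq1
      obtain ⟨hS2, _⟩ := hq2
      have hP1 := (hP _).1 (Finset.mem_filter.1 hS1).1
      have hP2 := (hP _).1 (Finset.mem_filter.1 hS2).1
      obtain ⟨a, ha, hai, _⟩ := hP1.1
      obtain ⟨b, hb, hbi, _⟩ := hP2.1
      have hab : a = b := hu1 a b ha hb
      subst hab
      have h3 : conn γ n i i' := conn_of_adj ⟨a, ha, hai, hbi⟩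
      have h4 := (Finset.mem_filter.1 hS1).2 i' h3
      simp only at h4
      rw [h4]
  have hSg2card : Sg2.card ≤ I.card := by
    apply Finset.card_le_card_of_injOn (fun q => q.2)
    · rintro ⟨n, i⟩ hq
      have hq' : (n, i) ∈ Sg2 := hq
      rw [hSg2, Finset.mem_filter] at hq'
      exact hPI n i (Finset.mem_filter.1 hq'.1).1
    · have aux : ∀ n n' i, (n, i) ∈ Sg2 → (n', i) ∈ Sg2 → ∀ a a' : ι → ℕ, val γ a = n →
          0 < a i → val γ a' = n' → 0 < a' i → a i < a' i → False := by
        intro n n' i hq hq' a a' ha hai ha' hai' hlt'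
        rw [hSg2, Finset.mem_filter] at hq hq'
        obtain ⟨hS, hnu⟩ := hq
        obtain ⟨hS', _⟩ := hq'
        obtain ⟨h1, h2⟩ := hSgsupp n i hS a ha hai
        obtain ⟨h3, h4⟩ := hSgsupp n' i hS' a' ha' hai'
        have hb : ∃ b : ι → ℕ, val γ b = n ∧ b ≠ a := by
          by_contra hcon
          push Not at hcon
          apply hnu
          intro x y hx hy
          simp only at hx hy
          rw [hcon x hx, hcon y hy]
        obtain ⟨b, hb1, hb2⟩ := hb
        have hc : val γ (b + Pi.single i (a' i - a i)) = n' := by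
          rw [val_add, val_single, hb1, h2, h4, ← add_smul]
          congr 1
          omega
        have hci : 0 < (b + (Pi.single i (a' i - a i) : ι → ℕ)) i := by
          simp; omega
        obtain ⟨h5, _⟩ := hSgsupp n' i hS' _ hc hci
        have hbz : ∀ j, j ≠ i → b j = 0 := by
          intro j hj
          have h6 := congrFun h5 j
          simp [Pi.single_eq_of_ne hj] at h6
          exact h6
        have hbs : b = Pi.single i (b i) := by
          funext j
          by_cases hj : j = i
          · subst hj; simp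
          · rw [Pi.single_eq_of_ne hj, hbz j hj]
        have h7 : (b i) • γ i = (a i) • γ i := by
          rw [← h2, ← hb1]
          conv_rhs => rw [hbs]
          rw [val_single]
        have h8 : b i = a i := by
          have h9 := congrArg φ h7
          rw [map_nsmul, map_nsmul, nsmul_eq_mul, nsmul_eq_mul] at h9
          have h10 := D.hφ i
          have h11 := mul_right_cancel₀ h10.ne' h9
          exact_mod_cast h11
        apply hb2
        rw [hbs, h8]
        exact h1.symm
      rintro ⟨n, i⟩ hq ⟨n', i'⟩ hq' heq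
      have hq1 : (n, i) ∈ Sg2 := hq
      have hq2 : (n', i') ∈ Sg2 := hq'
      simp only at heq
      subst heq
      have hS1 := (Finset.mem_filter.1 (by rw [hSg2] at hq1; exact hq1)).1
      have hS2 := (Finset.mem_filter.1 (by rw [hSg2] at hq2; exact hq2)).1
      obtain ⟨a, ha, hai, _⟩ := ((hP _).1 (Finset.mem_filter.1 hS1).1).1
      obtain ⟨a', ha', hai', _⟩ := ((hP _).1 (Finset.mem_filter.1 hS2).1).1
      simp only at ha ha' hai hai'
      rcases Nat.lt_trichotomy (a i) (a' i) with h | h | h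
      · exact (aux n n' i hq1 hq2 a a' ha hai ha' hai' h).elim
      · have h1 := (hSgsupp n i hS1 a ha hai).2
        have h2 := (hSgsupp n' i hS2 a' ha' hai').2
        rw [h1, h2, h]
      · exact (aux n' n i hq2 hq1 a' a ha' hai' ha hai h).elim
  omega

end Data

end Pool.Agent.Helper816.TC
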