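import Mathlib
import Pool.Agent.Helper816.TCCount2

set_option autoImplicit false
set_option linter.unusedSectionVars false

open Finset

namespace Pool.Agent.Helper816.TC

variable {ι A : Type} [Fintype ι] [DecidableEq ι] [AddCommGroup A]
variable {γ : ι → A} {φ v : A →+ ℤ} {W : ℤ} {x y t : ι}

/-- Elements where `t` is separated from `x` and `y`. -/
def Rge (γ : ι → A) (v : A →+ ℤ) (W : ℤ) (x y t : ι) (s : A) : Prop :=
  Adj γ s t t ∧ ¬ conn γ s t x ∧ ¬ conn γ s t y ∧ W ≤ v s

namespace Data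

/-- A word through `t` at an element of `Rge`. -/
lemma rge_word (D : Data γ φ v W x y t) {s : A} (h : Rge γ v W x y t s) :
    ∃ a : ι → ℕ, val γ a = s ∧ 0 < a t ∧ ∃ z, z ≠ t ∧ 0 < a z := by
  obtain ⟨⟨a, ha, hat, _⟩, h1, h2, h3⟩ := h
  refine ⟨a, ha, hat, ?_⟩
  by_contra hcon
  push Not at hcon
  have h4 : a = Pi.single t (a t) := by
    funext j
    by_cases hj : j = t
    · subst hj; simp
    · rw [Pi.single_eq_of_ne hj]
      have := hcon j hj
      omega
  have h5 : v s = (a t : ℤ) * v (γ t) := by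
    rw [← ha]
    conv_lhs => rw [h4]
    rw [val_single, map_nsmul, nsmul_eq_mul]
  have h6 := D.hvt
  have h7 := D.hW
  have h8 : (a t : ℤ) * v (γ t) < 0 := mul_neg_of_pos_of_neg (by exact_mod_cast hat) h6
  omega

lemma rge_conn (D : Data γ φ v W x y t) {s : A} (h : Rge γ v W x y t s) :
    ∃ z, z ≠ t ∧ conn γ s z t := by
  obtain ⟨a, ha, hat, z, hz, haz⟩ := D.rge_word h
  exact ⟨z, hz, conn_of_adj ⟨a, ha, haz, hat⟩⟩

lemma rge_inn (D : Data γ φ v W x y t) {s : A} (h : Rge γ v W x y t s) {z : ι} (hz : z ≠ t)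
    (hc : conn γ s z t) : Inn γ v W x y t s z ∧ conn γ s z t := by
  obtain ⟨h0, h1, h2, h3⟩ := h
  refine ⟨⟨vx_of_conn (conn_symm hc) h0, fun h4 => h1 (conn_trans (conn_symm hc) h4),
    fun h4 => h2 (conn_trans (conn_symm hc) h4), Or.inr ⟨hc, hz, h3⟩⟩, hc⟩

/-- If the class of `t` contains only one other vertex, we can descend. -/
lemma rge_single (D : Data γ φ v W x y t) {s : A} (h : Rge γ v W x y t s) {z : ι} (hz : z ≠ t)
    (hc : conn γ s z t) (hu : ∀ j, conn γ s j t → j = t ∨ j = z) :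
    Adj γ (s - γ z) z t := by
  obtain ⟨a, ha, hat, z', hz', haz'⟩ := D.rge_word h
  obtain ⟨⟨hz1, hz2, _, _⟩, _⟩ := D.rge_inn h hz hc
  have hzx : z ≠ x := by rintro rfl; exact hz2 (conn_refl _ _)
  have hzy : z ≠ y := by
    rintro rfl
    exact h.2.2.1 (conn_symm hc)
  have hzz : z' = z := by
    rcases hu z' (conn_of_adj ⟨a, ha, haz', hat⟩) with h1 | h1
    · exact absurd h1 hz'
    · exact h1
  subst hzz
  have h4 : a = Pi.single t (a t) + Pi.single z' (a z') := by
    funext j
    by_cases hj : j = t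
    · subst hj; simp [Pi.single_eq_of_ne hz'.symm]
    · by_cases hj2 : j = z'
      · subst hj2; simp [Pi.single_eq_of_ne hj]
      · simp only [Pi.add_apply, Pi.single_eq_of_ne hj, Pi.single_eq_of_ne hj2]
        by_contra hne
        rcases hu j (conn_of_adj ⟨a, ha, Nat.pos_of_ne_zero (by simpa using hne), hat⟩) with h1 | h1
        · exact hj h1
        · exact hj2 h1
  have hvs : v s = (a t : ℤ) * v (γ t) + (a z' : ℤ) * v (γ z') := by
    rw [← ha]
    conv_lhs => rw [h4]
    rw [val_add, val_single, val_single, map_add, map_nsmul, map_nsmul, nsmul_eq_mul,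
      nsmul_eq_mul]
  have h2 : 2 ≤ a z' := by
    by_contra hlt
    have h5 : a z' = 1 := by omega
    rw [h5] at hvs
    have h6 : (a t : ℤ) * v (γ t) < 0 :=
      mul_neg_of_pos_of_neg (by exact_mod_cast hat) D.hvt
    have h7 := (D.hvz z' hzx hzy hz').2
    have h8 := h.2.2.2
    push_cast at hvs
    omega
  obtain ⟨b, hb⟩ := peel haz'
  refine ⟨b, ?_, ?_, ?_⟩
  · rw [← ha, hb, val_add, val_single, one_smul]; abel
  · have := congrFun hb z'
    simp at this
    omega
  · have := congrFun hb t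
    simp [Pi.single_eq_of_ne hz'.symm] at this
    omega

/-- The count for `Rge`. -/
theorem rge_count (D : Data γ φ v W x y t) (Cp : Finset A)
    (hCp : ∀ s, s ∈ Cp ↔ Mem γ s ∧ ¬ Adj γ s x x ∧ ¬ Adj γ s y y ∧ (s = 0 ∨ 0 < v s))
    (B : Finset A)
    (hB : ∀ s, s ∈ B ↔ Mem γ s ∧ ¬ Adj γ s x x ∧ ¬ Adj γ s y y ∧ ¬ Adj γ s t t)
    (P : Finset (A × ι))
    (hP : ∀ q, q ∈ P ↔ (Inn γ v W x y t q.1 q.2 ∧ conn γ q.1 q.2 t)) :
    ∃ R : Finset A, (∀ s, s ∈ R ↔ Rge γ v W x y t s) ∧
      2 * R.card + B.card ≤ P.card + Cp.card := by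
  classical
  have hz : ∀ s : A, ∃ z : ι, Rge γ v W x y t s → z ≠ t ∧ conn γ s z t := by
    intro s
    by_cases h : Rge γ v W x y t s
    · obtain ⟨z, h1, h2⟩ := D.rge_conn h
      exact ⟨z, fun _ => ⟨h1, h2⟩⟩
    · exact ⟨x, fun h' => absurd h' h⟩
  choose z1 hz1 using hz
  have hz' : ∀ s : A, ∃ z : ι, (∃ j, j ≠ t ∧ j ≠ z1 s ∧ conn γ s j t) →
      z ≠ t ∧ z ≠ z1 s ∧ conn γ s z t := by
    intro s
    by_cases h : ∃ j, j ≠ t ∧ j ≠ z1 s ∧ conn γ s j t
    · obtain ⟨j, hj⟩ := h
      exact ⟨j, fun _ => hj⟩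
    · exact ⟨x, fun h' => absurd h' h⟩
  choose z2 hz2 using hz'
  obtain ⟨R, hR, _⟩ := exists_finset (fun s : A => Rge γ v W x y t s)
    (fun s => (s, z1 s)) P
    (by
      intro s hs
      rw [hP]
      exact D.rge_inn hs (hz1 s hs).1 (hz1 s hs).2)
    (by
      intro s s' _ _ heq
      exact (Prod.mk.inj heq).1)
  refine ⟨R, hR, ?_⟩
  set R2 : Finset A := R.filter (fun s => ∃ j, j ≠ t ∧ j ≠ z1 s ∧ conn γ s j t) with hR2
  set R3 : Finset A := R.filter (fun s => ¬ ∃ j, j ≠ t ∧ j ≠ z1 s ∧ conn γ s j t) with hR3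
  have hsplit : R2.card + R3.card = R.card := by
    rw [hR2, hR3]
    exact Finset.card_filter_add_card_filter_not _
  have hP12 : R.card + R2.card ≤ P.card := by
    have hinj1 : (R.image (fun s => (s, z1 s))).card = R.card := by
      apply Finset.card_image_of_injective
      intro s s' heq
      exact (Prod.mk.inj heq).1
    have hinj2 : (R2.image (fun s => (s, z2 s))).card = R2.card := by
      apply Finset.card_image_of_injective
      intro s s' heq
      exact (Prod.mk.inj heq).1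
    have hdisj : Disjoint (R.image (fun s => (s, z1 s))) (R2.image (fun s => (s, z2 s))) := by
      rw [Finset.disjoint_left]
      rintro ⟨s, z⟩ h1 h2
      rw [Finset.mem_image] at h1 h2
      obtain ⟨s1, _, he1⟩ := h1
      obtain ⟨s2, hs2, he2⟩ := h2
      simp only [Prod.mk.injEq] at he1 he2
      obtain ⟨rfl, rfl⟩ := he1
      obtain ⟨rfl, he2⟩ := he2
      rw [hR2, Finset.mem_filter] at hs2
      exact (hz2 _ hs2.2).2.1 he2
    have hsub : R.image (fun s => (s, z1 s)) ∪ R2.image (fun s => (s, z2 s)) ⊆ P := by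
      intro q hq
      rw [Finset.mem_union, Finset.mem_image, Finset.mem_image] at hq
      rcases hq with ⟨s, hs, rfl⟩ | ⟨s, hs, rfl⟩
      · have hs' := (hR s).1 hs
        rw [hP]
        exact D.rge_inn hs' (hz1 s hs').1 (hz1 s hs').2
      · rw [hR2, Finset.mem_filter] at hs
        have hs' := (hR s).1 hs.1
        have hz2' := hz2 s hs.2
        rw [hP]
        exact D.rge_inn hs' hz2'.1 hz2'.2.2
    have := Finset.card_le_card hsub
    rw [Finset.card_union_of_disjoint hdisj, hinj1, hinj2] at this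
    exact this
  have hBC : B ⊆ Cp := by
    intro s hs
    rw [hB] at hs
    rw [hCp]
    obtain ⟨hm, h1, h2, h3⟩ := hs
    refine ⟨hm, h1, h2, ?_⟩
    obtain ⟨a, ha⟩ := hm
    by_cases ha0 : a = 0
    · left
      rw [← ha, ha0, val_zero]
    · right
      obtain ⟨j, hj⟩ : ∃ j, 0 < a j := by
        by_contra hcon
        push Not at hcon
        apply ha0
        funext j
        have := hcon j
        simp only [Pi.zero_apply]
        omega
      rw [← ha]
      apply D.v_word_pos _ _ hj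
      · by_contra hne
        exact h3 ⟨a, ha, Nat.pos_of_ne_zero hne, Nat.pos_of_ne_zero hne⟩
      · by_contra hne
        exact h2 ⟨a, ha, Nat.pos_of_ne_zero hne, Nat.pos_of_ne_zero hne⟩
  have hR3c : R3.card ≤ (Cp \ B).card := by
    have hadj : ∀ s ∈ R3, Rge γ v W x y t s ∧ Adj γ (s - γ (z1 s)) (z1 s) t := by
      intro s hs
      rw [hR3, Finset.mem_filter] at hs
      have hs' := (hR s).1 hs.1
      refine ⟨hs', D.rge_single hs' (hz1 s hs').1 (hz1 s hs').2 ?_⟩
      intro j hj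
      by_contra hcon
      push Not at hcon
      exact hs.2 ⟨j, hcon.1, hcon.2, hj⟩
    apply Finset.card_le_card_of_injOn (fun s => s - γ (z1 s))
    · intro s hs
      obtain ⟨hs', h1⟩ := hadj s hs
      show s - γ (z1 s) ∈ Cp \ B
      rw [Finset.mem_sdiff]
      refine ⟨(hCp _).2 (D.inn_down (D.rge_inn hs' (hz1 s hs').1 (hz1 s hs').2).1), ?_⟩
      intro h2
      exact ((hB _).1 h2).2.2.2 h1.right
    · intro s hs s' hs' heq
      obtain ⟨h1, h2⟩ := hadj s hs
      obtain ⟨h1', h2'⟩ := hadj s' hs'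
      simp only at heq
      have h3 : z1 s = z1 s' := by
        obtain ⟨a, ha, haz, hat⟩ := h2
        have hs3 := hs'
        rw [hR3] at hs3
        obtain ⟨_, hno⟩ := Finset.mem_filter.1 hs3
        by_contra hne
        apply hno
        refine ⟨z1 s, (hz1 s h1).1, hne, ?_⟩
        apply conn_of_adj
        refine ⟨a + Pi.single (z1 s') 1, ?_, ?_, ?_⟩
        · rw [val_add, val_single, one_smul, ha, heq]; abel
        · simp; omega
        · simp; omega
      rw [h3] at heq
      exact sub_left_injective heq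
  have h5 := Finset.card_sdiff_add_card_eq_card hBC
  omega

end Data

end Pool.Agent.Helper816.TC
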