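import Mathlib
import Pool.Agent.Helper816.TCCount3

set_option autoImplicit false
set_option linter.unusedSectionVars false

open Finset

namespace Pool.Agent.Helper816.TC

variable {ι A : Type} [Fintype ι] [DecidableEq ι] [AddCommGroup A]
variable {γ : ι → A} {φ v : A →+ ℤ} {W : ℤ} {x y t : ι}

namespace Data

lemma not_down (Q : A → Prop) (hQ : ∀ s, Q s → Q (s + γ y)) {s : A} (h : ¬ Q s) (n : ℕ) :
    ¬ Q (s - n • γ y) := by
  have hup : ∀ (n : ℕ) (s : A), Q s → Q (s + n • γ y) := by
    intro n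
    induction n with
    | zero => intro s hs; simpa using hs
    | succ n ih =>
      intro s hs
      have := hQ _ (ih s hs)
      rwa [add_assoc, ← succ_nsmul] at this
  intro h1
  apply h
  have := hup n _ h1
  rwa [sub_add_cancel] at this

lemma not_down' (Q : A → Prop) (hQ : ∀ s, Q s → Q (s + γ y)) {s : A} (h : ¬ Q (s - γ y)) {n : ℕ}
    (hn : 1 ≤ n) : ¬ Q (s - n • γ y) := by
  have h1 := not_down Q hQ h (n - 1)
  have h2 : s - γ y - (n - 1) • γ y = s - n • γ y := by
    obtain ⟨d, rfl⟩ := Nat.exists_eq_add_of_le hn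
    rw [add_smul, one_smul, Nat.add_sub_cancel_left]
    abel
  rwa [h2] at h1

theorem special (D : Data γ φ v W x y t)
    (B : Finset A)
    (hB : ∀ s, s ∈ B ↔ Mem γ s ∧ ¬ Adj γ s x x ∧ ¬ Adj γ s y y ∧ ¬ Adj γ s t t)
    (R : Finset A) (hR : ∀ s, s ∈ R ↔ Rge γ v W x y t s)
    (V' : Finset A) (hV : ∀ n ∈ V', Mem γ (n - γ y) ∧ ¬ Adj γ (n - γ y) x x ∧
      ¬ Adj γ (n - γ y) t t ∧ Adj γ n x x ∧ conn γ n x y) :
    ∃ Y U T : Finset A,
      (∀ s, s ∈ Y ↔ Adj γ s y y ∧ (Adj γ s x x ∨ Adj γ s t t) ∧ ¬ conn γ s y x ∧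
        ¬ conn γ s y t) ∧
      (∀ s, s ∈ U ↔ Adj γ s x x ∧ Adj γ s y y ∧ ¬ conn γ s y x ∧ conn γ s y t) ∧
      (∀ s, s ∈ T ↔ Adj γ s x x ∧ Adj γ s t t ∧ ¬ conn γ s t x ∧ ¬ conn γ s t y) ∧
      Y.card + U.card + T.card + V'.card ≤ B.card + R.card := by
  classical
  have hxup : ∀ s, Adj γ s x x → Adj γ (s + γ y) x x := fun s h => vx_up1 h
  have htup : ∀ s, Adj γ s t t → Adj γ (s + γ y) t t := fun s h => vx_up1 h
  have hmup : ∀ s, Mem γ s → Mem γ (s + γ y) := fun s h =>
    h.add ⟨Pi.single y 1, by rw [val_single, one_smul]⟩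
  -- stripping
  have hJ : ∀ s : A, ∃ k : ℕ, Mem γ s → Mem γ (s - k • γ y) ∧ ¬ Mem γ (s - k • γ y - γ y) := by
    intro s
    by_cases h : Mem γ s
    · obtain ⟨k, hk⟩ := exists_first (y := y) D.hφ (fun s => Mem γ s) (fun s h => h) s h
      exact ⟨k, fun _ => hk⟩
    · exact ⟨0, fun h' => absurd h' h⟩
  choose J hJ using hJ
  have hk : ∀ s : A, ∃ k : ℕ, Adj γ s t t →
      Adj γ (s - k • γ y) t t ∧ ¬ Adj γ (s - k • γ y - γ y) t t := by
    intro s
    by_cases h : Adj γ s t t
    · obtain ⟨k, hk⟩ := exists_first (y := y) D.hφ (fun s => Adj γ s t t)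
        (fun s h => mem_of_adj h) s h
      exact ⟨k, fun _ => hk⟩
    · exact ⟨0, fun h' => absurd h' h⟩
  choose k hk using hk
  set u : A → A := fun s => s - J s • γ y with hu
  set r : A → A := fun s => s - k s • γ y with hr
  have hJmax : ∀ s, Mem γ s → ∀ n : ℕ, Mem γ (s - n • γ y) → n ≤ J s := by
    intro s hs n hn
    by_contra hlt
    push Not at hlt
    have h1 := not_down (y := y) (fun s => Mem γ s) hmup (hJ s hs).2 (n - J s - 1)
    apply h1
    have h2 : s - J s • γ y - γ y - (n - J s - 1) • γ y = s - n • γ y := by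
      obtain ⟨d, rfl⟩ := Nat.exists_eq_add_of_lt hlt
      have h3 : J s + d + 1 - J s - 1 = d := by omega
      rw [h3, add_smul, add_smul, one_smul]
      abel
    rw [h2]
    exact hn
  have hJ1 : ∀ s, Mem γ s → Mem γ (s - γ y) → 1 ≤ J s := by
    intro s hs h
    exact hJmax s hs 1 (by rwa [one_smul])
  have huy : ∀ s, Mem γ s → Mem γ (u s) ∧ ¬ Adj γ (u s) y y := by
    intro s hs
    refine ⟨(hJ s hs).1, ?_⟩
    intro h
    exact (hJ s hs).2 (vx_iff.1 h)
  have hline : ∀ s s' : A, u s = u s' → s + J s' • γ y = s' + J s • γ y := by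
    intro s s' h
    exact sub_eq_sub_iff_add_eq_add.1 h
  have hfx : ∀ s s' : A, ∀ i i' : ℕ, s + i' • γ y = s' + i • γ y → Adj γ s x x →
      ¬ Adj γ (s - γ y) x x → Adj γ s' x x → ¬ Adj γ (s' - γ y) x x → s = s' := by
    intro s s' i i' h h1 h2 h3 h4
    exact line_unique (y := y) (fun s => Adj γ s x x) hxup i i' h h1 h2 h3 h4
  have hft : ∀ s s' : A, ∀ i i' : ℕ, s + i' • γ y = s' + i • γ y → Adj γ s t t →
      ¬ Adj γ (s - γ y) t t → Adj γ s' t t → ¬ Adj γ (s' - γ y) t t → s = s' := by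
    intro s s' i i' h h1 h2 h3 h4
    exact line_unique (y := y) (fun s => Adj γ s t t) htup i i' h h1 h2 h3 h4
  -- first contacts
  set F : A → Prop := fun s => Mem γ s ∧ Mem γ (s - γ y) ∧ (Adj γ s x x ∨ Adj γ s t t) ∧
    ¬ Adj γ (s - γ y) x x ∧ ¬ Adj γ (s - γ y) t t with hF
  have hFB : ∀ s, F s → u s ∈ B := by
    rintro s ⟨hm, hmy, _, h1, h2⟩
    rw [hB]
    have h3 := hJ1 s hm hmy
    exact ⟨(huy s hm).1, not_down' (y := y) (fun s => Adj γ s x x) hxup h1 h3, (huy s hm).2,
      not_down' (y := y) (fun s => Adj γ s t t) htup h2 h3⟩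
  have hFinj : ∀ s s', F s → F s' → u s = u s' → s = s' := by
    rintro s s' ⟨_, _, h1, h2, h3⟩ ⟨_, _, h1', h2', h3'⟩ heq
    apply line_unique (y := y) (fun s => Adj γ s x x ∨ Adj γ s t t) ?_ (J s) (J s')
      (hline s s' heq) h1 ?_ h1' ?_
    · intro s hs
      rcases hs with h | h
      · exact Or.inl (hxup s h)
      · exact Or.inr (htup s h)
    · rintro (h | h)
      · exact h2 h
      · exact h3 h
    · rintro (h | h)
      · exact h2' h
      · exact h3' h
  have hYF : ∀ s, (Adj γ s y y ∧ (Adj γ s x x ∨ Adj γ s t t) ∧ ¬ conn γ s y x ∧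
        ¬ conn γ s y t) → F s := by
    rintro s ⟨h1, h2, h3, h4⟩
    exact ⟨mem_of_adj h1, vx_iff.1 h1, h2, fun h => h3 (conn_of_adj (adj_of_sub h)),
      fun h => h4 (conn_of_adj (adj_of_sub h))⟩
  have hVF : ∀ n ∈ V', F n := by
    intro n hn
    obtain ⟨h1, h2, h3, h4, h5⟩ := hV n hn
    exact ⟨mem_of_adj h4, h1, Or.inl h4, h2, h3⟩
  -- Y
  obtain ⟨Y, hY, _⟩ := exists_finset (fun s : A => Adj γ s y y ∧ (Adj γ s x x ∨ Adj γ s t t) ∧
      ¬ conn γ s y x ∧ ¬ conn γ s y t) u B (fun s hs => hFB s (hYF s hs))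
      (fun s s' hs hs' heq => hFinj s s' (hYF s hs) (hYF s' hs') heq)
  -- T
  have hTR : ∀ s, (Adj γ s x x ∧ Adj γ s t t ∧ ¬ conn γ s t x ∧ ¬ conn γ s t y) → s ∈ R := by
    rintro s ⟨h1, h2, h3, h4⟩
    rw [hR]
    exact ⟨h2, h3, h4, D.v_ge h1 (fun h => h3 (conn_symm (conn_of_adj h)))⟩
  obtain ⟨T, hT, _⟩ := exists_finset (fun s : A => Adj γ s x x ∧ Adj γ s t t ∧
      ¬ conn γ s t x ∧ ¬ conn γ s t y) (fun s => s) R hTR (fun s s' _ _ h => h)
  -- facts for U
  have hUf : ∀ s, (Adj γ s x x ∧ Adj γ s y y ∧ ¬ conn γ s y x ∧ conn γ s y t) →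
      ¬ Adj γ (s - γ y) x x ∧ Adj γ s t t ∧ W ≤ v s := by
    rintro s ⟨h1, h2, h3, h4⟩
    refine ⟨fun h => h3 (conn_of_adj (adj_of_sub h)), vx_of_conn h4 h2, ?_⟩
    exact D.v_ge h1 (fun h => h3 (conn_trans h4 (conn_symm (conn_of_adj h))))
  have hUR : ∀ s, (Adj γ s x x ∧ Adj γ s y y ∧ ¬ conn γ s y x ∧ conn γ s y t) →
      ¬ conn γ (r s) t y → r s ∈ R ∧ ¬ Adj γ (r s) x x := by
    intro s hs hc
    obtain ⟨h1, h2, h3⟩ := hUf s hs
    obtain ⟨h4, h5⟩ := hk s h2
    have hk1 : 1 ≤ k s := by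
      by_contra h
      have h6 : k s = 0 := by omega
      apply hc
      show conn γ (s - k s • γ y) t y
      rw [h6, zero_smul, sub_zero]
      exact conn_symm hs.2.2.2
    have h6 : ¬ Adj γ (r s) x x := not_down' (y := y) (fun s => Adj γ s x x) hxup h1 hk1
    refine ⟨?_, h6⟩
    rw [hR]
    refine ⟨h4, ?_, hc, ?_⟩
    · intro h7
      exact h6 (vx_of_conn h7 h4)
    · show W ≤ v (s - k s • γ y)
      rw [map_sub, map_nsmul, D.hvy]
      simpa using h3
  have hUB : ∀ s, (Adj γ s x x ∧ Adj γ s y y ∧ ¬ conn γ s y x ∧ conn γ s y t) →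
      conn γ (r s) t y → u s ∈ B := by
    intro s hs hc
    obtain ⟨h1, h2, h3⟩ := hUf s hs
    obtain ⟨h4, h5⟩ := hk s h2
    have hm := mem_of_adj hs.1
    have h6 : Mem γ (s - (k s + 1) • γ y) := by
      have h7 := vx_iff.1 (vx_of_conn hc h4)
      simp only [hr] at h7
      rw [add_smul, one_smul]
      have h8 : s - (k s • γ y + γ y) = s - k s • γ y - γ y := by abel
      rwa [h8]
    have h7 := hJmax s hm _ h6
    rw [hB]
    refine ⟨(huy s hm).1, not_down' (y := y) (fun s => Adj γ s x x) hxup h1 (by omega),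
      (huy s hm).2, ?_⟩
    have h8 := not_down (y := y) (fun s => Adj γ s t t) htup h5 (J s - k s - 1)
    have h9 : s - k s • γ y - γ y - (J s - k s - 1) • γ y = u s := by
      simp only [hu]
      obtain ⟨d, hd⟩ := Nat.exists_eq_add_of_le h7
      rw [hd]
      have h10 : k s + 1 + d - k s - 1 = d := by omega
      rw [h10, add_smul, add_smul, one_smul]
      abel
    rwa [h9] at h8
  -- U
  have hUinj : ∀ s s', (Adj γ s x x ∧ Adj γ s y y ∧ ¬ conn γ s y x ∧ conn γ s y t) →
      (Adj γ s' x x ∧ Adj γ s' y y ∧ ¬ conn γ s' y x ∧ conn γ s' y t) →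
      (∃ i i' : ℕ, s + i' • γ y = s' + i • γ y) → s = s' := by
    rintro s s' hs hs' ⟨i, i', heq⟩
    exact hfx s s' i i' heq hs.1 (hUf s hs).1 hs'.1 (hUf s' hs').1
  have hrline : ∀ s s' : A, r s = r s' → s + k s' • γ y = s' + k s • γ y := by
    intro s s' h
    exact sub_eq_sub_iff_add_eq_add.1 h
  obtain ⟨U, hU, _⟩ := exists_finset (fun s : A => Adj γ s x x ∧ Adj γ s y y ∧
      ¬ conn γ s y x ∧ conn γ s y t)
      (fun s => if conn γ (r s) t y then (u s, (0 : Fin 2)) else (r s, (1 : Fin 2)))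
      ((B ∪ R) ×ˢ univ)
      (by
        intro s hs
        by_cases h : conn γ (r s) t y
        · rw [if_pos h, Finset.mem_product]
          exact ⟨Finset.mem_union_left _ (hUB s hs h), Finset.mem_univ _⟩
        · rw [if_neg h, Finset.mem_product]
          exact ⟨Finset.mem_union_right _ (hUR s hs h).1, Finset.mem_univ _⟩)
      (by
        intro s s' hs hs' heq
        apply hUinj s s' hs hs'
        by_cases h : conn γ (r s) t y
        · rw [if_pos h] at heq
          by_cases h' : conn γ (r s') t y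
          · rw [if_pos h'] at heq
            exact ⟨_, _, hline s s' (Prod.mk.inj heq).1⟩
          · rw [if_neg h'] at heq
            exact absurd (Prod.mk.inj heq).2 (by decide)
        · rw [if_neg h] at heq
          by_cases h' : conn γ (r s') t y
          · rw [if_pos h'] at heq
            exact absurd (Prod.mk.inj heq).2 (by decide)
          · rw [if_neg h'] at heq
            exact ⟨_, _, hrline s s' (Prod.mk.inj heq).1⟩)
  refine ⟨Y, U, T, hY, hU, hT, ?_⟩
  set UB := U.filter (fun s => conn γ (r s) t y) with hUBd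
  set UR := U.filter (fun s => ¬ conn γ (r s) t y) with hURd
  have hsplit : UB.card + UR.card = U.card := Finset.card_filter_add_card_filter_not _
  -- part in R
  have hRpart : T.card + UR.card ≤ R.card := by
    have hinj : (UR.image r).card = UR.card := by
      apply Finset.card_image_of_injOn
      intro s hs s' hs' heq
      obtain ⟨h1, _⟩ := Finset.mem_filter.1 hs
      obtain ⟨h1', _⟩ := Finset.mem_filter.1 hs'
      exact hUinj s s' ((hU s).1 h1) ((hU s').1 h1') ⟨_, _, hrline s s' heq⟩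
    have hdisj : Disjoint T (UR.image r) := by
      rw [Finset.disjoint_left]
      intro s h1 h2
      obtain ⟨s', hs', rfl⟩ := Finset.mem_image.1 h2
      obtain ⟨h3, h4⟩ := Finset.mem_filter.1 hs'
      exact (hUR s' ((hU s').1 h3) h4).2 ((hT _).1 h1).1
    have hsub : T ∪ UR.image r ⊆ R := by
      intro s hs
      rcases Finset.mem_union.1 hs with h | h
      · exact hTR s ((hT s).1 h)
      · obtain ⟨s', hs', rfl⟩ := Finset.mem_image.1 h
        obtain ⟨h3, h4⟩ := Finset.mem_filter.1 hs'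
        exact (hUR s' ((hU s').1 h3) h4).1
    have := Finset.card_le_card hsub
    rw [Finset.card_union_of_disjoint hdisj, hinj] at this
    exact this
  -- part in B
  have hBpart : Y.card + V'.card + UB.card ≤ B.card := by
    have hYV : Disjoint Y V' := by
      rw [Finset.disjoint_left]
      intro s h1 h2
      exact ((hY s).1 h1).2.2.1 (conn_symm (hV s h2).2.2.2.2)
    have hFYV : ∀ s ∈ Y ∪ V', F s := by
      intro s hs
      rcases Finset.mem_union.1 hs with h | h
      · exact hYF s ((hY s).1 h)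
      · exact hVF s h
    have hinj1 : ((Y ∪ V').image u).card = (Y ∪ V').card := by
      apply Finset.card_image_of_injOn
      intro s hs s' hs' heq
      exact hFinj s s' (hFYV s hs) (hFYV s' hs') heq
    have hinj2 : (UB.image u).card = UB.card := by
      apply Finset.card_image_of_injOn
      intro s hs s' hs' heq
      obtain ⟨h1, _⟩ := Finset.mem_filter.1 hs
      obtain ⟨h1', _⟩ := Finset.mem_filter.1 hs'
      exact hUinj s s' ((hU s).1 h1) ((hU s').1 h1') ⟨_, _, hline s s' heq⟩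
    have hdisj : Disjoint ((Y ∪ V').image u) (UB.image u) := by
      rw [Finset.disjoint_left]
      intro b h1 h2
      obtain ⟨s', hs', rfl⟩ := Finset.mem_image.1 h1
      obtain ⟨s, hs, heq⟩ := Finset.mem_image.1 h2
      obtain ⟨hsU, hc⟩ := Finset.mem_filter.1 hs
      have hsU' := (hU s).1 hsU
      obtain ⟨g1, g2, g3⟩ := hUf s hsU'
      obtain ⟨g4, g5⟩ := hk s g2
      obtain ⟨f1, f2, f3, f4, f5⟩ := hFYV s' hs'
      by_cases ht : Adj γ s' t t
      · -- s' = r s
        have heq2 : s' = r s := by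
          apply hft s' (r s) (J s') (J s - k s) ?_ ht f5 g4 g5
          have h7 := hline s s' heq
          have h6 : k s ≤ J s := hJmax s (mem_of_adj hsU'.1) (k s) (mem_of_adj g4)
          obtain ⟨d, hd⟩ := Nat.exists_eq_add_of_le h6
          rw [hd] at h7 ⊢
          rw [Nat.add_sub_cancel_left]
          simp only [hr]
          rw [add_smul] at h7
          have h8 : s' + d • γ y = s' + (k s • γ y + d • γ y) - k s • γ y := by abel
          rw [h8, ← h7]
          abel
        rcases Finset.mem_union.1 hs' with h | h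
        · apply ((hY s').1 h).2.2.2
          rw [heq2]
          exact conn_symm hc
        · obtain ⟨_, _, _, e4, e5⟩ := hV s' h
          rcases Nat.eq_zero_or_pos (k s) with hk0 | hk1
          · have h9 : s' = s := by
              rw [heq2]
              simp only [hr, hk0, zero_smul, sub_zero]
            rw [h9] at e5
            exact hsU'.2.2.1 (conn_symm e5)
          · have h9 : ¬ Adj γ (r s) x x :=
              not_down' (y := y) (fun s => Adj γ s x x) hxup g1 hk1
            rw [← heq2] at h9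
            exact h9 e4
      · have hx : Adj γ s' x x := by
          rcases f3 with h | h
          · exact h
          · exact absurd h ht
        have heq2 : s = s' := hfx s s' (J s) (J s') (hline s s' heq) hsU'.1 g1 hx f4
        rw [← heq2] at ht
        exact ht g2
    have hsub : (Y ∪ V').image u ∪ UB.image u ⊆ B := by
      intro b hb
      rcases Finset.mem_union.1 hb with h | h
      · obtain ⟨s', hs', rfl⟩ := Finset.mem_image.1 h
        exact hFB s' (hFYV s' hs')
      · obtain ⟨s, hs, rfl⟩ := Finset.mem_image.1 h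
        obtain ⟨hsU, hc⟩ := Finset.mem_filter.1 hs
        exact hUB s ((hU s).1 hsU) hc
    have h10 := Finset.card_le_card hsub
    rw [Finset.card_union_of_disjoint hdisj, hinj1, hinj2, Finset.card_union_of_disjoint hYV] at h10
    exact h10
  omega

end Data

end Pool.Agent.Helper816.TC
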