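import Mathlib
import Pool.Agent.Helper816.TCCount4

set_option autoImplicit false
set_option linter.unusedSectionVars false

open Finset

namespace Pool.Agent.Helper816.TC

variable {ι A : Type} [Fintype ι] [DecidableEq ι] [AddCommGroup A]
variable {γ : ι → A} {φ v : A →+ ℤ} {W : ℤ} {x y t : ι}

namespace Data

/-- The counting theorem. -/
theorem count (D : Data γ φ v W x y t) (Cp : Finset A)
    (hCp : ∀ s, s ∈ Cp ↔ Mem γ s ∧ ¬ Adj γ s x x ∧ ¬ Adj γ s y y ∧ (s = 0 ∨ 0 < v s))
    (ν c : ℕ) (hc : Fintype.card ι = c + 3) (hν : ν ≤ c)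
    (hpairs : ∀ b ∈ Cp, b ≠ 0 → (∀ j, b ≠ γ j) → ∀ s : Finset ι,
      (∀ i ∈ s, Inn γ v W x y t (b + γ i) i) → s.card ≤ ν)
    (V' : Finset A) (hV : ∀ n ∈ V', Mem γ (n - γ y) ∧ ¬ Adj γ (n - γ y) x x ∧
      ¬ Adj γ (n - γ y) t t ∧ Adj γ n x x ∧ conn γ n x y) :
    ∃ R : Finset ((ι → ℕ) × (ι → ℕ)),
      2 * R.card + 2 * V'.card ≤ (ν + 1) * Cp.card + (c - ν) * (c + 1) + (c + 1) ∧
      ∀ a b : ι → ℕ, (addConGen (fun x y => (x, y) ∈ R)) a b ↔ val γ a = val γ b := by
  classical
  -- B
  set B : Finset A := Cp.filter (fun s => ¬ Adj γ s t t) with hBd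
  have hB : ∀ s, s ∈ B ↔ Mem γ s ∧ ¬ Adj γ s x x ∧ ¬ Adj γ s y y ∧ ¬ Adj γ s t t := by
    intro s
    rw [hBd, Finset.mem_filter, hCp]
    constructor
    · rintro ⟨⟨h1, h2, h3, _⟩, h4⟩
      exact ⟨h1, h2, h3, h4⟩
    · rintro ⟨hm, h1, h2, h3⟩
      refine ⟨⟨hm, h1, h2, ?_⟩, h3⟩
      obtain ⟨a, ha⟩ := hm
      by_cases ha0 : a = 0
      · left
        rw [← ha, ha0, val_zero]
      · right
        obtain ⟨j, hj⟩ : ∃ j, 0 < a j := by
          by_contra hcon
          push Not at hcon
          apply ha0
          funext j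
          have := hcon j
          simp only [Pi.zero_apply]
          omega
        rw [← ha]
        apply D.v_word_pos _ _ hj
        · by_contra hne
          exact h3 ⟨a, ha, Nat.pos_of_ne_zero hne, Nat.pos_of_ne_zero hne⟩
        · by_contra hne
          exact h2 ⟨a, ha, Nat.pos_of_ne_zero hne, Nat.pos_of_ne_zero hne⟩
  -- pairs
  obtain ⟨P, hP, hPc⟩ := D.pairs Cp hCp ν c hc hν hpairs
  set P1 : Finset (A × ι) := P.filter (fun q => ¬ conn γ q.1 q.2 t) with hP1d
  set P2 : Finset (A × ι) := P.filter (fun q => ¬ ¬ conn γ q.1 q.2 t) with hP2d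
  have hPs : P1.card + P2.card = P.card := Finset.card_filter_add_card_filter_not _
  have hP1 : ∀ q, q ∈ P1 ↔ (Adj γ q.1 q.2 q.2 ∧ ¬ conn γ q.1 q.2 x ∧ ¬ conn γ q.1 q.2 y ∧
      ¬ conn γ q.1 q.2 t) := by
    intro q
    rw [hP1d, Finset.mem_filter, hP]
    constructor
    · rintro ⟨⟨h1, h2, h3, _⟩, h4⟩
      exact ⟨h1, h2, h3, h4⟩
    · rintro ⟨h1, h2, h3, h4⟩
      exact ⟨⟨h1, h2, h3, Or.inl h4⟩, h4⟩
  have hP2 : ∀ q, q ∈ P2 ↔ (Inn γ v W x y t q.1 q.2 ∧ conn γ q.1 q.2 t) := by
    intro q
    rw [hP2d, Finset.mem_filter, hP, not_not]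
  obtain ⟨K, hK, hKc⟩ := D.inner B hB c hc P1 hP1
  obtain ⟨Rg, hRg, hRgc⟩ := D.rge_count Cp hCp B hB P2 hP2
  obtain ⟨Y, U, T, hY, hU, hT, hYUT⟩ := D.special B hB Rg hRg V' hV
  -- the base
  let base : A → ι := fun s =>
    if Adj γ s x x then x else if Adj γ s y y then y else if Adj γ s t t then t else
      if h : ∃ i, Adj γ s i i then h.choose else x
  have hbase : ∀ s i, Adj γ s i i → Adj γ s (base s) (base s) := by
    intro s i hi
    simp only [base]
    split_ifs with h1 h2 h3 h4
    · exact h1
    · exact h2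
    · exact h3
    · exact h4.choose_spec
    · exact absurd ⟨i, hi⟩ h4
  let f : A → ι → (ι → ℕ) := fun s i => if h : Adj γ s i i then h.choose else 0
  have hf : ∀ s i, Adj γ s i i → val γ (f s i) = s ∧ 0 < f s i i := by
    intro s i h
    simp only [f, dif_pos h]
    exact ⟨h.choose_spec.1, h.choose_spec.2.1⟩
  -- 0 in B
  have h0B : (0 : A) ∈ B := by
    rw [hB]
    exact ⟨mem_zero, not_adj_zero D.hφ _ _, not_adj_zero D.hφ _ _, not_adj_zero D.hφ _ _⟩
  have hBerase : (B.erase 0).card + 1 = B.card := Finset.card_erase_add_one h0B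
  set BK : Finset (A × ι) := (B.erase 0).image (fun s => (s, rt γ s (base s))) with hBK
  set YK : Finset (A × ι) := Y.image
    (fun s => (s, if Adj γ s x x then rt γ s y else rt γ s t)) with hYK
  set UK : Finset (A × ι) := U.image (fun s => (s, rt γ s y)) with hUK
  set TK : Finset (A × ι) := T.image (fun s => (s, rt γ s t)) with hTK
  have hBKc : BK.card = (B.erase 0).card := by
    apply Finset.card_image_of_injective
    intro a b hab
    exact (Prod.mk.inj hab).1
  have hBKK : BK ⊆ K := by
    rintro ⟨s, i⟩ hq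
    rw [hBK, Finset.mem_image] at hq
    obtain ⟨s', hs', heq⟩ := hq
    simp only [Prod.mk.injEq] at heq
    obtain ⟨h1, h2⟩ := heq
    subst h1
    rw [Finset.mem_erase, hB] at hs'
    obtain ⟨hne, hm, hvx', hvy', hvt'⟩ := hs'
    have hvi : ∃ i, Adj γ s' i i := by
      obtain ⟨a, ha⟩ := hm
      by_contra hcon
      push Not at hcon
      apply hne
      have ha0 : a = 0 := by
        funext i
        by_contra hne2
        exact hcon i ⟨a, ha, Nat.pos_of_ne_zero (by simpa using hne2),
          Nat.pos_of_ne_zero (by simpa using hne2)⟩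
      rw [← ha, ha0, val_zero]
    obtain ⟨i0, hi0⟩ := hvi
    have hvb := hbase s' i0 hi0
    have hr := conn_rt (γ := γ) s' (base s')
    rw [h2] at hr
    have hvr : Adj γ s' i i := vx_of_conn (conn_symm hr) hvb
    rw [hK, hP1]
    refine ⟨⟨hvr, ?_, ?_, ?_⟩, ?_⟩
    · intro h3
      exact hvx' (vx_of_conn h3 hvr)
    · intro h3
      exact hvy' (vx_of_conn h3 hvr)
    · intro h3
      exact hvt' (vx_of_conn h3 hvr)
    · show rt γ s' i = i
      rw [← h2]
      exact rt_eq (conn_rt s' (base s'))
  set All : Finset (A × ι) := (K \ BK) ∪ (YK ∪ (UK ∪ TK)) with hAll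
  have hAllc : All.card + B.card ≤ K.card + 1 + (Y.card + U.card + T.card) := by
    have h1 := Finset.card_union_le (K \ BK) (YK ∪ (UK ∪ TK))
    have h2 := Finset.card_union_le YK (UK ∪ TK)
    have h3 := Finset.card_union_le UK TK
    have h4 : YK.card ≤ Y.card := Finset.card_image_le
    have h5 : UK.card ≤ U.card := Finset.card_image_le
    have h6 : TK.card ≤ T.card := Finset.card_image_le
    have h7 := Finset.card_sdiff_add_card_eq_card hBKK
    rw [← hAll] at h1
    omega
  have hcover : ∀ s i, Adj γ s i i → rt γ s i = i → ¬ conn γ s i (base s) → (s, i) ∈ All := by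
    intro s i hvi hrti hncb
    have hix : ¬ conn γ s i x := by
      intro h
      have hv0 : Adj γ s x x := vx_of_conn h hvi
      apply hncb
      simp only [base, if_pos hv0]
      exact h
    rw [hAll, Finset.mem_union]
    by_cases hiy : conn γ s i y
    · right
      have hvy' : Adj γ s y y := vx_of_conn hiy hvi
      have hvx' : Adj γ s x x := by
        by_contra hcon
        apply hncb
        simp only [base, if_neg hcon, if_pos hvy']
        exact hiy
      have hyx : ¬ conn γ s y x := fun h => hix (conn_trans hiy h)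
      by_cases hyt : conn γ s y t
      · rw [Finset.mem_union]
        right
        rw [Finset.mem_union]
        left
        rw [hUK, Finset.mem_image]
        refine ⟨s, (hU s).2 ⟨hvx', hvy', hyx, hyt⟩, ?_⟩
        rw [← rt_eq hiy, hrti]
      · rw [Finset.mem_union]
        left
        rw [hYK, Finset.mem_image]
        refine ⟨s, (hY s).2 ⟨hvy', Or.inl hvx', hyx, hyt⟩, ?_⟩
        rw [if_pos hvx', ← rt_eq hiy, hrti]
    · by_cases hit : conn γ s i t
      · right
        have hvt' : Adj γ s t t := vx_of_conn hit hvi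
        have htx : ¬ conn γ s t x := fun h => hix (conn_trans hit h)
        have hty : ¬ conn γ s t y := fun h => hiy (conn_trans hit h)
        by_cases hvx' : Adj γ s x x
        · rw [Finset.mem_union]
          right
          rw [Finset.mem_union]
          right
          rw [hTK, Finset.mem_image]
          refine ⟨s, (hT s).2 ⟨hvx', hvt', htx, hty⟩, ?_⟩
          rw [← rt_eq hit, hrti]
        · have hvy' : Adj γ s y y := by
            by_contra hcon
            apply hncb
            simp only [base, if_neg hvx', if_neg hcon, if_pos hvt']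
            exact hit
          rw [Finset.mem_union]
          left
          rw [hYK, Finset.mem_image]
          refine ⟨s, (hY s).2 ⟨hvy', Or.inr hvt', ?_, fun h => hty (conn_symm h)⟩, ?_⟩
          · intro h
            exact hvx' (vx_of_conn h hvy')
          · rw [if_neg hvx', ← rt_eq hit, hrti]
      · left
        rw [Finset.mem_sdiff]
        constructor
        · rw [hK, hP1]
          exact ⟨⟨hvi, hix, hiy, hit⟩, hrti⟩
        · intro h
          rw [hBK, Finset.mem_image] at h
          obtain ⟨s', _, heq⟩ := h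
          simp only [Prod.mk.injEq] at heq
          obtain ⟨h1, h2⟩ := heq
          subst h1
          apply hncb
          have h3 := conn_rt (γ := γ) s' (base s')
          rw [h2] at h3
          exact h3
  set Rel : Finset (A × ι) := All.filter (fun q => Adj γ q.1 q.2 q.2) with hRel
  have hRelc : Rel.card ≤ All.card := Finset.card_filter_le _ _
  refine ⟨Rel.image (fun q => (f q.1 q.2, f q.1 (base q.1))), ?_, ?_⟩
  · have h1 : (Rel.image (fun q => (f q.1 q.2, f q.1 (base q.1)))).card ≤ Rel.card :=
      Finset.card_image_le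
    have h2 : (ν + 1) * Cp.card = ν * Cp.card + Cp.card := by ring
    rw [h2]
    omega
  · intro a b
    constructor
    · intro h
      let C0 : AddCon (ι → ℕ) :=
        { r := fun x y => val γ x = val γ y
          iseqv := ⟨fun _ => rfl, fun h => h.symm, fun h1 h2 => h1.trans h2⟩
          add' := by
            intro w x y z h1 h2
            show val γ (w + y) = val γ (x + z)
            rw [val_add, val_add, h1, h2] }
      have hle : addConGen (fun x y => (x, y) ∈
          Rel.image (fun q => (f q.1 q.2, f q.1 (base q.1)))) ≤ C0 := by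
        rw [AddCon.addConGen_le]
        intro x y hxy
        rw [Finset.mem_image] at hxy
        obtain ⟨⟨n, i⟩, hq, heq⟩ := hxy
        simp only [Prod.mk.injEq] at heq
        obtain ⟨h1, h2⟩ := heq
        rw [hRel, Finset.mem_filter] at hq
        obtain ⟨_, hvi⟩ := hq
        show val γ x = val γ y
        rw [← h1, ← h2]
        simp only at hvi
        rw [(hf n i hvi).1, (hf n (base n) (hbase n i hvi)).1]
      exact hle h
    · intro hab
      refine gen D.hφ _ base f hf hbase ?_ a b hab
      intro n i hvi hrti hncb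
      apply AddConGen.Rel.of
      rw [Finset.mem_image]
      refine ⟨(n, i), ?_, rfl⟩
      rw [hRel, Finset.mem_filter]
      exact ⟨hcover n i hvi hrti hncb, hvi⟩

end Data

end Pool.Agent.Helper816.TC
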