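import Mathlib
import Pool.Agent.Helper816.TCCount5
import Pool.Agent.Helper816.Residues2
import Pool.Agent.Helper816.Growth2

set_option autoImplicit false
set_option linter.unusedSectionVars false

open Finset
open scoped Pointwise

namespace Pool.Agent.Helper816.TCC

open Pool.Agent.Helper816.TC Pool.Agent.Helper816.Growth Pool.Agent.Helper816.Growth2
open Pool.Agent.Helper816.Count (wt)
open Pool.Agent.Helper816.Residues (len exc realise wt_eq)

/-- The generators of the extended monoid. -/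
def gam {e : ℕ} (g : Fin (e + 1) → ℕ) : Option (Fin (e + 1)) → ℤ × ℤ
  | none => (0, -1)
  | some i => ((g i : ℤ), 1)

/-- The grading. -/
def phi : ℤ × ℤ →+ ℤ where
  toFun p := 2 * p.1 - p.2
  map_zero' := by simp
  map_add' p q := by simp only [Prod.fst_add, Prod.snd_add]; ring

/-- The weight `v`. -/
def vv (M : ℕ) : ℤ × ℤ →+ ℤ where
  toFun p := M * p.2 - p.1
  map_zero' := by simp
  map_add' p q := by simp only [Prod.fst_add, Prod.snd_add]; ring

lemma phi_apply (p : ℤ × ℤ) : phi p = 2 * p.1 - p.2 := rfl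
lemma vv_apply (M : ℕ) (p : ℤ × ℤ) : vv M p = M * p.2 - p.1 := rfl

variable {e : ℕ} {g : Fin (e + 1) → ℕ}

lemma val_fst (a : Option (Fin (e + 1)) → ℕ) :
    (val (gam g) a).1 = (wt g (fun i => a (some i)) : ℤ) := by
  unfold TC.val wt
  rw [Fintype.sum_option, Prod.fst_add, Prod.fst_sum]
  simp [gam]

lemma val_snd (a : Option (Fin (e + 1)) → ℕ) :
    (val (gam g) a).2 = (len (fun i => a (some i)) : ℤ) - a none := by
  unfold TC.val len
  rw [Fintype.sum_option, Prod.snd_add, Prod.snd_sum]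
  simp [gam]
  ring

theorem data (he : 1 ≤ e) (hg : StrictMono g) (h0 : 0 < g 0) :
    Data (gam g) phi (vv (g (Fin.last e))) ((g (Fin.last e) : ℤ) - g 0)
      (some 0) (some (Fin.last e)) none := by
  have hl0 : (0 : Fin (e + 1)) < Fin.last e := by
    rw [Fin.lt_def]
    simp
    omega
  have h1 := hg hl0
  refine ⟨?_, ?_, by simp, by simp, ?_, ?_, ?_, ?_, ?_⟩
  · intro i
    cases i with
    | none => simp [gam, phi_apply]
    | some i =>
      simp only [gam, phi_apply]
      have := hg.monotone (Fin.zero_le i)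
      omega
  · intro h
    exact hl0.ne (Option.some.inj h)
  · simp [gam, vv_apply]
  · simp [gam, vv_apply]
  · simp only [gam, vv_apply]
    omega
  · intro i hx hy ht
    cases i with
    | none => exact absurd rfl ht
    | some i =>
      have h2 : (0 : Fin (e + 1)) < i := Fin.pos_iff_ne_zero.2 (fun h => hx (by rw [h]))
      have h3 : i < Fin.last e := lt_of_le_of_ne (Fin.le_last i) (fun h => hy (by rw [h]))
      have h4 := hg h2
      have h5 := hg h3
      simp only [gam, vv_apply]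
      constructor <;> omega
  · omega

/-- the first coordinate -/
def al (m : ℕ) (s : ℤ × ℤ) : ℤ := s.1 - s.2 * m

lemma al_val (hg : StrictMono g) (a : Option (Fin (e + 1)) → ℕ) :
    al (g 0) (val (gam g) a) =
      (exc g (fun i => a (some i)) : ℤ) + (a none : ℤ) * (g 0 : ℤ) := by
  unfold al
  rw [val_fst, val_snd, wt_eq hg]
  push_cast
  ring

lemma dom (hg : StrictMono g) {s s' : ℤ × ℤ}
    (hx : ¬ Adj (gam g) s (some 0) (some 0))
    (hy : ¬ Adj (gam g) s (some (Fin.last e)) (some (Fin.last e)))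
    (hm : Mem (gam g) s')
    (hcls : ((al (g 0) s : ℤ) : ZMod (g (Fin.last e) - g 0)) = ((al (g 0) s' : ℤ) : ZMod _))
    (hq : al (g 0) s' / ((g (Fin.last e) - g 0 : ℕ) : ℤ) ≤
      al (g 0) s / ((g (Fin.last e) - g 0 : ℕ) : ℤ))
    (hp : s'.2 - al (g 0) s' / ((g (Fin.last e) - g 0 : ℕ) : ℤ) ≤
      s.2 - al (g 0) s / ((g (Fin.last e) - g 0 : ℕ) : ℤ)) : s = s' := by
  obtain ⟨w, hwd⟩ : ∃ w, w = g (Fin.last e) - g 0 := ⟨_, rfl⟩
  rw [← hwd] at hcls hq hp
  have hM : (g (Fin.last e) : ℤ) = g 0 + w := by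
    have := hg.monotone (Fin.zero_le (Fin.last e))
    omega
  obtain ⟨k, hk⟩ := Int.eq_ofNat_of_zero_le (sub_nonneg.2 hq)
  obtain ⟨l, hl⟩ := Int.eq_ofNat_of_zero_le (sub_nonneg.2 hp)
  have hmod : al (g 0) s % (w : ℤ) = al (g 0) s' % (w : ℤ) :=
    (ZMod.intCast_eq_intCast_iff' _ _ _).1 hcls
  have h1 := Int.mul_ediv_add_emod (al (g 0) s) (w : ℤ)
  have h2 := Int.mul_ediv_add_emod (al (g 0) s') (w : ℤ)
  have h3 : al (g 0) s = al (g 0) s' + w * k := by
    rw [← h1, ← h2, hmod, ← hk]; ring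
  have h4 : s.2 = s'.2 + k + l := by linarith
  have h5 : s.1 = s'.1 + k * g (Fin.last e) + l * g 0 := by
    unfold al at h3
    rw [h4] at h3
    rw [hM]
    linear_combination h3
  obtain ⟨a, ha⟩ := hm
  have hs : val (gam g) (a + (Pi.single (some (Fin.last e)) k + Pi.single (some 0) l)) = s := by
    rw [val_add, val_add, val_single, val_single, ha]
    apply Prod.ext
    · rw [h5]
      simp [gam]
      ring
    · rw [h4]
      simp [gam]
      ring
  have hk0 : k = 0 := by
    by_contra hne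
    apply hy
    refine ⟨_, hs, ?_, ?_⟩ <;>
    · simp only [Pi.add_apply, Pi.single_eq_same]
      omega
  have hl0 : l = 0 := by
    by_contra hne
    apply hx
    refine ⟨_, hs, ?_, ?_⟩ <;>
    · simp only [Pi.add_apply, Pi.single_eq_same]
      omega
  rw [hk0, hl0] at hs
  rw [← hs, ← ha]
  simp

end Pool.Agent.Helper816.TCC
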