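import Mathlib
import Pool.Agent.Helper816.TCConc

set_option autoImplicit false
set_option linter.unusedSectionVars false

open Finset
open scoped Pointwise

namespace Pool.Agent.Helper816.TCC

open Pool.Agent.Helper816.TC Pool.Agent.Helper816.Growth Pool.Agent.Helper816.Growth2
open Pool.Agent.Helper816.Count (wt)
open Pool.Agent.Helper816.Residues (len exc realise wt_eq exc_le)
open Pool.Agent.Helper816.Residues2 (dvd_aux)

variable {e : ℕ} {g : Fin (e + 1) → ℕ}

theorem cp (he : 1 ≤ e) (hg : StrictMono g) (h0 : 0 < g 0) :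
    ∃ Cp : Finset (ℤ × ℤ),
      (∀ s, s ∈ Cp ↔ Mem (gam g) s ∧ ¬ Adj (gam g) s (some 0) (some 0) ∧
        ¬ Adj (gam g) s (some (Fin.last e)) (some (Fin.last e)) ∧
          (s = 0 ∨ 0 < vv (g (Fin.last e)) s)) ∧
      ∃ N T τ : ℕ, (N = g (Fin.last e) - g 0 ∨ 2 * N ≤ g (Fin.last e) - g 0) ∧ e ≤ N ∧
        1 ≤ τ ∧ τ * N ≤ g (Fin.last e) - g 0 ∧ Cp.card + τ ≤ 1 + τ * T ∧ 1 ≤ T ∧
        e * (T + 1) ≤ N ^ 2 + e ∧ (N < 2 * e → T ≤ 2 * N - e) ∧
        16 * e * T ≤ 16 * e * N + (4 * (N - e) + e) ^ 2 := by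
  classical
  have hD := data he hg h0
  have hl0 : (0 : Fin (e + 1)) < Fin.last e := by
    rw [Fin.lt_def]
    simp
    omega
  have hw : 0 < g (Fin.last e) - g 0 := by
    have := hg hl0
    omega
  have : NeZero (g (Fin.last e) - g 0) := ⟨hw.ne'⟩
  obtain ⟨w, hwdef⟩ : ∃ w, w = g (Fin.last e) - g 0 := ⟨_, rfl⟩
  have hgw : g (Fin.last e) = g 0 + w := by
    have := hg hl0
    omega
  -- the residues
  let D : Fin e → ZMod (g (Fin.last e) - g 0) :=
    fun i => ((g i.castSucc - g 0 : ℕ) : ZMod (g (Fin.last e) - g 0))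
  have hDlt : ∀ i : Fin e, g i.castSucc - g 0 < g (Fin.last e) - g 0 := by
    intro i
    have h1 : g i.castSucc < g (Fin.last e) := hg (Fin.castSucc_lt_last i)
    have h2 : g 0 ≤ g i.castSucc := hg.monotone (Fin.zero_le _)
    omega
  have hDinj : Function.Injective D := by
    intro i j hij
    have h1 : (g i.castSucc - g 0) % (g (Fin.last e) - g 0) =
        (g j.castSucc - g 0) % (g (Fin.last e) - g 0) :=
      (ZMod.natCast_eq_natCast_iff' _ _ _).1 hij
    rw [Nat.mod_eq_of_lt (hDlt i), Nat.mod_eq_of_lt (hDlt j)] at h1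
    have h2 : g 0 ≤ g i.castSucc := hg.monotone (Fin.zero_le _)
    have h3 : g 0 ≤ g j.castSucc := hg.monotone (Fin.zero_le _)
    have h4 : g i.castSucc = g j.castSucc := by omega
    exact Fin.castSucc_injective e (hg.injective h4)
  let H : AddSubgroup (ZMod (g (Fin.last e) - g 0)) := AddSubgroup.closure (Set.range D)
  let δ : Fin e → H := fun i => ⟨D i, AddSubgroup.subset_closure ⟨i, rfl⟩⟩
  have hδinj : Function.Injective δ := by
    intro i j hij
    exact hDinj (congrArg Subtype.val hij)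
  set A : Finset H := univ.image δ with hA
  have hAcard : A.card = e := by
    rw [hA, Finset.card_image_of_injective _ hδinj, Finset.card_univ, Fintype.card_fin]
  have hA0 : (0 : H) ∈ A := by
    rw [hA, Finset.mem_image]
    refine ⟨⟨0, by omega⟩, Finset.mem_univ _, ?_⟩
    apply Subtype.ext
    show D ⟨0, _⟩ = 0
    have : (⟨0, by omega⟩ : Fin e).castSucc = (0 : Fin (e + 1)) := by
      apply Fin.ext; simp
    show ((g (⟨0, by omega⟩ : Fin e).castSucc - g 0 : ℕ) : ZMod (g (Fin.last e) - g 0)) = 0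
    rw [this]
    simp
  have hAgen : AddSubgroup.closure (A : Set H) = ⊤ := by
    have h1 : (A : Set H) = ((↑) : H → ZMod (g (Fin.last e) - g 0)) ⁻¹' (Set.range D) := by
      ext x
      rw [hA, Finset.coe_image, Finset.coe_univ, Set.image_univ, Set.mem_preimage]
      constructor
      · rintro ⟨i, rfl⟩
        exact ⟨i, rfl⟩
      · rintro ⟨i, hi⟩
        exact ⟨i, Subtype.ext hi⟩
    rw [h1]
    exact AddSubgroup.closure_closure_coe_preimage
  obtain ⟨J, hJ⟩ := exists_univ hA0 hAgen
  -- the order of m modulo H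
  let mm : ZMod (g (Fin.last e) - g 0) := ((g 0 : ℕ) : ZMod (g (Fin.last e) - g 0))
  let mb : ZMod (g (Fin.last e) - g 0) ⧸ H := QuotientAddGroup.mk mm
  obtain ⟨τ0, hτ0⟩ : ∃ τ0, τ0 = addOrderOf mb := ⟨_, rfl⟩
  have hτ0pos : 0 < τ0 := by
    rw [hτ0]; exact addOrderOf_pos mb
  have hτ0H : τ0 * Fintype.card H ≤ g (Fin.last e) - g 0 := by
    have h1 := AddSubgroup.card_eq_card_quotient_mul_card_addSubgroup H
    rw [Nat.card_zmod] at h1
    have h2 : addOrderOf mb ≤ Nat.card (ZMod (g (Fin.last e) - g 0) ⧸ H) :=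
      Nat.le_of_dvd Nat.card_pos (addOrderOf_dvd_natCard mb)
    rw [← Nat.card_eq_fintype_card]
    calc τ0 * Nat.card H ≤ Nat.card (ZMod (g (Fin.last e) - g 0) ⧸ H) * Nat.card H :=
          Nat.mul_le_mul_right _ (by omega)
      _ = _ := h1.symm
      _ ≤ _ := le_refl _
  -- tau of a residue
  let hex : ZMod (g (Fin.last e) - g 0) → Prop := fun σ => ∃ k : ℕ, σ - (k : ZMod _) * mm ∈ H
  let τ : ZMod (g (Fin.last e) - g 0) → ℕ := fun σ => if h : hex σ then Nat.find h else 0
  have hτmem : ∀ σ, hex σ → σ - (τ σ : ZMod _) * mm ∈ H := by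
    intro σ h
    simp only [τ, dif_pos h]
    exact Nat.find_spec h
  have hτle : ∀ σ, ∀ k : ℕ, σ - (k : ZMod _) * mm ∈ H → τ σ ≤ k := by
    intro σ k hk
    have h : hex σ := ⟨k, hk⟩
    simp only [τ, dif_pos h]
    exact Nat.find_min' h hk
  have hτlt : ∀ σ, τ σ < τ0 := by
    intro σ
    by_cases h : hex σ
    · obtain ⟨k, hk⟩ := h
      have h1 : σ - ((k % τ0 : ℕ) : ZMod _) * mm ∈ H := by
        have h2 : (QuotientAddGroup.mk σ : ZMod (g (Fin.last e) - g 0) ⧸ H) = k • mb := by
          have h3 : (k • mb : ZMod (g (Fin.last e) - g 0) ⧸ H) =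
              QuotientAddGroup.mk ((k : ZMod _) * mm) := by
            rw [← nsmul_eq_mul]; rfl
          rw [h3, eq_comm, QuotientAddGroup.eq]
          have h4 : -((k : ZMod (g (Fin.last e) - g 0)) * mm) + σ = σ - (k : ZMod _) * mm := by ring
          rw [h4]; exact hk
        have h3 : ((k % τ0) • mb : ZMod (g (Fin.last e) - g 0) ⧸ H) = k • mb := by
          rw [hτ0]; exact mod_addOrderOf_nsmul mb k
        have h4 : ((k % τ0) • mb : ZMod (g (Fin.last e) - g 0) ⧸ H) =
              QuotientAddGroup.mk (((k % τ0 : ℕ) : ZMod _) * mm) := by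
            rw [← nsmul_eq_mul]; rfl
        rw [← h3, h4, eq_comm, QuotientAddGroup.eq] at h2
        have h5 : -(((k % τ0 : ℕ) : ZMod (g (Fin.last e) - g 0)) * mm) + σ =
          σ - ((k % τ0 : ℕ) : ZMod _) * mm := by ring
        rwa [h5] at h2
      exact lt_of_le_of_lt (hτle σ _ h1) (Nat.mod_lt _ hτ0pos)
    · simp only [τ, dif_neg h]
      exact hτ0pos
  let rr : ZMod (g (Fin.last e) - g 0) → H := fun σ =>
    if h : σ - (τ σ : ZMod _) * mm ∈ H then ⟨_, h⟩ else 0
  have hrr : ∀ σ, hex σ → ((rr σ : H) : ZMod _) = σ - (τ σ : ZMod _) * mm := by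
    intro σ h
    simp only [rr, dif_pos (hτmem σ h)]
  have hjex : ∀ r : H, ∃ j, r ∈ Sj A j := fun r => ⟨J, by rw [hJ]; exact Finset.mem_univ _⟩
  let jj : H → ℕ := fun r => Nat.find (hjex r)
  have hjj : ∀ r, r ∈ Sj A (jj r) := fun r => Nat.find_spec (hjex r)
  have hjJ : ∀ r, jj r ≤ J := fun r => Nat.find_min' (hjex r) (by rw [hJ]; exact Finset.mem_univ _)
  have hjlt : ∀ r i, i < jj r → r ∉ Sj A i := fun r i hi => Nat.find_min (hjex r) hi
  have hux : ∀ r : H, ∃ u : Fin (e + 1) → ℕ, u (Fin.last e) = 0 ∧ len u = jj r ∧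
      ((exc g u : ℕ) : ZMod (g (Fin.last e) - g 0)) = (r : ZMod (g (Fin.last e) - g 0)) :=
    fun r => realise (g := g) δ (fun i => rfl) (jj r) r (hjj r)
  choose u hu1 hu2 hu3 using hux
  -- notation
  let cls : ℤ × ℤ → ZMod (g (Fin.last e) - g 0) := fun s => ((al (g 0) s : ℤ) : ZMod _)
  let q : ℤ × ℤ → ℤ := fun s => al (g 0) s / (w : ℤ)
  let p : ℤ × ℤ → ℤ := fun s => s.2 - al (g 0) s / (w : ℤ)
  let qu : ZMod (g (Fin.last e) - g 0) → ℤ := fun σ =>
    ((exc g (u (rr σ)) : ℤ) + (τ σ : ℤ) * (g 0 : ℤ)) / (w : ℤ)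
  let q0 : ZMod (g (Fin.last e) - g 0) → ℤ := fun σ => ((τ σ : ℤ) * (g 0 : ℤ)) / (w : ℤ)
  let ψz : ℤ × ℤ → ℤ := fun s => if q s < qu (cls s) then q s - q0 (cls s)
    else (jj (rr (cls s)) : ℤ) - p s
  let Pr : ℤ × ℤ → Prop := fun s => s ≠ 0 ∧ Mem (gam g) s ∧ ¬ Adj (gam g) s (some 0) (some 0) ∧
        ¬ Adj (gam g) s (some (Fin.last e)) (some (Fin.last e)) ∧ 0 < vv (g (Fin.last e)) s
  have hwz : (0 : ℤ) < (w : ℤ) := by
    have : 0 < w := by omega
    exact_mod_cast this
  -- F0
  have hF0 : ∀ s, Pr s → hex (cls s) ∧ q0 (cls s) ≤ q s := by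
    intro s hs
    obtain ⟨_, ⟨a, ha⟩, hx, hy, hv⟩ := hs
    have hax : a (some 0) = 0 := by
      by_contra hne
      exact hx ⟨a, ha, Nat.pos_of_ne_zero hne, Nat.pos_of_ne_zero hne⟩
    have hay : a (some (Fin.last e)) = 0 := by
      by_contra hne
      exact hy ⟨a, ha, Nat.pos_of_ne_zero hne, Nat.pos_of_ne_zero hne⟩
    have hal := al_val hg a
    rw [ha] at hal
    have hmemH : ((exc g (fun i => a (some i)) : ℕ) : ZMod (g (Fin.last e) - g 0)) ∈ H := by
      unfold exc
      rw [Nat.cast_sum]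
      apply AddSubgroup.sum_mem
      intro i _
      induction i using Fin.lastCases with
      | last =>
        show (((a (some (Fin.last e))) * (g (Fin.last e) - g 0) : ℕ) : ZMod _) ∈ H
        rw [hay]; simp
      | cast i =>
        rw [Nat.cast_mul, ← nsmul_eq_mul]
        have hDi : ((g i.castSucc - g 0 : ℕ) : ZMod (g (Fin.last e) - g 0)) ∈ H :=
          AddSubgroup.subset_closure (Set.mem_range_self i)
        exact AddSubgroup.nsmul_mem _ hDi _
    have hcl : cls s - ((a none : ℕ) : ZMod _) * mm ∈ H := by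
      have h1 : cls s = ((exc g (fun i => a (some i)) : ℕ) : ZMod (g (Fin.last e) - g 0)) +
          ((a none : ℕ) : ZMod _) * mm := by
        simp only [cls, mm]
        rw [hal]
        push_cast
        ring
      rw [h1, add_sub_cancel_right]
      exact hmemH
    refine ⟨⟨_, hcl⟩, ?_⟩
    have h2 := hτle _ _ hcl
    simp only [q0, q]
    apply Int.ediv_le_ediv hwz
    rw [hal]
    have h3 : (τ (cls s) : ℤ) * (g 0 : ℤ) ≤ (a none : ℤ) * (g 0 : ℤ) := by
      apply mul_le_mul_of_nonneg_right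
      · exact_mod_cast h2
      · positivity
    have h4 : (0 : ℤ) ≤ (exc g (fun i => a (some i)) : ℤ) := by positivity
    linarith
  -- F2
  have hF2 : ∀ σ, qu σ ≤ q0 σ + (jj (rr σ) : ℤ) := by
    intro σ
    simp only [qu, q0]
    have h1 : (exc g (u (rr σ)) : ℤ) + (τ σ : ℤ) * (g 0 : ℤ) ≤
        (τ σ : ℤ) * (g 0 : ℤ) + (jj (rr σ) : ℤ) * (w : ℤ) := by
      have h2 := exc_le hg (hu1 (rr σ))
      rw [hu2] at h2
      have h3 : jj (rr σ) * (g (Fin.last e) - g 0 - 1) ≤ jj (rr σ) * w :=
        Nat.mul_le_mul_left _ (by omega)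
      have h4 : exc g (u (rr σ)) ≤ jj (rr σ) * w := h2.trans h3
      have h5 : (exc g (u (rr σ)) : ℤ) ≤ (jj (rr σ) : ℤ) * (w : ℤ) := by exact_mod_cast h4
      linarith
    have h6 := Int.ediv_le_ediv hwz h1
    rwa [Int.add_mul_ediv_right _ _ hwz.ne'] at h6
  have hq0nn : ∀ σ, 0 ≤ q0 σ := by
    intro σ
    simp only [q0]
    apply Int.ediv_nonneg
    · positivity
    · exact hwz.le
  -- F4
  have hF4 : ∀ s, Pr s → 1 ≤ p s := by
    intro s hs
    obtain ⟨_, _, _, _, hv⟩ := hs
    rw [vv_apply, hgw] at hv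
    push_cast at hv
    have h1 : al (g 0) s < s.2 * (w : ℤ) := by
      unfold al; linarith
    have h2 : al (g 0) s / (w : ℤ) < s.2 := Int.ediv_lt_of_lt_mul hwz h1
    simp only [p]
    omega
  -- domination
  have hdom : ∀ s s', Pr s → Mem (gam g) s' → cls s = cls s' → q s' ≤ q s → p s' ≤ p s →
      s = s' := by
    intro s s' hs hm hc hq hp
    obtain ⟨_, _, hx, hy, _⟩ := hs
    apply dom hg hx hy hm hc
    · rw [← hwdef]; exact hq
    · rw [← hwdef]; exact hp
  -- F3
  have hF3 : ∀ s, Pr s → qu (cls s) ≤ q s →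
      p s ≤ (jj (rr (cls s)) : ℤ) - τ (cls s) - qu (cls s) := by
    intro s hs hqs
    by_contra hcon
    push Not at hcon
    obtain ⟨hexs, _⟩ := hF0 s hs
    let a' : Option (Fin (e + 1)) → ℕ := fun o => o.elim (τ (cls s)) (u (rr (cls s)))
    have hal := al_val hg a'
    have ha1 : (fun i => a' (some i)) = u (rr (cls s)) := rfl
    have ha2 : a' none = τ (cls s) := rfl
    rw [ha1, ha2] at hal
    have hsnd := val_snd (g := g) a'
    rw [ha1, ha2, hu2] at hsnd
    have hcl : cls s = cls (TC.val (gam g) a') := by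
      simp only [cls]
      rw [hal]
      push_cast
      rw [hu3, hrr _ hexs]
      simp only [mm, cls]
      push_cast
      ring
    have heq := hdom s _ hs ⟨a', rfl⟩ hcl
      (by simp only [q]; rw [hal]; exact hqs)
      (by
        simp only [p]; rw [hal, hsnd]
        simp only [qu, p] at hcon
        linarith)
    have hp2 : p s = p (TC.val (gam g) a') := by rw [← heq]
    rw [hp2] at hcon
    simp only [p, qu] at hcon
    rw [hal, hsnd] at hcon
    linarith
  -- range of ψz
  have hψ : ∀ s, Pr s → 0 ≤ ψz s ∧ ψz s < (jj (rr (cls s)) : ℤ) := by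
    intro s hs
    obtain ⟨_, h1⟩ := hF0 s hs
    have h2 := hF2 (cls s)
    have h4 := hF4 s hs
    simp only [ψz]
    split_ifs with h
    · constructor
      · linarith
      · linarith
    · push Not at h
      have h3 := hF3 s hs h
      have h5 := hq0nn (cls s)
      have h6 : (0 : ℤ) ≤ (τ (cls s) : ℤ) := by positivity
      have h7 : 0 ≤ qu (cls s) := by
        simp only [qu]
        apply Int.ediv_nonneg
        · positivity
        · exact hwz.le
      constructor
      · linarith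
      · linarith
  have hinj : ∀ s s', Pr s → Pr s' → cls s = cls s' → ψz s = ψz s' → s = s' := by
    intro s s' hs hs' hc heq
    have h4 := hF4 s hs
    have h4' := hF4 s' hs'
    simp only [ψz] at heq
    have h5 := hq0nn (cls s)
    have h6 : (0 : ℤ) ≤ (τ (cls s) : ℤ) := by positivity
    by_cases h : q s < qu (cls s)
    · rw [if_pos h] at heq
      by_cases h' : q s' < qu (cls s')
      · rw [if_pos h', hc] at heq
        have hqq : q s = q s' := by linarith
        rcases le_total (p s) (p s') with hp | hp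
        · exact (hdom s' s hs' hs.2.1 hc.symm hqq.le hp).symm
        · exact hdom s s' hs hs'.2.1 hc hqq.ge hp
      · rw [if_neg h'] at heq
        push Not at h'
        have h3 := hF3 s' hs' h'
        rw [← hc] at h3 heq
        exfalso
        linarith
    · rw [if_neg h] at heq
      push Not at h
      have h3 := hF3 s hs h
      by_cases h' : q s' < qu (cls s')
      · rw [if_pos h', ← hc] at heq
        rw [← hc] at h'
        exfalso
        linarith
      · rw [if_neg h', hc] at heq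
        have hpp : p s = p s' := by linarith
        rcases le_total (q s) (q s') with hq | hq
        · exact (hdom s' s hs' hs.2.1 hc.symm hq hpp.le).symm
        · exact hdom s s' hs hs'.2.1 hc hq hpp.ge
  -- the target
  set Tg : Finset (ℕ × (H × ℕ)) := (range τ0) ×ˢ
    (((univ : Finset H) ×ˢ (range J)).filter (fun x => x.1 ∉ Sj A x.2)) with hTg
  have hTgc : Tg.card = τ0 * ∑ j ∈ range J, (Fintype.card H - (Sj A j).card) := by
    rw [hTg, Finset.card_product, Finset.card_range]
    congr 1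
    rw [Finset.card_filter, Finset.sum_product_right]
    apply Finset.sum_congr rfl
    intro j _
    rw [← Finset.card_filter, ← Finset.card_compl]
    congr 1
    ext x
    simp
  obtain ⟨C0, hC0, hC0c⟩ := exists_finset Pr
    (fun s => (τ (cls s), (rr (cls s), (ψz s).toNat))) Tg
    (by
      intro s hs
      obtain ⟨h1, h2⟩ := hψ s hs
      rw [hTg, Finset.mem_product, Finset.mem_range, Finset.mem_filter, Finset.mem_product,
        Finset.mem_range]
      have h3 : (ψz s).toNat < jj (rr (cls s)) := by omega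
      exact ⟨hτlt _, ⟨Finset.mem_univ _, lt_of_lt_of_le h3 (hjJ _)⟩, hjlt _ _ h3⟩)
    (by
      intro s s' hs hs' heq
      simp only [Prod.mk.injEq] at heq
      obtain ⟨e1, e2, e3⟩ := heq
      have hc : cls s = cls s' := by
        have h1 := hrr _ (hF0 s hs).1
        have h2 := hrr _ (hF0 s' hs').1
        rw [e2, e1] at h1
        rw [h1] at h2
        exact sub_left_injective h2
      apply hinj s s' hs hs' hc
      have h1 := (hψ s hs).1
      have h2 := (hψ s' hs').1
      omega)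
  refine ⟨insert 0 C0, ?_, ?_⟩
  · intro s
    rw [Finset.mem_insert, hC0]
    constructor
    · rintro (rfl | ⟨_, h1, h2, h3, h4⟩)
      · exact ⟨mem_zero, not_adj_zero hD.hφ _ _, not_adj_zero hD.hφ _ _, Or.inl rfl⟩
      · exact ⟨h1, h2, h3, Or.inr h4⟩
    · rintro ⟨h1, h2, h3, h4⟩
      by_cases hs : s = 0
      · exact Or.inl hs
      · right
        rcases h4 with h4 | h4
        · exact absurd h4 hs
        · exact ⟨hs, h1, h2, h3, h4⟩
  · have hlev := level_bound hA0 hAgen J
    rw [hAcard] at hlev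
    refine ⟨Fintype.card H, 1 + ∑ j ∈ range J, xj A j, τ0, ?_, ?_, hτ0pos, hτ0H, ?_, ?_, ?_, ?_, ?_⟩
    · have h1 : Nat.card H ∣ Nat.card (ZMod (g (Fin.last e) - g 0)) :=
        AddSubgroup.card_addSubgroup_dvd_card H
      rw [Nat.card_eq_fintype_card, Nat.card_zmod] at h1
      obtain ⟨q, hq⟩ := h1
      exact dvd_aux _ (Fintype.card H) q hw hq
    · have h1 : A.card ≤ Fintype.card H := Finset.card_le_univ _
      omega
    · have h1 := Finset.card_insert_le (0 : ℤ × ℤ) C0
      rw [hTgc] at hC0c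
      have h2 : τ0 * (1 + ∑ j ∈ range J, xj A j) =
          τ0 + τ0 * ∑ j ∈ range J, (Fintype.card H - (Sj A j).card) := by
        unfold xj; ring
      rw [h2]
      omega
    · omega
    · have h1 : (1 + ∑ j ∈ range J, xj A j) + 1 =
          (∑ j ∈ range J, (Fintype.card H - (Sj A j).card)) + 2 := by
        unfold xj; omega
      rw [h1]
      exact hlev
    · intro h
      have h1 := dense_sum hA0 (by rw [hAcard]; exact h) J
      rw [hAcard] at h1
      exact h1
    · have h1 := general_sum hA0 hAgen J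
      rw [hAcard] at h1
      exact h1

end Pool.Agent.Helper816.TCC
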