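import Mathlib
import Pool.Agent.Helper816.TCAlg
import Pool.Agent.Helper816.TCCp

set_option autoImplicit false
set_option linter.unusedSectionVars false

open Finset MvPolynomial

namespace Pool.Agent.Helper816.TCFin

open Pool.Agent.Helper816.Toric (weight_fun)
open Pool.Agent.Helper816.TCAlg Pool.Agent.Helper816.TCC
open Pool.Agent.Helper816.TC (Mem Adj conn Inn)
open Pool.Agent.Helper816.Count (wt)
open Pool.Agent.Helper816.Residues (len)

variable {e : ℕ} {g : Fin (e + 1) → ℕ}

/-- A word, with the extra variable set to zero. -/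
noncomputable def m0 (k : Type) [Field k] {e : ℕ} (a : Option (Fin (e + 1)) → ℕ) :
    MvPolynomial (Fin (e + 1)) k :=
  if a none = 0 then monomial (Finsupp.equivFunOnFinite.symm (fun i => a (some i))) 1 else 0

lemma m0_add (k : Type) [Field k] (a b : Option (Fin (e + 1)) → ℕ) :
    m0 k (a + b) = m0 k a * m0 k b := by
  unfold m0
  have e1 : (Finsupp.equivFunOnFinite.symm (fun i => (a + b) (some i)) : Fin (e + 1) →₀ ℕ) =
      Finsupp.equivFunOnFinite.symm (fun i => a (some i)) +
        Finsupp.equivFunOnFinite.symm (fun i => b (some i)) := by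
    ext i; simp
  by_cases ha : a none = 0
  · by_cases hb : b none = 0
    · rw [if_pos (by simp [ha, hb]), if_pos ha, if_pos hb, e1, monomial_mul, one_mul]
    · rw [if_neg (by simp [hb]), if_neg hb, mul_zero]
  · rw [if_neg (by simp [ha]), if_neg ha, zero_mul]

lemma degree_fun (a : Fin (e + 1) →₀ ℕ) : a.degree = ∑ i, a i := by
  rw [Finsupp.degree_eq_sum]

lemma val_word (b : Fin (e + 1) →₀ ℕ) (τ : ℕ) :
    TC.val (gam g) (fun o => o.elim τ b) =
      (((Finsupp.weight g b : ℕ) : ℤ), (b.degree : ℤ) - τ) := by
  apply Prod.ext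
  · rw [val_fst]
    have h1 : Finsupp.weight g b = ∑ i, b i * g i := by
      have := weight_fun g (fun i => b i)
      simpa using this
    rw [h1]
    simp [wt]
  · rw [val_snd, degree_fun]
    simp [len]

/-- The ideal is generated by the images of the relations. -/
theorem span_pres (k : Type) [Field k]
    (R : Finset ((Option (Fin (e + 1)) → ℕ) × (Option (Fin (e + 1)) → ℕ)))
    (hR : ∀ a b : Option (Fin (e + 1)) → ℕ,
      (addConGen (fun x y => (x, y) ∈ R)) a b ↔ TC.val (gam g) a = TC.val (gam g) b) :
    Ideal.span ((fun p : (Option (Fin (e + 1)) → ℕ) × (Option (Fin (e + 1)) → ℕ) =>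
      m0 k p.1 - m0 k p.2) '' R) = Ideal.span (inGen k g) := by
  set J := Ideal.span ((fun p : (Option (Fin (e + 1)) → ℕ) × (Option (Fin (e + 1)) → ℕ) =>
      m0 k p.1 - m0 k p.2) '' R) with hJ
  let c : AddCon (Option (Fin (e + 1)) → ℕ) :=
    { r := fun a b => m0 k a - m0 k b ∈ J
      iseqv := ⟨fun a => by simp, fun {a b} h => by
          have := J.neg_mem h
          rwa [neg_sub] at this, fun {a b c} h1 h2 => by
          have := J.add_mem h1 h2
          rwa [sub_add_sub_cancel] at this⟩
      add' := by
        intro a b c d h1 h2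
        have e : m0 k (a + c) - m0 k (b + d) =
            m0 k c * (m0 k a - m0 k b) + m0 k b * (m0 k c - m0 k d) := by
          rw [m0_add, m0_add]; ring
        show m0 k (a + c) - m0 k (b + d) ∈ J
        rw [e]
        exact J.add_mem (J.mul_mem_left _ h1) (J.mul_mem_left _ h2) }
  have hle : addConGen (fun x y => (x, y) ∈ R) ≤ c := by
    rw [AddCon.addConGen_le]
    intro x y hxy
    exact Ideal.subset_span ⟨(x, y), hxy, rfl⟩
  have key : ∀ a b : Option (Fin (e + 1)) → ℕ, TC.val (gam g) a = TC.val (gam g) b →
      m0 k a - m0 k b ∈ J :=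
    fun a b h => hle ((hR a b).2 h)
  apply le_antisymm
  · rw [hJ, Ideal.span_le]
    rintro _ ⟨⟨a, b⟩, hab, rfl⟩
    have hv : TC.val (gam g) a = TC.val (gam g) b := (hR a b).1 (AddConGen.Rel.of _ _ hab)
    have h1 := congrArg Prod.fst hv
    have h2 := congrArg Prod.snd hv
    rw [val_fst, val_fst] at h1
    rw [val_snd, val_snd] at h2
    have h1' : Finsupp.weight g (Finsupp.equivFunOnFinite.symm (fun i => a (some i))) =
        Finsupp.weight g (Finsupp.equivFunOnFinite.symm (fun i => b (some i))) := by
      rw [weight_fun, weight_fun]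
      have : wt g (fun i => a (some i)) = wt g (fun i => b (some i)) := by exact_mod_cast h1
      exact this
    have hd : ∀ a : Option (Fin (e + 1)) → ℕ,
        (Finsupp.equivFunOnFinite.symm (fun i => a (some i)) : Fin (e + 1) →₀ ℕ).degree =
          len (fun i => a (some i)) := by
      intro a
      rw [degree_fun]
      simp [len]
    simp only [SetLike.mem_coe]
    by_cases ha : a none = 0
    · by_cases hb : b none = 0
      · apply Ideal.subset_span
        left
        refine ⟨_, _, ?_, h1', ?_⟩
        · rw [hd, hd]; omega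
        · unfold m0
          rw [if_pos ha, if_pos hb]
      · apply Ideal.subset_span
        right
        refine ⟨_, _, ?_, h1', ?_⟩
        · rw [hd, hd]; omega
        · unfold m0
          rw [if_pos ha, if_neg hb, sub_zero]
    · by_cases hb : b none = 0
      · have h3 : (monomial (Finsupp.equivFunOnFinite.symm (fun i => b (some i))) 1 :
            MvPolynomial (Fin (e + 1)) k) ∈ Ideal.span (inGen k g) := by
          apply Ideal.subset_span
          right
          refine ⟨_, _, ?_, h1'.symm, rfl⟩
          rw [hd, hd]; omega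
        unfold m0
        rw [if_neg ha, if_pos hb, zero_sub]
        exact Ideal.neg_mem_iff _ |>.2 h3
      · unfold m0
        rw [if_neg ha, if_neg hb, sub_zero]
        exact Ideal.zero_mem _
  · rw [Ideal.span_le]
    rintro p (⟨u, v, h1, h2, rfl⟩ | ⟨u, v, h1, h2, rfl⟩)
    · have := key (fun o => o.elim 0 u) (fun o => o.elim 0 v) (by
        rw [val_word, val_word, h1, h2])
      simpa [m0] using this
    · have := key (fun o => o.elim 0 u) (fun o => o.elim (v.degree - u.degree) v) (by
        rw [val_word, val_word, h2]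
        congr 1
        omega)
      have h3 : v.degree - u.degree ≠ 0 := by omega
      simpa [m0, h3] using this

/-- Finite generation bounds the dimension of the cotangent space. -/
theorem finrank_le (k : Type) [Field k] {σ : Type} (I : Ideal (MvPolynomial σ k))
    (S : Finset (MvPolynomial σ k)) (hS : Ideal.span (S : Set (MvPolynomial σ k)) = I) :
    Module.finrank k (↥I ⧸ ((Ideal.span (Set.range
      (MvPolynomial.X : σ → MvPolynomial σ k))) •
        (⊤ : Submodule (MvPolynomial σ k) ↥I))) ≤ S.card := by
  classical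
  set 𝔪 : Ideal (MvPolynomial σ k) := Ideal.span (Set.range
      (MvPolynomial.X : σ → MvPolynomial σ k)) with hm
  set Q := ↥I ⧸ (𝔪 • (⊤ : Submodule (MvPolynomial σ k) ↥I)) with hQ
  have hsub : ∀ s ∈ S, s ∈ I := fun s hs => hS ▸ Ideal.subset_span hs
  let π : ↥I →ₗ[MvPolynomial σ k] Q := Submodule.mkQ _
  let T : Finset Q := S.attach.image (fun s => π ⟨s.1, hsub s.1 s.2⟩)
  have hTc : T.card ≤ S.card := by
    refine Finset.card_image_le.trans ?_
    rw [Finset.card_attach]
  -- the action of a polynomial is through its constant coefficient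
  have hker : ∀ p : MvPolynomial σ k, p - C (constantCoeff p) ∈ 𝔪 := by
    intro p
    induction p using MvPolynomial.induction_on with
    | C a => simp
    | add p q hp hq =>
      have : p + q - C (constantCoeff (p + q)) =
          (p - C (constantCoeff p)) + (q - C (constantCoeff q)) := by
        rw [map_add, C_add]; ring
      rw [this]
      exact 𝔪.add_mem hp hq
    | mul_X p i _ =>
      have : constantCoeff (p * X i) = 0 := by simp
      rw [this, C_0, sub_zero]
      exact 𝔪.mul_mem_left _ (Ideal.subset_span ⟨i, rfl⟩)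
  have hact : ∀ (p : MvPolynomial σ k) (q : Q), p • q = (constantCoeff p) • q := by
    intro p q
    obtain ⟨x, rfl⟩ := Submodule.mkQ_surjective _ q
    have h1 : (p - C (constantCoeff p)) • (Submodule.mkQ (𝔪 • (⊤ : Submodule (MvPolynomial σ k) ↥I)) x) = 0 := by
      rw [← map_smul]
      rw [Submodule.mkQ_apply, Submodule.Quotient.mk_eq_zero]
      exact Submodule.smul_mem_smul (hker p) trivial
    rw [sub_smul, sub_eq_zero] at h1
    rw [h1]
    rw [← MvPolynomial.algebraMap_eq, algebraMap_smul]
  have hspan : Submodule.span k (T : Set Q) = ⊤ := by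
    rw [eq_top_iff]
    rintro q -
    obtain ⟨⟨x, hx⟩, rfl⟩ := Submodule.mkQ_surjective _ q
    have hx' : x ∈ Ideal.span (S : Set (MvPolynomial σ k)) := hS ▸ hx
    have key : ∀ y (hy : y ∈ Ideal.span (S : Set (MvPolynomial σ k))),
        ∀ hy' : y ∈ I, π ⟨y, hy'⟩ ∈ Submodule.span k (T : Set Q) := by
      intro y hy
      induction hy using Submodule.span_induction with
      | mem y hy =>
        intro hy'
        apply Submodule.subset_span
        rw [Finset.mem_coe, Finset.mem_image]
        exact ⟨⟨y, hy⟩, Finset.mem_attach _ _, rfl⟩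
      | zero =>
        intro hy'
        have : (⟨0, hy'⟩ : ↥I) = 0 := rfl
        rw [this, map_zero]
        exact Submodule.zero_mem _
      | add y z hy hz ihy ihz =>
        intro hyz
        have hyI : y ∈ I := hS ▸ hy
        have hzI : z ∈ I := hS ▸ hz
        have : (⟨y + z, hyz⟩ : ↥I) = ⟨y, hyI⟩ + ⟨z, hzI⟩ := rfl
        rw [this, map_add]
        exact Submodule.add_mem _ (ihy hyI) (ihz hzI)
      | smul p y hy ihy =>
        intro hpy
        have hyI : y ∈ I := hS ▸ hy
        have : (⟨p • y, hpy⟩ : ↥I) = p • ⟨y, hyI⟩ := rfl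
        rw [this, map_smul, hact]
        exact Submodule.smul_mem _ _ (ihy hyI)
    exact key x hx' hx
  have h1 := finrank_span_finset_le_card (R := k) T
  rw [Set.finrank, hspan, finrank_top] at h1
  exact h1.trans hTc

end Pool.Agent.Helper816.TCFin
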