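import Mathlib
import Pool.Agent.Helper816.TCFin
import Pool.Agent.Helper816.Upper

set_option autoImplicit false
set_option linter.unusedSectionVars false

open Finset

/-! Upper bounds for the relations of the cone in the narrow case. -/

namespace Pool.Agent.Helper816.HSPairs

open Pool.Agent.Helper816.TCC
open Pool.Agent.Helper816.TC (Mem Adj conn Inn vx_iff)
open Pool.Agent.Helper816.Count (wt)
open Pool.Agent.Helper816.Residues (len exc wt_eq)

variable {e : ℕ} {g : Fin (e + 1) → ℕ}

lemma val_three (a : Option (Fin (e + 1)) → ℕ) (i j : Option (Fin (e + 1))) :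
    TC.val (gam g) (a + Pi.single j 1 + Pi.single i 1) =
      TC.val (gam g) a + gam g j + gam g i := by
  rw [TC.val_add, TC.val_add, TC.val_single, TC.val_single, one_smul, one_smul]

lemma smul_gam (k : ℕ) (i : Fin (e + 1)) :
    k • gam g (some i) = ((k : ℤ) * g i, (k : ℤ)) := by
  apply Prod.ext
  · simp [gam]
  · simp [gam]

lemma conn_trans' {s : ℤ × ℤ} {i j k : Option (Fin (e + 1))} (h : conn (gam g) s i j)
    (h' : conn (gam g) s j k) : conn (gam g) s i k := (conn (gam g) s).trans h h'

/-- Above a non-generator element of `Cp` there are few purely inner vertices. -/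
theorem pairs_le (he : 1 ≤ e) (hg : StrictMono g) (h0 : 0 < g 0) (b : ℤ × ℤ)
    (hb : Mem (gam g) b) (hbv : 0 < vv (g (Fin.last e)) b)
    (hbg : ∀ j, b ≠ gam g j) (s : Finset (Option (Fin (e + 1))))
    (hs : ∀ i ∈ s, Inn (gam g) (vv (g (Fin.last e))) ((g (Fin.last e) : ℤ) - g 0)
      (some 0) (some (Fin.last e)) none (b + gam g i) i) :
    s.card ≤ g (Fin.last e) - g 0 - e := by
  classical
  have hD := data he hg h0
  obtain ⟨a, ha⟩ := hb
  -- a letter different from the extra one
  obtain ⟨j, hj⟩ : ∃ j : Fin (e + 1), 0 < a (some j) := by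
    by_contra hcon
    push Not at hcon
    have h1 : (TC.val (gam g) a).1 = 0 := by
      rw [val_fst]
      have : wt g (fun i => a (some i)) = 0 := by
        unfold wt
        apply Finset.sum_eq_zero
        intro i _
        have := hcon i
        simp only
        rw [Nat.le_zero.1 this, zero_mul]
      rw [this]; rfl
    have h2 : (TC.val (gam g) a).2 ≤ 0 := by
      rw [val_snd]
      have : len (fun i => a (some i)) = 0 := by
        unfold len
        apply Finset.sum_eq_zero
        intro i _
        exact Nat.le_zero.1 (hcon i)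
      rw [this]
      omega
    rw [ha] at h1 h2
    rw [vv_apply, h1, sub_zero] at hbv
    have : (g (Fin.last e) : ℤ) * b.2 ≤ 0 :=
      mul_nonpos_of_nonneg_of_nonpos (by positivity) h2
    omega
  obtain ⟨a', ha2⟩ := TC.peel hj
  obtain ⟨v, hv⟩ : ∃ v, 0 < a' v := by
    by_contra hcon
    push Not at hcon
    have h5 : a' = 0 := by
      funext l
      exact Nat.le_zero.1 (hcon l)
    apply hbg (some j)
    rw [← ha, ha2, h5, zero_add, TC.val_single, one_smul]
  have hb' : TC.val (gam g) a' + gam g (some j) = b := by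
    rw [← ha, ha2, TC.val_add, TC.val_single, one_smul]
  have hconn : ∀ i, Adj (gam g) (b + gam g i) i (some j) ∧ Adj (gam g) (b + gam g i) i v := by
    intro i
    have h5 : TC.val (gam g) (a' + Pi.single (some j) 1 + Pi.single i 1) = b + gam g i := by
      rw [val_three, hb']
    refine ⟨⟨_, h5, by simp, by simp⟩, ⟨_, h5, by simp, by simp; omega⟩⟩
  rcases s.eq_empty_or_nonempty with rfl | ⟨i0, hi0⟩
  · simp
  have hne : ∀ i ∈ s, ∃ i' : Fin (e + 1), i = some i' ∧ i' ≠ Fin.last e := by
    intro i hi
    obtain ⟨h1, h2, h3⟩ := hD.inn_ne (hs i hi)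
    cases i with
    | none => exact absurd rfl h3
    | some i' => exact ⟨i', rfl, fun h => h2 (by rw [h])⟩
  have hjl : j ≠ Fin.last e := by
    rintro rfl
    exact (hs i0 hi0).2.2.1 (TC.conn_of_adj (hconn i0).1)
  have hlast : ∀ i, i ≠ Fin.last e → g i - g 0 < g (Fin.last e) - g 0 := by
    intro i hi
    have h5 : g i < g (Fin.last e) := hg (lt_of_le_of_ne (Fin.le_last i) hi)
    have h6 : g 0 ≤ g i := hg.monotone (Fin.zero_le i)
    omega
  have hw : 0 < g (Fin.last e) - g 0 := lt_of_le_of_lt (Nat.zero_le _) (hlast j hjl)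
  have : NeZero (g (Fin.last e) - g 0) := ⟨hw.ne'⟩
  set w := g (Fin.last e) - g 0 with hwdef
  have hle : ∀ i, g 0 ≤ g i := fun i => hg.monotone (Fin.zero_le i)
  let D : Finset (ZMod w) := univ.image (fun l : Fin e => ((g l.castSucc - g 0 : ℕ) : ZMod w))
  have hDcard : D.card = e := by
    rw [Finset.card_image_of_injective, Finset.card_univ, Fintype.card_fin]
    intro i j hij
    have h1 : (g i.castSucc - g 0) % w = (g j.castSucc - g 0) % w :=
      (ZMod.natCast_eq_natCast_iff' _ _ _).1 hij
    rw [Nat.mod_eq_of_lt (hlast _ (Fin.castSucc_lt_last i).ne),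
      Nat.mod_eq_of_lt (hlast _ (Fin.castSucc_lt_last j).ne)] at h1
    have h2 := hle i.castSucc
    have h3 := hle j.castSucc
    have h4 : g i.castSucc = g j.castSucc := by omega
    exact Fin.castSucc_injective e (hg.injective h4)
  let F : Option (Fin (e + 1)) → ZMod w := fun i =>
    i.elim 0 (fun i' => ((g i' - g 0 + (g j - g 0) : ℕ) : ZMod w))
  have hnot : ∀ i ∈ s, F i ∈ (univ \ D) := by
    intro i hi
    obtain ⟨i', rfl, hil⟩ := hne i hi
    rw [Finset.mem_sdiff]
    refine ⟨Finset.mem_univ _, ?_⟩
    intro hmem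
    obtain ⟨l, _, hl⟩ := Finset.mem_image.1 hmem
    obtain ⟨h5, h6, h7, _⟩ := hs _ hi
    have h8 : (g l.castSucc - g 0) % w = (g i' - g 0 + (g j - g 0)) % w :=
      (ZMod.natCast_eq_natCast_iff' _ _ _).1 hl
    rw [Nat.mod_eq_of_lt (hlast _ (Fin.castSucc_lt_last l).ne)] at h8
    have h9 := hlast i' hil
    have h10 := hlast j hjl
    have h11 := hlast _ (Fin.castSucc_lt_last l).ne
    have h12 : g i' - g 0 + (g j - g 0) = g l.castSucc - g 0 ∨
        g i' - g 0 + (g j - g 0) = g l.castSucc - g 0 + w := by
      rcases Nat.lt_or_ge (g i' - g 0 + (g j - g 0)) w with h | h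
      · left
        rw [Nat.mod_eq_of_lt h] at h8
        exact h8.symm
      · right
        rw [Nat.mod_eq_sub_mod h, Nat.mod_eq_of_lt (by omega)] at h8
        omega
    have h13 := hle i'
    have h14 := hle j
    have h15 := hle l.castSucc
    have h16 := hle (Fin.last e)
    rcases h12 with h | h
    · -- connected to 0
      apply h6
      have h17 : TC.val (gam g) (a' + Pi.single (some 0) 1 + Pi.single (some l.castSucc) 1) =
          b + gam g (some i') := by
        rw [val_three, ← hb']
        have : gam g (some 0) + gam g (some l.castSucc) = gam g (some j) + gam g (some i') := by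
          apply Prod.ext
          · simp only [gam, Prod.fst_add]; omega
          · simp only [gam, Prod.snd_add]
        rw [add_assoc, this, add_assoc]
      have h18 : Adj (gam g) (b + gam g (some i')) v (some 0) :=
        ⟨_, h17, by simp; omega, by simp⟩
      exact conn_trans' (TC.conn_of_adj (hconn (some i')).2) (TC.conn_of_adj h18)
    · apply h7
      have h17 : TC.val (gam g) (a' + Pi.single (some (Fin.last e)) 1 +
          Pi.single (some l.castSucc) 1) = b + gam g (some i') := by
        rw [val_three, ← hb']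
        have : gam g (some (Fin.last e)) + gam g (some l.castSucc) =
            gam g (some j) + gam g (some i') := by
          apply Prod.ext
          · simp only [gam, Prod.fst_add]; omega
          · simp only [gam, Prod.snd_add]
        rw [add_assoc, this, add_assoc]
      have h18 : Adj (gam g) (b + gam g (some i')) v (some (Fin.last e)) :=
        ⟨_, h17, by simp; omega, by simp⟩
      exact conn_trans' (TC.conn_of_adj (hconn (some i')).2) (TC.conn_of_adj h18)
  have hinj : Set.InjOn F (s : Set (Option (Fin (e + 1)))) := by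
    intro i hi i'' hi'' heq
    obtain ⟨i1, rfl, hil⟩ := hne i hi
    obtain ⟨i2, rfl, hil'⟩ := hne i'' hi''
    have heq' : ((g i1 - g 0 + (g j - g 0) : ℕ) : ZMod w) =
      ((g i2 - g 0 + (g j - g 0) : ℕ) : ZMod w) := heq
    rw [Nat.cast_add, Nat.cast_add] at heq'
    have h5 := add_right_cancel heq'
    have h6 : (g i1 - g 0) % w = (g i2 - g 0) % w :=
      (ZMod.natCast_eq_natCast_iff' _ _ _).1 h5
    rw [Nat.mod_eq_of_lt (hlast _ hil), Nat.mod_eq_of_lt (hlast _ hil')] at h6
    have h7 := hle i1
    have h8 := hle i2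
    have h9 : g i1 = g i2 := by omega
    rw [hg.injective h9]
  have hcard := Finset.card_le_card_of_injOn _ hnot hinj
  rw [Finset.card_sdiff_of_subset (Finset.subset_univ _), Finset.card_univ, ZMod.card, hDcard]
    at hcard
  exact hcard

/-- Savings when the width divides the multiplicity. -/
theorem vsave (he : 2 ≤ e) (hg : StrictMono g) (h0 : 0 < g 0)
    (hdvd : (g (Fin.last e) - g 0) ∣ g 0) :
    ∃ n : ℤ × ℤ, Mem (gam g) (n - gam g (some (Fin.last e))) ∧
      ¬ Adj (gam g) (n - gam g (some (Fin.last e))) (some 0) (some 0) ∧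
      ¬ Adj (gam g) (n - gam g (some (Fin.last e))) none none ∧
      Adj (gam g) n (some 0) (some 0) ∧ conn (gam g) n (some 0) (some (Fin.last e)) := by
  classical
  obtain ⟨k, hk⟩ := hdvd
  have hl0 : (0 : Fin (e + 1)) < Fin.last e := by
    rw [Fin.lt_def]
    simp
    omega
  have hM : g 0 < g (Fin.last e) := hg hl0
  have hk1 : 1 ≤ k := by
    rcases Nat.eq_zero_or_pos k with h | h
    · rw [h, mul_zero] at hk; omega
    · exact h
  obtain ⟨q, rfl⟩ : ∃ q, k = q + 1 := ⟨k - 1, by omega⟩
  -- an inner index
  have hi1 : 1 < e + 1 := by omega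
  set i : Fin (e + 1) := ⟨1, hi1⟩ with hidef
  have hi0 : (0 : Fin (e + 1)) < i := by rw [Fin.lt_def]; simp [hidef]
  have hil : i < Fin.last e := by rw [Fin.lt_def]; simp [hidef]; omega
  have hd1 : g i < g (Fin.last e) := hg hil
  have hd0 : g 0 < g i := hg hi0
  obtain ⟨w, hw⟩ : ∃ w, w = g (Fin.last e) - g 0 := ⟨_, rfl⟩
  rw [← hw] at hk
  have hMw : g (Fin.last e) = g 0 + w := by omega
  have hkey : (q + 1) * g (Fin.last e) = (q + 2) * g 0 := by
    rw [hMw, hk]; ring
  have hkeyZ : ((q : ℤ) + 1) * g (Fin.last e) = (q + 2) * g 0 := by exact_mod_cast hkey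
  refine ⟨(q + 1) • gam g (some (Fin.last e)) + gam g (some i), ?_, ?_, ?_, ?_, ?_⟩
  · refine ⟨Pi.single (some (Fin.last e)) q + Pi.single (some i) 1, ?_⟩
    rw [TC.val_add, TC.val_single, TC.val_single, one_smul, succ_nsmul]
    abel
  · intro hadj
    obtain ⟨b, hb⟩ := vx_iff.1 hadj
    rw [smul_gam] at hb
    have hb1 := congrArg Prod.fst hb
    rw [val_fst] at hb1
    simp only [gam, Prod.fst_sub, Prod.fst_add] at hb1
    set b' : Fin (e + 1) → ℕ := fun i => b (some i) with hb'
    push_cast at hb1
    have h5 : wt g b' = len b' * g 0 + exc g b' := wt_eq hg b'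
    have h6 : exc g b' ≤ len b' * w := by
      unfold exc len
      rw [Finset.sum_mul]
      apply Finset.sum_le_sum
      intro j _
      apply Nat.mul_le_mul_left
      have := hg.monotone (Fin.le_last j)
      omega
    have h7 : wt g b' + g 0 = q * g (Fin.last e) + g i := by
      have : ((wt g b' : ℕ) : ℤ) + g 0 = q * g (Fin.last e) + g i := by
        rw [hb1]; ring
      exact_mod_cast this
    rcases Nat.lt_or_ge (len b') (q + 1) with h | h
    · have h7' : len b' * g 0 + len b' * w ≤ q * g 0 + q * w := by
        have h8 : len b' ≤ q := by omega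
        exact Nat.add_le_add (Nat.mul_le_mul_right _ h8) (Nat.mul_le_mul_right _ h8)
      have h9 : q * g (Fin.last e) = q * g 0 + q * w := by rw [hMw]; ring
      omega
    · have h7' : (q + 1) * g 0 ≤ len b' * g 0 := Nat.mul_le_mul_right _ h
      have h9 : (q + 1) * g (Fin.last e) = q * g (Fin.last e) + g (Fin.last e) := by ring
      have h10 : (q + 2) * g 0 = (q + 1) * g 0 + g 0 := by ring
      omega
  · intro hadj
    obtain ⟨b, hb⟩ := vx_iff.1 hadj
    rw [smul_gam] at hb
    have hb1 := congrArg Prod.fst hb
    have hb2 := congrArg Prod.snd hb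
    rw [val_fst] at hb1
    rw [val_snd] at hb2
    simp only [gam, Prod.fst_sub, Prod.fst_add, Prod.snd_sub, Prod.snd_add] at hb1 hb2
    set b' : Fin (e + 1) → ℕ := fun i => b (some i) with hb'
    push_cast at hb1 hb2
    have h5 : wt g b' = len b' * g 0 + exc g b' := wt_eq hg b'
    have h6 : wt g b' = q * g (Fin.last e) + g i := by
      have : ((wt g b' : ℕ) : ℤ) = q * g (Fin.last e) + g i := by
        rw [hb1]; ring
      exact_mod_cast this
    have h7 : q + 2 ≤ len b' := by omega
    have h8 : (q + 2) * g 0 ≤ len b' * g 0 := Nat.mul_le_mul_right _ h7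
    have h9 : (q + 1) * g (Fin.last e) = q * g (Fin.last e) + g (Fin.last e) := by ring
    omega
  · refine ⟨Pi.single (some 0) (q + 2) + Pi.single (some i) 1 + Pi.single none 1, ?_, ?_, ?_⟩
    · rw [TC.val_add, TC.val_add, TC.val_single, TC.val_single, TC.val_single, one_smul, one_smul,
        smul_gam, smul_gam]
      apply Prod.ext
      · simp only [gam, Prod.fst_add]
        push_cast
        linarith
      · simp only [gam, Prod.snd_add]
        push_cast
        ring
    · simp
    · simp
  · have h3 : TC.val (gam g) (Pi.single (some 0) (q + 2) + Pi.single (some i) 1 +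
        Pi.single none 1) = (q + 1) • gam g (some (Fin.last e)) + gam g (some i) := by
      rw [TC.val_add, TC.val_add, TC.val_single, TC.val_single, TC.val_single, one_smul, one_smul,
        smul_gam, smul_gam]
      apply Prod.ext
      · simp only [gam, Prod.fst_add]
        push_cast
        linarith
      · simp only [gam, Prod.snd_add]
        push_cast
        ring
    have h2 : TC.val (gam g) (Pi.single (some (Fin.last e)) (q + 1) + Pi.single (some i) 1) =
        (q + 1) • gam g (some (Fin.last e)) + gam g (some i) := by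
      rw [TC.val_add, TC.val_single, TC.val_single, one_smul]
    have h4 : Adj (gam g) ((q + 1) • gam g (some (Fin.last e)) + gam g (some i))
        (some 0) (some i) := ⟨_, h3, by simp, by simp⟩
    have h5 : Adj (gam g) ((q + 1) • gam g (some (Fin.last e)) + gam g (some i))
        (some i) (some (Fin.last e)) := ⟨_, h2, by simp, by simp⟩
    exact conn_trans' (TC.conn_of_adj h4) (TC.conn_of_adj h5)

end Pool.Agent.Helper816.HSPairs
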