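import Mathlib
import Pool.Agent.Helper816.TCAlg
import Pool.Agent.Helper816.Interval

set_option autoImplicit false
set_option linter.unusedSectionVars false

open Finset MvPolynomial

/-! Lower bounds for the number of generators of the tangent cone ideal of an interval semigroup. -/

namespace Pool.Agent.Helper816.HSLow

open Pool.Agent.Helper816.TCAlg Pool.Agent.Helper816.Interval

/-- Number of generators from functionals vanishing on `𝔪 I`. -/
theorem card_le_of_functional (k : Type) [Field k] {σ : Type} (I : Ideal (MvPolynomial σ k))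
    {T : Type} [Fintype T] [DecidableEq T] (Φ : MvPolynomial σ k →ₗ[k] (T → k))
    (hΦ : ∀ p ∈ I, ∀ i : σ, Φ (X i * p) = 0)
    (hf : ∀ c : T, ∃ f ∈ I, Φ f = Pi.single c 1)
    (t : Finset (MvPolynomial σ k)) (ht : Ideal.span (t : Set (MvPolynomial σ k)) = I) :
    Fintype.card T ≤ t.card := by
  classical
  have hmem : ∀ s ∈ t, s ∈ I := fun s hs => ht ▸ Ideal.subset_span hs
  have hact : ∀ (p s : MvPolynomial σ k), s ∈ I → Φ (p * s) = (constantCoeff p) • Φ s := by
    intro p
    induction p using MvPolynomial.induction_on with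
    | C a =>
      intro s _
      rw [← MvPolynomial.smul_eq_C_mul, map_smul, constantCoeff_C]
    | add p q hp hq =>
      intro s hs
      rw [add_mul, map_add, hp s hs, hq s hs, map_add, add_smul]
    | mul_X p i _ =>
      intro s hs
      have : p * X i * s = X i * (p * s) := by ring
      rw [this, hΦ _ (I.mul_mem_left _ hs)]
      simp
  have hspan : Submodule.span k ((t.image Φ : Finset (T → k)) : Set (T → k)) = ⊤ := by
    rw [eq_top_iff]
    have key : ∀ f ∈ I, Φ f ∈ Submodule.span k ((t.image Φ : Finset (T → k)) : Set (T → k)) := by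
      intro f hf'
      rw [← ht] at hf'
      induction hf' using Submodule.span_induction with
      | mem y hy =>
        apply Submodule.subset_span
        rw [Finset.mem_coe, Finset.mem_image]
        exact ⟨y, hy, rfl⟩
      | zero => rw [map_zero]; exact Submodule.zero_mem _
      | add y z _ _ ihy ihz => rw [map_add]; exact Submodule.add_mem _ ihy ihz
      | smul p y hy ihy =>
        rw [smul_eq_mul, hact p y (ht ▸ hy)]
        exact Submodule.smul_mem _ _ ihy
    intro v _
    have hv : v = ∑ c, v c • (Pi.single c (1 : k) : T → k) := by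
      ext d
      rw [Finset.sum_apply, Finset.sum_eq_single d]
      · simp
      · intro b _ hb
        simp [Pi.single_eq_of_ne hb.symm]
      · simp
    rw [hv]
    apply Submodule.sum_mem
    intro c _
    apply Submodule.smul_mem
    obtain ⟨f, hfI, hfc⟩ := hf c
    rw [← hfc]
    exact key f hfI
  have h1 := finrank_span_finset_le_card (R := k) (t.image Φ)
  rw [Set.finrank, hspan, finrank_top, Module.finrank_fintype_fun_eq_card] at h1
  exact h1.trans Finset.card_image_le

theorem cone_ge (k : Type) [Field k] {σ : Type} (g : σ → ℕ) (C : Finset (σ →₀ ℕ))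
    (h1 : ∀ c ∈ C, ∃ v, v ∉ C ∧ Finsupp.weight g c = Finsupp.weight g v ∧ c.degree ≤ v.degree)
    (h2 : ∀ c ∈ C, ∀ (i : σ) (a b : σ →₀ ℕ), a + Finsupp.single i 1 = c →
      Finsupp.weight g b = Finsupp.weight g a → b = a)
    (t : Finset (MvPolynomial σ k))
    (ht : Ideal.span (t : Set (MvPolynomial σ k)) = Ideal.span (inGen k g)) :
    C.card ≤ t.card := by
  classical
  let Φ : MvPolynomial σ k →ₗ[k] ({x // x ∈ C} → k) :=
    LinearMap.pi (fun c => MvPolynomial.lcoeff k c.1)
  have hΦap : ∀ p (c : {x // x ∈ C}), Φ p c = coeff c.1 p := by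
    intro p c
    simp [Φ, MvPolynomial.lcoeff]
  have hcard : Fintype.card {x // x ∈ C} = C.card := Fintype.card_coe C
  rw [← hcard]
  -- the key vanishing
  have hmono : ∀ (a : σ →₀ ℕ) (u v : σ →₀ ℕ), Finsupp.weight g u = Finsupp.weight g v → u ≠ v →
      ∀ (i : σ) (c : {x // x ∈ C}), a + Finsupp.single i 1 + u ≠ c.1 := by
    intro a u v huv hne i c hc
    have h3 := h2 c.1 c.2 i (a + u) (a + v) (by rw [← hc]; abel) (by
      rw [map_add, map_add, huv])
    exact hne (add_left_cancel h3).symm
  have hgen : ∀ p ∈ inGen k g, ∀ q : MvPolynomial σ k, ∀ i : σ, Φ (X i * (q * p)) = 0 := by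
    intro p hp q i
    have hlin : ∀ a : σ →₀ ℕ, Φ (X i * (monomial a 1 * p)) = 0 := by
      intro a
      have e1 : (X i : MvPolynomial σ k) = monomial (Finsupp.single i 1) 1 := rfl
      ext c
      rw [hΦap]
      rcases hp with ⟨u, v, _, h4, rfl⟩ | ⟨u, v, h3, h4, rfl⟩
      · by_cases huv : u = v
        · subst huv; simp
        · have e2 : (X i * (monomial a 1 * (monomial u 1 - monomial v 1)) : MvPolynomial σ k) =
            monomial (a + Finsupp.single i 1 + u) 1 - monomial (a + Finsupp.single i 1 + v) 1 := by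
            rw [e1, mul_sub, mul_sub, monomial_mul, monomial_mul, monomial_mul, monomial_mul]
            simp only [one_mul]
            congr 2 <;> abel_nf
          rw [e2, coeff_sub, coeff_monomial, coeff_monomial,
            if_neg (hmono a u v h4 huv i c), if_neg (hmono a v u h4.symm (Ne.symm huv) i c)]
          simp
      · have huv : u ≠ v := fun h => by rw [h] at h3; exact lt_irrefl _ h3
        have e2 : (X i * (monomial a 1 * monomial u 1) : MvPolynomial σ k) =
            monomial (a + Finsupp.single i 1 + u) 1 := by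
          rw [e1, monomial_mul, monomial_mul]
          simp only [one_mul]
          congr 1
          abel_nf
        rw [e2, coeff_monomial, if_neg (hmono a u v h4 huv i c)]
        simp
    induction q using MvPolynomial.induction_on' with
    | monomial a r =>
      have e3 : (monomial a r : MvPolynomial σ k) = r • monomial a 1 := by
        rw [smul_monomial, smul_eq_mul, mul_one]
      rw [e3, smul_mul_assoc, mul_smul_comm, map_smul, hlin a, smul_zero]
    | add p' q' hp' hq' =>
      rw [add_mul, mul_add, map_add, hp', hq', add_zero]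
  apply card_le_of_functional k (Ideal.span (inGen k g)) Φ ?_ ?_ t ht
  · intro p hp
    have key : ∀ q : MvPolynomial σ k, ∀ i : σ, Φ (X i * (q * p)) = 0 := by
      induction hp using Submodule.span_induction with
      | mem p hp => exact hgen p hp
      | zero => intro q i; simp
      | add y z _ _ ihy ihz =>
        intro q i
        rw [mul_add, mul_add, map_add, ihy, ihz, add_zero]
      | smul r y _ ihy =>
        intro q i
        rw [smul_eq_mul, ← mul_assoc q r y]
        exact ihy (q * r) i
    intro i
    have := key 1 i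
    rwa [one_mul] at this
  · rintro ⟨c, hc⟩
    obtain ⟨v, hvC, hw, hd⟩ := h1 c hc
    rcases hd.lt_or_eq with hd | hd
    · refine ⟨monomial c 1, Ideal.subset_span (Or.inr ⟨c, v, hd, hw, rfl⟩), ?_⟩
      ext d
      rw [hΦap, coeff_monomial]
      by_cases h : c = d.1
      · have : d = ⟨c, hc⟩ := Subtype.ext h.symm
        rw [if_pos h, this, Pi.single_eq_same]
      · have : d ≠ ⟨c, hc⟩ := fun h' => h (by rw [h'])
        rw [if_neg h, Pi.single_eq_of_ne this]
    · refine ⟨monomial c 1 - monomial v 1, Ideal.subset_span (Or.inl ⟨c, v, hd, hw, rfl⟩), ?_⟩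
      ext d
      rw [hΦap, coeff_sub, coeff_monomial, coeff_monomial]
      have h3 : v ≠ d.1 := fun h => hvC (h ▸ d.2)
      rw [if_neg h3, sub_zero]
      by_cases h : c = d.1
      · have : d = ⟨c, hc⟩ := Subtype.ext h.symm
        rw [if_pos h, this, Pi.single_eq_same]
      · have : d ≠ ⟨c, hc⟩ := fun h' => h (by rw [h'])
        rw [if_neg h, Pi.single_eq_of_ne this]


open Interval Interval.Ivl

variable {σ : Type} {g : σ → ℕ} {m w : ℕ} {ge : ℕ → σ}

theorem deg_le_of_weight (h : Ivl g m w ge) {c v : σ →₀ ℕ} {n : ℕ}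
    (hc : (n - 1) * (m + w) < Finsupp.weight g c)
    (hcv : Finsupp.weight g c = Finsupp.weight g v) : n ≤ v.degree := by
  by_contra hlt
  push Not at hlt
  have h1 := h.upper' v
  have h2 : v.degree * (m + w) ≤ (n - 1) * (m + w) := Nat.mul_le_mul_right _ (by omega)
  omega

theorem degree_single (i : σ) (n : ℕ) : (Finsupp.single i n).degree = n := by
  simp

theorem degree_pair (i j : σ) (a b : ℕ) :
    (Finsupp.single i a + Finsupp.single j b).degree = a + b := by
  rw [map_add, degree_single, degree_single]

theorem quad_deg (h : Ivl g m w ge) (hwm : w < m) {N : ℕ} (hN : N ≤ w + 1) {c v : σ →₀ ℕ}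
    (hc : c ∈ quads ge N) (hcv : Finsupp.weight g c = Finsupp.weight g v) :
    c.degree ≤ v.degree := by
  obtain ⟨i, j, h1, h2, h3, rfl⟩ := mem_quads.mp hc
  rw [degree_pair]
  apply deg_le_of_weight h ?_ hcv
  rw [h.weight_pair (by omega) (by omega)]
  omega

theorem top_deg (h : Ivl g m w ge) (hm : 1 ≤ m) {K : ℕ} (hK : 1 ≤ K) {v : σ →₀ ℕ}
    (hcv : Finsupp.weight g (Finsupp.single (ge w) K) = Finsupp.weight g v) :
    (Finsupp.single (ge w) K : σ →₀ ℕ).degree ≤ v.degree := by
  rw [degree_single]
  apply deg_le_of_weight h ?_ hcv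
  rw [weight_single', h.hge w le_rfl]
  exact Nat.mul_lt_mul_of_pos_right (by omega) (by omega)

theorem top1_deg (h : Ivl g m w ge) (hm : 2 ≤ m) (hw : 1 ≤ w) {K : ℕ} (hK : 1 ≤ K) {v : σ →₀ ℕ}
    (hcv : Finsupp.weight g (Finsupp.single (ge w) (K - 1) + Finsupp.single (ge (w - 1)) 1) =
      Finsupp.weight g v) :
    (Finsupp.single (ge w) (K - 1) + Finsupp.single (ge (w - 1)) 1 : σ →₀ ℕ).degree ≤ v.degree := by
  rw [degree_pair, Nat.sub_add_cancel hK]
  apply deg_le_of_weight h ?_ hcv
  rw [map_add, weight_single', weight_one, h.hge w le_rfl, h.hge (w - 1) (by omega)]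
  omega

theorem cge_one (k : Type) [Field k] (h : Ivl g m w ge) (hw : 1 ≤ w) (hm : w + 2 ≤ m)
    (t : Finset (MvPolynomial σ k))
    (ht : Ideal.span (t : Set (MvPolynomial σ k)) = Ideal.span (inGen k g)) :
    w.choose 2 + 1 ≤ t.card := by
  classical
  obtain ⟨K, hK, hK1, hK2⟩ := exists_K hw hm
  set C : Finset (σ →₀ ℕ) := insert (Finsupp.single (ge w) K) (quads ge w) with hC
  have hnew : Finsupp.single (ge w) K ∉ quads ge w := fun hmem => by
    have := h.quads_top le_rfl hmem
    rw [Finsupp.single_eq_same] at this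
    omega
  have hcard : C.card = w.choose 2 + 1 := by
    rw [hC, Finset.card_insert_of_notMem hnew, h.card_quads (by omega)]
  have hz : ∀ c ∈ C, c (ge 0) = 0 := by
    intro c hc
    rw [hC, Finset.mem_insert] at hc
    rcases hc with rfl | hc
    · rw [Finsupp.single_eq_of_ne]
      intro e
      have := h.inj (by omega) (by omega) e; omega
    · exact h.quads_zero (by omega) hc
  have hone : ∀ v : σ →₀ ℕ, v (ge w) = 1 ∧ v (ge (w - 1)) = 0 → v ∉ C := by
    rintro v ⟨hv, -⟩ hvC
    rw [hC, Finset.mem_insert] at hvC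
    rcases hvC with rfl | hc
    · rw [Finsupp.single_eq_same] at hv; omega
    · have := h.quads_top le_rfl hc; omega
  have := cone_ge k g C ?_ ?_ t ht
  · rw [hcard] at this; exact this
  · intro c hc
    rw [hC, Finset.mem_insert] at hc
    rcases hc with rfl | hc
    · obtain ⟨v, hv1, hv2⟩ := h.top_alt hK hK1 hK2
      exact ⟨v, fun hv => hv2 (hz v hv), hv1, top_deg h (by omega) (by omega) hv1⟩
    · obtain ⟨v, hv1, hv2⟩ := h.quads_alt hw hc
      refine ⟨v, ?_, hv1, quad_deg h (by omega) (by omega) hc hv1⟩
      rcases hv2 with hv2 | hv2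
      · exact fun hv => hv2 (hz v hv)
      · exact hone v hv2
  · intro c hc i a b hab hb
    rw [hC, Finset.mem_insert] at hc
    rcases hc with rfl | hc
    · exact h.top_h2 K (by omega) hK2 i a b hab hb
    · obtain ⟨p, q, _, _, _, rfl⟩ := mem_quads.mp hc
      exact h.quad_h2 (by omega) _ _ i a b hab hb

theorem cge_two (k : Type) [Field k] (h : Ivl g m w ge) (hw : 2 ≤ w) (hm : w + 2 ≤ m)
    (hdvd : ¬ w ∣ m)
    (t : Finset (MvPolynomial σ k))
    (ht : Ideal.span (t : Set (MvPolynomial σ k)) = Ideal.span (inGen k g)) :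
    w.choose 2 + 2 ≤ t.card := by
  classical
  obtain ⟨K, hK, hK1, hK2⟩ := exists_K (by omega) hm
  have hK3 : m < K * w := by
    refine lt_of_le_of_ne hK1 fun e => hdvd ?_
    rw [e]; exact Dvd.intro_left K rfl
  have hne0 : ge (w - 1) ≠ ge w := fun e => by
    have := h.inj (by omega) (by omega) e; omega
  set c2 : σ →₀ ℕ := Finsupp.single (ge w) (K - 1) + Finsupp.single (ge (w - 1)) 1 with hc2
  have c2w : c2 (ge w) = K - 1 := by
    rw [hc2, Finsupp.add_apply, Finsupp.single_eq_same, Finsupp.single_apply, if_neg hne0]; rfl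
  have c2w1 : c2 (ge (w - 1)) = 1 := by
    rw [hc2, Finsupp.add_apply, Finsupp.single_eq_same, Finsupp.single_apply, if_neg hne0.symm]
  set C : Finset (σ →₀ ℕ) := insert c2 (insert (Finsupp.single (ge w) K) (quads ge w)) with hC
  have hnew : Finsupp.single (ge w) K ∉ quads ge w := fun hmem => by
    have := h.quads_top le_rfl hmem
    rw [Finsupp.single_eq_same] at this
    omega
  have hnew2 : c2 ∉ insert (Finsupp.single (ge w) K) (quads ge w) := fun hmem => by
    rw [Finset.mem_insert] at hmem
    rcases hmem with hmem | hmem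
    · rw [hmem, Finsupp.single_eq_of_ne hne0] at c2w1
      omega
    · have := h.quads_top le_rfl hmem
      omega
  have hcard : C.card = w.choose 2 + 2 := by
    rw [hC, Finset.card_insert_of_notMem hnew2, Finset.card_insert_of_notMem hnew,
      h.card_quads (by omega)]
  have hz : ∀ c ∈ C, c (ge 0) = 0 := by
    intro c hc
    rw [hC, Finset.mem_insert, Finset.mem_insert] at hc
    rcases hc with rfl | rfl | hc
    · rw [hc2]
      apply pair_zero
      · intro e
        have := h.inj (by omega) (by omega) e; omega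
      · intro e
        have := h.inj (by omega) (by omega) e; omega
    · rw [Finsupp.single_eq_of_ne]
      intro e
      have := h.inj (by omega) (by omega) e; omega
    · exact h.quads_zero (by omega) hc
  have hone : ∀ v : σ →₀ ℕ, v (ge w) = 1 ∧ v (ge (w - 1)) = 0 → v ∉ C := by
    rintro v ⟨hv, hv'⟩ hvC
    rw [hC, Finset.mem_insert, Finset.mem_insert] at hvC
    rcases hvC with rfl | rfl | hc
    · omega
    · rw [Finsupp.single_eq_same] at hv; omega
    · have := h.quads_top le_rfl hc; omega
  have := cone_ge k g C ?_ ?_ t ht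
  · rw [hcard] at this; exact this
  · intro c hc
    rw [hC, Finset.mem_insert, Finset.mem_insert] at hc
    rcases hc with rfl | rfl | hc
    · obtain ⟨v, hv1, hv2⟩ := h.top1_alt (by omega) hK hK3 hK2
      exact ⟨v, fun hv => hv2 (hz v hv), hv1,
        top1_deg h (by omega) (by omega) (by omega) hv1⟩
    · obtain ⟨v, hv1, hv2⟩ := h.top_alt hK hK1 hK2
      exact ⟨v, fun hv => hv2 (hz v hv), hv1, top_deg h (by omega) (by omega) hv1⟩
    · obtain ⟨v, hv1, hv2⟩ := h.quads_alt (by omega) hc
      refine ⟨v, ?_, hv1, quad_deg h (by omega) (by omega) hc hv1⟩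
      rcases hv2 with hv2 | hv2
      · exact fun hv => hv2 (hz v hv)
      · exact hone v hv2
  · intro c hc i a b hab hb
    rw [hC, Finset.mem_insert, Finset.mem_insert] at hc
    rcases hc with rfl | rfl | hc
    · exact h.top1_h2 K hK (by omega) hm hK2 i a b hab hb
    · exact h.top_h2 K (by omega) hK2 i a b hab hb
    · obtain ⟨p, q, _, _, _, rfl⟩ := mem_quads.mp hc
      exact h.quad_h2 (by omega) _ _ i a b hab hb

/-- the case of a full interval `[m, 2m-1]` -/
theorem cge_big (k : Type) [Field k] (h : Ivl g m w ge) (hm : m = w + 1)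
    (t : Finset (MvPolynomial σ k))
    (ht : Ideal.span (t : Set (MvPolynomial σ k)) = Ideal.span (inGen k g)) :
    m.choose 2 ≤ t.card := by
  classical
  have := cone_ge k g (quads ge (w + 1)) ?_ ?_ t ht
  · rw [h.card_quads le_rfl, ← hm] at this; exact this
  · intro c hc
    have hc' := hc
    obtain ⟨i, j, h1, h2, h3, rfl⟩ := mem_quads.mp hc
    by_cases hij : i + j ≤ w
    · have hw' : Finsupp.weight g (Finsupp.single (ge i) 1 + Finsupp.single (ge j) 1) =
          Finsupp.weight g (Finsupp.single (ge 0) 1 + Finsupp.single (ge (i + j)) 1) := by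
        rw [h.weight_pair (by omega) (by omega), h.weight_pair (by omega) (by omega)]; omega
      refine ⟨Finsupp.single (ge 0) 1 + Finsupp.single (ge (i + j)) 1, fun hv => ?_, hw',
        quad_deg h (by omega) le_rfl hc' hw'⟩
      have := h.quads_zero le_rfl hv
      rw [Finsupp.add_apply, Finsupp.single_eq_same] at this
      omega
    · have hw' : Finsupp.weight g (Finsupp.single (ge i) 1 + Finsupp.single (ge j) 1) =
          Finsupp.weight g (Finsupp.single (ge 0) 2 + Finsupp.single (ge (i + j - m)) 1) := by
        rw [h.weight_pair (by omega) (by omega), map_add, weight_single', weight_one,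
          h.hge 0 (by omega), h.hge _ (by omega)]; omega
      refine ⟨Finsupp.single (ge 0) 2 + Finsupp.single (ge (i + j - m)) 1, fun hv => ?_, hw',
        quad_deg h (by omega) le_rfl hc' hw'⟩
      have := h.quads_zero le_rfl hv
      rw [Finsupp.add_apply, Finsupp.single_eq_same] at this
      omega
  · intro c hc i a b hab hb
    obtain ⟨p, q, _, _, _, rfl⟩ := mem_quads.mp hc
    exact h.quad_h2 (by omega) _ _ i a b hab hb

/-- the interval structure on `Fin m` -/
theorem ivl_fin {M : ℕ} (a : ℕ) (hM : 1 ≤ M) :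
    Ivl (fun j : Fin M => a + (j : ℕ)) a (M - 1)
      (fun j => if h : j < M then ⟨j, h⟩ else ⟨0, hM⟩) := by
  constructor
  · intro j hj
    have : j < M := by omega
    simp only [this, dite_true]
  · intro i
    refine ⟨i, by have := i.2; omega, ?_⟩
    simp

end Pool.Agent.Helper816.HSLow
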