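import Mathlib
import Pool.Agent.Helper816.HSLow

set_option autoImplicit false
set_option linter.unusedSectionVars false

open Finset MvPolynomial

/-! Assembly of the comparison with the interval completion. -/

namespace Pool.Agent.Helper816.HSWide

open Pool.Agent.Helper816.TCAlg Pool.Agent.Helper816.HSLow
open Pool.Agent.Helper816.Toric (toric)

/-- the generating set of the frozen statement -/
theorem span_form (k : Type) [Field k] {σ : Type} (g : σ → ℕ) :
    Ideal.span {p | ∃ f ∈ RingHom.ker (MvPolynomial.aeval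
              (fun i : σ => (Polynomial.X : Polynomial k) ^ g i)),
              ∃ n : ℕ, p = MvPolynomial.homogeneousComponent n f ∧
                ∀ n' < n, MvPolynomial.homogeneousComponent n' f = 0} =
      Ideal.span (inGen k g) := by
  rw [← span_star]
  congr 1
  ext p
  constructor
  · rintro ⟨f, hf, n, hn, h⟩
    exact ⟨f, hf, n, hn.symm, h⟩
  · rintro ⟨f, hf, n, hn, h⟩
    exact ⟨f, hf, n, hn.symm, h⟩

/-- From an upper bound by `choose (g 0) 2` the conclusion in the case of a full completion. -/
theorem wide_concl (k : Type) [Field k] {e : ℕ} (g : Fin (e + 1) → ℕ) (h0 : 0 < g 0)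
    (m : ℕ) (hm : m = min (g (Fin.last e)) (2 * g 0 - 1) + 1 - g 0)
    (hw : 2 * g 0 - 1 ≤ g (Fin.last e))
    (hS : ∃ S : Finset (MvPolynomial (Fin (e + 1)) k),
      Ideal.span (S : Set (MvPolynomial (Fin (e + 1)) k)) = Ideal.span (inGen k g) ∧
      S.card ≤ (g 0).choose 2)
    (t : Finset (MvPolynomial (Fin m) k))
    (ht : Ideal.span (t : Set (MvPolynomial (Fin m) k)) =
      Ideal.span (inGen k (fun j : Fin m => g 0 + (j : ℕ)))) :
    ∃ s : Finset (MvPolynomial (Fin (e + 1)) k), s.card ≤ t.card ∧
      Ideal.span (s : Set (MvPolynomial (Fin (e + 1)) k)) = Ideal.span (inGen k g) := by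
  obtain ⟨S, hS1, hS2⟩ := hS
  have hmg : m = g 0 := by omega
  subst hmg
  refine ⟨S, hS2.trans ?_, hS1⟩
  have h1 := ivl_fin (M := g 0) (g 0) (by omega)
  have := cge_big k h1 (by omega) t ht
  omega

end Pool.Agent.Helper816.HSWide
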