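import Mathlib
import Pool.Agent.Helper816.HSPairs
import Pool.Agent.Helper816.HSWide
import Pool.Agent.Helper816.Final999

set_option autoImplicit false
set_option linter.unusedSectionVars false

open Finset MvPolynomial

/-! The narrow case of the comparison with the interval completion. -/

namespace Pool.Agent.Helper816.HSNarrow

open Pool.Agent.Helper816.TCC Pool.Agent.Helper816.TCAlg Pool.Agent.Helper816.TCFin
open Pool.Agent.Helper816.TC (Mem Adj conn Inn vx_iff)
open Pool.Agent.Helper816.Count (wt)
open Pool.Agent.Helper816.Upper (arith_dense arith_sparse)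
open Pool.Agent.Helper816.HSPairs Pool.Agent.Helper816.HSLow

variable {e : ℕ} {g : Fin (e + 1) → ℕ}

/-- Upper bound for proper subsets of the interval. -/
theorem ub (he : 2 ≤ e) (hg : StrictMono g) (h0 : 0 < g 0)
    (hδ : e + 1 ≤ g (Fin.last e) - g 0) :
    ∃ R : Finset ((Option (Fin (e + 1)) → ℕ) × (Option (Fin (e + 1)) → ℕ)),
      2 * R.card + (g (Fin.last e) - g 0) ≤ (g (Fin.last e) - g 0) ^ 2 + 4 ∧
      ((g (Fin.last e) - g 0) ∣ g 0 →
        2 * R.card + (g (Fin.last e) - g 0) ≤ (g (Fin.last e) - g 0) ^ 2 + 2) ∧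
      ∀ a b : Option (Fin (e + 1)) → ℕ,
        (addConGen (fun x y => (x, y) ∈ R)) a b ↔ TC.val (gam g) a = TC.val (gam g) b := by
  classical
  obtain ⟨Cp, hCp, N, T, τ, h1, h2, h3, h4, h5, h5', h6, h7, h8⟩ := cp (by omega) hg h0
  have D := data (by omega) hg h0
  have hcard : Fintype.card (Option (Fin (e + 1))) = (e - 1) + 3 := by
    rw [Fintype.card_option, Fintype.card_fin]; omega
  obtain ⟨V', hV1, hV2⟩ : ∃ V' : Finset (ℤ × ℤ),
      ((g (Fin.last e) - g 0) ∣ g 0 → 1 ≤ V'.card) ∧ ∀ n ∈ V',
      Mem (gam g) (n - gam g (some (Fin.last e))) ∧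
      ¬ Adj (gam g) (n - gam g (some (Fin.last e))) (some 0) (some 0) ∧
      ¬ Adj (gam g) (n - gam g (some (Fin.last e))) none none ∧
      Adj (gam g) n (some 0) (some 0) ∧ conn (gam g) n (some 0) (some (Fin.last e)) := by
    by_cases hd : (g (Fin.last e) - g 0) ∣ g 0
    · obtain ⟨n, hn⟩ := vsave he hg h0 hd
      refine ⟨{n}, fun _ => by simp, ?_⟩
      intro n' hn'
      rw [Finset.mem_singleton] at hn'
      rw [hn']; exact hn
    · exact ⟨∅, fun h => absurd h hd, by simp⟩
  obtain ⟨δ, hδ'⟩ := Nat.exists_eq_add_of_le (by omega : e ≤ g (Fin.last e) - g 0)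
  by_cases hdense : g (Fin.last e) - g 0 < 2 * e
  · obtain ⟨R, hR, hgen⟩ := D.count Cp hCp (g (Fin.last e) - g 0 - e) (e - 1) hcard (by omega) (by
      intro b hb hb0 hbg s hs
      have hb' := (hCp b).1 hb
      have hbv : 0 < vv (g (Fin.last e)) b := by
        rcases hb'.2.2.2 with h | h
        · exact absurd h hb0
        · exact h
      exact pairs_le (by omega) hg h0 b hb'.1 hbv hbg s hs) V' hV2
    have hN : N = g (Fin.last e) - g 0 := by
      rcases h1 with h | h
      · exact h
      · omega
    have hT := h7 (by omega)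
    have hτ : τ = 1 := by
      rcases Nat.lt_or_ge τ 2 with h | h
      · omega
      · exfalso
        have : 2 * N ≤ τ * N := Nat.mul_le_mul_right _ h
        omega
    rw [hτ, one_mul] at h5
    have key : 2 * R.card + 2 * V'.card + (e + δ) ≤ (e + δ) ^ 2 + 4 := by
      apply arith_dense e δ T (2 * R.card + 2 * V'.card) (by omega) (by omega) (by omega)
      have h9 : g (Fin.last e) - g 0 - e = δ := by omega
      rw [h9] at hR
      have h10 : e - 1 + 1 = e := by omega
      rw [h10] at hR
      have h11 : (δ + 1) * Cp.card ≤ (δ + 1) * T := Nat.mul_le_mul_left _ (by omega)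
      omega
    refine ⟨R, ?_, ?_, hgen⟩
    · rw [hδ']; omega
    · intro hd
      have := hV1 hd
      rw [hδ']; omega
  · obtain ⟨R, hR, hgen⟩ := D.count Cp hCp (e - 1) (e - 1) hcard (le_refl _) (by
      intro b _ _ _ s hs
      have hsub : s ⊆ ((univ.erase (some 0)).erase (some (Fin.last e))).erase none := by
        intro i hi
        obtain ⟨h1, h2, h3⟩ := D.inn_ne (hs i hi)
        simp only [Finset.mem_erase, Finset.mem_univ, and_true]
        exact ⟨h3, h2, h1⟩
      have h7 := Finset.card_le_card hsub
      rw [Finset.card_erase_of_mem (by simp),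
        Finset.card_erase_of_mem (by simp [D.hxy.symm]),
        Finset.card_erase_of_mem (by simp), Finset.card_univ, hcard] at h7
      omega) V' hV2
    have h9 : e - 1 + 1 = e := by omega
    have h10 : (e - 1 - (e - 1)) * e = 0 := by simp
    rw [h9, h10] at hR
    have key : 2 * (R.card + V'.card) + (e + δ) ≤ (e + δ) ^ 2 + 4 := by
      rcases h1 with h | h
      · have hτ : τ = 1 := by
          rcases Nat.lt_or_ge τ 2 with h' | h'
          · omega
          · exfalso
            have : 2 * N ≤ τ * N := Nat.mul_le_mul_right _ h'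
            omega
        rw [hτ, one_mul] at h5
        rw [h, hδ'] at h8
        have h11 : e + δ - e = δ := by omega
        rw [h11] at h8
        refine arith_sparse e δ T (R.card + V'.card) he (by omega) h8 ?_
        have h12 : e * Cp.card ≤ e * T := Nat.mul_le_mul_left _ (by omega)
        omega
      · -- 2 N ≤ w
        rw [hδ'] at h h4
        have h11 : e * T ≤ N ^ 2 := by
          have : e * (T + 1) = e * T + e := by ring
          omega
        have h12 : e * Cp.card + e * τ ≤ e + τ * N ^ 2 := by
          calc e * Cp.card + e * τ = e * (Cp.card + τ) := by ring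
            _ ≤ e * (1 + τ * T) := Nat.mul_le_mul_left _ h5
            _ = e + τ * (e * T) := by ring
            _ ≤ _ := by
              have := Nat.mul_le_mul_left τ h11
              omega
        have h13 : τ * N ^ 2 ≤ (e + δ) * N := by
          calc τ * N ^ 2 = (τ * N) * N := by ring
            _ ≤ (e + δ) * N := Nat.mul_le_mul_right _ h4
        have h14 : e ≤ e * τ := Nat.le_mul_of_pos_right _ (by omega)
        have h15 : 2 * ((e + δ) * N) ≤ (e + δ) ^ 2 := by
          calc 2 * ((e + δ) * N) = (e + δ) * (2 * N) := by ring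
            _ ≤ (e + δ) * (e + δ) := Nat.mul_le_mul_left _ h
            _ = (e + δ) ^ 2 := by ring
        have h16 : 2 * e ≤ e + δ := by omega
        have h17 : 3 * (e + δ) ≤ (e + δ) ^ 2 + 8 := by nlinarith [sq_nonneg ((e : ℤ) + δ - 2)]
        omega
    refine ⟨R, ?_, ?_, hgen⟩
    · rw [hδ']; omega
    · intro hd
      have := hV1 hd
      rw [hδ']; omega

/-- For two generators, one relation suffices. -/
lemma e_one (he : e = 1) (hg : StrictMono g) (h0 : 0 < g 0) :
    ∃ R : Finset ((Option (Fin (e + 1)) → ℕ) × (Option (Fin (e + 1)) → ℕ)), R.card ≤ 1 ∧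
      ∀ a b : Option (Fin (e + 1)) → ℕ,
        (addConGen (fun x y => (x, y) ∈ R)) a b ↔ TC.val (gam g) a = TC.val (gam g) b := by
  classical
  obtain ⟨Cp, hCp, -⟩ := cp (by omega) hg h0
  have D := data (by omega) hg h0
  have hcard : Fintype.card (Option (Fin (e + 1))) = 0 + 3 := by
    rw [Fintype.card_option, Fintype.card_fin]; omega
  obtain ⟨R, hR, hgen⟩ := D.count Cp hCp 0 0 hcard (le_refl _) (by
      intro b _ _ _ s hs
      have hsub : s ⊆ ((univ.erase (some 0)).erase (some (Fin.last e))).erase none := by
        intro i hi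
        obtain ⟨h1, h2, h3⟩ := D.inn_ne (hs i hi)
        simp only [Finset.mem_erase, Finset.mem_univ, and_true]
        exact ⟨h3, h2, h1⟩
      have h7 := Finset.card_le_card hsub
      rw [Finset.card_erase_of_mem (by simp),
        Finset.card_erase_of_mem (by simp [D.hxy.symm]),
        Finset.card_erase_of_mem (by simp), Finset.card_univ, hcard] at h7
      omega) ∅ (by simp)
  refine ⟨R, ?_, hgen⟩
  have hB1 : Cp ⊆ {0} := by
    intro n hn
    rw [hCp] at hn
    obtain ⟨⟨a, ha⟩, h1, h2, h3⟩ := hn
    rw [Finset.mem_singleton]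
    rcases h3 with h3 | h3
    · exact h3
    · exfalso
      have hz : ∀ i : Fin (e + 1), a (some i) = 0 := by
        intro i
        by_contra hai
        have hi : i = 0 ∨ i = Fin.last e := by
          have := i.isLt
          rcases Nat.eq_zero_or_pos i.val with h | h
          · left; exact Fin.ext h
          · right; apply Fin.ext; simp; omega
        rcases hi with hi | hi
        · subst hi
          exact h1 ⟨a, ha, Nat.pos_of_ne_zero hai, Nat.pos_of_ne_zero hai⟩
        · subst hi
          exact h2 ⟨a, ha, Nat.pos_of_ne_zero hai, Nat.pos_of_ne_zero hai⟩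
      have h4 : (TC.val (gam g) a).1 = 0 := by
        rw [val_fst]
        have : wt g (fun i => a (some i)) = 0 := by
          unfold wt
          apply Finset.sum_eq_zero
          intro i _
          simp only
          rw [hz i, zero_mul]
        rw [this]; rfl
      have h5 : (TC.val (gam g) a).2 ≤ 0 := by
        rw [val_snd]
        have : Residues.len (fun i => a (some i)) = 0 := by
          unfold Residues.len
          apply Finset.sum_eq_zero
          intro i _
          exact hz i
        rw [this]
        omega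
      rw [ha] at h4 h5
      rw [vv_apply, h4, sub_zero] at h3
      have : (g (Fin.last e) : ℤ) * n.2 ≤ 0 :=
        mul_nonpos_of_nonneg_of_nonpos (by positivity) h5
      omega
  have hB2 : Cp.card ≤ 1 := by
    have := Finset.card_le_card hB1
    simpa using this
  simp only [Finset.card_empty] at hR
  omega

lemma exists_S (k : Type) [Field k]
    (R : Finset ((Option (Fin (e + 1)) → ℕ) × (Option (Fin (e + 1)) → ℕ)))
    (hR : ∀ a b : Option (Fin (e + 1)) → ℕ,
      (addConGen (fun x y => (x, y) ∈ R)) a b ↔ TC.val (gam g) a = TC.val (gam g) b) :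
    ∃ s : Finset (MvPolynomial (Fin (e + 1)) k), s.card ≤ R.card ∧
      Ideal.span (s : Set (MvPolynomial (Fin (e + 1)) k)) = Ideal.span (inGen k g) := by
  classical
  refine ⟨R.image (fun p => m0 k p.1 - m0 k p.2), Finset.card_image_le, ?_⟩
  rw [← span_pres k R hR, Finset.coe_image]

/-- The comparison in the narrow case. -/
theorem narrow (k : Type) [Field k] (hg : StrictMono g) (h0 : 0 < g 0)
    (m : ℕ) (hm : m = min (g (Fin.last e)) (2 * g 0 - 1) + 1 - g 0)
    (hw : g (Fin.last e) < 2 * g 0 - 1 ∨ g (Fin.last e) = g 0 + e)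
    (hle : g (Fin.last e) ≤ 2 * g 0 - 1)
    (t : Finset (MvPolynomial (Fin m) k))
    (ht : Ideal.span (t : Set (MvPolynomial (Fin m) k)) =
      Ideal.span (inGen k (fun j : Fin m => g 0 + (j : ℕ)))) :
    ∃ s : Finset (MvPolynomial (Fin (e + 1)) k), s.card ≤ t.card ∧
      Ideal.span (s : Set (MvPolynomial (Fin (e + 1)) k)) = Ideal.span (inGen k g) := by
  classical
  have hlow : ∀ n (hn : n < e + 1), g 0 + n ≤ g ⟨n, hn⟩ := by
    intro n
    induction n with
    | zero => intro hn; exact le_refl _
    | succ n ih =>
      intro hn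
      have h1 := ih (by omega)
      have h2 : g ⟨n, by omega⟩ < g ⟨n + 1, hn⟩ := hg (by rw [Fin.lt_def]; simp)
      omega
  have hupp : ∀ n (hn : n < e + 1), g ⟨n, hn⟩ + (e - n) ≤ g (Fin.last e) := by
    intro n hn
    obtain ⟨d, hd⟩ : ∃ d, d = e - n := ⟨_, rfl⟩
    induction d generalizing n with
    | zero =>
      have : (⟨n, hn⟩ : Fin (e + 1)) = Fin.last e := by apply Fin.ext; simp; omega
      rw [this]; omega
    | succ d ih =>
      have h1 := ih (n + 1) (by omega) (by omega)
      have h2 : g ⟨n, hn⟩ < g ⟨n + 1, by omega⟩ := hg (by rw [Fin.lt_def]; simp)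
      omega
  have hlast : g 0 + e ≤ g (Fin.last e) := hlow e (by omega)
  rcases hlast.lt_or_eq with hlt | heq
  · -- proper subset of the interval
    have hw' : g (Fin.last e) < 2 * g 0 - 1 := by
      rcases hw with h | h
      · exact h
      · omega
    obtain ⟨w, hwd⟩ : ∃ w, g (Fin.last e) = g 0 + w := ⟨g (Fin.last e) - g 0, by omega⟩
    have hmw : m = w + 1 := by omega
    have hI : Interval.Ivl (fun j : Fin m => g 0 + (j : ℕ)) (g 0) w
        (fun j => if h : j < m then ⟨j, h⟩ else ⟨0, by omega⟩) := by
      have h1 := ivl_fin (M := m) (g 0) (by omega)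
      have h2 : m - 1 = w := by omega
      rw [h2] at h1
      exact h1
    have h2c := Final999.two_choose w
    rcases Nat.lt_or_ge e 2 with he2 | he2
    · have he1 : e = 1 := by
        rcases Nat.eq_zero_or_pos e with he0 | he0
        · exfalso
          have h3 : Fin.last e = 0 := Fin.ext (by simp [he0])
          rw [h3] at hlt
          omega
        · omega
      obtain ⟨R, hR, hpres⟩ := e_one he1 hg h0
      obtain ⟨s, hs1, hs2⟩ := exists_S k R hpres
      refine ⟨s, ?_, hs2⟩
      have := cge_one k hI (by omega) (by omega) t ht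
      omega
    · obtain ⟨R, hR1, hR2, hpres⟩ := ub he2 hg h0 (by omega)
      obtain ⟨s, hs1, hs2⟩ := exists_S k R hpres
      refine ⟨s, ?_, hs2⟩
      have hww : g (Fin.last e) - g 0 = w := by omega
      rw [hww] at hR1 hR2
      by_cases hd : w ∣ g 0
      · have := cge_one k hI (by omega) (by omega) t ht
        have h3 := hR2 hd
        omega
      · have := cge_two k hI (by omega) (by omega) hd t ht
        omega
  · -- the interval itself
    have hme : m = e + 1 := by omega
    subst hme
    refine ⟨t, le_rfl, ?_⟩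
    rw [ht]
    have hgf : g = (fun j : Fin (e + 1) => g 0 + (j : ℕ)) := by
      funext j
      have h1 := hlow j.1 j.2
      have h2 := hupp j.1 j.2
      have h3 : g ⟨j.1, j.2⟩ = g j := rfl
      rw [h3] at h1 h2
      have := j.2
      omega
    rw [← hgf]

end Pool.Agent.Helper816.HSNarrow
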