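import Mathlib
import Pool.Agent.Helper816.HSNarrow

set_option autoImplicit false

open Finset MvPolynomial

/-! Assembly: the comparison with the interval completion from the bound `choose (g 0) 2`. -/

namespace Pool.Agent.Helper816.HSFinal

open Pool.Agent.Helper816.TCAlg Pool.Agent.Helper816.HSWide Pool.Agent.Helper816.HSNarrow

/-- The conclusion of the frozen statement from the bound `choose (g 0) 2` (needed for `1 ≤ e`). -/
theorem concl (k : Type) [Field k] (e : ℕ) (g : Fin (e + 1) → ℕ) (hg : StrictMono g)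
    (h0 : 0 < g 0)
    (hB : 1 ≤ e → ∃ S : Finset (MvPolynomial (Fin (e + 1)) k),
      Ideal.span (S : Set (MvPolynomial (Fin (e + 1)) k)) = Ideal.span (inGen k g) ∧
      S.card ≤ (g 0).choose 2)
    (m : ℕ) (hm : m = min (g (Fin.last e)) (2 * g 0 - 1) + 1 - g 0)
    (IΓ : Ideal (MvPolynomial (Fin (e + 1)) k)) (IT : Ideal (MvPolynomial (Fin m) k))
    (hΓ : IΓ = Ideal.span {p | ∃ f ∈ RingHom.ker (MvPolynomial.aeval
              (fun i : Fin (e + 1) => (Polynomial.X : Polynomial k) ^ g i)),
              ∃ n : ℕ, p = MvPolynomial.homogeneousComponent n f ∧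
                ∀ n' < n, MvPolynomial.homogeneousComponent n' f = 0})
    (hT : IT = Ideal.span {p | ∃ f ∈ RingHom.ker (MvPolynomial.aeval
              (fun j : Fin m => (Polynomial.X : Polynomial k) ^ (g 0 + (j : ℕ)))),
              ∃ n : ℕ, p = MvPolynomial.homogeneousComponent n f ∧
                ∀ n' < n, MvPolynomial.homogeneousComponent n' f = 0})
    (t : Finset (MvPolynomial (Fin m) k))
    (ht : Ideal.span (t : Set (MvPolynomial (Fin m) k)) = IT) :
    ∃ s : Finset (MvPolynomial (Fin (e + 1)) k), s.card ≤ t.card ∧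
      Ideal.span (s : Set (MvPolynomial (Fin (e + 1)) k)) = IΓ := by
  have hΓ' : IΓ = Ideal.span (inGen k g) := by
    rw [hΓ]; exact span_form k g
  have hT' : IT = Ideal.span (inGen k (fun j : Fin m => g 0 + (j : ℕ))) := by
    rw [hT]; exact span_form k (fun j : Fin m => g 0 + (j : ℕ))
  rw [hT'] at ht
  rw [hΓ']
  by_cases h1 : g (Fin.last e) < 2 * g 0 - 1
  · exact narrow k hg h0 m hm (Or.inl h1) h1.le t ht
  · by_cases h2 : g (Fin.last e) = g 0 + e ∧ g (Fin.last e) ≤ 2 * g 0 - 1
    · exact narrow k hg h0 m hm (Or.inr h2.1) h2.2 t ht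
    · have he : 1 ≤ e := by
        by_contra hcon
        have he0 : e = 0 := by omega
        subst he0
        apply h2
        have h3 : Fin.last 0 = 0 := rfl
        rw [h3]
        omega
      exact wide_concl k g h0 m hm (by omega) (hB he) t ht

end Pool.Agent.Helper816.HSFinal
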