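import Mathlib
import Pool.Agent.Helper816.Koszul

set_option autoImplicit false

open Finset

/-! Koszul homology of a module, and its length under the mapping cone decomposition. -/

namespace Pool.Agent.Helper816.KM

open Pool.Agent.Helper816.Koszul

variable {A : Type*} [CommRing A] {M : Type*} [AddCommGroup M] [Module A M]

/-- The total Koszul differential on functions on all subsets, with values in a module. -/
def kDM {r : ℕ} (f : Fin r → A) : (Finset (Fin r) → M) →ₗ[A] (Finset (Fin r) → M) where
  toFun u G := ∑ j : Fin r, if j ∉ G then (ksign A j G * f j) • u (insert j G) else 0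
  map_add' u v := by
    funext G
    simp only [Pi.add_apply, ← Finset.sum_add_distrib]
    apply Finset.sum_congr rfl
    intro j _
    split_ifs
    · rw [add_zero]
    · rw [smul_add]
  map_smul' a u := by
    funext G
    simp only [Pi.smul_apply, RingHom.id_apply, Finset.smul_sum]
    apply Finset.sum_congr rfl
    intro j _
    split_ifs
    · rw [smul_zero]
    · rw [smul_comm]

lemma kDM_apply {r : ℕ} (f : Fin r → A) (u : Finset (Fin r) → M) (G : Finset (Fin r)) :
    kDM f u G = ∑ j : Fin r, if j ∉ G then (ksign A j G * f j) • u (insert j G) else 0 := rfl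

lemma kDM_map {N : Type*} [AddCommGroup N] [Module A N] (φ : M →ₗ[A] N) {r : ℕ} (f : Fin r → A)
    (u : Finset (Fin r) → M) (G : Finset (Fin r)) :
    kDM f (fun F => φ (u F)) G = φ (kDM f u G) := by
  rw [kDM_apply, kDM_apply, map_sum]
  apply Finset.sum_congr rfl
  intro j _
  split_ifs
  · rw [map_zero]
  · rw [map_smul]

lemma kDM_up {r : ℕ} (f : Fin (r + 1) → A) (u : Finset (Fin (r + 1)) → M) (G : Finset (Fin r)) :
    kDM f u (up G) = f 0 • u (insert 0 (up G)) +
      kDM (fun j => f j.succ) (fun F => u (up F)) G := by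
  rw [kDM_apply, kDM_apply, Fin.sum_univ_succ]
  congr 1
  · rw [if_pos (zero_notMem_up G), ksign_zero, one_mul]
  · apply Finset.sum_congr rfl
    intro j _
    rw [ksign_up, up_insert]
    simp only [succ_mem_up]

lemma kDM_insert_up {r : ℕ} (f : Fin (r + 1) → A) (u : Finset (Fin (r + 1)) → M)
    (G : Finset (Fin r)) :
    kDM f u (insert 0 (up G)) =
      - kDM (fun j => f j.succ) (fun F => u (insert 0 (up F))) G := by
  rw [kDM_apply, kDM_apply, Fin.sum_univ_succ, if_neg (by simp), zero_add,
    ← Finset.sum_neg_distrib]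
  apply Finset.sum_congr rfl
  intro j _
  rw [ksign_insert_up, Finset.insert_comm, up_insert]
  have : (j.succ ∉ insert 0 (up G)) ↔ j ∉ G := by
    rw [Finset.mem_insert, succ_mem_up]; simp
  by_cases hj : j ∈ G
  · rw [if_neg (by rw [this]; simpa using hj), if_neg (by simpa using hj), neg_zero]
  · rw [if_pos (by rw [this]; exact hj), if_pos hj, neg_mul, neg_smul]

lemma kDM_kDM {r : ℕ} (f : Fin r → A) (u : Finset (Fin r) → M) : kDM f (kDM f u) = 0 := by
  funext G
  rw [Pi.zero_apply]
  induction r with
  | zero => rw [kDM_apply]; simp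
  | succ r ih =>
    by_cases h : (0 : Fin (r + 1)) ∈ G
    · rw [← insert_up_dn G h, kDM_insert_up]
      have : (fun F => kDM f u (insert 0 (up F))) =
          - kDM (fun j => f j.succ) (fun F => u (insert 0 (up F))) := by
        funext F; rw [kDM_insert_up]; rfl
      rw [this, map_neg, Pi.neg_apply, neg_neg, ih]
    · rw [← up_dn G h, kDM_up]
      have : (fun F => kDM f u (up F)) = f 0 • (fun F => u (insert 0 (up F))) +
          kDM (fun j => f j.succ) (fun F => u (up F)) := by
        funext F; rw [kDM_up]; rfl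
      rw [this, map_add, Pi.add_apply, map_smul, Pi.smul_apply, kDM_insert_up, ih, add_zero,
        smul_neg, neg_add_cancel]

variable (A M) in
/-- functions supported on subsets of size `i` -/
def dg (r i : ℕ) : Submodule A (Finset (Fin r) → M) where
  carrier := {u | ∀ F : Finset (Fin r), F.card ≠ i → u F = 0}
  zero_mem' := fun _ _ => rfl
  add_mem' := by
    intro u v hu hv F hF
    rw [Pi.add_apply, hu F hF, hv F hF, add_zero]
  smul_mem' := by
    intro a u hu F hF
    rw [Pi.smul_apply, hu F hF, smul_zero]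

lemma mem_dg {r i : ℕ} {u : Finset (Fin r) → M} :
    u ∈ dg A M r i ↔ ∀ F : Finset (Fin r), F.card ≠ i → u F = 0 := Iff.rfl

lemma kDM_dg {r : ℕ} (f : Fin r → A) {i : ℕ} {u : Finset (Fin r) → M}
    (hu : u ∈ dg A M r (i + 1)) : kDM f u ∈ dg A M r i := by
  intro F hF
  rw [kDM_apply]
  apply Finset.sum_eq_zero
  intro j _
  split_ifs with h
  · rfl
  · rw [hu _ (by rw [Finset.card_insert_of_notMem h]; omega), smul_zero]

variable (M) in
/-- cycles -/
def ZZ {r : ℕ} (f : Fin r → A) (i : ℕ) : Submodule A (Finset (Fin r) → M) :=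
  dg A M r i ⊓ LinearMap.ker (kDM f)

variable (M) in
/-- boundaries -/
def BB {r : ℕ} (f : Fin r → A) (i : ℕ) : Submodule A (Finset (Fin r) → M) :=
  (dg A M r (i + 1)).map (kDM f)

lemma BB_le {r : ℕ} (f : Fin r → A) (i : ℕ) : BB M f i ≤ ZZ M f i := by
  rintro _ ⟨u, hu, rfl⟩
  exact ⟨kDM_dg f hu, LinearMap.mem_ker.2 (kDM_kDM f u)⟩

variable (M) in
/-- Koszul homology -/
abbrev HH {r : ℕ} (f : Fin r → A) (i : ℕ) : Type _ :=
  ↥(ZZ M f i) ⧸ (BB M f i).submoduleOf (ZZ M f i)

variable (M) in
/-- length of Koszul homology -/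
noncomputable def hl {r : ℕ} (f : Fin r → A) (i : ℕ) : ℕ∞ := Module.length A (HH M f i)

/-- A map between homologies -/
lemma length_le_three {X H W : Type*} [AddCommGroup X] [Module A X] [AddCommGroup H] [Module A H]
    [AddCommGroup W] [Module A W] (α : X →ₗ[A] H) (β : H →ₗ[A] W)
    (h : LinearMap.ker β ≤ LinearMap.range α) :
    Module.length A H ≤ Module.length A X + Module.length A W := by
  rw [Module.length_eq_add_of_exact (LinearMap.ker β).subtype β.rangeRestrict
    (Submodule.subtype_injective _) β.surjective_rangeRestrict (by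
      intro x
      rw [← LinearMap.mem_ker, LinearMap.ker_rangeRestrict]
      simp)]
  apply add_le_add
  · refine (Module.length_le_of_injective (Submodule.inclusion h)
      (Submodule.inclusion_injective h)).trans ?_
    exact Module.length_le_of_surjective α.rangeRestrict α.surjective_rangeRestrict
  · exact Module.length_le_of_injective (LinearMap.range β).subtype (Submodule.subtype_injective _)

/-- general homology comparison -/
lemma length_hom_le {P Q : Type*} [AddCommGroup P] [Module A P] [AddCommGroup Q] [Module A Q]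
    (Z1 B1 : Submodule A P) (Z2 B2 : Submodule A Q) (φ : P →ₗ[A] Q)
    (h1 : ∀ u ∈ Z1, φ u ∈ Z2) (h2 : ∀ u ∈ Z1, φ u ∈ B2 → u ∈ B1) :
    Module.length A (↥Z1 ⧸ B1.submoduleOf Z1) ≤ Module.length A (↥Z2 ⧸ B2.submoduleOf Z2) := by
  let ψ : ↥Z1 →ₗ[A] (↥Z2 ⧸ B2.submoduleOf Z2) :=
    (B2.submoduleOf Z2).mkQ.comp (φ.restrict (p := Z1) (q := Z2) h1)
  have hker : LinearMap.ker ψ ≤ B1.submoduleOf Z1 := by
    intro u hu
    rw [LinearMap.mem_ker, LinearMap.comp_apply, Submodule.mkQ_apply,
      Submodule.Quotient.mk_eq_zero] at hu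
    exact h2 u.1 u.2 hu
  have h3 : Module.length A (↥Z1 ⧸ B1.submoduleOf Z1) ≤
      Module.length A (↥Z1 ⧸ LinearMap.ker ψ) := by
    apply Module.length_le_of_surjective (Submodule.factor hker)
    exact Submodule.factor_surjective hker
  refine h3.trans ?_
  rw [(LinearMap.quotKerEquivRange ψ).length_eq]
  exact Module.length_le_of_injective (LinearMap.range ψ).subtype (Submodule.subtype_injective _)

end Pool.Agent.Helper816.KM
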