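import Mathlib
import Pool.Agent.Helper816.KM

set_option autoImplicit false

open Finset

namespace Pool.Agent.Helper816.KM

open Pool.Agent.Helper816.Koszul

variable {A : Type*} [CommRing A] (M : Type*) [AddCommGroup M] [Module A M]

/-- cokernel of multiplication by `x` -/
abbrev CK (x : A) : Type _ := M ⧸ (LinearMap.range (LinearMap.lsmul A M x))

/-- kernel of multiplication by `x` -/
abbrev KK (x : A) : Type _ := ↥(LinearMap.ker (LinearMap.lsmul A M x))

variable {M}

lemma card_up_insert {r : ℕ} (G : Finset (Fin r)) : (insert 0 (up G)).card = G.card + 1 := by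
  rw [Finset.card_insert_of_notMem (zero_notMem_up G), card_up]

lemma card_dn_of_mem {r : ℕ} {H : Finset (Fin (r + 1))} (h : (0 : Fin (r + 1)) ∈ H) :
    H.card = (dn H).card + 1 := by
  conv_lhs => rw [← insert_up_dn H h]
  exact card_up_insert _

lemma card_dn_of_notMem {r : ℕ} {H : Finset (Fin (r + 1))} (h : (0 : Fin (r + 1)) ∉ H) :
    H.card = (dn H).card := by
  conv_lhs => rw [← up_dn H h]
  exact card_up _

/-- inclusion of the kernel part -/
def phi1 {r : ℕ} (x : A) : (Finset (Fin r) → KK M x) →ₗ[A] (Finset (Fin (r + 1)) → M) where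
  toFun t H := if 0 ∈ H then (t (dn H)).1 else 0
  map_add' s t := by
    funext H
    show (if 0 ∈ H then ((s + t) (dn H)).1 else 0) =
      (if 0 ∈ H then (s (dn H)).1 else 0) + (if 0 ∈ H then (t (dn H)).1 else 0)
    split_ifs
    · rw [Pi.add_apply, Submodule.coe_add]
    · rw [add_zero]
  map_smul' a t := by
    funext H
    show (if 0 ∈ H then ((a • t) (dn H)).1 else 0) = a • (if 0 ∈ H then (t (dn H)).1 else 0)
    split_ifs
    · rw [Pi.smul_apply, Submodule.coe_smul]
    · rw [smul_zero]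

/-- projection to the cokernel part -/
def phi0 {r : ℕ} (x : A) : (Finset (Fin (r + 1)) → M) →ₗ[A] (Finset (Fin r) → CK M x) where
  toFun u F := (LinearMap.range (LinearMap.lsmul A M x)).mkQ (u (up F))
  map_add' s t := by
    funext H
    rw [Pi.add_apply, Pi.add_apply, map_add]
  map_smul' a t := by
    funext H
    rw [Pi.smul_apply, map_smul]
    rfl

lemma phi0_apply {r : ℕ} (x : A) (u : Finset (Fin (r + 1)) → M) (F : Finset (Fin r)) :
    phi0 x u F = (LinearMap.range (LinearMap.lsmul A M x)).mkQ (u (up F)) := rfl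

lemma phi1_up {r : ℕ} (x : A) (t : Finset (Fin r) → KK M x) (F : Finset (Fin r)) :
    phi1 x t (up F) = 0 := by
  show (if 0 ∈ up F then (t (dn (up F))).1 else 0) = 0
  rw [if_neg (zero_notMem_up F)]

lemma phi1_insert {r : ℕ} (x : A) (t : Finset (Fin r) → KK M x) (F : Finset (Fin r)) :
    phi1 x t (insert 0 (up F)) = (t F).1 := by
  show (if 0 ∈ insert 0 (up F) then (t (dn (insert 0 (up F)))).1 else 0) = _
  rw [if_pos (Finset.mem_insert_self _ _), dn_insert_up]

lemma ext_up {r : ℕ} {N : Type*} (u v : Finset (Fin (r + 1)) → N) (h0 : ∀ F, u (up F) = v (up F))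
    (h1 : ∀ F, u (insert 0 (up F)) = v (insert 0 (up F))) : u = v := by
  funext H
  by_cases h : (0 : Fin (r + 1)) ∈ H
  · rw [← insert_up_dn H h]; exact h1 _
  · rw [← up_dn H h]; exact h0 _

/-- The differential of the kernel part. -/
lemma kDM_phi1 {r : ℕ} (f : Fin (r + 1) → A) (t : Finset (Fin r) → KK M (f 0)) :
    kDM f (phi1 (f 0) t) = phi1 (f 0) (- kDM (fun j => f j.succ) t) := by
  apply ext_up
  · intro F
    rw [kDM_up, phi1_up, phi1_insert]
    have h1 : (fun F => phi1 (f 0) t (up F)) = 0 := by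
      funext F
      exact phi1_up _ _ _
    rw [h1, map_zero, Pi.zero_apply, add_zero]
    have := (t F).2
    rw [LinearMap.mem_ker, LinearMap.lsmul_apply] at this
    exact this
  · intro F
    rw [kDM_insert_up, phi1_insert]
    have h1 : (fun F => phi1 (f 0) t (insert 0 (up F))) =
        fun F => (LinearMap.ker (LinearMap.lsmul A M (f 0))).subtype (t F) := by
      funext F
      exact phi1_insert _ _ _
    rw [h1, kDM_map]
    rfl

lemma kDM_phi0 {r : ℕ} (f : Fin (r + 1) → A) (u : Finset (Fin (r + 1)) → M) :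
    phi0 (f 0) (kDM f u) = kDM (fun j => f j.succ) (phi0 (f 0) u) := by
  funext F
  rw [phi0_apply, kDM_up, map_add]
  have h1 : (LinearMap.range (LinearMap.lsmul A M (f 0))).mkQ (f 0 • u (insert 0 (up F))) = 0 := by
    rw [Submodule.mkQ_apply, Submodule.Quotient.mk_eq_zero]
    exact ⟨u (insert 0 (up F)), rfl⟩
  rw [h1, zero_add, ← kDM_map]
  rfl

/-- The cone inequality. -/
theorem hl_cone {r : ℕ} (f : Fin (r + 1) → A) (i : ℕ) :
    hl M f (i + 1) ≤ hl (KK M (f 0)) (fun j => f j.succ) i +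
      hl (CK M (f 0)) (fun j => f j.succ) (i + 1) := by
  classical
  have hφ1 : ∀ i, ∀ t ∈ dg A (KK M (f 0)) r i, phi1 (f 0) t ∈ dg A M (r + 1) (i + 1) := by
    intro i t ht H hH
    show (if 0 ∈ H then (t (dn H)).1 else 0) = 0
    split_ifs with h
    · rw [ht (dn H) (by rw [card_dn_of_mem h] at hH; omega)]; rfl
    · rfl
  have hφ0 : ∀ i, ∀ u ∈ dg A M (r + 1) i, phi0 (f 0) u ∈ dg A (CK M (f 0)) r i := by
    intro i u hu F hF
    rw [phi0_apply, hu _ (by rw [card_up]; exact hF), map_zero]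
  have h1 : ∀ t ∈ ZZ (KK M (f 0)) (fun j => f j.succ) i, phi1 (f 0) t ∈ ZZ M f (i + 1) := by
    rintro t ⟨ht1, ht2⟩
    refine ⟨hφ1 i t ht1, ?_⟩
    apply LinearMap.mem_ker.2
    rw [kDM_phi1, LinearMap.mem_ker.1 ht2, neg_zero, map_zero]
  have h2 : ∀ u ∈ ZZ M f (i + 1), phi0 (f 0) u ∈ ZZ (CK M (f 0)) (fun j => f j.succ) (i + 1) := by
    rintro u ⟨hu1, hu2⟩
    refine ⟨hφ0 _ u hu1, ?_⟩
    apply LinearMap.mem_ker.2
    rw [← kDM_phi0, LinearMap.mem_ker.1 hu2, map_zero]
  have h3 : (BB (KK M (f 0)) (fun j => f j.succ) i).submoduleOf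
      (ZZ (KK M (f 0)) (fun j => f j.succ) i) ≤
      ((BB M f (i + 1)).submoduleOf (ZZ M f (i + 1))).comap ((phi1 (f 0)).restrict h1) := by
    rintro ⟨t, ht⟩ ⟨v, hv, hvt⟩
    refine ⟨phi1 (f 0) (- v), hφ1 _ _ (neg_mem hv), ?_⟩
    rw [kDM_phi1, map_neg, map_neg, map_neg, neg_neg, hvt]
    rfl
  have h4 : (BB M f (i + 1)).submoduleOf (ZZ M f (i + 1)) ≤
      ((BB (CK M (f 0)) (fun j => f j.succ) (i + 1)).submoduleOf
        (ZZ (CK M (f 0)) (fun j => f j.succ) (i + 1))).comap ((phi0 (f 0)).restrict h2) := by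
    rintro ⟨u, hu⟩ ⟨v, hv, hvu⟩
    refine ⟨phi0 (f 0) v, hφ0 _ _ hv, ?_⟩
    rw [← kDM_phi0, hvu]
    rfl
  let α : HH (KK M (f 0)) (fun j => f j.succ) i →ₗ[A] HH M f (i + 1) :=
    Submodule.mapQ _ _ ((phi1 (f 0)).restrict h1) h3
  let β : HH M f (i + 1) →ₗ[A] HH (CK M (f 0)) (fun j => f j.succ) (i + 1) :=
    Submodule.mapQ _ _ ((phi0 (f 0)).restrict h2) h4
  apply length_le_three α β
  intro y hy
  obtain ⟨⟨u, hu⟩, rfl⟩ := Submodule.Quotient.mk_surjective _ y
  rw [LinearMap.mem_ker] at hy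
  change Submodule.Quotient.mk (((phi0 (f 0)).restrict h2) ⟨u, hu⟩) = 0 at hy
  rw [Submodule.Quotient.mk_eq_zero] at hy
  obtain ⟨v', hv', hvu⟩ := hy
  change kDM (fun j => f j.succ) v' = phi0 (f 0) u at hvu
  -- lift v'
  have hlift : ∀ F : Finset (Fin r), ∃ m : M,
      (LinearMap.range (LinearMap.lsmul A M (f 0))).mkQ m = v' F ∧ (F.card ≠ i + 1 + 1 → m = 0) := by
    intro F
    by_cases hF : F.card = i + 1 + 1
    · obtain ⟨m, hm⟩ := Submodule.mkQ_surjective _ (v' F)
      exact ⟨m, hm, fun h => absurd hF h⟩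
    · exact ⟨0, by rw [hv' F hF, map_zero], fun _ => rfl⟩
  choose v0 hv0 hv0z using hlift
  have hdiff : ∀ F : Finset (Fin r), ∃ q : M,
      u (up F) = f 0 • q + kDM (fun j => f j.succ) v0 F ∧ (F.card ≠ i + 1 → q = 0) := by
    intro F
    by_cases hF : F.card = i + 1
    · have e1 : (LinearMap.range (LinearMap.lsmul A M (f 0))).mkQ
          (u (up F) - kDM (fun j => f j.succ) v0 F) = 0 := by
        rw [map_sub, ← kDM_map]
        have e2 : (fun F => (LinearMap.range (LinearMap.lsmul A M (f 0))).mkQ (v0 F)) = v' := by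
          funext F; exact hv0 F
        rw [e2, hvu, phi0_apply, sub_self]
      rw [Submodule.mkQ_apply, Submodule.Quotient.mk_eq_zero] at e1
      obtain ⟨q, hq⟩ := e1
      rw [LinearMap.lsmul_apply] at hq
      exact ⟨q, by rw [hq, sub_add_cancel], fun h => absurd hF h⟩
    · refine ⟨0, ?_, fun _ => rfl⟩
      rw [hu.1 (up F) (by rw [card_up]; exact hF), smul_zero, zero_add]
      have e3 : v0 ∈ dg A M r (i + 1 + 1) := fun F hF => hv0z F hF
      rw [kDM_dg (fun j => f j.succ) e3 F hF]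
  choose q hq hqz using hdiff
  let v : Finset (Fin (r + 1)) → M := fun H => if 0 ∈ H then q (dn H) else v0 (dn H)
  have hv_up : ∀ F, v (up F) = v0 F := by
    intro F
    show (if 0 ∈ up F then q (dn (up F)) else v0 (dn (up F))) = _
    rw [if_neg (zero_notMem_up F), dn_up]
  have hv_in : ∀ F, v (insert 0 (up F)) = q F := by
    intro F
    show (if 0 ∈ insert 0 (up F) then q (dn (insert 0 (up F))) else v0 (dn (insert 0 (up F)))) = _
    rw [if_pos (Finset.mem_insert_self _ _), dn_insert_up]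
  have hv : v ∈ dg A M (r + 1) (i + 1 + 1) := by
    intro H hH
    show (if 0 ∈ H then q (dn H) else v0 (dn H)) = 0
    split_ifs with h
    · exact hqz _ (by rw [card_dn_of_mem h] at hH; omega)
    · exact hv0z _ (by rw [card_dn_of_notMem h] at hH; omega)
  -- the remainder
  have hu'Z : u - kDM f v ∈ ZZ M f (i + 1) := sub_mem hu (BB_le f (i + 1) ⟨v, hv, rfl⟩)
  have hup : ∀ F, (u - kDM f v) (up F) = 0 := by
    intro F
    rw [Pi.sub_apply, kDM_up, hv_in]
    have e4 : (fun F => v (up F)) = v0 := by funext F; exact hv_up F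
    rw [e4, hq F, sub_self]
  have htk : ∀ F, (u - kDM f v) (insert 0 (up F)) ∈ LinearMap.ker (LinearMap.lsmul A M (f 0)) := by
    intro F
    rw [LinearMap.mem_ker, LinearMap.lsmul_apply]
    have e5 := congrFun (LinearMap.mem_ker.1 hu'Z.2) (up F)
    rw [kDM_up] at e5
    have e6 : (fun F => (u - kDM f v) (up F)) = 0 := by funext F; exact hup F
    rw [e6, map_zero, Pi.zero_apply, add_zero] at e5
    exact e5
  let t : Finset (Fin r) → KK M (f 0) := fun F => ⟨(u - kDM f v) (insert 0 (up F)), htk F⟩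
  have htphi : phi1 (f 0) t = u - kDM f v := by
    apply ext_up
    · intro F; rw [phi1_up, hup]
    · intro F; rw [phi1_insert]
  have htZ : t ∈ ZZ (KK M (f 0)) (fun j => f j.succ) i := by
    refine ⟨?_, ?_⟩
    · intro F hF
      apply Subtype.ext
      show (u - kDM f v) (insert 0 (up F)) = 0
      exact hu'Z.1 _ (by rw [card_up_insert]; omega)
    · apply LinearMap.mem_ker.2
      have e7 : phi1 (f 0) (kDM (fun j => f j.succ) t) = 0 := by
        have e8 := kDM_phi1 f t
        rw [htphi, LinearMap.mem_ker.1 hu'Z.2, map_neg] at e8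
        exact neg_eq_zero.1 e8.symm
      funext F
      apply Subtype.ext
      have e9 := congrFun e7 (insert 0 (up F))
      rw [phi1_insert] at e9
      exact e9
  refine ⟨Submodule.Quotient.mk ⟨t, htZ⟩, ?_⟩
  change Submodule.Quotient.mk (((phi1 (f 0)).restrict h1) ⟨t, htZ⟩) = _
  rw [Submodule.Quotient.eq]
  refine ⟨- v, neg_mem hv, ?_⟩
  change kDM f (-v) = phi1 (f 0) t - u
  rw [htphi, map_neg]
  abel

end Pool.Agent.Helper816.KM
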