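import Mathlib
import Pool.Agent.Helper816.TCFin

set_option autoImplicit false
set_option linter.unusedSectionVars false

open Finset MvPolynomial

/-! The tangent cone ring: a spanning set indexed by positions. -/

namespace Pool.Agent.Helper816.KG

open Pool.Agent.Helper816.TCAlg Pool.Agent.Helper816.TCFin
open Pool.Agent.Helper816.TCC (gam vv al val_fst val_snd vv_apply)
open Pool.Agent.Helper816.TC (Mem Adj vx_iff val_add val_single)
open Pool.Agent.Helper816.Count (wt)
open Pool.Agent.Helper816.Residues (len)
open Pool.Agent.Helper816.Toric (weight_fun)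

variable (K : Type) [Field K] {e : ℕ} (g : Fin (e + 1) → ℕ)

/-- the ideal -/
noncomputable def II : Ideal (MvPolynomial (Fin (e + 1)) K) := Ideal.span (inGen K g)

/-- position of a monomial -/
noncomputable def pos (u : Fin (e + 1) →₀ ℕ) : ℤ × ℤ :=
  (((Finsupp.weight g u : ℕ) : ℤ), (u.degree : ℤ))

variable {g}

lemma pos_word (u : Fin (e + 1) →₀ ℕ) :
    TC.val (gam g) (fun o => o.elim 0 u) = pos g u := by
  rw [val_word]
  simp [pos]

lemma pos_mem (u : Fin (e + 1) →₀ ℕ) : Mem (gam g) (pos g u) := ⟨_, pos_word u⟩

lemma pos_add (u v : Fin (e + 1) →₀ ℕ) : pos g (u + v) = pos g u + pos g v := by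
  unfold pos
  rw [map_add, map_add]
  push_cast
  rfl

lemma pos_single (i : Fin (e + 1)) : pos g (Finsupp.single i 1) = gam g (some i) := by
  unfold pos gam
  rw [Finsupp.weight_single, Finsupp.degree_single]
  simp

/-- read off a word -/
noncomputable def wrd (a : Option (Fin (e + 1)) → ℕ) : Fin (e + 1) →₀ ℕ :=
  Finsupp.equivFunOnFinite.symm (fun i => a (some i))

lemma wrd_apply (a : Option (Fin (e + 1)) → ℕ) (i : Fin (e + 1)) : wrd a i = a (some i) := rfl

lemma pos_wrd (a : Option (Fin (e + 1)) → ℕ) :
    pos g (wrd a) = TC.val (gam g) a - (a none) • gam g none := by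
  apply Prod.ext
  · rw [Prod.fst_sub, val_fst]
    simp only [pos, wrd, gam]
    rw [weight_fun]
    simp [wt]
  · rw [Prod.snd_sub, val_snd]
    simp only [pos, wrd, gam]
    rw [degree_fun]
    simp [len]

lemma R1 {u v : Fin (e + 1) →₀ ℕ} (h : pos g u = pos g v) :
    (monomial u (1 : K) - monomial v 1 : MvPolynomial (Fin (e + 1)) K) ∈ II K g := by
  apply Ideal.subset_span
  left
  have h1 := congrArg Prod.fst h
  have h2 := congrArg Prod.snd h
  simp only [pos] at h1 h2
  exact ⟨u, v, by exact_mod_cast h2, by exact_mod_cast h1, rfl⟩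

lemma R2 {u : Fin (e + 1) →₀ ℕ} (h : Mem (gam g) (pos g u - gam g none)) :
    (monomial u (1 : K) : MvPolynomial (Fin (e + 1)) K) ∈ II K g := by
  obtain ⟨a, ha⟩ := h
  apply Ideal.subset_span
  right
  have h1 := pos_wrd (g := g) a
  rw [ha] at h1
  have h2 := congrArg Prod.fst h1
  have h3 := congrArg Prod.snd h1
  simp only [pos, gam, Prod.fst_sub, Prod.snd_sub, Prod.smul_fst, Prod.smul_snd, smul_neg] at h2 h3
  simp only [smul_zero, sub_zero] at h2
  simp only [nsmul_eq_mul, mul_one, sub_neg_eq_add] at h3
  refine ⟨u, wrd a, ?_, ?_, rfl⟩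
  · omega
  · exact_mod_cast h2.symm

lemma R3 {u : Fin (e + 1) →₀ ℕ} {i : Fin (e + 1)}
    (h : Adj (gam g) (pos g u) (some i) (some i)) :
    ∃ p : MvPolynomial (Fin (e + 1)) K, monomial u 1 - X i * p ∈ II K g := by
  obtain ⟨a, ha, hai, _⟩ := h
  by_cases hn : a none = 0
  · refine ⟨monomial (wrd a - Finsupp.single i 1) 1, ?_⟩
    have h1 : (X i * monomial (wrd a - Finsupp.single i 1) 1 : MvPolynomial (Fin (e + 1)) K) =
        monomial (wrd a) 1 := by
      have h0 : Finsupp.single i 1 + (wrd a - Finsupp.single i 1) = wrd a := by
        ext j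
        by_cases hj : j = i
        · subst hj
          rw [Finsupp.add_apply, Finsupp.tsub_apply, Finsupp.single_eq_same, wrd_apply]
          omega
        · rw [Finsupp.add_apply, Finsupp.tsub_apply, Finsupp.single_eq_of_ne hj]
          omega
      rw [X, monomial_mul, one_mul, h0]
    rw [h1]
    apply R1
    rw [pos_wrd, ha, hn]
    simp
  · refine ⟨0, ?_⟩
    rw [mul_zero, sub_zero]
    apply R2
    have h1 : Adj (gam g) (pos g u) none none :=
      ⟨a, ha, Nat.pos_of_ne_zero hn, Nat.pos_of_ne_zero hn⟩
    exact vx_iff.1 h1

open Classical in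
/-- coordinates with respect to positions -/
noncomputable def Psi : MvPolynomial (Fin (e + 1)) K →ₗ[K] (ℤ × ℤ →₀ K) :=
  (basisMonomials (Fin (e + 1)) K).constr K (fun u =>
    if Mem (gam g) (pos g u - gam g none) then 0 else Finsupp.single (pos g u) 1)

open Classical in
lemma Psi_mono (u : Fin (e + 1) →₀ ℕ) : Psi K (g := g) (monomial u 1) =
    if Mem (gam g) (pos g u - gam g none) then 0 else Finsupp.single (pos g u) 1 := by
  have := (basisMonomials (Fin (e + 1)) K).constr_basis K (fun u =>
    if Mem (gam g) (pos g u - gam g none) then (0 : ℤ × ℤ →₀ K)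
      else Finsupp.single (pos g u) 1) u
  simpa [Psi] using this

lemma mono_smul (u : Fin (e + 1) →₀ ℕ) (a : K) :
    (monomial u a : MvPolynomial (Fin (e + 1)) K) = a • monomial u 1 := by
  rw [smul_monomial, smul_eq_mul, mul_one]

open Classical in
lemma Psi_X (i : Fin (e + 1)) (p : MvPolynomial (Fin (e + 1)) K) (s : ℤ × ℤ) :
    Psi K (g := g) (X i * p) (s + gam g (some i)) =
      if Mem (gam g) (s + gam g (some i) - gam g none) then 0 else Psi K (g := g) p s := by
  induction p using MvPolynomial.induction_on' with
  | monomial u a =>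
    rw [mono_smul, mul_smul_comm, map_smul, map_smul]
    have h1 : (X i * monomial u (1 : K) : MvPolynomial (Fin (e + 1)) K) =
        monomial (u + Finsupp.single i 1) 1 := by
      rw [X, monomial_mul, one_mul, add_comm (Finsupp.single i 1) u]
    rw [h1, Psi_mono, Psi_mono, pos_add, pos_single]
    simp only [Finsupp.smul_apply]
    by_cases hs : pos g u = s
    · subst hs
      by_cases hm : Mem (gam g) (pos g u + gam g (some i) - gam g none)
      · rw [if_pos hm, if_pos hm]; simp
      · rw [if_neg hm, if_neg hm]
        have hm2 : ¬ Mem (gam g) (pos g u - gam g none) := by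
          intro h
          apply hm
          have h2 := h.add (⟨Pi.single (some i) 1, by rw [val_single, one_smul]⟩ :
            Mem (gam g) (gam g (some i)))
          have h3 : pos g u + gam g (some i) - gam g none =
            pos g u - gam g none + gam g (some i) := by abel
          rw [h3]; exact h2
        rw [if_neg hm2]
        simp
    · have h2 : pos g u + gam g (some i) ≠ s + gam g (some i) := fun h => hs (add_right_cancel h)
      have h3 : (if Mem (gam g) (pos g u + gam g (some i) - gam g none) then (0 : ℤ × ℤ →₀ K)
          else Finsupp.single (pos g u + gam g (some i)) 1) (s + gam g (some i)) = 0 := by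
        split_ifs
        · rfl
        · rw [Finsupp.single_apply, if_neg h2]
      have h4 : (if Mem (gam g) (pos g u - gam g none) then (0 : ℤ × ℤ →₀ K)
          else Finsupp.single (pos g u) 1) s = 0 := by
        split_ifs
        · rfl
        · rw [Finsupp.single_apply, if_neg hs]
      rw [h3, h4]
      simp
  | add p q hp hq =>
    rw [mul_add, LinearMap.map_add, LinearMap.map_add, Finsupp.add_apply, Finsupp.add_apply, hp, hq]
    split_ifs
    · rw [add_zero]
    · rfl

lemma Psi_X_zero (i : Fin (e + 1)) {p : MvPolynomial (Fin (e + 1)) K}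
    (h : Psi K (g := g) p = 0) : Psi K (g := g) (X i * p) = 0 := by
  classical
  ext t
  have h1 := Psi_X K (g := g) i p (t - gam g (some i))
  rw [sub_add_cancel, h] at h1
  rw [h1]
  simp

lemma Psi_mul_zero (q p : MvPolynomial (Fin (e + 1)) K)
    (h : Psi K (g := g) p = 0) : Psi K (g := g) (q * p) = 0 := by
  induction q using MvPolynomial.induction_on generalizing p with
  | C a => rw [← smul_eq_C_mul, map_smul, h, smul_zero]
  | add q r hq hr => rw [add_mul, map_add, hq p h, hr p h, add_zero]
  | mul_X q i hq => rw [mul_assoc]; exact hq _ (Psi_X_zero K i h)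

lemma Psi_II {p : MvPolynomial (Fin (e + 1)) K} (hp : p ∈ II K g) : Psi K (g := g) p = 0 := by
  classical
  unfold II Ideal.span at hp
  induction hp using Submodule.span_induction with
  | mem p hp =>
    rcases hp with ⟨u, v, h1, h2, rfl⟩ | ⟨u, v, h1, h2, rfl⟩
    · have hpos : pos g u = pos g v := by
        unfold pos
        rw [h1, h2]
      rw [map_sub, Psi_mono, Psi_mono, hpos, sub_self]
    · rw [Psi_mono, if_pos]
      have h3 : pos g u - gam g none = pos g v + (v.degree - u.degree - 1) • gam g none := by
        apply Prod.ext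
        · simp [pos, gam, h2]
        · simp only [pos, gam, Prod.snd_sub, Prod.snd_add, Prod.smul_snd, smul_neg]
          simp only [nsmul_eq_mul, mul_one]
          omega
      rw [h3]
      exact (pos_mem v).add ⟨Pi.single none _, val_single _ _⟩
  | zero => exact map_zero _
  | add p q _ _ hp hq => rw [map_add, hp, hq, add_zero]
  | smul a p _ hp => rw [smul_eq_mul]; exact Psi_mul_zero K a p hp

open Classical in
/-- representative of a position -/
noncomputable def rho (g : Fin (e + 1) → ℕ) (s : ℤ × ℤ) : MvPolynomial (Fin (e + 1)) K :=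
  if h : ∃ u : Fin (e + 1) →₀ ℕ, pos g u = s then monomial h.choose 1 else 0

/-- reconstruct -/
lemma rec_eq (p : MvPolynomial (Fin (e + 1)) K) :
    p - Finsupp.linearCombination K (rho K g) (Psi K (g := g) p) ∈ II K g := by
  classical
  induction p using MvPolynomial.induction_on' with
  | monomial u a =>
    have h1 : (monomial u a : MvPolynomial (Fin (e + 1)) K) -
        Finsupp.linearCombination K (rho K g) (Psi K (g := g) (monomial u a)) =
        C a * (monomial u 1 -
          Finsupp.linearCombination K (rho K g) (Psi K (g := g) (monomial u 1))) := by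
      rw [mono_smul, map_smul, map_smul, ← smul_eq_C_mul, smul_sub]
    rw [h1]
    apply Ideal.mul_mem_left
    rw [Psi_mono]
    split_ifs with h
    · rw [map_zero, sub_zero]
      exact R2 K h
    · rw [Finsupp.linearCombination_single, one_smul]
      unfold rho
      have hex : ∃ v : Fin (e + 1) →₀ ℕ, pos g v = pos g u := ⟨u, rfl⟩
      rw [dif_pos hex]
      apply R1
      exact hex.choose_spec.symm
  | add p q hp hq =>
    have h1 : p + q - Finsupp.linearCombination K (rho K g) (Psi K (g := g) (p + q)) =
        (p - Finsupp.linearCombination K (rho K g) (Psi K (g := g) p)) +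
          (q - Finsupp.linearCombination K (rho K g) (Psi K (g := g) q)) := by
      rw [map_add, map_add]; ring
    rw [h1]
    exact (II K g).add_mem hp hq

/-- The support consists of top positions of monomials. -/
lemma Psi_supp (p : MvPolynomial (Fin (e + 1)) K) (s : ℤ × ℤ) (hs : Psi K (g := g) p s ≠ 0) :
    (∃ u : Fin (e + 1) →₀ ℕ, pos g u = s) ∧ ¬ Mem (gam g) (s - gam g none) := by
  classical
  induction p using MvPolynomial.induction_on' with
  | monomial u a =>
    rw [mono_smul, map_smul, Psi_mono, Finsupp.smul_apply] at hs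
    split_ifs at hs with h
    · exact absurd (by simp) hs
    · by_cases hu : pos g u = s
      · subst hu
        exact ⟨⟨u, rfl⟩, h⟩
      · exfalso
        apply hs
        rw [Finsupp.single_apply, if_neg hu, smul_zero]
  | add p q hp hq =>
    rw [map_add, Finsupp.add_apply] at hs
    by_cases h : Psi K (g := g) p s = 0
    · apply hq
      intro h2
      exact hs (by rw [h, h2, add_zero])
    · exact hp h

/-- low coefficients vanish on the ideal -/
lemma low (hpos : ∀ i, 0 < g i)
    (hmin : ∀ j : Fin (e + 1), ¬ ∃ c : Fin (e + 1) → ℕ, c j = 0 ∧ ∑ l, c l * g l = g j)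
    {p : MvPolynomial (Fin (e + 1)) K} (hp : p ∈ II K g) (m : Fin (e + 1) →₀ ℕ)
    (hm : m.degree ≤ 1) : coeff m p = 0 := by
  classical
  have hw : ∀ v : Fin (e + 1) →₀ ℕ, Finsupp.weight g v = ∑ l, v l * g l := by
    intro v
    have := weight_fun g (fun i => v i)
    simpa [wt] using this
  have hone : ∀ u : Fin (e + 1) →₀ ℕ, u.degree = 1 → ∃ i, u = Finsupp.single i 1 := by
    intro u hu
    rw [degree_fun] at hu
    have h1 : ∃ i, u i ≠ 0 := by
      by_contra hcon
      push Not at hcon
      rw [Finset.sum_eq_zero (fun i _ => hcon i)] at hu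
      omega
    obtain ⟨i, hi⟩ := h1
    refine ⟨i, ?_⟩
    rw [← Finset.add_sum_erase _ (fun l => u l) (Finset.mem_univ i)] at hu
    have h2 : ∑ l ∈ Finset.univ.erase i, u l = 0 := by omega
    ext j
    by_cases hj : j = i
    · subst hj
      rw [Finsupp.single_eq_same]
      omega
    · rw [Finsupp.single_eq_of_ne hj]
      exact (Finset.sum_eq_zero_iff.1 h2) j (Finset.mem_erase.2 ⟨hj, Finset.mem_univ _⟩)
  have hginj : ∀ i j, g i = g j → i = j := by
    intro i j hij
    by_contra hne
    apply hmin i
    refine ⟨Pi.single j 1, Pi.single_eq_of_ne hne _, ?_⟩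
    rw [Finset.sum_eq_single j]
    · rw [Pi.single_eq_same, one_mul, hij]
    · intro l _ hl
      rw [Pi.single_eq_of_ne hl, zero_mul]
    · intro h; exact absurd (Finset.mem_univ _) h
  -- each generator has only terms of degree at least two, or vanishes
  unfold II Ideal.span at hp
  induction hp using Submodule.span_induction generalizing m with
  | mem p hp =>
    rcases hp with ⟨u, v, h1, h2, rfl⟩ | ⟨u, v, h1, h2, rfl⟩
    · by_cases hd : 2 ≤ u.degree
      · rw [coeff_sub, coeff_monomial, coeff_monomial, if_neg, if_neg, sub_zero]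
        · rintro rfl; omega
        · rintro rfl; omega
      · have huv : u = v := by
          rcases Nat.eq_zero_or_pos u.degree with hz | hz
          · rw [Finsupp.degree_eq_zero_iff] at hz
            rw [hz, map_zero] at h1
            have := (Finsupp.degree_eq_zero_iff v).1 h1.symm
            rw [hz, this]
          · obtain ⟨i, rfl⟩ := hone u (by omega)
            obtain ⟨j, rfl⟩ := hone v (by omega)
            rw [Finsupp.weight_single, Finsupp.weight_single, one_smul, one_smul] at h2
            rw [hginj i j h2]
        rw [huv, sub_self, coeff_zero]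
    · rw [coeff_monomial, if_neg]
      rintro rfl
      rcases Nat.eq_zero_or_pos u.degree with hz | hz
      · rw [Finsupp.degree_eq_zero_iff] at hz
        rw [hz, map_zero] at h2
        rw [hw] at h2
        have h3 : v = 0 := by
          ext l
          have h4 := (Finset.sum_eq_zero_iff.1 h2.symm) l (Finset.mem_univ _)
          rcases mul_eq_zero.1 h4 with h5 | h5
          · simpa using h5
          · have := hpos l; omega
        rw [hz, h3] at h1
        exact absurd h1 (lt_irrefl _)
      · obtain ⟨i, rfl⟩ := hone u (by omega)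
        rw [Finsupp.weight_single, one_smul, hw] at h2
        apply hmin i
        refine ⟨v, ?_, h2.symm⟩
        by_contra hvi
        -- then v i = 1 and everything else vanishes
        have h5 : v i * g i + ∑ l ∈ Finset.univ.erase i, v l * g l = g i := by
          rw [Finset.add_sum_erase _ (fun l => v l * g l) (Finset.mem_univ i)]
          exact h2.symm
        have h6 : 1 * g i ≤ v i * g i := Nat.mul_le_mul_right _ (Nat.pos_of_ne_zero hvi)
        have h7 : ∑ l ∈ Finset.univ.erase i, v l * g l = 0 := by omega
        have h8 : ∀ l ∈ Finset.univ.erase i, v l = 0 := by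
          intro l hl
          have h4 := (Finset.sum_eq_zero_iff.1 h7) l hl
          rcases mul_eq_zero.1 h4 with h5 | h5
          · exact h5
          · have := hpos l; omega
        have h9 : v i = 1 := by
          have h10 : v i * g i ≤ 1 * g i := by omega
          have := Nat.le_of_mul_le_mul_right h10 (hpos i)
          omega
        have h11 : v.degree = 1 := by
          rw [degree_fun, ← Finset.add_sum_erase _ (fun l => v l) (Finset.mem_univ i), h9,
            Finset.sum_eq_zero h8, add_zero]
        rw [h11, Finsupp.degree_single] at h1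
        exact absurd h1 (lt_irrefl _)
  | zero => exact coeff_zero _
  | add p q _ _ hp hq => rw [coeff_add, hp m hm, hq m hm, add_zero]
  | smul a p _ hp =>
    rw [smul_eq_mul, coeff_mul]
    apply Finset.sum_eq_zero
    intro x hx
    rw [Finset.HasAntidiagonal.mem_antidiagonal] at hx
    rw [hp x.2 (by
      have h1 := congrArg Finsupp.degree hx
      rw [map_add] at h1
      omega), mul_zero]

end Pool.Agent.Helper816.KG
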