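import Mathlib
import Pool.Agent.Helper816.KM

set_option autoImplicit false

open Finset

namespace Pool.Agent.Helper816.KM

open Pool.Agent.Helper816.Koszul

variable {A : Type*} [CommRing A] {M : Type*} [AddCommGroup M] [Module A M]

/-- restriction of functions to subsets of given size -/
def resdg (A M : Type*) [CommRing A] [AddCommGroup M] [Module A M] (r i : ℕ) :
    ↥(dg A M r i) →ₗ[A] ({F : Finset (Fin r) // F.card = i} → M) where
  toFun u F := u.1 F.1
  map_add' _ _ := rfl
  map_smul' _ _ := rfl

lemma resdg_inj (r i : ℕ) : Function.Injective (resdg A M r i) := by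
  intro u v h
  apply Subtype.ext
  funext F
  by_cases hF : F.card = i
  · exact congrFun h ⟨F, hF⟩
  · rw [u.2 F hF, v.2 F hF]

lemma length_dg_le (K : Type*) [CommRing K] [Module K M] [SMul K A] [IsScalarTower K A M]
    (r i : ℕ) :
    Module.length K (dg A M r i) ≤ (r.choose i : ℕ) * Module.length K M := by
  have h1 := Module.length_le_of_injective (R := K)
    ({ toFun := resdg A M r i, map_add' := fun _ _ => rfl, map_smul' := fun _ _ => rfl } :
      ↥(dg A M r i) →ₗ[K] ({F : Finset (Fin r) // F.card = i} → M)) (resdg_inj r i)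
  refine h1.trans (le_of_eq ?_)
  rw [Module.length_pi, ENat.card_eq_coe_fintype_card, Fintype.card_finset_len, Fintype.card_fin]

/-- The trivial bound. -/
theorem hl_le {r : ℕ} (f : Fin r → A) (i : ℕ) :
    hl M f i ≤ (r.choose i : ℕ) * Module.length A M := by
  unfold hl
  refine (Module.length_le_of_surjective (Submodule.mkQ _) (Submodule.mkQ_surjective _)).trans ?_
  refine le_trans ?_ (length_dg_le (A := A) (M := M) A r i)
  exact Module.length_le_of_injective (Submodule.inclusion (inf_le_left : ZZ M f i ≤ dg A M r i))
    (Submodule.inclusion_injective _)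

section field

variable {K : Type*} [Field K] [Algebra K A] [Module K M] [IsScalarTower K A M]

/-- the K-linear map given by the differential, from `dg (i+1)` to the boundaries -/
def toBB (K : Type*) [Field K] [Algebra K A] [Module K M] [IsScalarTower K A M] {r : ℕ}
    (f : Fin r → A) (i : ℕ) : ↥(dg A M r (i + 1)) →ₗ[K] ↥(BB M f i) where
  toFun u := ⟨kDM f u.1, ⟨u.1, u.2, rfl⟩⟩
  map_add' u v := by
    apply Subtype.ext
    exact map_add _ _ _
  map_smul' a u := by
    apply Subtype.ext
    show kDM f (a • u.1) = a • kDM f u.1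
    rw [← algebraMap_smul A a u.1, map_smul, algebraMap_smul]

lemma toBB_surj {r : ℕ} (f : Fin r → A) (i : ℕ) :
    Function.Surjective (toBB (M := M) K f i) := by
  rintro ⟨_, u, hu, rfl⟩
  exact ⟨⟨u, hu⟩, rfl⟩

/-- inclusion of the cycles -/
def inclZ (K : Type*) [Field K] [Algebra K A] [Module K M] [IsScalarTower K A M] {r : ℕ}
    (f : Fin r → A) (i : ℕ) : ↥(ZZ M f i) →ₗ[K] ↥(dg A M r i) where
  toFun u := ⟨u.1, u.2.1⟩
  map_add' _ _ := rfl
  map_smul' _ _ := rfl

/-- inclusion of the boundaries -/
def inclB (K : Type*) [Field K] [Algebra K A] [Module K M] [IsScalarTower K A M] {r : ℕ}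
    (f : Fin r → A) (i : ℕ) : ↥(BB M f i) →ₗ[K] ↥(ZZ M f i) where
  toFun u := ⟨u.1, BB_le f i u.2⟩
  map_add' _ _ := rfl
  map_smul' _ _ := rfl

/-- projection to homology -/
def projH (K : Type*) [Field K] [Algebra K A] [Module K M] [IsScalarTower K A M] {r : ℕ}
    (f : Fin r → A) (i : ℕ) : ↥(ZZ M f i) →ₗ[K] HH M f i where
  toFun u := Submodule.Quotient.mk u
  map_add' _ _ := rfl
  map_smul' _ _ := rfl

lemma length_split1 {r : ℕ} (f : Fin r → A) (i : ℕ) :
    Module.length K (dg A M r (i + 1)) =
      Module.length K (ZZ M f (i + 1)) + Module.length K (BB M f i) := by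
  apply Module.length_eq_add_of_exact (inclZ K f (i + 1)) (toBB K f i)
  · intro u v h
    apply Subtype.ext
    have h1 : (inclZ K f (i + 1) u).1 = (inclZ K f (i + 1) v).1 := by rw [h]
    exact h1
  · exact toBB_surj f i
  · intro u
    constructor
    · intro h
      have h2 : kDM f u.1 = 0 := congrArg Subtype.val h
      exact ⟨⟨u.1, u.2, LinearMap.mem_ker.2 h2⟩, rfl⟩
    · rintro ⟨v, rfl⟩
      apply Subtype.ext
      exact LinearMap.mem_ker.1 v.2.2

lemma length_split2 {r : ℕ} (f : Fin r → A) (i : ℕ) :
    Module.length K (ZZ M f i) =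
      Module.length K (BB M f i) + Module.length K (HH M f i) := by
  apply Module.length_eq_add_of_exact (inclB K f i) (projH K f i)
  · intro u v h
    apply Subtype.ext
    have h1 : (inclB K f i u).1 = (inclB K f i v).1 := by rw [h]
    exact h1
  · exact Submodule.Quotient.mk_surjective _
  · intro u
    show Submodule.Quotient.mk u = 0 ↔ _
    rw [Submodule.Quotient.mk_eq_zero]
    constructor
    · intro h
      exact ⟨⟨u.1, h⟩, rfl⟩
    · rintro ⟨v, rfl⟩
      exact v.2

lemma length_split {r : ℕ} (f : Fin r → A) (i : ℕ) :
    Module.length K (dg A M r (i + 1)) = Module.length K (HH M f (i + 1)) +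
      Module.length K (BB M f (i + 1)) + Module.length K (BB M f i) := by
  rw [length_split1, length_split2, add_comm (Module.length K (BB M f (i + 1)))]

/-- Lower bound for the boundaries. -/
lemma length_BB_ge {r : ℕ} (f : Fin r → A) (m1 : M) (lam : Fin r → M →ₗ[K] K)
    (hlam : ∀ j l, lam j (f l • m1) = if j = l then 1 else 0) (i : ℕ) :
    (r.choose (i + 1) : ℕ) ≤ Module.length K (BB M f i) := by
  classical
  let inc : ({F : Finset (Fin r) // F.card = i + 1} → K) →ₗ[K] ↥(dg A M r (i + 1)) :=
    { toFun := fun a => ⟨fun F => if h : F.card = i + 1 then a ⟨F, h⟩ • m1 else 0, by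
        intro F hF
        exact dif_neg hF⟩
      map_add' := by
        intro a b
        apply Subtype.ext
        funext F
        show (if h : F.card = i + 1 then (a + b) ⟨F, h⟩ • m1 else 0) =
          (if h : F.card = i + 1 then a ⟨F, h⟩ • m1 else 0) +
            (if h : F.card = i + 1 then b ⟨F, h⟩ • m1 else 0)
        split_ifs
        · rw [Pi.add_apply, add_smul]
        · rw [add_zero]
      map_smul' := by
        intro c a
        apply Subtype.ext
        funext F
        show (if h : F.card = i + 1 then (c • a) ⟨F, h⟩ • m1 else 0) =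
          c • (if h : F.card = i + 1 then a ⟨F, h⟩ • m1 else 0)
        split_ifs
        · rw [Pi.smul_apply, smul_assoc]
        · rw [smul_zero] }
  have hinj : Function.Injective ((toBB K f i).comp inc) := by
    rw [← LinearMap.ker_eq_bot, LinearMap.ker_eq_bot']
    intro a ha
    have h1 : kDM f (inc a).1 = 0 := congrArg Subtype.val ha
    funext F
    obtain ⟨F, hF⟩ := F
    have hne : F.Nonempty := by
      rw [← Finset.card_pos]; omega
    obtain ⟨l, hl⟩ := hne
    have h2 := congrFun h1 (F.erase l)
    rw [kDM_apply, Pi.zero_apply] at h2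
    have h3 := congrArg (lam l) h2
    rw [map_sum, map_zero, Finset.sum_eq_single l] at h3
    · rw [if_pos (Finset.notMem_erase l F), Finset.insert_erase hl] at h3
      have h4 : (inc a).1 F = a ⟨F, hF⟩ • m1 := dif_pos hF
      rw [h4] at h3
      have h5 : (ksign A l (F.erase l) * f l) • a ⟨F, hF⟩ • m1 =
          (((-1 : K) ^ ((F.erase l).filter (fun l' => l' < l)).card) * a ⟨F, hF⟩) • (f l • m1) := by
        have e1 : ksign A l (F.erase l) =
            algebraMap K A ((-1 : K) ^ ((F.erase l).filter (fun l' => l' < l)).card) := by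
          unfold ksign
          rw [map_pow, map_neg, map_one]
        rw [e1, ← algebraMap_smul A (a ⟨F, hF⟩) m1, ← algebraMap_smul A _ (f l • m1), map_mul,
          smul_smul, smul_smul]
        congr 1
        ring
      rw [h5, map_smul, hlam, if_pos rfl, smul_eq_mul, mul_one] at h3
      have h6 : ((-1 : K) ^ ((F.erase l).filter (fun l' => l' < l)).card) ≠ 0 :=
        pow_ne_zero _ (neg_ne_zero.2 one_ne_zero)
      rcases mul_eq_zero.1 h3 with h7 | h7
      · exact absurd h7 h6
      · exact h7
    · intro j _ hjl
      by_cases hj : j ∈ F.erase l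
      · rw [if_neg (by simpa using hj), map_zero]
      · rw [if_pos hj]
        have hc : (insert j (F.erase l)).card = i + 1 := by
          rw [Finset.card_insert_of_notMem hj, Finset.card_erase_of_mem hl, hF]
          omega
        have h4 : (inc a).1 (insert j (F.erase l)) = a ⟨insert j (F.erase l), hc⟩ • m1 :=
          dif_pos hc
        rw [h4]
        have h5 : (ksign A j (F.erase l) * f j) • a ⟨insert j (F.erase l), hc⟩ • m1 =
            (((-1 : K) ^ ((F.erase l).filter (fun l' => l' < j)).card) *
              a ⟨insert j (F.erase l), hc⟩) • (f j • m1) := by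
          have e1 : ksign A j (F.erase l) =
              algebraMap K A ((-1 : K) ^ ((F.erase l).filter (fun l' => l' < j)).card) := by
            unfold ksign
            rw [map_pow, map_neg, map_one]
          rw [e1, ← algebraMap_smul A (a ⟨insert j (F.erase l), hc⟩) m1,
            ← algebraMap_smul A _ (f j • m1), map_mul, smul_smul, smul_smul]
          congr 1
          ring
        rw [h5, map_smul, hlam, if_neg (Ne.symm hjl), smul_zero]
    · intro h
      exact absurd (Finset.mem_univ _) h
  have h1 := Module.length_le_of_injective _ hinj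
  refine le_trans (le_of_eq ?_) h1
  rw [Module.length_pi, ENat.card_eq_coe_fintype_card, Fintype.card_finset_len, Fintype.card_fin,
    Module.length_eq_finrank, Module.finrank_self, Nat.cast_one, mul_one]

lemma length_le_restrict (N : Type*) [AddCommGroup N] [Module A N] [Module K N]
    [IsScalarTower K A N] : Module.length A N ≤ Module.length K N := by
  have h1 := Submodule.length_le_length_restrictScalars K (⊤ : Submodule A N)
  rw [Module.length_top, Submodule.restrictScalars_top, Module.length_top] at h1
  exact h1

/-- The bound with savings. -/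
theorem hl_savings {r : ℕ} (f : Fin r → A) (m1 : M) (lam : Fin r → M →ₗ[K] K)
    (hlam : ∀ j l, lam j (f l • m1) = if j = l then 1 else 0) (i : ℕ) :
    hl M f (i + 1) + ((r + 1).choose (i + 2) : ℕ) ≤
      (r.choose (i + 1) : ℕ) * Module.length K M := by
  have h1 := length_split (K := K) (M := M) f i
  have h2 := length_dg_le (A := A) (M := M) K r (i + 1)
  have h3 := length_BB_ge (K := K) f m1 lam hlam i
  have h4 := length_BB_ge (K := K) f m1 lam hlam (i + 1)
  have h5 : hl M f (i + 1) ≤ Module.length K (HH M f (i + 1)) := length_le_restrict _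
  rw [h1] at h2
  refine le_trans ?_ h2
  rw [Nat.choose_succ_succ, Nat.cast_add, add_assoc]
  apply add_le_add h5
  rw [add_comm]
  exact add_le_add h4 h3

end field

end Pool.Agent.Helper816.KM
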