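import Mathlib
import Pool.Agent.Helper816.KCone
import Pool.Agent.Helper816.KLeaf

set_option autoImplicit false
set_option linter.unusedSectionVars false

open Finset

/-! Lengths of kernels and cokernels of nilpotent multiplications. -/

namespace Pool.Agent.Helper816.KM

lemma length_le_card {K N : Type*} [Field K] [AddCommGroup N] [Module K N] (T : Finset N)
    (h : Submodule.span K (T : Set N) = ⊤) : Module.length K N ≤ T.card := by
  have : Module.Finite K N := ⟨⟨T, h⟩⟩
  rw [Module.length_eq_finrank]
  have h1 := finrank_span_finset_le_card (R := K) T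
  rw [Set.finrank, h, finrank_top] at h1
  exact_mod_cast h1

lemma length_span_le_card {K N : Type*} [Field K] [AddCommGroup N] [Module K N] (T : Finset N) :
    Module.length K (Submodule.span K (T : Set N)) ≤ T.card := by
  rw [Module.length_eq_finrank]
  exact_mod_cast finrank_span_finset_le_card (R := K) T

variable {A : Type*} [CommRing A] {M : Type*} [AddCommGroup M] [Module A M]

lemma len_ker_add (y : A) : Module.length A M =
    Module.length A (KK M y) + Module.length A (LinearMap.range (LinearMap.lsmul A M y)) := by
  apply Module.length_eq_add_of_exact (LinearMap.ker (LinearMap.lsmul A M y)).subtype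
    (LinearMap.lsmul A M y).rangeRestrict (Submodule.subtype_injective _)
    (LinearMap.lsmul A M y).surjective_rangeRestrict
  intro x
  rw [← LinearMap.mem_ker, LinearMap.ker_rangeRestrict]
  simp

lemma len_range_add (y : A) : Module.length A M =
    Module.length A (LinearMap.range (LinearMap.lsmul A M y)) + Module.length A (CK M y) := by
  apply Module.length_eq_add_of_exact (LinearMap.range (LinearMap.lsmul A M y)).subtype
    (LinearMap.range (LinearMap.lsmul A M y)).mkQ (Submodule.subtype_injective _)
    (Submodule.mkQ_surjective _)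
  intro x
  rw [Submodule.mkQ_apply, Submodule.Quotient.mk_eq_zero]
  simp

lemma len_fin_coker (y : A) (N : ℕ) : ∀ (M : Type) [AddCommGroup M] [Module A M],
    (∀ m : M, y ^ N • m = 0) → Module.length A (CK M y) ≠ ⊤ → Module.length A M ≠ ⊤ := by
  induction N with
  | zero =>
    intro M _ _ h _
    have : Subsingleton M := ⟨fun a b => by
      have h1 := h a
      have h2 := h b
      rw [pow_zero, one_smul] at h1 h2
      rw [h1, h2]⟩
    rw [Module.length_eq_zero]
    exact ENat.zero_ne_top
  | succ N ih =>
    intro M _ _ h hfin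
    rw [len_range_add y]
    apply ne_of_lt
    apply WithTop.add_lt_top.2
    refine ⟨?_, lt_top_iff_ne_top.2 hfin⟩
    apply lt_top_iff_ne_top.2
    apply ih
    · rintro ⟨_, m, rfl⟩
      apply Subtype.ext
      show y ^ N • (y • m) = 0
      rw [smul_smul, ← pow_succ]
      exact h m
    · apply ne_top_of_le_ne_top hfin
      let ψ : M →ₗ[A] CK (LinearMap.range (LinearMap.lsmul A M y)) y :=
        (LinearMap.range (LinearMap.lsmul A (LinearMap.range (LinearMap.lsmul A M y)) y)).mkQ.comp
          (LinearMap.lsmul A M y).rangeRestrict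
      have hψ : LinearMap.range (LinearMap.lsmul A M y) ≤ LinearMap.ker ψ := by
        rintro _ ⟨m, rfl⟩
        rw [LinearMap.mem_ker, LinearMap.comp_apply, Submodule.mkQ_apply,
          Submodule.Quotient.mk_eq_zero]
        exact ⟨⟨y • m, ⟨m, rfl⟩⟩, rfl⟩
      apply Module.length_le_of_surjective (Submodule.liftQ _ ψ hψ)
      intro z
      obtain ⟨⟨_, m, rfl⟩, rfl⟩ := Submodule.mkQ_surjective _ z
      exact ⟨Submodule.Quotient.mk m, rfl⟩

lemma len_fin_ker (y : A) (N : ℕ) : ∀ (M : Type) [AddCommGroup M] [Module A M],
    (∀ m : M, y ^ N • m = 0) → Module.length A (KK M y) ≠ ⊤ → Module.length A M ≠ ⊤ := by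
  induction N with
  | zero =>
    intro M _ _ h _
    have : Subsingleton M := ⟨fun a b => by
      have h1 := h a
      have h2 := h b
      rw [pow_zero, one_smul] at h1 h2
      rw [h1, h2]⟩
    rw [Module.length_eq_zero]
    exact ENat.zero_ne_top
  | succ N ih =>
    intro M _ _ h hfin
    rw [len_ker_add y]
    apply ne_of_lt
    apply WithTop.add_lt_top.2
    refine ⟨lt_top_iff_ne_top.2 hfin, ?_⟩
    apply lt_top_iff_ne_top.2
    apply ih
    · rintro ⟨_, m, rfl⟩
      apply Subtype.ext
      show y ^ N • (y • m) = 0
      rw [smul_smul, ← pow_succ]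
      exact h m
    · apply ne_top_of_le_ne_top hfin
      let ψ : KK (LinearMap.range (LinearMap.lsmul A M y)) y →ₗ[A] KK M y :=
        { toFun := fun z => ⟨z.1.1, by
            have h1 := z.2
            rw [LinearMap.mem_ker, LinearMap.lsmul_apply] at h1 ⊢
            exact congrArg Subtype.val h1⟩
          map_add' := fun _ _ => rfl
          map_smul' := fun _ _ => rfl }
      apply Module.length_le_of_injective ψ
      intro a b hab
      apply Subtype.ext
      apply Subtype.ext
      have h1 : (ψ a).1 = (ψ b).1 := by rw [hab]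
      exact h1

lemma len_eq_of_fin (y : A) (h : Module.length A M ≠ ⊤) :
    Module.length A (KK M y) = Module.length A (CK M y) := by
  have h1 := len_ker_add (M := M) y
  have h2 := len_range_add (M := M) y
  rw [h1] at h
  have h3 : Module.length A (LinearMap.range (LinearMap.lsmul A M y)) ≠ ⊤ := by
    intro h4
    apply h
    rw [h4, add_top]
  rw [h1, add_comm] at h2
  exact ENat.add_right_injective_of_ne_top h3 h2

/-- the two versions -/
lemma len_eq_coker {M : Type} [AddCommGroup M] [Module A M] (y : A) (N : ℕ)
    (h : ∀ m : M, y ^ N • m = 0) (hf : Module.length A (CK M y) ≠ ⊤) :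
    Module.length A (KK M y) = Module.length A (CK M y) :=
  len_eq_of_fin y (len_fin_coker y N M h hf)

lemma len_eq_ker {M : Type} [AddCommGroup M] [Module A M] (y : A) (N : ℕ)
    (h : ∀ m : M, y ^ N • m = 0) (hf : Module.length A (KK M y) ≠ ⊤) :
    Module.length A (KK M y) = Module.length A (CK M y) :=
  len_eq_of_fin y (len_fin_ker y N M h hf)

/-- linear maps over the ground field out of a quotient -/
noncomputable def liftK {K : Type*} [Field K] [Algebra K A] [Module K M] [IsScalarTower K A M]
    {N : Type*} [AddCommGroup N] [Module K N]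
    (P : Submodule A M) (φ : M →ₗ[K] N) (h : ∀ m ∈ P, φ m = 0) : (M ⧸ P) →ₗ[K] N :=
  (Submodule.liftQ (P.restrictScalars K) φ (fun m hm => LinearMap.mem_ker.2 (h m hm))).comp
    (Submodule.Quotient.restrictScalarsEquiv K P).symm.toLinearMap

lemma liftK_mk {K : Type*} [Field K] [Algebra K A] [Module K M] [IsScalarTower K A M]
    {N : Type*} [AddCommGroup N] [Module K N]
    (P : Submodule A M) (φ : M →ₗ[K] N) (h : ∀ m ∈ P, φ m = 0) (m : M) :
    liftK P φ h (Submodule.Quotient.mk m) = φ m := rfl

end Pool.Agent.Helper816.KM
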