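import Mathlib

set_option autoImplicit false

/-! Arithmetic for the bound on the Betti numbers. -/

namespace Pool.Agent.Helper816.KNum

lemma aux1 (e w t : ℕ) (hw : e ≤ w) (ht : 1 ≤ t) : w * e.choose t ≤ e * w.choose t := by
  obtain ⟨s, rfl⟩ : ∃ s, t = s + 1 := ⟨t - 1, by omega⟩
  rcases Nat.eq_zero_or_pos e with he | he
  · subst he; simp
  obtain ⟨e', rfl⟩ : ∃ e', e = e' + 1 := ⟨e - 1, by omega⟩
  obtain ⟨w', rfl⟩ : ∃ w', w = w' + 1 := ⟨w - 1, by omega⟩
  have h1 := Nat.add_one_mul_choose_eq w' s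
  have h2 := Nat.add_one_mul_choose_eq e' s
  have h3 : e'.choose s ≤ w'.choose s := Nat.choose_le_choose s (by omega)
  have h4 : (s + 1) * ((w' + 1) * (e' + 1).choose (s + 1)) ≤
      (s + 1) * ((e' + 1) * (w' + 1).choose (s + 1)) := by
    calc (s + 1) * ((w' + 1) * (e' + 1).choose (s + 1))
        = (w' + 1) * ((e' + 1).choose (s + 1) * (s + 1)) := by ring
      _ = (w' + 1) * ((e' + 1) * e'.choose s) := by rw [h2]
      _ ≤ (w' + 1) * ((e' + 1) * w'.choose s) :=
          Nat.mul_le_mul_left _ (Nat.mul_le_mul_left _ h3)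
      _ = (e' + 1) * ((w' + 1) * w'.choose s) := by ring
      _ = (e' + 1) * ((w' + 1).choose (s + 1) * (s + 1)) := by rw [h1]
      _ = _ := by ring
  exact Nat.le_of_mul_le_mul_left h4 (Nat.succ_pos s)

lemma main_ineq (e w s : ℕ) (he : 1 ≤ e) (hw : e ≤ w) :
    (e.choose (s + 2) + e.choose (s + 1)) * w ^ 2 ≤
      e * ((s + 2) * (w + 1).choose (s + 3) + e.choose (s + 3)) + e * w * e.choose (s + 1) := by
  induction w, hw using Nat.le_induction with
  | base =>
    have h1 := Nat.choose_succ_right_eq e (s + 2)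
    have h2 : (e + 1).choose (s + 3) = e.choose (s + 2) + e.choose (s + 3) :=
      Nat.choose_succ_succ e (s + 2)
    rw [h2]
    have h3 : (s + 2) * (e.choose (s + 2) + e.choose (s + 3)) + e.choose (s + 3) =
        (s + 2) * e.choose (s + 2) + e.choose (s + 2) * (e - (s + 2)) := by
      rw [← h1]; ring
    rw [h3]
    rcases Nat.lt_or_ge e (s + 2) with h | h
    · rw [Nat.choose_eq_zero_of_lt h]
      apply le_of_eq; ring
    · obtain ⟨d, hd⟩ : ∃ d, e = (s + 2) + d := ⟨e - (s + 2), by omega⟩
      have h4 : e - (s + 2) = d := by omega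
      rw [h4]
      have h5 : (s + 2) * e.choose (s + 2) + e.choose (s + 2) * d = e * e.choose (s + 2) := by
        have : e * e.choose (s + 2) = ((s + 2) + d) * e.choose (s + 2) := by rw [← hd]
        rw [this]; ring
      rw [h5]
      apply le_of_eq; ring
  | succ w hw ih =>
    have h2 : (w + 1 + 1).choose (s + 3) = (w + 1).choose (s + 2) + (w + 1).choose (s + 3) :=
      Nat.choose_succ_succ (w + 1) (s + 2)
    have h3 : (w + 1).choose (s + 2) = w.choose (s + 1) + w.choose (s + 2) :=
      Nat.choose_succ_succ w (s + 1)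
    have h4 := aux1 e w (s + 2) hw (by omega)
    have h5 := aux1 e w (s + 1) hw (by omega)
    have h6 : (s + 2) * (w * (e.choose (s + 2) + e.choose (s + 1))) ≤
        e * ((s + 2) * (w + 1).choose (s + 2)) := by
      rw [h3]
      calc (s + 2) * (w * (e.choose (s + 2) + e.choose (s + 1)))
          = (s + 2) * (w * e.choose (s + 2) + w * e.choose (s + 1)) := by ring
        _ ≤ (s + 2) * (e * w.choose (s + 2) + e * w.choose (s + 1)) :=
            Nat.mul_le_mul_left _ (Nat.add_le_add h4 h5)
        _ = _ := by ring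
    have h7 : (2 * w + 1) * (e.choose (s + 2) + e.choose (s + 1)) ≤
        e * ((s + 2) * (w + 1).choose (s + 2)) + e * e.choose (s + 1) := by
      rcases Nat.eq_zero_or_pos s with hs | hs
      · subst hs
        have h8 : e.choose 2 + e.choose 1 ≤ e * e.choose 1 := by
          rw [Nat.choose_one_right]
          have h9 := Nat.choose_two_right e
          have h10 : e * (e - 1) / 2 ≤ e * (e - 1) := Nat.div_le_self _ _
          have h11 : e * (e - 1) + e = e * e := by
            obtain ⟨e', rfl⟩ : ∃ e', e = e' + 1 := ⟨e - 1, by omega⟩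
            rw [Nat.add_sub_cancel]; ring
          omega
        have h12 : (2 * w + 1) * (e.choose (0 + 2) + e.choose (0 + 1)) =
            (0 + 2) * (w * (e.choose (0 + 2) + e.choose (0 + 1))) +
              (e.choose 2 + e.choose 1) := by
          simp only [Nat.zero_add]; ring
        rw [h12]
        exact Nat.add_le_add h6 h8
      · have h8 : (2 * w + 1) ≤ (s + 2) * w := by nlinarith
        calc (2 * w + 1) * (e.choose (s + 2) + e.choose (s + 1))
            ≤ ((s + 2) * w) * (e.choose (s + 2) + e.choose (s + 1)) :=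
              Nat.mul_le_mul_right _ h8
          _ = (s + 2) * (w * (e.choose (s + 2) + e.choose (s + 1))) := by ring
          _ ≤ _ := h6
          _ ≤ _ := Nat.le_add_right _ _
    rw [h2]
    calc (e.choose (s + 2) + e.choose (s + 1)) * (w + 1) ^ 2
        = (e.choose (s + 2) + e.choose (s + 1)) * w ^ 2 +
          (2 * w + 1) * (e.choose (s + 2) + e.choose (s + 1)) := by ring
      _ ≤ (e * ((s + 2) * (w + 1).choose (s + 3) + e.choose (s + 3)) + e * w * e.choose (s + 1)) +
          (e * ((s + 2) * (w + 1).choose (s + 2)) + e * e.choose (s + 1)) := Nat.add_le_add ih h7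
      _ = _ := by ring

/-- the case of one coset -/
lemma case_one (e w s T h C : ℕ) (he : 1 ≤ e) (hw : e ≤ w) (hT : e * T ≤ w ^ 2) (hh : h + w ≤ T)
    (hC : C ≤ T) :
    e.choose (s + 2) * C + e.choose (s + 1) * h ≤
      (s + 2) * (w + 1).choose (s + 3) + e.choose (s + 3) := by
  have h1 := main_ineq e w s he hw
  have h2 : e * (e.choose (s + 2) * C + e.choose (s + 1) * h) + e * w * e.choose (s + 1) ≤
      (e.choose (s + 2) + e.choose (s + 1)) * w ^ 2 := by
    have h3 : h + w ≤ T := hh
    calc e * (e.choose (s + 2) * C + e.choose (s + 1) * h) + e * w * e.choose (s + 1)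
        = e.choose (s + 2) * (e * C) + e.choose (s + 1) * (e * (h + w)) := by ring
      _ ≤ e.choose (s + 2) * (e * T) + e.choose (s + 1) * (e * T) :=
          Nat.add_le_add (Nat.mul_le_mul_left _ (Nat.mul_le_mul_left _ hC))
            (Nat.mul_le_mul_left _ (Nat.mul_le_mul_left _ hh))
      _ ≤ e.choose (s + 2) * w ^ 2 + e.choose (s + 1) * w ^ 2 :=
          Nat.add_le_add (Nat.mul_le_mul_left _ hT) (Nat.mul_le_mul_left _ hT)
      _ = _ := by ring
  have h3 : e * (e.choose (s + 2) * C + e.choose (s + 1) * h) ≤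
      e * ((s + 2) * (w + 1).choose (s + 3) + e.choose (s + 3)) := by omega
  exact Nat.le_of_mul_le_mul_left h3 he

lemma vandermonde3 (N s : ℕ) :
    2 * N.choose (s + 2) + N * N.choose (s + 1) ≤ (2 * N).choose (s + 2) := by
  rw [two_mul N, Nat.add_choose_eq]
  have hsub : ({(0, s + 2), (1, s + 1), (s + 2, 0)} : Finset (ℕ × ℕ)) ⊆
      Finset.HasAntidiagonal.antidiagonal (s + 2) := by
    intro x hx
    rw [Finset.mem_insert, Finset.mem_insert, Finset.mem_singleton] at hx
    rw [Finset.HasAntidiagonal.mem_antidiagonal]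
    rcases hx with rfl | rfl | rfl
    · simp
    · show 1 + (s + 1) = s + 2
      omega
    · simp
  refine le_trans (le_of_eq ?_) (Finset.sum_le_sum_of_subset hsub)
  rw [Finset.sum_insert (by simp), Finset.sum_insert (by simp), Finset.sum_singleton]
  simp only [Nat.choose_zero_right, Nat.choose_one_right, one_mul, mul_one]
  ring

/-- the case of several cosets -/
lemma case_many (e w s T h C N τ : ℕ) (he : 1 ≤ e) (hN : e ≤ N) (hτ : 2 ≤ τ) (hτN : τ * N ≤ w)
    (hT : e * T ≤ N ^ 2) (hh : h ≤ T) (hC : C ≤ τ * T) :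
    e.choose (s + 2) * C + e.choose (s + 1) * h ≤
      (s + 2) * (w + 1).choose (s + 3) := by
  have h1 := aux1 e N (s + 2) hN (by omega)
  have h2 := aux1 e N (s + 1) hN (by omega)
  have h3 : e * (e.choose (s + 2) * C + e.choose (s + 1) * h) ≤
      e * (τ * N * N.choose (s + 2) + N * N.choose (s + 1)) := by
    calc e * (e.choose (s + 2) * C + e.choose (s + 1) * h)
        ≤ e * (e.choose (s + 2) * (τ * T) + e.choose (s + 1) * T) :=
          Nat.mul_le_mul_left _ (Nat.add_le_add (Nat.mul_le_mul_left _ hC)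
            (Nat.mul_le_mul_left _ hh))
      _ = τ * e.choose (s + 2) * (e * T) + e.choose (s + 1) * (e * T) := by ring
      _ ≤ τ * e.choose (s + 2) * (N ^ 2) + e.choose (s + 1) * (N ^ 2) :=
          Nat.add_le_add (Nat.mul_le_mul_left _ hT) (Nat.mul_le_mul_left _ hT)
      _ = τ * N * (N * e.choose (s + 2)) + N * (N * e.choose (s + 1)) := by ring
      _ ≤ τ * N * (e * N.choose (s + 2)) + N * (e * N.choose (s + 1)) :=
          Nat.add_le_add (Nat.mul_le_mul_left _ h1) (Nat.mul_le_mul_left _ h2)
      _ = _ := by ring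
  have h4 := Nat.le_of_mul_le_mul_left h3 he
  refine h4.trans ?_
  have h5 := Nat.add_one_mul_choose_eq w (s + 2)
  have h6 : 2 * N ≤ w := le_trans (Nat.mul_le_mul_right _ hτ) hτN
  have h7 : (2 * N).choose (s + 2) ≤ w.choose (s + 2) := Nat.choose_le_choose _ h6
  have h8 := vandermonde3 N s
  have h9 : (s + 3) * (τ * N * N.choose (s + 2) + N * N.choose (s + 1)) ≤
      (s + 3) * ((s + 2) * (w + 1).choose (s + 3)) := by
    have h10 : (s + 3) * ((s + 2) * (w + 1).choose (s + 3)) =
        (s + 2) * ((w + 1) * w.choose (s + 2)) := by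
      rw [h5]; ring
    rw [h10]
    have hN1 : 1 ≤ N := he.trans hN
    have h11 : 2 ≤ w := by omega
    calc (s + 3) * (τ * N * N.choose (s + 2) + N * N.choose (s + 1))
        = (s + 3) * (τ * N) * N.choose (s + 2) + (s + 3) * 1 * (N * N.choose (s + 1)) := by ring
      _ ≤ (2 * (s + 2)) * (w + 1) * N.choose (s + 2) +
          (s + 2) * (w + 1) * (N * N.choose (s + 1)) := by
          apply Nat.add_le_add
          · apply Nat.mul_le_mul_right
            exact Nat.mul_le_mul (by omega) (by omega)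
          · apply Nat.mul_le_mul_right
            nlinarith
      _ = (s + 2) * ((w + 1) * (2 * N.choose (s + 2) + N * N.choose (s + 1))) := by ring
      _ ≤ _ := Nat.mul_le_mul_left _ (Nat.mul_le_mul_left _ (h8.trans h7))
  exact Nat.le_of_mul_le_mul_left h9 (by omega)

/-- Combined statement. -/
theorem final (e w s T h C N τ : ℕ) (he : 1 ≤ e) (hN : e ≤ N) (hτ : 1 ≤ τ) (hτN : τ * N ≤ w)
    (hT : e * (T + 1) ≤ N ^ 2 + e) (hC : C + τ ≤ 1 + τ * T) (hh : h + 1 ≤ T)
    (hh1 : τ = 1 → h + N ≤ T) :
    e.choose (s + 2) * C + e.choose (s + 1) * h ≤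
      (s + 2) * (w + 1).choose (s + 3) + e.choose (s + 3) := by
  have hT' : e * T ≤ N ^ 2 := by
    have : e * (T + 1) = e * T + e := by ring
    omega
  rcases Nat.lt_or_ge τ 2 with h1 | h1
  · have hτ1 : τ = 1 := by omega
    subst hτ1
    have h2 := case_one e N s T h C he hN hT' (hh1 rfl) (by omega)
    refine h2.trans ?_
    have h3 : (N + 1).choose (s + 3) ≤ (w + 1).choose (s + 3) :=
      Nat.choose_le_choose _ (by omega)
    have := Nat.mul_le_mul_left (s + 2) h3
    omega
  · have h2 := case_many e w s T h C N τ he hN h1 hτN hT' (by omega) (by omega)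
    omega

end Pool.Agent.Helper816.KNum
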