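import Mathlib
import Pool.Agent.Helper816.KM

set_option autoImplicit false

open Finset

/-! First Koszul homology of a cyclic module and generators of the ideal. -/

namespace Pool.Agent.Helper816.KOne

open Pool.Agent.Helper816.Koszul Pool.Agent.Helper816.KM

variable {S : Type*} [CommRing S] {r : ℕ} (f : Fin r → S)

/-- the degree one chain with given coefficients -/
def E1 (c : Fin r → S) (F : Finset (Fin r)) : S := if F.card = 1 then ∑ j ∈ F, c j else 0

lemma E1_singleton (c : Fin r → S) (j : Fin r) : E1 c {j} = c j := by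
  unfold E1
  rw [if_pos (Finset.card_singleton j), Finset.sum_singleton]

lemma E1_mem (c : Fin r → S) : E1 c ∈ dg S S r 1 := by
  intro F hF
  exact if_neg hF

lemma kDM_empty (u : Finset (Fin r) → S) : kDM f u ∅ = ∑ j, f j * u {j} := by
  rw [kDM_apply]
  apply Finset.sum_congr rfl
  intro j _
  rw [if_pos (Finset.notMem_empty j)]
  unfold ksign
  rw [Finset.filter_empty, Finset.card_empty, pow_zero, one_mul, smul_eq_mul, insert_empty_eq]

lemma kDM_eq_kD (u : Finset (Fin r) → S) (G : Finset (Fin r)) : kDM f u G = kD f u G := by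
  rw [kDM_apply]
  unfold kD
  rfl

lemma kDM_zero_of_empty {u : Finset (Fin r) → S} (hu : u ∈ dg S S r 1)
    (h : kDM f u ∅ = 0) : kDM f u = 0 := by
  funext G
  by_cases hG : G.card = 0
  · rw [Finset.card_eq_zero.1 hG, h, Pi.zero_apply]
  · exact kDM_dg f hu G hG

lemma cyc_bdry (hreg : ∀ (j : Fin r) (a : S), f j * a ∈ Ideal.span (f '' {l | j < l}) →
      a ∈ Ideal.span (f '' {l | j < l})) (I : Ideal S) {w : Finset (Fin r) → S}
    (hw : w ∈ dg S S r 1) (h : kDM f w = 0) :
    (fun F => (Submodule.mkQ I) (w F)) ∈ BB (S ⧸ I) f 1 := by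
  obtain ⟨v, hv⟩ := kD_exact f hreg 0 w (by
    intro G _
    rw [← kDM_eq_kD, h]
    rfl)
  refine ⟨fun F => if F.card = 2 then Submodule.mkQ I (v F) else 0, ?_, ?_⟩
  · intro F hF
    exact if_neg hF
  · funext G
    by_cases hG : G.card = 1
    · have h1 : kDM f (fun F => if F.card = 2 then Submodule.mkQ I (v F) else 0) G =
          kDM f (fun F => Submodule.mkQ I (v F)) G := by
        rw [kDM_apply, kDM_apply]
        apply Finset.sum_congr rfl
        intro j _
        by_cases hj : j ∈ G
        · rw [if_neg (by simpa using hj), if_neg (by simpa using hj)]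
        · rw [if_pos hj, if_pos hj, if_pos (by rw [Finset.card_insert_of_notMem hj, hG])]
      rw [h1, kDM_map, kDM_eq_kD, hv G (by rw [hG])]
    · rw [hw G hG, map_zero]
      apply kDM_dg f (i := 1) _ G hG
      intro F hF
      exact if_neg hF

theorem hl_one_le (hreg : ∀ (j : Fin r) (a : S), f j * a ∈ Ideal.span (f '' {l | j < l}) →
      a ∈ Ideal.span (f '' {l | j < l})) (I J : Ideal S) (hJ : J = Ideal.span (Set.range f))
    (hmax : J.IsMaximal) (hIJ : I ≤ J) (s : Finset S) (hs : Ideal.span (s : Set S) = I) :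
    hl (S ⧸ I) f 1 ≤ s.card := by
  classical
  have hc : ∀ a : s, ∃ c : Fin r → S, ∑ j, c j * f j = a.1 := by
    intro a
    have h1 : a.1 ∈ J := hIJ (by rw [← hs]; exact Ideal.subset_span a.2)
    rw [hJ, Ideal.mem_span_range_iff_exists_fun] at h1
    exact h1
  choose c hc using hc
  have haI : ∀ a : s, a.1 ∈ I := fun a => by rw [← hs]; exact Ideal.subset_span a.2
  have hEz : ∀ a : s, kDM f (E1 (c a)) ∅ = a.1 := by
    intro a
    rw [kDM_empty, ← hc a]
    apply Finset.sum_congr rfl
    intro j _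
    rw [E1_singleton, mul_comm]
  have hbZ : ∀ a : s, (fun F => Submodule.mkQ I (E1 (c a) F)) ∈ ZZ (S ⧸ I) f 1 := by
    intro a
    have hd : (fun F => Submodule.mkQ I (E1 (c a) F)) ∈ dg S (S ⧸ I) r 1 := by
      intro F hF
      show Submodule.mkQ I (E1 (c a) F) = 0
      rw [E1_mem (c a) F hF, map_zero]
    refine ⟨hd, LinearMap.mem_ker.2 ?_⟩
    funext G
    by_cases hG : G.card = 0
    · rw [Finset.card_eq_zero.1 hG, kDM_map, hEz, Submodule.mkQ_apply, Pi.zero_apply,
        Submodule.Quotient.mk_eq_zero]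
      exact haI a
    · exact kDM_dg f hd G hG
  let b : s → HH (S ⧸ I) f 1 := fun a => Submodule.Quotient.mk ⟨_, hbZ a⟩
  have hkill : ∀ a : s, J ≤ LinearMap.ker (LinearMap.toSpanSingleton S _ (b a)) := by
    intro a
    rw [hJ, Ideal.span, Submodule.span_le]
    rintro _ ⟨l, rfl⟩
    rw [SetLike.mem_coe, LinearMap.mem_ker, LinearMap.toSpanSingleton_apply]
    show f l • (Submodule.Quotient.mk (⟨_, hbZ a⟩ : ZZ (S ⧸ I) f 1) : HH (S ⧸ I) f 1) = 0
    rw [← Submodule.Quotient.mk_smul, Submodule.Quotient.mk_eq_zero]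
    have h1 : f l • E1 (c a) - E1 (Pi.single l a.1) ∈ dg S S r 1 :=
      sub_mem (Submodule.smul_mem _ _ (E1_mem _)) (E1_mem _)
    have h2 : kDM f (f l • E1 (c a) - E1 (Pi.single l a.1)) = 0 := by
      apply kDM_zero_of_empty f h1
      rw [map_sub, map_smul, Pi.sub_apply, Pi.smul_apply, hEz, kDM_empty, Finset.sum_eq_single l]
      · rw [E1_singleton, Pi.single_eq_same, smul_eq_mul, sub_self]
      · intro j _ hj
        rw [E1_singleton, Pi.single_eq_of_ne hj, mul_zero]
      · intro h
        exact absurd (Finset.mem_univ _) h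
    have h3 := cyc_bdry f hreg I h1 h2
    have h4 : (fun F => (Submodule.mkQ I) ((f l • E1 (c a) - E1 (Pi.single l a.1)) F)) =
        f l • (fun F => Submodule.mkQ I (E1 (c a) F)) := by
      funext F
      rw [Pi.sub_apply, Pi.smul_apply, map_sub, map_smul, Pi.smul_apply, sub_eq_self,
        Submodule.mkQ_apply, Submodule.Quotient.mk_eq_zero]
      unfold E1
      split_ifs
      · apply Ideal.sum_mem
        intro j _
        by_cases hj : j = l
        · rw [hj, Pi.single_eq_same]; exact haI a
        · rw [Pi.single_eq_of_ne hj]; exact zero_mem _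
      · exact zero_mem _
    rw [h4] at h3
    exact h3
  let Φ : (s → S ⧸ J) →ₗ[S] HH (S ⧸ I) f 1 :=
    ∑ a : s, (Submodule.liftQ J (LinearMap.toSpanSingleton S _ (b a)) (hkill a)).comp
      (LinearMap.proj a)
  have hΦ : ∀ d : s → S, Φ (fun a => Submodule.Quotient.mk (d a)) = ∑ a, d a • b a := by
    intro d
    show (∑ a : s, (Submodule.liftQ J (LinearMap.toSpanSingleton S _ (b a)) (hkill a)).comp
      (LinearMap.proj a)) _ = _
    rw [LinearMap.sum_apply]
    apply Finset.sum_congr rfl
    intro a _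
    rw [LinearMap.comp_apply, LinearMap.proj_apply, Submodule.liftQ_apply,
      LinearMap.toSpanSingleton_apply]
  have hsurj : Function.Surjective Φ := by
    intro y
    obtain ⟨⟨u, hu⟩, rfl⟩ := Submodule.Quotient.mk_surjective _ y
    have hlift : ∀ F : Finset (Fin r), ∃ m : S, Submodule.mkQ I m = u F ∧
        (F.card ≠ 1 → m = 0) := by
      intro F
      by_cases hF : F.card = 1
      · obtain ⟨m, hm⟩ := Submodule.mkQ_surjective _ (u F)
        exact ⟨m, hm, fun h => absurd hF h⟩
      · exact ⟨0, by rw [hu.1 F hF, map_zero], fun _ => rfl⟩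
    choose v hv hvz using hlift
    have hvu : (fun F => Submodule.mkQ I (v F)) = u := by funext F; exact hv F
    have hvd : v ∈ dg S S r 1 := fun F hF => hvz F hF
    have h1 : kDM f v ∅ ∈ I := by
      have h2 : kDM f (fun F => Submodule.mkQ I (v F)) ∅ = 0 := by
        rw [hvu, LinearMap.mem_ker.1 hu.2]
        rfl
      rw [kDM_map, Submodule.mkQ_apply, Submodule.Quotient.mk_eq_zero] at h2
      exact h2
    rw [← hs, Ideal.span, Submodule.mem_span_finset'] at h1
    obtain ⟨d, hd⟩ := h1
    refine ⟨fun a => Submodule.Quotient.mk (d a), ?_⟩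
    rw [hΦ]
    have h3 : v - ∑ a : s, d a • E1 (c a) ∈ dg S S r 1 :=
      sub_mem hvd (Submodule.sum_mem _ fun a _ => Submodule.smul_mem _ _ (E1_mem _))
    have h4 : kDM f (v - ∑ a : s, d a • E1 (c a)) = 0 := by
      apply kDM_zero_of_empty f h3
      rw [map_sub, map_sum, Pi.sub_apply, Finset.sum_apply, ← hd, sub_eq_zero]
      apply Finset.sum_congr rfl
      intro a _
      rw [map_smul, Pi.smul_apply, hEz]
    have h5 := cyc_bdry f hreg I h3 h4
    have h6 : (∑ a : s, d a • b a) = Submodule.Quotient.mk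
        (∑ a : s, d a • (⟨_, hbZ a⟩ : ZZ (S ⧸ I) f 1)) := by
      rw [← Submodule.mkQ_apply, map_sum]
      apply Finset.sum_congr rfl
      intro a _
      rw [map_smul]
      rfl
    rw [h6, eq_comm, Submodule.Quotient.eq]
    have h7 : (fun F => Submodule.mkQ I ((v - ∑ a : s, d a • E1 (c a)) F)) =
        u - ∑ a : s, d a • (fun F => Submodule.mkQ I (E1 (c a) F)) := by
      funext F
      rw [Pi.sub_apply, Pi.sub_apply, map_sub, hv F, Finset.sum_apply, Finset.sum_apply, map_sum]
      congr 1
    rw [h7] at h5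
    show (ZZ (S ⧸ I) f 1).subtype (_ - _) ∈ BB (S ⧸ I) f 1
    rw [map_sub, map_sum]
    exact h5
  have h1 := Module.length_le_of_surjective Φ hsurj
  have h2 : Module.length S (S ⧸ J) = 1 := by
    rw [Module.length_eq_one_iff, isSimpleModule_iff_isCoatom]
    exact hmax.out
  rw [Module.length_pi, h2, mul_one, ENat.card_eq_coe_fintype_card, Fintype.card_coe] at h1
  exact h1

end Pool.Agent.Helper816.KOne
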