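import Mathlib
import Pool.Agent.Helper816.KM

set_option autoImplicit false

open CategoryTheory Limits

/-! `Tor` against the quotient by a sequence resolved by its Koszul complex. -/

namespace Pool.Agent.Helper816.KTor

open Pool.Agent.Helper816.Koszul Pool.Agent.Helper816.KM

variable {S : Type} [CommRing S] {r : ℕ} (f : Fin r → S)

lemma kd_comp (i : ℕ) : (kd f i).comp (kd f (i + 1)) = 0 := by
  apply LinearMap.ext
  intro v
  funext G
  rw [LinearMap.comp_apply]
  have : kd f (i + 1) v = fun F => kD f (ext0 (i + 1 + 1) v) F.1 := by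
    funext F; rw [kd_apply_eq]
  rw [this, kd_restrict, kD_kD]
  rfl

/-- The Koszul complex. -/
noncomputable def Kc : ChainComplex (ModuleCat.{0} S) ℕ :=
  ChainComplex.of (fun i => ModuleCat.of S ({F : Finset (Fin r) // F.card = i} → S))
    (fun i => ModuleCat.ofHom (kd f i))
    (fun i => by
      rw [← ModuleCat.ofHom_comp, kd_comp]
      rfl)

lemma Kc_X (i : ℕ) : (Kc f).X i = ModuleCat.of S ({F : Finset (Fin r) // F.card = i} → S) := rfl

lemma Kc_d (i : ℕ) : (Kc f).d (i + 1) i = ModuleCat.ofHom (kd f i) := by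
  exact ChainComplex.of_d (V := ModuleCat.{0} S)
    (fun i => ModuleCat.of S ({F : Finset (Fin r) // F.card = i} → S))
    (fun i => ModuleCat.ofHom (kd f i)) i

/-- augmentation -/
noncomputable def aug (J : Ideal S) : ({F : Finset (Fin r) // F.card = 0} → S) →ₗ[S] (S ⧸ J) :=
  (Ideal.Quotient.mkₐ S J).toLinearMap.comp (LinearMap.proj ⟨∅, rfl⟩)

lemma aug_apply (J : Ideal S) (u : {F : Finset (Fin r) // F.card = 0} → S) :
    aug J u = Ideal.Quotient.mk J (u ⟨∅, rfl⟩) := rfl

lemma aug_exact (J : Ideal S) (hJ : J = Ideal.span (Set.range f)) :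
    LinearMap.range (kd f 0) = LinearMap.ker (aug (r := r) J) := by
  ext u
  rw [koszul_range_zero, LinearMap.mem_ker, aug_apply, Ideal.Quotient.eq_zero_iff_mem, hJ]

lemma aug_surj (J : Ideal S) : Function.Surjective (aug (r := r) J) := by
  intro y
  obtain ⟨a, rfl⟩ := Ideal.Quotient.mk_surjective y
  exact ⟨fun _ => a, rfl⟩

lemma aug_comp (J : Ideal S) (hJ : J = Ideal.span (Set.range f)) :
    ModuleCat.ofHom (kd f 0) ≫ ModuleCat.ofHom (aug (r := r) J) = 0 := by
  rw [← ModuleCat.ofHom_comp]
  have h2 : (aug (r := r) J).comp (kd f 0) = 0 := by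
    apply LinearMap.ext
    intro u
    have : kd f 0 u ∈ LinearMap.ker (aug (r := r) J) := by
      rw [← aug_exact f J hJ]; exact ⟨u, rfl⟩
    exact this
  rw [h2]
  rfl

lemma aug_epi (J : Ideal S) : Epi (ModuleCat.ofHom (aug (r := r) J)) :=
  (ModuleCat.epi_iff_surjective _).2 (aug_surj J)

/-- The augmentation as a chain map. -/
noncomputable def Kpi (J : Ideal S) (hJ : J = Ideal.span (Set.range f)) :
    Kc f ⟶ (ChainComplex.single₀ (ModuleCat.{0} S)).obj (ModuleCat.of S (S ⧸ J)) :=
  (ChainComplex.toSingle₀Equiv _ _).symm ⟨ModuleCat.ofHom (aug J),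
    (congrArg (fun t => t ≫ ModuleCat.ofHom (aug J)) (Kc_d f 0)).trans (aug_comp f J hJ)⟩

lemma Kc_exactAt (hreg : ∀ (j : Fin r) (a : S), f j * a ∈ Ideal.span (f '' {l | j < l}) →
      a ∈ Ideal.span (f '' {l | j < l})) (n : ℕ) : (Kc f).ExactAt (n + 1) := by
  rw [HomologicalComplex.exactAt_iff' _ (n + 1 + 1) (n + 1) n (by simp) (by simp)]
  rw [ShortComplex.moduleCat_exact_iff_range_eq_ker]
  have h1 : ((Kc f).sc' (n + 1 + 1) (n + 1) n).f = ModuleCat.ofHom (kd f (n + 1)) := Kc_d f (n + 1)
  have h2 : ((Kc f).sc' (n + 1 + 1) (n + 1) n).g = ModuleCat.ofHom (kd f n) := Kc_d f n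
  rw [h1, h2]
  exact koszul_exact f hreg n

/-- The Koszul resolution. -/
noncomputable def Kres (J : Ideal S) (hJ : J = Ideal.span (Set.range f))
    (hreg : ∀ (j : Fin r) (a : S), f j * a ∈ Ideal.span (f '' {l | j < l}) →
      a ∈ Ideal.span (f '' {l | j < l})) :
    ProjectiveResolution (ModuleCat.of S (S ⧸ J)) where
  complex := Kc f
  projective := fun n => by
    rw [Kc_X]
    infer_instance
  π := Kpi f J hJ
  quasiIso := ⟨fun n => by
    cases n
    · rw [ChainComplex.quasiIsoAt₀_iff, ShortComplex.quasiIso_iff_of_zeros']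
      · constructor
        · rw [ShortComplex.moduleCat_exact_iff_range_eq_ker]
          have h1 : (Kc f).d 1 0 = ModuleCat.ofHom (kd f 0) := Kc_d f 0
          have h2 : (Kpi f J hJ).f 0 = ModuleCat.ofHom (aug J) :=
            ChainComplex.toSingle₀Equiv_symm_apply_f_zero _ _
          change LinearMap.range ((Kc f).d 1 0).hom = LinearMap.ker ((Kpi f J hJ).f 0).hom
          rw [h1, h2]
          exact aug_exact f J hJ
        · have h2 : (Kpi f J hJ).f 0 = ModuleCat.ofHom (aug J) :=
            ChainComplex.toSingle₀Equiv_symm_apply_f_zero _ _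
          change Epi ((Kpi f J hJ).f 0)
          rw [h2]
          exact aug_epi J
      all_goals rfl
    · rw [quasiIsoAt_iff_exactAt']
      · exact Kc_exactAt f hreg _
      · apply ChainComplex.exactAt_succ_single_obj⟩

section tensor

variable (M : Type) [AddCommGroup M] [Module S M]

open TensorProduct MonoidalCategory

/-- extension by zero of a function on subsets of size `i` -/
def extM (i : ℕ) : ({F : Finset (Fin r) // F.card = i} → M) →ₗ[S] (Finset (Fin r) → M) where
  toFun u F := if h : F.card = i then u ⟨F, h⟩ else 0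
  map_add' u v := by
    funext F
    show (if h : F.card = i then (u + v) ⟨F, h⟩ else 0) =
      (if h : F.card = i then u ⟨F, h⟩ else 0) + (if h : F.card = i then v ⟨F, h⟩ else 0)
    split_ifs
    · rfl
    · rw [add_zero]
  map_smul' a u := by
    funext F
    show (if h : F.card = i then (a • u) ⟨F, h⟩ else 0) =
      a • (if h : F.card = i then u ⟨F, h⟩ else 0)
    split_ifs
    · rfl
    · rw [smul_zero]

lemma extM_mem (i : ℕ) (u : {F : Finset (Fin r) // F.card = i} → M) :
    extM (S := S) M i u ∈ dg S M r i := by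
  intro F hF
  exact dif_neg hF

/-- the comparison map -/
noncomputable def cmp (i : ℕ) : M ⊗[S] ({F : Finset (Fin r) // F.card = i} → S) →ₗ[S]
    (Finset (Fin r) → M) :=
  (extM M i).comp (TensorProduct.piScalarRight S S M {F : Finset (Fin r) // F.card = i}).toLinearMap

lemma cmp_mem (i : ℕ) (u : M ⊗[S] ({F : Finset (Fin r) // F.card = i} → S)) :
    cmp M i u ∈ dg S M r i := extM_mem M i _

lemma cmp_inj (i : ℕ) : Function.Injective (cmp (S := S) (r := r) M i) := by
  intro u v h
  apply (TensorProduct.piScalarRight S S M {F : Finset (Fin r) // F.card = i}).injective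
  funext F
  have h1 := congrFun h F.1
  change (if h : F.1.card = i then _ else 0) = (if h : F.1.card = i then _ else 0) at h1
  rw [dif_pos F.2, dif_pos F.2] at h1
  exact h1

lemma cmp_surj (i : ℕ) (u : Finset (Fin r) → M) (hu : u ∈ dg S M r i) :
    ∃ v, cmp (S := S) M i v = u := by
  refine ⟨(TensorProduct.piScalarRight S S M {F : Finset (Fin r) // F.card = i}).symm
    (fun F => u F.1), ?_⟩
  unfold cmp
  rw [LinearMap.comp_apply, LinearEquiv.coe_coe, LinearEquiv.apply_symm_apply]
  funext F
  show (if h : F.card = i then u F else 0) = u F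
  split_ifs with h
  · rfl
  · rw [hu F h]

lemma cmp_tmul (i : ℕ) (m : M) (u : {F : Finset (Fin r) // F.card = i} → S)
    (F : Finset (Fin r)) :
    cmp M i (m ⊗ₜ u) F = if h : F.card = i then u ⟨F, h⟩ • m else 0 := by
  unfold cmp
  rw [LinearMap.comp_apply, LinearEquiv.coe_coe]
  show (if h : F.card = i then _ else 0) = _
  rfl

lemma cmp_comm (i : ℕ) (u : M ⊗[S] ({F : Finset (Fin r) // F.card = i + 1} → S)) :
    cmp M i ((kd f i).lTensor M u) = kDM f (cmp M (i + 1) u) := by
  induction u using TensorProduct.induction_on with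
  | zero => simp
  | add x y hx hy => rw [map_add, map_add, map_add, map_add, hx, hy]
  | tmul m u =>
    rw [LinearMap.lTensor_tmul]
    funext G
    rw [cmp_tmul]
    by_cases hG : G.card = i
    · rw [dif_pos hG, kDM_apply]
      change (∑ j : Fin r, if h : j ∉ G then
        ksign S j G * f j * u ⟨insert j G, by rw [Finset.card_insert_of_notMem h, hG]⟩ else 0) • m = _
      rw [Finset.sum_smul]
      apply Finset.sum_congr rfl
      intro j _
      by_cases h : j ∈ G
      · rw [dif_neg (by simpa using h), if_neg (by simpa using h), zero_smul]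
      · rw [dif_pos h, if_pos h, cmp_tmul, dif_pos (by rw [Finset.card_insert_of_notMem h, hG]),
          smul_smul]
    · rw [dif_neg hG]
      exact (kDM_dg f (cmp_mem M (i + 1) _) G hG).symm

/-- Length of the homology of a short complex of modules mapping injectively. -/
lemma length_homology_le (T : ShortComplex (ModuleCat.{0} S)) {Q : Type} [AddCommGroup Q]
    [Module S Q] (Z2 B2 : Submodule S Q) (φ : T.X₂ →ₗ[S] Q)
    (h1 : ∀ u, T.g.hom u = 0 → φ u ∈ Z2)
    (h2 : ∀ u, T.g.hom u = 0 → φ u ∈ B2 → u ∈ LinearMap.range T.f.hom) :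
    Module.length S T.homology ≤ Module.length S (↥Z2 ⧸ B2.submoduleOf Z2) := by
  rw [(T.moduleCatHomologyIso.toLinearEquiv).length_eq]
  change Module.length S (LinearMap.ker T.g.hom ⧸ LinearMap.range T.moduleCatToCycles) ≤ _
  have h3 : LinearMap.range T.moduleCatToCycles =
      (LinearMap.range T.f.hom).submoduleOf (LinearMap.ker T.g.hom) :=
    LinearMap.range_codRestrict _ _ _
  rw [h3]
  exact length_hom_le _ _ Z2 B2 φ (fun u hu => h1 u (LinearMap.mem_ker.1 hu))
    (fun u hu hu2 => h2 u (LinearMap.mem_ker.1 hu) hu2)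

theorem tor_le (J : Ideal S) (hJ : J = Ideal.span (Set.range f))
    (hreg : ∀ (j : Fin r) (a : S), f j * a ∈ Ideal.span (f '' {l | j < l}) →
      a ∈ Ideal.span (f '' {l | j < l})) (i : ℕ) :
    Module.length S (((Tor (ModuleCat.{0} S) (i + 1)).obj (ModuleCat.of S M)).obj
      (ModuleCat.of S (S ⧸ J))) ≤ hl M f (i + 1) := by
  have e1 := (Kres f J hJ hreg).isoLeftDerivedObj
    ((tensoringLeft (ModuleCat.{0} S)).obj (ModuleCat.of S M)) (i + 1)
  have e2 := e1.toLinearEquiv.length_eq
  refine (le_of_eq e2).trans ?_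
  set K' := (((tensoringLeft (ModuleCat.{0} S)).obj (ModuleCat.of S M)).mapHomologicalComplex
    (ComplexShape.down ℕ)).obj (Kc f) with hK'
  change Module.length S (K'.homology (i + 1)) ≤ _
  have e3 : K'.homology (i + 1) ≅ (K'.sc' (i + 1 + 1) (i + 1) i).homology :=
    ShortComplex.homologyMapIso (K'.isoSc' (i + 1 + 1) (i + 1) i (by simp) (by simp))
  rw [e3.toLinearEquiv.length_eq]
  have hd : ∀ n, K'.d (n + 1) n =
      (ModuleCat.of S M) ◁ (ModuleCat.ofHom (kd f n)) := by
    intro n
    change (ModuleCat.of S M) ◁ ((Kc f).d (n + 1) n) = _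
    rw [Kc_d]
    rfl
  have hf : (K'.sc' (i + 1 + 1) (i + 1) i).f.hom = (kd f (i + 1)).lTensor M := by
    change (K'.d (i + 1 + 1) (i + 1)).hom = _
    rw [hd]
    rfl
  have hg : (K'.sc' (i + 1 + 1) (i + 1) i).g.hom = (kd f i).lTensor M := by
    change (K'.d (i + 1) i).hom = _
    rw [hd]
    rfl
  apply length_homology_le _ (ZZ M f (i + 1)) (BB M f (i + 1)) (cmp M (i + 1))
  · intro u hu
    rw [hg] at hu
    have h1 : (kd f i).lTensor M u = 0 := hu
    have h2 : cmp M i ((kd f i).lTensor M u) = kDM f (cmp M (i + 1) u) := cmp_comm f M i u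
    rw [h1, map_zero] at h2
    exact ⟨cmp_mem M (i + 1) u, LinearMap.mem_ker.2 h2.symm⟩
  · intro u hu hB
    obtain ⟨v, hv, hvu⟩ := hB
    obtain ⟨v', rfl⟩ := cmp_surj M (i + 1 + 1) v hv
    have h2 : cmp M (i + 1) ((kd f (i + 1)).lTensor M v') =
      kDM f (cmp M (i + 1 + 1) v') := cmp_comm f M (i + 1) v'
    have h1 := cmp_inj M (i + 1) (h2.trans hvu)
    rw [hf]
    exact ⟨v', h1⟩

end tensor

end Pool.Agent.Helper816.KTor
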