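import Mathlib
import Pool.Agent.Helper816.TCFin

set_option autoImplicit false
set_option linter.unusedSectionVars false

open Finset MvPolynomial

namespace Pool.Agent.Helper816.TCMain

open Pool.Agent.Helper816.TCAlg Pool.Agent.Helper816.TCC Pool.Agent.Helper816.TCFin
open Pool.Agent.Helper816.TC (Mem Adj conn Inn)

variable {e : ℕ} {g : Fin (e + 1) → ℕ}

lemma arith1 (e N T τ w Cp : ℕ) (h1 : N = w ∨ 2 * N ≤ w) (h2 : e ≤ N)
    (h3 : 1 ≤ τ) (h4 : τ * N ≤ w) (h5 : Cp + τ ≤ 1 + τ * T) (h6 : e * (T + 1) ≤ N ^ 2 + e) :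
    e * (Cp + 1) ≤ w ^ 2 + w := by
  have hNw : N ≤ w := by rcases h1 with h | h <;> omega
  have h7 : e * T ≤ N ^ 2 := by
    have : e * (T + 1) = e * T + e := by ring
    omega
  have h8 : e * Cp + e * τ ≤ e + τ * N ^ 2 := by
    calc e * Cp + e * τ = e * (Cp + τ) := by ring
      _ ≤ e * (1 + τ * T) := Nat.mul_le_mul_left _ h5
      _ = e + τ * (e * T) := by ring
      _ ≤ _ := by
        have := Nat.mul_le_mul_left τ h7
        omega
  rcases Nat.lt_or_ge τ 2 with h | h
  · have hτ : τ = 1 := by omega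
    subst hτ
    have h9 : N ^ 2 ≤ w ^ 2 := Nat.pow_le_pow_left hNw 2
    have h10 : e * (Cp + 1) = e * Cp + e := by ring
    omega
  · have h9 : τ * N ^ 2 ≤ w * w := by
      calc τ * N ^ 2 = (τ * N) * N := by ring
        _ ≤ w * w := Nat.mul_le_mul h4 hNw
    have h10 : e * 2 ≤ e * τ := Nat.mul_le_mul_left _ h
    have h11 : e * (Cp + 1) = e * Cp + e := by ring
    have h12 : w ^ 2 = w * w := by ring
    omega

/-- Upper bound for the number of relations. -/
theorem bound1 (he : 1 ≤ e) (hg : StrictMono g) (h0 : 0 < g 0) :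
    ∃ R : Finset ((Option (Fin (e + 1)) → ℕ) × (Option (Fin (e + 1)) → ℕ)),
      2 * R.card ≤ (g (Fin.last e) - g 0) ^ 2 + (g (Fin.last e) - g 0) ∧
      ∀ a b : Option (Fin (e + 1)) → ℕ,
        (addConGen (fun x y => (x, y) ∈ R)) a b ↔ TC.val (gam g) a = TC.val (gam g) b := by
  classical
  obtain ⟨Cp, hCp, N, T, τ, h1, h2, h3, h4, h5, _, h6, _, _⟩ := cp he hg h0
  have D := data he hg h0
  have hcard : Fintype.card (Option (Fin (e + 1))) = (e - 1) + 3 := by
    rw [Fintype.card_option, Fintype.card_fin]; omega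
  obtain ⟨R, hR, hRc⟩ := D.count Cp hCp (e - 1) (e - 1) hcard (le_refl _) (by
    intro b _ _ _ s hs
    have hsub : s ⊆ ((univ.erase (some 0)).erase (some (Fin.last e))).erase none := by
      intro i hi
      obtain ⟨h1, h2, h3⟩ := D.inn_ne (hs i hi)
      simp only [Finset.mem_erase, Finset.mem_univ, and_true]
      exact ⟨h3, h2, h1⟩
    have h7 := Finset.card_le_card hsub
    rw [Finset.card_erase_of_mem (by simp),
      Finset.card_erase_of_mem (by simp [D.hxy.symm]),
      Finset.card_erase_of_mem (by simp), Finset.card_univ, hcard] at h7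
    omega) ∅ (by simp)
  refine ⟨R, ?_, hRc⟩
  have h7 := arith1 e N T τ (g (Fin.last e) - g 0) Cp.card h1 h2 h3 h4 h5 h6
  have h8 : e - 1 + 1 = e := by omega
  rw [h8] at hR
  have h9 : e * (Cp.card + 1) = e * Cp.card + e := by ring
  have h10 : (e - 1 - (e - 1)) * e = 0 := by simp
  rw [h10] at hR
  simp only [Finset.card_empty] at hR
  omega

theorem main1 (k : Type) [Field k] {e : ℕ} (g : Fin (e + 1) → ℕ) (hg : StrictMono g)
    (h0 : 0 < g 0) : ∃ S : Finset (MvPolynomial (Fin (e + 1)) k),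
      Ideal.span (S : Set (MvPolynomial (Fin (e + 1)) k)) = Ideal.span (star k g) ∧
      S.card ≤ Nat.choose (g (Fin.last e) - g 0 + 1) 2 := by
  classical
  rw [span_star]
  rcases Nat.eq_zero_or_pos e with he | he
  · subst he
    refine ⟨∅, ?_, Nat.zero_le _⟩
    rw [Finset.coe_empty, Ideal.span_empty, eq_comm, Ideal.span_eq_bot]
    have hw : ∀ u : Fin 1 →₀ ℕ, Finsupp.weight g u = u 0 * g 0 := by
      intro u
      rw [Finsupp.weight_apply, Finsupp.sum_fintype]
      · simp
      · simp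
    have hinj : ∀ u v : Fin 1 →₀ ℕ, Finsupp.weight g u = Finsupp.weight g v → u = v := by
      intro u v h
      rw [hw, hw] at h
      apply Finsupp.ext
      intro i
      have hi : i = 0 := Subsingleton.elim _ _
      rw [hi]
      exact Nat.eq_of_mul_eq_mul_right h0 h
    rintro p (⟨u, v, _, h2, rfl⟩ | ⟨u, v, h1, h2, rfl⟩)
    · rw [hinj u v h2, sub_self]
    · rw [hinj u v h2] at h1
      exact absurd h1 (lt_irrefl _)
  · obtain ⟨R, hR, hRc⟩ := bound1 he hg h0
    refine ⟨R.image (fun p => m0 k p.1 - m0 k p.2), ?_, ?_⟩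
    · rw [← span_pres k R hRc, Finset.coe_image]
    · refine Finset.card_image_le.trans ?_
      rw [Nat.choose_two_right, Nat.le_div_iff_mul_le (by norm_num)]
      have h1 : (g (Fin.last e) - g 0 + 1) * (g (Fin.last e) - g 0 + 1 - 1) =
        (g (Fin.last e) - g 0) ^ 2 + (g (Fin.last e) - g 0) := by
        rw [Nat.add_sub_cancel]; ring
      rw [h1]
      omega

end Pool.Agent.Helper816.TCMain
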