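import Mathlib
import Pool.Agent.Helper816.KLen
import Pool.Agent.Helper816.KTor
import Pool.Agent.Helper816.KOne
import Pool.Agent.Helper816.KG
import Pool.Agent.Helper816.KNum
import Pool.Agent.Helper816.TCHole
import Pool.Agent.Helper816.TCMain

set_option autoImplicit false
set_option linter.unusedSectionVars false

open Finset MvPolynomial

namespace Pool.Agent.Helper816.KFinal

open Pool.Agent.Helper816.KM Pool.Agent.Helper816.KG Pool.Agent.Helper816.KTor
open Pool.Agent.Helper816.TCAlg Pool.Agent.Helper816.TCFin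
open Pool.Agent.Helper816.TCC (gam vv al val_fst val_snd vv_apply Hole)
open Pool.Agent.Helper816.TC (Mem Adj vx_iff val_add val_single)

/-! ### The enumeration of the variables -/

/-- first variable, last variable, then the others -/
def ix (c : ℕ) : Fin (c + 2) → Fin (c + 2) :=
  Fin.cons 0 (Fin.cons (Fin.last (c + 1)) (fun j : Fin c => j.castSucc.succ))

lemma ix_zero (c : ℕ) : ix c 0 = 0 := rfl
lemma ix_one (c : ℕ) : ix c (Fin.succ 0) = Fin.last (c + 1) := rfl
lemma ix_succ (c : ℕ) (j : Fin c) : ix c j.succ.succ = j.castSucc.succ := rfl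

lemma ix_inj (c : ℕ) : Function.Injective (ix c) := by
  unfold ix
  rw [Fin.cons_injective_iff]
  constructor
  · rintro ⟨j, hj⟩
    revert hj
    refine Fin.cases ?_ (fun j => ?_) j
    · intro h
      have h1 := congrArg Fin.val h
      simp at h1
    · intro h
      have h1 := congrArg Fin.val h
      simp at h1
  · rw [Fin.cons_injective_iff]
    constructor
    · rintro ⟨j, hj⟩
      have h1 := congrArg Fin.val hj
      simp at h1
      omega
    · intro a b hab
      exact Fin.castSucc_injective _ (Fin.succ_injective _ hab)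

lemma ix_surj (c : ℕ) : Function.Surjective (ix c) := Finite.surjective_of_injective (ix_inj c)

lemma hreg_of_inj {K : Type} [Field K] {n r : ℕ} (ι : Fin r → Fin n)
    (hι : Function.Injective ι) (j : Fin r) (a : MvPolynomial (Fin n) K)
    (h : X (ι j) * a ∈ Ideal.span ((fun l => (X (ι l) : MvPolynomial (Fin n) K)) '' {l | j < l})) :
    a ∈ Ideal.span ((fun l => (X (ι l) : MvPolynomial (Fin n) K)) '' {l | j < l}) := by
  classical
  have h1 : (fun l => (X (ι l) : MvPolynomial (Fin n) K)) '' {l | j < l} =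
      (X : Fin n → MvPolynomial (Fin n) K) '' (ι '' {l | j < l}) := by
    rw [Set.image_image]
  rw [h1, mem_ideal_span_X_image] at h ⊢
  intro m hm
  have h2 : Finsupp.single (ι j) 1 + m ∈ (X (ι j) * a).support := by
    rw [mem_support_iff, coeff_X_mul]
    exact mem_support_iff.1 hm
  obtain ⟨i, hi, hi2⟩ := h _ h2
  refine ⟨i, hi, ?_⟩
  obtain ⟨l, hl, rfl⟩ := hi
  have hne : ι l ≠ ι j := fun h3 => by
    have h4 := hι h3
    have h5 : j < l := hl
    rw [h4] at h5
    exact lt_irrefl _ h5
  rw [Finsupp.add_apply, Finsupp.single_eq_of_ne hne, zero_add] at hi2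
  exact hi2

/-! ### The modules -/

section modules

variable (K : Type) [Field K] {c : ℕ} (g : Fin (c + 1 + 1) → ℕ)

/-- the tangent cone ring -/
abbrev GG : Type := MvPolynomial (Fin (c + 1 + 1)) K ⧸ II K g

/-- modulo the first variable -/
abbrev M0 : Type := CK (GG K g) (X 0 : MvPolynomial (Fin (c + 1 + 1)) K)

/-- the kernel of the first variable -/
abbrev M1 : Type := KK (GG K g) (X 0 : MvPolynomial (Fin (c + 1 + 1)) K)

/-- modulo both -/
abbrev M00 : Type := CK (M0 K g) (X (Fin.last (c + 1)) : MvPolynomial (Fin (c + 1 + 1)) K)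

/-- killed by both -/
abbrev M11 : Type := KK (M1 K g) (X (Fin.last (c + 1)) : MvPolynomial (Fin (c + 1 + 1)) K)

/-- the projection -/
noncomputable def pi3 : MvPolynomial (Fin (c + 1 + 1)) K →ₗ[MvPolynomial (Fin (c + 1 + 1)) K] M00 K g :=
  (Submodule.mkQ _).comp ((Submodule.mkQ _).comp (Submodule.mkQ (II K g)))

lemma pi3_surj : Function.Surjective (pi3 K g) := by
  intro z
  obtain ⟨z1, rfl⟩ := Submodule.mkQ_surjective _ z
  obtain ⟨z2, rfl⟩ := Submodule.mkQ_surjective _ z1
  obtain ⟨z3, rfl⟩ := Submodule.mkQ_surjective _ z2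
  exact ⟨z3, rfl⟩

lemma pi3_II {p : MvPolynomial (Fin (c + 1 + 1)) K} (hp : p ∈ II K g) : pi3 K g p = 0 := by
  unfold pi3
  rw [LinearMap.comp_apply, LinearMap.comp_apply]
  have h1 : Submodule.mkQ (II K g) p = 0 := by
    rw [Submodule.mkQ_apply, Submodule.Quotient.mk_eq_zero]
    exact hp
  rw [h1, map_zero, map_zero]

lemma pi3_x (p : MvPolynomial (Fin (c + 1 + 1)) K) : pi3 K g (X 0 * p) = 0 := by
  unfold pi3
  rw [LinearMap.comp_apply, LinearMap.comp_apply]
  have h1 : (LinearMap.range (LinearMap.lsmul (MvPolynomial (Fin (c + 1 + 1)) K) (GG K g)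
      (X 0))).mkQ (Submodule.mkQ (II K g) (X 0 * p)) = 0 := by
    rw [Submodule.mkQ_apply, Submodule.Quotient.mk_eq_zero]
    exact ⟨Submodule.mkQ (II K g) p, rfl⟩
  rw [h1, map_zero]

lemma pi3_y (p : MvPolynomial (Fin (c + 1 + 1)) K) :
    pi3 K g (X (Fin.last (c + 1)) * p) = 0 := by
  unfold pi3
  rw [LinearMap.comp_apply, Submodule.mkQ_apply, Submodule.Quotient.mk_eq_zero]
  exact ⟨((Submodule.mkQ _).comp (Submodule.mkQ (II K g))) p, rfl⟩

lemma pi3_rho (hg : StrictMono g) (Cp : Finset (ℤ × ℤ))
    (hCp : ∀ s, s ∈ Cp ↔ Mem (gam g) s ∧ ¬ Adj (gam g) s (some 0) (some 0) ∧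
        ¬ Adj (gam g) s (some (Fin.last (c + 1))) (some (Fin.last (c + 1))) ∧
          (s = 0 ∨ 0 < vv (g (Fin.last (c + 1))) s)) (s : ℤ × ℤ) (hs : s ∉ Cp) :
    pi3 K g (rho K g s) = 0 := by
  classical
  unfold rho
  split_ifs with h
  · have hu := h.choose_spec
    set u := h.choose with hudef
    have hmem : Mem (gam g) s := by rw [← hu]; exact pos_mem u
    by_cases hx : Adj (gam g) s (some 0) (some 0)
    · rw [← hu] at hx
      obtain ⟨p, hp⟩ := R3 K hx
      have h1 := pi3_II K g hp
      rw [map_sub, pi3_x, sub_zero] at h1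
      exact h1
    by_cases hy : Adj (gam g) s (some (Fin.last (c + 1))) (some (Fin.last (c + 1)))
    · rw [← hu] at hy
      obtain ⟨p, hp⟩ := R3 K hy
      have h1 := pi3_II K g hp
      rw [map_sub, pi3_y, sub_zero] at h1
      exact h1
    exfalso
    apply hs
    rw [hCp]
    refine ⟨hmem, hx, hy, ?_⟩
    by_cases hs0 : s = 0
    · exact Or.inl hs0
    right
    have hulast : u (Fin.last (c + 1)) = 0 := by
      by_contra hne
      apply hy
      refine ⟨fun o => o.elim 0 u, ?_, Nat.pos_of_ne_zero hne, Nat.pos_of_ne_zero hne⟩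
      rw [pos_word, hu]
    have hune : u ≠ 0 := by
      intro h0
      apply hs0
      rw [← hu, h0]
      simp [pos]
    have hex : ∃ i, u i ≠ 0 := by
      by_contra hcon
      push Not at hcon
      exact hune (Finsupp.ext hcon)
    obtain ⟨i, hi⟩ := hex
    rw [vv_apply, ← hu]
    simp only [pos]
    have hw : Finsupp.weight g u = ∑ l, u l * g l := by
      have := Toric.weight_fun g (fun i => u i)
      simpa [Count.wt] using this
    rw [hw, degree_fun]
    have h2 : ∑ l, u l * g l < ∑ l, u l * g (Fin.last (c + 1)) := by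
      apply Finset.sum_lt_sum
      · intro l _
        exact Nat.mul_le_mul_left _ (hg.monotone (Fin.le_last l))
      · refine ⟨i, Finset.mem_univ _, ?_⟩
        apply Nat.mul_lt_mul_of_pos_left _ (Nat.pos_of_ne_zero hi)
        apply hg
        apply lt_of_le_of_ne (Fin.le_last i)
        intro h3
        rw [h3] at hi
        exact hi hulast
    rw [← Finset.sum_mul] at h2
    have h3 : ((∑ l, u l * g l : ℕ) : ℤ) < ((∑ l, u l) * g (Fin.last (c + 1)) : ℕ) := by
      exact_mod_cast h2
    rw [Nat.cast_mul] at h3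
    linarith
  · exact map_zero _

lemma length_M00 (hg : StrictMono g) (Cp : Finset (ℤ × ℤ))
    (hCp : ∀ s, s ∈ Cp ↔ Mem (gam g) s ∧ ¬ Adj (gam g) s (some 0) (some 0) ∧
        ¬ Adj (gam g) s (some (Fin.last (c + 1))) (some (Fin.last (c + 1))) ∧
          (s = 0 ∨ 0 < vv (g (Fin.last (c + 1))) s)) :
    Module.length K (M00 K g) ≤ Cp.card := by
  classical
  refine le_trans (length_le_card (Cp.image (fun s => pi3 K g (rho K g s))) ?_) ?_
  · rw [eq_top_iff]
    intro z _
    obtain ⟨p, rfl⟩ := pi3_surj K g z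
    have h1 := pi3_II K g (rec_eq (g := g) K p)
    rw [map_sub, sub_eq_zero] at h1
    rw [h1, Finsupp.linearCombination_apply, Finsupp.sum, map_sum]
    apply Submodule.sum_mem
    intro s _
    rw [LinearMap.map_smul_of_tower]
    apply Submodule.smul_mem
    by_cases hs : s ∈ Cp
    · apply Submodule.subset_span
      rw [Finset.coe_image]
      exact ⟨s, hs, rfl⟩
    · rw [pi3_rho K g hg Cp hCp s hs]
      exact Submodule.zero_mem _
  · exact_mod_cast Finset.card_image_le

lemma length_M11 (Dh : Finset (ℤ × ℤ)) (hDh : ∀ s, s ∈ Dh ↔ Hole g s) :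
    Module.length K (M11 K g) ≤ Dh.card := by
  classical
  set T : Finset (GG K g) := Dh.image (fun h => Submodule.Quotient.mk (rho K g (h + gam g none)))
    with hT
  have hmem : ∀ w : M11 K g, w.1.1 ∈ Submodule.span K (T : Set (GG K g)) := by
    rintro ⟨⟨w, hw1⟩, hw2⟩
    obtain ⟨p, rfl⟩ := Submodule.Quotient.mk_surjective _ w
    rw [LinearMap.mem_ker, LinearMap.lsmul_apply] at hw1
    rw [LinearMap.mem_ker, LinearMap.lsmul_apply] at hw2
    have hw3 := congrArg Subtype.val hw2
    have hx : X 0 * p ∈ II K g := by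
      rw [← Submodule.Quotient.mk_smul, Submodule.Quotient.mk_eq_zero] at hw1
      exact hw1
    have hy : X (Fin.last (c + 1)) * p ∈ II K g := by
      change X (Fin.last (c + 1)) • (Submodule.Quotient.mk p : GG K g) = 0 at hw3
      rw [← Submodule.Quotient.mk_smul, Submodule.Quotient.mk_eq_zero] at hw3
      exact hw3
    have hrec := rec_eq (g := g) K p
    have h1 : (Submodule.Quotient.mk p : GG K g) =
        Submodule.Quotient.mk (Finsupp.linearCombination K (rho K g) (Psi K (g := g) p)) := by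
      rw [Submodule.Quotient.eq]
      exact hrec
    show (Submodule.Quotient.mk p : GG K g) ∈ _
    rw [h1, Finsupp.linearCombination_apply, Finsupp.sum]
    have h2 : (Submodule.Quotient.mk (∑ a ∈ (Psi K (g := g) p).support,
        (Psi K (g := g) p) a • rho K g a) : GG K g) =
        ∑ a ∈ (Psi K (g := g) p).support,
          (Psi K (g := g) p) a • (Submodule.Quotient.mk (rho K g a) : GG K g) := by
      rw [← Submodule.mkQ_apply, map_sum]
      apply Finset.sum_congr rfl
      intro a _
      rw [LinearMap.map_smul_of_tower]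
      rfl
    rw [h2]
    apply Submodule.sum_mem
    intro s hs
    apply Submodule.smul_mem
    apply Submodule.subset_span
    rw [hT, Finset.coe_image]
    rw [Finsupp.mem_support_iff] at hs
    refine ⟨s - gam g none, ?_, by simp only [sub_add_cancel]⟩
    rw [Finset.mem_coe, hDh]
    obtain ⟨⟨u, hu⟩, hs2⟩ := Psi_supp K p s hs
    have hxx : Mem (gam g) (s + gam g (some 0) - gam g none) := by
      by_contra hcon
      have h3 := Psi_X K (g := g) 0 p s
      rw [Psi_II K hx, if_neg hcon] at h3
      exact hs h3.symm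
    have hyy : Mem (gam g) (s + gam g (some (Fin.last (c + 1))) - gam g none) := by
      by_contra hcon
      have h3 := Psi_X K (g := g) (Fin.last (c + 1)) p s
      rw [Psi_II K hy, if_neg hcon] at h3
      exact hs h3.symm
    refine ⟨hs2, ?_, ?_, ?_⟩
    · convert hxx using 1; abel
    · convert hyy using 1; abel
    · rw [sub_add_cancel, ← hu]; exact pos_mem u
  let ψ : M11 K g →ₗ[K] Submodule.span K (T : Set (GG K g)) :=
    { toFun := fun w => ⟨w.1.1, hmem w⟩
      map_add' := fun _ _ => rfl
      map_smul' := fun _ _ => rfl }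
  have hψ : Function.Injective ψ := by
    intro a b hab
    apply Subtype.ext
    apply Subtype.ext
    have h1 : (ψ a).1 = (ψ b).1 := by rw [hab]
    exact h1
  refine (Module.length_le_of_injective ψ hψ).trans ((length_span_le_card T).trans ?_)
  exact_mod_cast Finset.card_image_le

/-- the last variable acts nilpotently -/
lemma nilp (hg : StrictMono g) (w : GG K g) :
    (X (Fin.last (c + 1)) : MvPolynomial (Fin (c + 1 + 1)) K) ^ (g 0) • w = 0 := by
  obtain ⟨p, rfl⟩ := Submodule.Quotient.mk_surjective _ w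
  rw [← Submodule.Quotient.mk_smul, Submodule.Quotient.mk_eq_zero, smul_eq_mul]
  apply Ideal.mul_mem_right
  rw [X_pow_eq_monomial]
  apply Ideal.subset_span
  right
  refine ⟨_, Finsupp.single 0 (g (Fin.last (c + 1))), ?_, ?_, rfl⟩
  · rw [Finsupp.degree_single, Finsupp.degree_single]
    apply hg
    rw [Fin.lt_def]
    simp
  · rw [Finsupp.weight_single, Finsupp.weight_single, smul_eq_mul, smul_eq_mul, mul_comm]

/-- linear coefficient functional -/
noncomputable def lc (K : Type) [Field K] {c : ℕ} (i : Fin (c + 1 + 1)) :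
    MvPolynomial (Fin (c + 1 + 1)) K →ₗ[K] K :=
  MvPolynomial.lcoeff K (Finsupp.single i 1)

lemma lc_apply (i : Fin (c + 1 + 1)) (p : MvPolynomial (Fin (c + 1 + 1)) K) :
    lc K i p = coeff (Finsupp.single i 1) p := rfl

lemma lc_X_mul (i j : Fin (c + 1 + 1)) (hij : i ≠ j) (p : MvPolynomial (Fin (c + 1 + 1)) K) :
    lc K i (X j * p) = 0 := by
  classical
  rw [lc_apply, coeff_X_mul', if_neg]
  rw [Finsupp.mem_support_iff, not_not, Finsupp.single_eq_of_ne hij.symm]

variable (hpos : ∀ i, 0 < g i)
    (hmin : ∀ j : Fin (c + 1 + 1), ¬ ∃ d : Fin (c + 1 + 1) → ℕ, d j = 0 ∧ ∑ l, d l * g l = g j)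

/-- the functional on the quotient -/
noncomputable def lam (i : Fin (c + 1 + 1)) (h0 : i ≠ 0) (hl : i ≠ Fin.last (c + 1)) :
    M00 K g →ₗ[K] K :=
  liftK _ (liftK _ (liftK _ (lc K i)
    (fun m hm => low K hpos hmin hm _ (by rw [Finsupp.degree_single])))
    (by
      rintro _ ⟨w, rfl⟩
      obtain ⟨p, rfl⟩ := Submodule.Quotient.mk_surjective _ w
      exact lc_X_mul K i 0 h0 p))
    (by
      rintro _ ⟨w, rfl⟩
      obtain ⟨w, rfl⟩ := Submodule.Quotient.mk_surjective _ w
      obtain ⟨p, rfl⟩ := Submodule.Quotient.mk_surjective _ w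
      exact lc_X_mul K i (Fin.last (c + 1)) hl p)

lemma lam_pi3 (i : Fin (c + 1 + 1)) (h0 : i ≠ 0) (hl : i ≠ Fin.last (c + 1))
    (p : MvPolynomial (Fin (c + 1 + 1)) K) :
    lam K g hpos hmin i h0 hl (pi3 K g p) = coeff (Finsupp.single i 1) p := rfl

end modules

end Pool.Agent.Helper816.KFinal
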