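import Mathlib
import Pool.Agent.Helper816.KFinal

set_option autoImplicit false
set_option linter.unusedSectionVars false

open Finset MvPolynomial

namespace Pool.Agent.Helper816.KMain

open Pool.Agent.Helper816.KM Pool.Agent.Helper816.KG Pool.Agent.Helper816.KTor
open Pool.Agent.Helper816.KFinal
open Pool.Agent.Helper816.TCAlg Pool.Agent.Helper816.TCFin
open Pool.Agent.Helper816.TCC (gam vv Hole)
open Pool.Agent.Helper816.TC (Mem Adj)

variable (K : Type) [Field K]

/-- The Koszul homology bound in degree at least two. -/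
theorem hl_bound {c : ℕ} (g : Fin (c + 1 + 1) → ℕ) (hg : StrictMono g) (h0 : 0 < g 0)
    (hmin : ∀ j : Fin (c + 1 + 1), ¬ ∃ d : Fin (c + 1 + 1) → ℕ, d j = 0 ∧ ∑ l, d l * g l = g j)
    (s : ℕ) :
    hl (GG K g) (fun j => (X (ix c j) : MvPolynomial (Fin (c + 1 + 1)) K)) (s + 2) ≤
      (((s + 2) * (g (Fin.last (c + 1)) - g 0 + 1).choose (s + 3) : ℕ) : ℕ∞) := by
  classical
  have hpos : ∀ i, 0 < g i := fun i => lt_of_lt_of_le h0 (hg.monotone (Fin.zero_le i))
  obtain ⟨Cp, hCp, Dh, hDh, N, T, τ, h1, h2, h3, h4, h5, h6, h7⟩ :=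
    TCC.cp_hole (e := c + 1) (by omega) hg h0
  have hnum := KNum.final (c + 1) (g (Fin.last (c + 1)) - g 0) s T Dh.card Cp.card N τ (by omega)
    h1 h2 h3 h5 h4 h6 h7
  set x : MvPolynomial (Fin (c + 1 + 1)) K := X 0 with hx
  set y : MvPolynomial (Fin (c + 1 + 1)) K := X (Fin.last (c + 1)) with hy
  set f : Fin (c + 1 + 1) → MvPolynomial (Fin (c + 1 + 1)) K := fun j => X (ix c j) with hf
  set f2 : Fin c → MvPolynomial (Fin (c + 1 + 1)) K := fun j => X (j.castSucc.succ) with hf2
  have hc1 : hl (GG K g) f (s + 2) ≤ hl (M1 K g) (fun j => f j.succ) (s + 1) +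
      hl (M0 K g) (fun j => f j.succ) (s + 2) := hl_cone (M := GG K g) f (s + 1)
  have hc2 : hl (M1 K g) (fun j => f j.succ) (s + 1) ≤ hl (KK (M1 K g) y) f2 s +
      hl (CK (M1 K g) y) f2 (s + 1) := hl_cone (M := M1 K g) (fun j => f j.succ) s
  have hc3 : hl (M0 K g) (fun j => f j.succ) (s + 2) ≤ hl (KK (M0 K g) y) f2 (s + 1) +
      hl (CK (M0 K g) y) f2 (s + 2) := hl_cone (M := M0 K g) (fun j => f j.succ) (s + 1)
  -- lengths
  have hK11 : Module.length K (M11 K g) ≤ Dh.card := length_M11 K g Dh hDh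
  have hK00 : Module.length K (M00 K g) ≤ Cp.card := length_M00 K g hg Cp hCp
  have hA11 : Module.length (MvPolynomial (Fin (c + 1 + 1)) K) (M11 K g) ≤ Dh.card :=
    (length_le_restrict (K := K) _).trans hK11
  have hA00 : Module.length (MvPolynomial (Fin (c + 1 + 1)) K) (M00 K g) ≤ Cp.card :=
    (length_le_restrict (K := K) _).trans hK00
  have hn0 : ∀ m : M0 K g, y ^ (g 0) • m = 0 := by
    intro m
    obtain ⟨w, rfl⟩ := Submodule.Quotient.mk_surjective _ m
    rw [← Submodule.Quotient.mk_smul, nilp K g hg w, Submodule.Quotient.mk_zero]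
  have hn1 : ∀ m : M1 K g, y ^ (g 0) • m = 0 := by
    intro m
    apply Subtype.ext
    show y ^ (g 0) • m.1 = 0
    exact nilp K g hg m.1
  have hA01 : Module.length (MvPolynomial (Fin (c + 1 + 1)) K) (KK (M0 K g) y) ≤ Cp.card := by
    rw [len_eq_coker y (g 0) hn0 (ne_top_of_le_ne_top (ENat.natCast_ne_top _) hA00)]
    exact hA00
  have hA10 : Module.length (MvPolynomial (Fin (c + 1 + 1)) K) (CK (M1 K g) y) ≤ Dh.card := by
    rw [← len_eq_ker y (g 0) hn1 (ne_top_of_le_ne_top (ENat.natCast_ne_top _) hA11)]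
    exact hA11
  -- the four pieces
  have b1 : hl (KK (M1 K g) y) f2 s ≤ ((c.choose s * Dh.card : ℕ) : ℕ∞) := by
    refine (hl_le f2 s).trans ?_
    rw [Nat.cast_mul]
    exact mul_le_mul' le_rfl hA11
  have b2 : hl (CK (M1 K g) y) f2 (s + 1) ≤ ((c.choose (s + 1) * Dh.card : ℕ) : ℕ∞) := by
    refine (hl_le f2 (s + 1)).trans ?_
    rw [Nat.cast_mul]
    exact mul_le_mul' le_rfl hA10
  have b3 : hl (KK (M0 K g) y) f2 (s + 1) ≤ ((c.choose (s + 1) * Cp.card : ℕ) : ℕ∞) := by
    refine (hl_le f2 (s + 1)).trans ?_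
    rw [Nat.cast_mul]
    exact mul_le_mul' le_rfl hA01
  have b4 : hl (CK (M0 K g) y) f2 (s + 2) + ((c + 1).choose (s + 3) : ℕ) ≤
      ((c.choose (s + 2) * Cp.card : ℕ) : ℕ∞) := by
    have hne0 : ∀ j : Fin c, (j.castSucc.succ : Fin (c + 1 + 1)) ≠ 0 := fun j => Fin.succ_ne_zero _
    have hnel : ∀ j : Fin c, (j.castSucc.succ : Fin (c + 1 + 1)) ≠ Fin.last (c + 1) := by
      intro j h
      have h1 := congrArg Fin.val h
      simp at h1
      omega
    have hsav := hl_savings (K := K) (M := M00 K g) f2 (pi3 K g 1)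
      (fun j => lam K g hpos hmin j.castSucc.succ (hne0 j) (hnel j)) (by
        intro j l
        rw [← map_smul, smul_eq_mul, mul_one, lam_pi3]
        show coeff (Finsupp.single j.castSucc.succ 1) (X l.castSucc.succ) = _
        rw [coeff_X]
        by_cases hjl : j = l
        · subst hjl
          rw [if_pos rfl, if_pos rfl]
        · rw [if_neg hjl, if_neg]
          intro h
          have h1 := Finsupp.single_left_injective (one_ne_zero) h
          apply hjl
          exact (Fin.castSucc_injective _ (Fin.succ_injective _ h1)).symm) (s + 1)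
    refine hsav.trans ?_
    rw [Nat.cast_mul]
    exact mul_le_mul' le_rfl hK00
  -- numbers
  obtain ⟨n1, hn1'⟩ := ENat.ne_top_iff_exists.1 (ne_top_of_le_ne_top (ENat.natCast_ne_top _) b1)
  obtain ⟨n2, hn2'⟩ := ENat.ne_top_iff_exists.1 (ne_top_of_le_ne_top (ENat.natCast_ne_top _) b2)
  obtain ⟨n3, hn3'⟩ := ENat.ne_top_iff_exists.1 (ne_top_of_le_ne_top (ENat.natCast_ne_top _) b3)
  obtain ⟨n4, hn4'⟩ := ENat.ne_top_iff_exists.1
    (ne_top_of_le_ne_top (ENat.natCast_ne_top _) (le_self_add.trans b4))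
  rw [← hn1'] at b1 hc2
  rw [← hn2'] at b2 hc2
  rw [← hn3'] at b3 hc3
  rw [← hn4'] at b4 hc3
  have b1' : n1 ≤ c.choose s * Dh.card := by exact_mod_cast b1
  have b2' : n2 ≤ c.choose (s + 1) * Dh.card := by exact_mod_cast b2
  have b3' : n3 ≤ c.choose (s + 1) * Cp.card := by exact_mod_cast b3
  have b4' : n4 + (c + 1).choose (s + 3) ≤ c.choose (s + 2) * Cp.card := by exact_mod_cast b4
  refine hc1.trans ((add_le_add hc2 hc3).trans ?_)
  have e1 : (c + 1).choose (s + 2) = c.choose (s + 1) + c.choose (s + 2) := Nat.choose_succ_succ _ _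
  have e2 : (c + 1).choose (s + 1) = c.choose s + c.choose (s + 1) := Nat.choose_succ_succ _ _
  rw [e1, e2, add_mul, add_mul] at hnum
  have hfin : n1 + n2 + (n3 + n4) ≤
      (s + 2) * (g (Fin.last (c + 1)) - g 0 + 1).choose (s + 3) := by omega
  exact_mod_cast hfin

/-- Bound for `Tor` with at least two generators. -/
theorem tor_bound {c : ℕ} (g : Fin (c + 1 + 1) → ℕ) (hg : StrictMono g) (h0 : 0 < g 0)
    (hmin : ∀ j : Fin (c + 1 + 1), ¬ ∃ d : Fin (c + 1 + 1) → ℕ, d j = 0 ∧ ∑ l, d l * g l = g j)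
    (t : ℕ) (ht : 1 ≤ t) :
    Module.length (MvPolynomial (Fin (c + 1 + 1)) K)
      (((CategoryTheory.Tor (ModuleCat.{0} (MvPolynomial (Fin (c + 1 + 1)) K)) t).obj
        (ModuleCat.of (MvPolynomial (Fin (c + 1 + 1)) K)
          (MvPolynomial (Fin (c + 1 + 1)) K ⧸ II K g))).obj
        (ModuleCat.of (MvPolynomial (Fin (c + 1 + 1)) K)
          (MvPolynomial (Fin (c + 1 + 1)) K ⧸ Ideal.span (Set.range
            (X : Fin (c + 1 + 1) → MvPolynomial (Fin (c + 1 + 1)) K))))) ≤
      ((t * (g (Fin.last (c + 1)) - g 0 + 1).choose (t + 1) : ℕ) : ℕ∞) := by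
  classical
  have hJ : Ideal.span (Set.range (X : Fin (c + 1 + 1) → MvPolynomial (Fin (c + 1 + 1)) K)) =
      Ideal.span (Set.range (fun j => (X (ix c j) : MvPolynomial (Fin (c + 1 + 1)) K))) := by
    congr 1
    ext p
    constructor
    · rintro ⟨i, rfl⟩
      obtain ⟨j, rfl⟩ := ix_surj c i
      exact ⟨j, rfl⟩
    · rintro ⟨j, rfl⟩
      exact ⟨_, rfl⟩
  have hreg : ∀ (j : Fin (c + 1 + 1)) (a : MvPolynomial (Fin (c + 1 + 1)) K),
      X (ix c j) * a ∈ Ideal.span
        ((fun l => (X (ix c l) : MvPolynomial (Fin (c + 1 + 1)) K)) '' {l | j < l}) →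
      a ∈ Ideal.span
        ((fun l => (X (ix c l) : MvPolynomial (Fin (c + 1 + 1)) K)) '' {l | j < l}) :=
    fun j a h => hreg_of_inj (ix c) (ix_inj c) j a h
  obtain ⟨t', rfl⟩ : ∃ t', t = t' + 1 := ⟨t - 1, by omega⟩
  refine (tor_le (fun j => (X (ix c j) : MvPolynomial (Fin (c + 1 + 1)) K)) _ _ hJ hreg t').trans ?_
  rcases Nat.eq_zero_or_pos t' with ht' | ht'
  · subst ht'
    obtain ⟨S, hS, hSc⟩ := TCMain.main1 K g hg h0
    rw [span_star] at hS
    have hpos : ∀ i, 0 < g i := fun i => lt_of_lt_of_le h0 (hg.monotone (Fin.zero_le i))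
    have hIJ : II K g ≤ Ideal.span (Set.range
        (X : Fin (c + 1 + 1) → MvPolynomial (Fin (c + 1 + 1)) K)) := by
      intro p hp
      have h1 : coeff 0 p = 0 := low K hpos hmin hp 0 (by simp)
      have h2 := mem_ideal_span_X_image (s := Set.univ) (x := p)
      rw [Set.image_univ] at h2
      rw [h2]
      intro m hm
      have hm0 : m ≠ 0 := by
        rintro rfl
        exact (mem_support_iff.1 hm) h1
      have h3 : ∃ i, m i ≠ 0 := by
        by_contra hcon
        push Not at hcon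
        exact hm0 (Finsupp.ext hcon)
      obtain ⟨i, hi⟩ := h3
      exact ⟨i, trivial, hi⟩
    have hmax : (Ideal.span (Set.range
        (X : Fin (c + 1 + 1) → MvPolynomial (Fin (c + 1 + 1)) K))).IsMaximal := by
      have h1 : Ideal.span (Set.range
          (X : Fin (c + 1 + 1) → MvPolynomial (Fin (c + 1 + 1)) K)) =
          RingHom.ker (constantCoeff : MvPolynomial (Fin (c + 1 + 1)) K →+* K) := by
        ext p
        have h2 := mem_ideal_span_X_image (s := Set.univ) (x := p)
        rw [Set.image_univ] at h2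
        rw [h2, RingHom.mem_ker]
        constructor
        · intro h
          by_contra hne
          obtain ⟨i, _, hi⟩ := h 0 (mem_support_iff.2 hne)
          simp at hi
        · intro h m hm
          have hm0 : m ≠ 0 := by
            rintro rfl
            exact (mem_support_iff.1 hm) h
          have h3 : ∃ i, m i ≠ 0 := by
            by_contra hcon
            push Not at hcon
            exact hm0 (Finsupp.ext hcon)
          obtain ⟨i, hi⟩ := h3
          exact ⟨i, trivial, hi⟩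
      rw [h1]
      apply RingHom.ker_isMaximal_of_surjective
      intro a
      exact ⟨C a, constantCoeff_C _ _⟩
    refine (KOne.hl_one_le _ hreg (II K g) _ hJ hmax hIJ S hS).trans ?_
    simp only [Nat.zero_add, one_mul]
    exact_mod_cast hSc
  · obtain ⟨s, rfl⟩ : ∃ s, t' = s + 1 := ⟨t' - 1, by omega⟩
    exact hl_bound K g hg h0 hmin s

end Pool.Agent.Helper816.KMain
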