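import Mathlib
import Pool.Agent.Helper816.KMain

set_option autoImplicit false
set_option linter.unusedSectionVars false

open Finset MvPolynomial

namespace Pool.Agent.Helper816.KMain

open Pool.Agent.Helper816.KM Pool.Agent.Helper816.KG Pool.Agent.Helper816.KTor
open Pool.Agent.Helper816.KFinal
open Pool.Agent.Helper816.TCAlg Pool.Agent.Helper816.TCFin

variable (K : Type) [Field K]

lemma ker_max {n : ℕ} : (Ideal.span (Set.range
    (X : Fin n → MvPolynomial (Fin n) K))).IsMaximal := by
  have h1 : Ideal.span (Set.range (X : Fin n → MvPolynomial (Fin n) K)) =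
      RingHom.ker (constantCoeff : MvPolynomial (Fin n) K →+* K) := by
    ext p
    have h2 := mem_ideal_span_X_image (s := Set.univ) (x := p)
    rw [Set.image_univ] at h2
    rw [h2, RingHom.mem_ker]
    constructor
    · intro h
      by_contra hne
      obtain ⟨i, _, hi⟩ := h 0 (mem_support_iff.2 hne)
      simp at hi
    · intro h m hm
      have hm0 : m ≠ 0 := by
        rintro rfl
        exact (mem_support_iff.1 hm) h
      have h3 : ∃ i, m i ≠ 0 := by
        by_contra hcon
        push Not at hcon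
        exact hm0 (Finsupp.ext hcon)
      obtain ⟨i, hi⟩ := h3
      exact ⟨i, trivial, hi⟩
  rw [h1]
  apply RingHom.ker_isMaximal_of_surjective
  intro a
  exact ⟨C a, constantCoeff_C _ _⟩

/-- One generator. -/
theorem tor_zero (g : Fin (0 + 1) → ℕ) (hg : StrictMono g) (h0 : 0 < g 0) (t : ℕ) (ht : 1 ≤ t) :
    Module.length (MvPolynomial (Fin (0 + 1)) K)
      (((CategoryTheory.Tor (ModuleCat.{0} (MvPolynomial (Fin (0 + 1)) K)) t).obj
        (ModuleCat.of (MvPolynomial (Fin (0 + 1)) K)
          (MvPolynomial (Fin (0 + 1)) K ⧸ II K g))).obj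
        (ModuleCat.of (MvPolynomial (Fin (0 + 1)) K)
          (MvPolynomial (Fin (0 + 1)) K ⧸ Ideal.span (Set.range
            (X : Fin (0 + 1) → MvPolynomial (Fin (0 + 1)) K))))) ≤ 0 := by
  classical
  have hreg : ∀ (j : Fin (0 + 1)) (a : MvPolynomial (Fin (0 + 1)) K),
      X (id j) * a ∈ Ideal.span
        ((fun l => (X (id l) : MvPolynomial (Fin (0 + 1)) K)) '' {l | j < l}) →
      a ∈ Ideal.span
        ((fun l => (X (id l) : MvPolynomial (Fin (0 + 1)) K)) '' {l | j < l}) :=
    fun j a h => hreg_of_inj id Function.injective_id j a h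
  obtain ⟨t', rfl⟩ : ∃ t', t = t' + 1 := ⟨t - 1, by omega⟩
  refine (tor_le (fun j => (X (id j) : MvPolynomial (Fin (0 + 1)) K)) _ _ rfl hreg t').trans ?_
  obtain ⟨S, hS, hSc⟩ := TCMain.main1 K g hg h0
  have h1 : g (Fin.last 0) - g 0 + 1 = 1 := by
    show g 0 - g 0 + 1 = 1
    omega
  rw [h1] at hSc
  have hS0 : S = ∅ := by
    rw [← Finset.card_eq_zero]
    simpa using hSc
  rw [hS0, span_star] at hS
  have hS' : Ideal.span (((∅ : Finset (MvPolynomial (Fin (0 + 1)) K))) :
      Set (MvPolynomial (Fin (0 + 1)) K)) = II K g := hS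
  rcases Nat.eq_zero_or_pos t' with ht' | ht'
  · subst ht'
    have hIJ : II K g ≤ Ideal.span (Set.range
        (X : Fin (0 + 1) → MvPolynomial (Fin (0 + 1)) K)) := by
      rw [← hS', Finset.coe_empty, Ideal.span_empty]
      exact bot_le
    refine (KOne.hl_one_le _ hreg (II K g) _ rfl (ker_max K) hIJ ∅ hS').trans ?_
    simp
  · refine (hl_le _ _).trans ?_
    rw [Nat.choose_eq_zero_of_lt (by omega), Nat.cast_zero, zero_mul]

end Pool.Agent.Helper816.KMain
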